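import Pool.Agent.Helper411_AS.Tower

/-!
# Punctured families of affine spaces
-/

set_option autoImplicit false

open CategoryTheory AlgebraicGeometry Limits Opposite

universe u

namespace Pool.Agent.Helper411_AS

variable {k : Type u} [Field k]

/-- The statement proved by induction. -/
def PunctureStatement (k : Type u) [Field k] (n : Type u) : Prop :=
  ∀ (V : Scheme.{u}) (v : V ⟶ Spec (.of k)), IsIntegral V → IsLocallyNoetherian V →
    ArithmeticallySpecial v →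
    ∀ N : 𝔸(n; V).Opens, (∀ x : V, ∃ z : 𝔸(n; V), (𝔸(n; V) ↘ V) z = x ∧ z ∈ N) →
      (∀ z : 𝔸(n; V), z ∉ N → 2 ≤ Order.coheight z) →
      ArithmeticallySpecial (N.ι ≫ (𝔸(n; V) ↘ V) ≫ v)

theorem PunctureStatement.of_isIso {X Y : Scheme.{u}} (s : X ⟶ Spec (.of k))
    (e : Y ⟶ X) [IsIso e] (N : X.Opens) (h : ArithmeticallySpecial ((e ⁻¹ᵁ N).ι ≫ e ≫ s)) :
    ArithmeticallySpecial (N.ι ≫ s) := by
  refine h.of_isIso (e := inv (e ∣_ N)) ?_
  rw [IsIso.inv_comp_eq, ← Category.assoc, ← Category.assoc, morphismRestrict_ι]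

theorem PunctureStatement.empty : PunctureStatement k PEmpty.{u+1} := by
  intro V v hV hVn hAS N hN hcodim
  have hinj : Function.Injective (𝔸(PEmpty.{u+1}; V) ↘ V) :=
    (𝔸(PEmpty.{u+1}; V) ↘ V).isOpenEmbedding.injective
  have htop : N = ⊤ := by
    rw [eq_top_iff]
    intro z _
    obtain ⟨z', hz', hz'N⟩ := hN ((𝔸(PEmpty.{u+1}; V) ↘ V) z)
    rw [← hinj hz']
    exact hz'N
  subst htop
  have : IsIso (Scheme.Opens.ι (⊤ : 𝔸(PEmpty.{u+1}; V).Opens)) :=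
    (Scheme.topIso 𝔸(PEmpty.{u+1}; V)).isIso_hom
  exact hAS.of_isIso (Scheme.Opens.ι (⊤ : 𝔸(PEmpty.{u+1}; V).Opens) ≫ (𝔸(PEmpty.{u+1}; V) ↘ V))
    (Category.assoc _ _ _)

theorem PunctureStatement.of_equiv {n m : Type u} (e : n ≃ m) (h : PunctureStatement k n) :
    PunctureStatement k m := by
  intro V v hV hVn hAS N hN hcodim
  have hover : AffineSpace.reindex e.symm V ≫ (𝔸(m; V) ↘ V) = (𝔸(n; V) ↘ V) :=
    AffineSpace.reindex_over _ _
  apply PunctureStatement.of_isIso ((𝔸(m; V) ↘ V) ≫ v) (AffineSpace.reindex e.symm V) N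
  rw [← Category.assoc (AffineSpace.reindex e.symm V), hover]
  apply h V v hV hVn hAS
  · intro x
    obtain ⟨z, hz, hzN⟩ := hN x
    obtain ⟨z', rfl⟩ := (AffineSpace.reindex e.symm V).surjective z
    refine ⟨z', ?_, hzN⟩
    rw [← hz, ← hover]
    rfl
  · intro z hz
    have h1 := hcodim (AffineSpace.reindex e.symm V z) hz
    rw [coheight_eq_of_isOpenImmersion] at h1
    exact h1

theorem PunctureStatement.option [CharZero k] {n : Type u} [Finite n] (h : PunctureStatement k n) :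
    PunctureStatement k (Option n) := by
  intro V v hV hVn hAS N hN hcodim
  have hln : IsLocallyNoetherian 𝔸(n; V) :=
    LocallyOfFiniteType.isLocallyNoetherian (𝔸(n; V) ↘ V)
  let M : 𝔸(PUnit.{u+1}; 𝔸(n; V)).Opens := towerHom n V ⁻¹ᵁ N
  have hMcodim : ∀ z, z ∉ M → 2 ≤ Order.coheight z := by
    intro z hz
    have h1 := hcodim (towerHom n V z) hz
    rw [coheight_eq_of_isOpenImmersion] at h1
    exact h1
  -- the image in the affine space of smaller dimension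
  have hN' : ArithmeticallySpecial ((imL M).ι ≫ (𝔸(n; V) ↘ V) ≫ v) := by
    apply h V v hV hVn hAS
    · intro x
      obtain ⟨z, hz, hzN⟩ := hN x
      obtain ⟨z', rfl⟩ := (towerHom n V).surjective z
      refine ⟨(𝔸(PUnit.{u+1}; 𝔸(n; V)) ↘ 𝔸(n; V)) z', ?_, z', hzN, rfl⟩
      rw [← hz]
      exact (congrArg (fun a : 𝔸(PUnit.{u+1}; 𝔸(n; V)) ⟶ V => a z') (towerHom_over n V)).symm
    · intro w hw
      obtain ⟨z, hz, hzw⟩ := exists_over_coheight_le w
      refine (hMcodim z ?_).trans hzw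
      intro hzM
      exact hw ⟨z, hzM, hz⟩
  have hne : Nonempty V := inferInstance
  obtain ⟨x₀⟩ := hne
  obtain ⟨z₀, hz₀, hz₀N⟩ := hN x₀
  obtain ⟨z₀, rfl⟩ := (towerHom n V).surjective z₀
  have hneM : Nonempty (imL M) := ⟨⟨_, z₀, hz₀N, rfl⟩⟩
  let h' : 𝔸(PUnit.{u+1}; (imL M : Scheme.{u})) ⟶ 𝔸(Option n; V) :=
    AffineSpace.map PUnit.{u+1} (imL M).ι ≫ towerHom n V
  have hopen : IsOpenImmersion (AffineSpace.map PUnit.{u+1} (imL M).ι) :=
    MorphismProperty.of_isPullback (AffineSpace.isPullback_map (imL M).ι).flip inferInstance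
  have hdom : IsDominant h' := by
    refine ⟨?_⟩
    have h1 : IsOpen (Set.range h') := h'.isOpenEmbedding.isOpen_range
    exact h1.dense (Set.range_nonempty _)
  refine arithmeticallySpecial_of_affineLines (V := imL M) (hAS.hasModel.affineSpace (Option n))
    hN' h' ?_ N ?_ ?_
  · rw [Category.assoc, towerHom_over_assoc, AffineSpace.map_over_assoc]
  · apply not_dense_of_codim (AffineSpace.map PUnit.{u+1} (imL M).ι ⁻¹ᵁ M)
    intro z hz
    have h1 := hMcodim (AffineSpace.map PUnit.{u+1} (imL M).ι z) hz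
    rw [coheight_eq_of_isOpenImmersion] at h1
    exact h1
  · rintro ⟨w, z, hzM, rfl⟩
    obtain ⟨z', hz', hz''⟩ := Scheme.exists_preimage_of_isPullback
      (AffineSpace.isPullback_map (n := PUnit.{u+1}) (imL M).ι) z
      (⟨(𝔸(PUnit.{u+1}; 𝔸(n; V)) ↘ 𝔸(n; V)) z, z, hzM, rfl⟩ : imL M) rfl
    refine ⟨z', hz'', ?_⟩
    change towerHom n V (AffineSpace.map PUnit.{u+1} (imL M).ι z') ∈ N
    have h1 : AffineSpace.map PUnit.{u+1} (imL M).ι z' = z := hz'
    rw [h1]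
    exact hzM

theorem punctureStatement [CharZero k] (n : Type u) [Finite n] : PunctureStatement k n := by
  induction n using Finite.induction_empty_option with
  | of_equiv e h => exact h.of_equiv e
  | h_empty => exact PunctureStatement.empty
  | h_option h => exact h.option

/-- The final theorem: families of affine spaces. -/
theorem arithmeticallySpecial_of_affineSpaces [CharZero k]
    {X V : Scheme.{u}} {s : X ⟶ Spec (.of k)} {v : V ⟶ Spec (.of k)} [IsIntegral V]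
    (hX : HasModel s) (hV : ArithmeticallySpecial v) (n : Type u) [Finite n]
    (h : 𝔸(n; V) ⟶ X) (hh : h ≫ s = (𝔸(n; V) ↘ V) ≫ v) [IsDominant h]
    (U : X.Opens)
    (hU₁ : ∀ z : 𝔸(n; V), h z ∉ U → 2 ≤ Order.coheight z)
    (hU₂ : ∀ x : V, ∃ z : 𝔸(n; V), (𝔸(n; V) ↘ V) z = x ∧ h z ∈ U) :
    ArithmeticallySpecial (U.ι ≫ s) := by
  have hvft : LocallyOfFiniteType v := by
    obtain ⟨A, 𝒱, π, g, hA, h1, h2, h3, hp, hd⟩ := hV
    exact MorphismProperty.of_isPullback hp inferInstance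
  have hlnV : IsLocallyNoetherian V := LocallyOfFiniteType.isLocallyNoetherian v
  have hN : ArithmeticallySpecial ((h ⁻¹ᵁ U).ι ≫ (𝔸(n; V) ↘ V) ≫ v) := by
    apply punctureStatement n V v inferInstance hlnV hV
    · exact hU₂
    · exact hU₁
  obtain ⟨x₀⟩ := (inferInstance : Nonempty V)
  obtain ⟨z₀, hz₀, hz₀U⟩ := hU₂ x₀
  have hne : Nonempty (h ⁻¹ᵁ U) := ⟨⟨z₀, hz₀U⟩⟩
  let h' : 𝔸(PUnit.{u+1}; ((h ⁻¹ᵁ U : 𝔸(n; V).Opens) : Scheme.{u})) ⟶ X :=
    (𝔸(PUnit.{u+1}; _) ↘ _) ≫ (h ⁻¹ᵁ U).ι ≫ h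
  have hdom : IsDominant h' := by
    have h1 : IsDominant (h ⁻¹ᵁ U).ι := by
      refine ⟨?_⟩
      have h1 : IsOpen (Set.range (h ⁻¹ᵁ U).ι) := (h ⁻¹ᵁ U).ι.isOpenEmbedding.isOpen_range
      exact h1.dense (Set.range_nonempty _)
    infer_instance
  have hmem : ∀ z, h' z ∈ U := by
    intro z
    let w : ((h ⁻¹ᵁ U : 𝔸(n; V).Opens) : Scheme.{u}) :=
      (𝔸(PUnit.{u+1}; ((h ⁻¹ᵁ U : 𝔸(n; V).Opens) : Scheme.{u})) ↘
        ((h ⁻¹ᵁ U : 𝔸(n; V).Opens) : Scheme.{u})) z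
    exact w.2
  refine arithmeticallySpecial_of_affineLines hX hN h' ?_ U ?_ ?_
  · change ((𝔸(PUnit.{u+1}; _) ↘ _) ≫ (h ⁻¹ᵁ U).ι ≫ h) ≫ s = _
    rw [Category.assoc, Category.assoc, hh]
  · intro hd
    obtain ⟨w, ⟨z, -, hz⟩⟩ := hd.nonempty
    exact hz (hmem z)
  · intro w
    obtain ⟨z, hz⟩ := (𝔸(PUnit.{u+1}; ((h ⁻¹ᵁ U : 𝔸(n; V).Opens) : Scheme.{u})) ↘
      ((h ⁻¹ᵁ U : 𝔸(n; V).Opens) : Scheme.{u})).surjective w
    exact ⟨z, hz, hmem z⟩

end Pool.Agent.Helper411_AS
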