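import Pool.Agent.Helper411_AS.SimpleExt
import Pool.Agent.Helper411_AS.AffineFamilies

/-!
# Puncturing after algebraic extensions of the base field
-/

set_option autoImplicit false

open CategoryTheory AlgebraicGeometry Limits Opposite

universe u

namespace Pool.Agent.Helper411_AS

/-- Incomparability for integral morphisms. -/
theorem eq_of_specializes_of_isIntegralHom {X Y : Scheme.{u}} (p : X ⟶ Y) [IsIntegralHom p]
    (z z' : X) (h : z' ⤳ z) (hp : p z = p z') : z = z' := by
  obtain ⟨W, hW, hzW, -⟩ := exists_isAffineOpen_mem_and_subset (X := Y) (x := p z) (U := ⊤) trivial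
  have hW' : IsAffineOpen (p ⁻¹ᵁ W) := hW.preimage p
  have hz : z ∈ p ⁻¹ᵁ W := hzW
  have hz' : z' ∈ p ⁻¹ᵁ W := h.mem_open (p ⁻¹ᵁ W).isOpen hz
  have hr := hW'.range_fromSpec
  obtain ⟨P, rfl⟩ : z ∈ Set.range hW'.fromSpec := by rw [hr]; exact hz
  obtain ⟨P', rfl⟩ : z' ∈ Set.range hW'.fromSpec := by rw [hr]; exact hz'
  have h1 : P' ⤳ P := hW'.fromSpec.isOpenEmbedding.toIsInducing.specializes_iff.mp h
  have h2 : (P' : PrimeSpectrum _).asIdeal ≤ (P : PrimeSpectrum _).asIdeal :=
    (PrimeSpectrum.le_iff_specializes _ _).mpr h1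
  have hint : (p.app W).hom.IsIntegral := p.isIntegral_app W hW
  have h3 : ∀ Q : Spec Γ(X, p ⁻¹ᵁ W), p (hW'.fromSpec Q) = hW.fromSpec (Spec.map (p.app W) Q) := by
    intro Q
    rw [← Scheme.Hom.comp_apply, ← Scheme.Hom.comp_apply, Scheme.Hom.app_eq_appLE,
      hW.SpecMap_appLE_fromSpec p hW' le_rfl]
  rw [h3, h3] at hp
  have h4 := hW.fromSpec.isOpenEmbedding.injective hp
  congr 1
  by_contra hne
  have h5 : (P' : PrimeSpectrum _).asIdeal < (P : PrimeSpectrum _).asIdeal :=
    lt_of_le_of_ne h2 (fun h => hne (PrimeSpectrum.ext h.symm))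
  let _ : Algebra Γ(Y, W) Γ(X, p ⁻¹ᵁ W) := (p.app W).hom.toAlgebra
  have : Algebra.IsIntegral Γ(Y, W) Γ(X, p ⁻¹ᵁ W) := ⟨hint⟩
  have hP' : (P' : PrimeSpectrum _).asIdeal.IsPrime := (P' : PrimeSpectrum _).isPrime
  have h6 := Ideal.IsIntegral.comap_lt_comap (R := Γ(Y, W)) h5
  have h7 : (P : PrimeSpectrum _).asIdeal.comap (p.app W).hom =
      (P' : PrimeSpectrum _).asIdeal.comap (p.app W).hom :=
    congrArg PrimeSpectrum.asIdeal h4
  exact absurd h7.symm h6.ne

theorem coheight_le_of_isIntegralHom {X Y : Scheme.{u}} (p : X ⟶ Y) [IsIntegralHom p]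
    (z : X) : Order.coheight z ≤ Order.coheight (p z) := by
  apply Order.coheight_le_coheight_apply_of_strictMono
  intro a b hab
  have h1 : b ⤳ a := hab.le
  have h2 : p b ⤳ p a := h1.map p.continuous
  refine lt_of_le_not_ge h2 (fun h3 => ?_)
  have h4 : p a ⤳ p b := h3
  have h5 : p a = p b := (h4.antisymm h2).eq
  have h6 := eq_of_specializes_of_isIntegralHom p a b h1 h5
  exact absurd h6 hab.ne

/-- An open subset of a scheme of finite type over an algebraically closed field containing all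
rational points is everything. -/
theorem eq_top_of_forall_rational {K : Type u} [Field K] [IsAlgClosed K] {X : Scheme.{u}}
    (s : X ⟶ Spec (.of K)) [LocallyOfFiniteType s] (V : X.Opens)
    (hV : ∀ y : Spec (.of K) ⟶ X, y ≫ s = 𝟙 _ → atPt y ∈ V) : V = ⊤ := by
  have hJ : JacobsonSpace X := LocallyOfFiniteType.jacobsonSpace s
  rw [eq_top_iff]
  intro x _
  by_contra hx
  obtain ⟨w, hw, hwc⟩ := nonempty_inter_closedPoints (Z := (V : Set X)ᶜ) ⟨x, hx⟩
    V.isOpen.isClosed_compl.isLocallyClosed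
  apply hw
  have h1 := hV (pointOfClosedPoint s w hwc) (pointOfClosedPoint_comp s w hwc)
  have h2 : atPt (pointOfClosedPoint s w hwc) = w := pointOfClosedPoint_apply s w hwc _
  rw [h2] at h1
  exact h1

/-- Open subsets receiving dominant morphisms from arithmetically-special varieties. -/
theorem ArithmeticallySpecial.open_of_dominant {k : Type u} [Field k] [CharZero k]
    {X V : Scheme.{u}} {s : X ⟶ Spec (.of k)} {v : V ⟶ Spec (.of k)} [IsIntegral V]
    (hX : HasModel s) (hV : ArithmeticallySpecial v) (h : V ⟶ X) (hh : h ≫ s = v)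
    [IsDominant h] (U : X.Opens) (hU : ∀ x, h x ∈ U) : ArithmeticallySpecial (U.ι ≫ s) := by
  have hsurj : Function.Surjective (𝔸(PEmpty.{u+1}; V) ↘ V) :=
    (𝔸(PEmpty.{u+1}; V) ↘ V).surjective
  refine arithmeticallySpecial_of_affineSpaces hX hV PEmpty.{u+1}
    ((𝔸(PEmpty.{u+1}; V) ↘ V) ≫ h) (by rw [Category.assoc, hh]) U ?_ ?_
  · intro z hz
    exact absurd (hU _) hz
  · intro x
    obtain ⟨z, hz⟩ := hsurj x
    exact ⟨z, hz, hU _⟩

section Alg

variable {K M L : Type u} [Field K] [Field M] [Field L] [Algebra K M] [Algebra M L] [Algebra K L]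
  [IsScalarTower K M L]

/-- Puncturing after an algebraic extension. -/
theorem PunctExt.of_isAlgebraic [IsAlgClosed K] [CharZero L] [Algebra.IsAlgebraic M L]
    (h : PunctExt K M) : PunctExt K L := by
  intro X XL s sL gL hL hX hXL hsep hft hqc hAS U hU hUs
  let XM := pullback s (specMap K M)
  let sM : XM ⟶ Spec (.of M) := pullback.snd s (specMap K M)
  let gM : XM ⟶ X := pullback.fst s (specMap K M)
  have hM : IsPullback gM sM s (specMap K M) := IsPullback.of_hasPullback _ _
  let p : XL ⟶ XM := hM.lift gL (sL ≫ specMap M L) (by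
    rw [Category.assoc, specMap_specMap, hL.w])
  have hpg : p ≫ gM = gL := IsPullback.lift_fst _ _ _ _
  have hp : IsPullback p sL sM (specMap M L) := by
    refine IsPullback.of_right (h₁₂ := gM) (h₂₂ := specMap K M) (v₁₃ := s) ?_
      (IsPullback.lift_snd _ _ _ _) hM
    rw [hpg, specMap_specMap]
    exact hL
  have hXM : IsIntegral XM := isIntegral_of_field hp
  have hint : IsIntegralHom p := by
    have h1 : IsIntegralHom (specMap M L) := by
      rw [IsIntegralHom.SpecMap_iff]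
      change (algebraMap M L).IsIntegral
      rw [algebraMap_isIntegral_iff]
      infer_instance
    exact MorphismProperty.of_isPullback hp.flip h1
  let V : XM.Opens := ⟨(p '' (U : Set XL)ᶜ)ᶜ,
    (p.isClosedMap _ U.isOpen.isClosed_compl).isOpen_compl⟩
  have hVc : ∀ w : XM, w ∉ V → 2 ≤ Order.coheight w := by
    intro w hw
    have hw' : w ∈ p '' (U : Set XL)ᶜ := by
      by_contra hcon
      exact hw hcon
    obtain ⟨z, hz, rfl⟩ := hw'
    exact (hU z hz).trans (coheight_le_of_isIntegralHom p z)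
  have hVU : p ⁻¹ᵁ V ≤ U := by
    intro z hz
    by_contra hzU
    exact hz ⟨z, hzU, rfl⟩
  have hVs : ∀ x : X, ∃ z : XM, gM z = x ∧ z ∈ V := by
    have h1 : imF hM V = ⊤ := by
      apply eq_top_of_forall_rational s
      intro y hy
      refine ⟨atPt (ptL hM y hy), ?_, ?_⟩
      · rintro ⟨z, hz, hzy⟩
        have h2 : gL z = atPt y := by
          rw [← hpg, Scheme.Hom.comp_apply, hzy, ← atPt_comp, ptL_g, atPt_comp, apply_eq_atPt]
        obtain ⟨z', hz', hz'U⟩ := hUs (atPt y)
        rw [eq_ptL hL y hy z h2, ← eq_ptL hL y hy z' hz'] at hz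
        exact hz hz'U
      · rw [← atPt_comp, ptL_g, atPt_comp, apply_eq_atPt]
    intro x
    have h2 : x ∈ imF hM V := by
      rw [h1]
      trivial
    obtain ⟨z, hz, hzx⟩ := h2
    exact ⟨z, hzx, hz⟩
  have hVAS := h X XM s sM gM hM hX hXM hsep hft hqc hAS V hVc hVs
  obtain ⟨x₀⟩ := (inferInstance : Nonempty X)
  obtain ⟨w₀, -, hw₀⟩ := hVs x₀
  have hsurj := surjective_of_field hp
  obtain ⟨z₀, rfl⟩ := p.surjective w₀
  have hne : Nonempty (p ⁻¹ᵁ V) := ⟨⟨z₀, hw₀⟩⟩
  have hdom : IsDominant (p ⁻¹ᵁ V).ι := by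
    refine ⟨?_⟩
    have h1 : IsOpen (Set.range (p ⁻¹ᵁ V).ι) := (p ⁻¹ᵁ V).ι.isOpenEmbedding.isOpen_range
    exact h1.dense (Set.range_nonempty _)
  have h4 := hVAS.fieldExt (restrict_isPullback hp V)
  exact ArithmeticallySpecial.open_of_dominant (hAS.fieldExt hL).hasModel h4 (p ⁻¹ᵁ V).ι rfl U
    (fun x => hVU x.2)

end Alg

end Pool.Agent.Helper411_AS
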