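import Pool.Agent.Helper411_AS.AlgExt

/-!
# Puncturing after arbitrary extensions of an algebraically closed base field
-/

set_option autoImplicit false

open CategoryTheory AlgebraicGeometry Limits Opposite IntermediateField

universe u

namespace Pool.Agent.Helper411_AS

theorem PunctExt.refl (K : Type u) [Field K] : PunctExt K K := by
  intro X XL s sL gL hL hX hXL hsep hft hqc hAS U hU hUs
  have h1 : IsIso (specMap K K) := by
    have h2 : specMap K K = 𝟙 _ := Spec.map_id _
    rw [h2]
    infer_instance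
  have hiso : IsIso gL := MorphismProperty.of_isPullback (P := MorphismProperty.isomorphisms _)
    hL.flip h1
  have hinj : Function.Injective gL := gL.isOpenEmbedding.injective
  have htop : U = ⊤ := by
    rw [eq_top_iff]
    intro z _
    obtain ⟨z', hz', hz'U⟩ := hUs (gL z)
    rw [← hinj hz']
    exact hz'U
  subst htop
  have h2 : IsIso (Scheme.Opens.ι (⊤ : XL.Opens)) := (Scheme.topIso XL).isIso_hom
  exact (hAS.fieldExt hL).of_isIso (Scheme.Opens.ι (⊤ : XL.Opens)) rfl

section Adjoin

variable {K k : Type u} [Field K] [Field k] [Algebra K k]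

theorem aeval_evMv {F F' : Type u} [Field F] [Field F'] [Algebra F F'] (x : F')
    (p : Polynomial F) :
    evMv F x (Polynomial.aeval (MvPolynomial.X (R := F) PUnit.unit.{u+1}) p) =
      Polynomial.aeval x p := by
  have h : (evMv F x).comp (Polynomial.aeval (R := F)
      (MvPolynomial.X (R := F) PUnit.unit.{u+1})).toRingHom =
      (Polynomial.aeval (R := F) x).toRingHom := by
    apply Polynomial.ringHom_ext
    · intro a
      simp [evMv]
    · simp [evMv]
  exact congrArg (fun g => g p) h

theorem isSimpleExt_adjoin (E : IntermediateField K k) (x : k) :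
    IsSimpleExt E (⟨x, mem_adjoin_simple_self E x⟩ : E⟮x⟯) := by
  intro l
  obtain ⟨r, s, h⟩ := (mem_adjoin_simple_iff E (l : k)).mp l.2
  refine ⟨Polynomial.aeval (MvPolynomial.X PUnit.unit) r,
    Polynomial.aeval (MvPolynomial.X PUnit.unit) s, ?_⟩
  rw [aeval_evMv, aeval_evMv]
  apply Subtype.ext
  have h1 : ∀ t : Polynomial E, ((Polynomial.aeval
      (⟨x, mem_adjoin_simple_self E x⟩ : E⟮x⟯) t : E⟮x⟯) : k) = Polynomial.aeval x t := by
    intro t
    exact (Polynomial.aeval_algebraMap_apply k
      (⟨x, mem_adjoin_simple_self E x⟩ : E⟮x⟯) t).symm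
  rw [h, ← h1, ← h1]
  simp

theorem punctExt_adjoin_simple [IsAlgClosed K] [CharZero k] (E : IntermediateField K k) (x : k)
    (hE : PunctExt K E) : PunctExt K E⟮x⟯ := by
  by_cases hx : IsAlgebraic E x
  · have h1 : Algebra.IsAlgebraic E E⟮x⟯ := isAlgebraic_adjoin_simple hx.isIntegral
    exact hE.of_isAlgebraic
  · have h1 : Transcendental E (⟨x, mem_adjoin_simple_self E x⟩ : E⟮x⟯) := by
      intro h2
      apply hx
      exact h2.algebraMap (A := k)
    exact hE.trans (punctExt_simple h1 (isSimpleExt_adjoin E x))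

theorem punctExt_adjoin [IsAlgClosed K] [CharZero k] (S : Finset k) :
    PunctExt K (adjoin K (S : Set k)) := by
  refine induction_on_adjoin_finset S (fun E => PunctExt K E) ?_ ?_
  · exact (PunctExt.refl K).of_isAlgebraic
  · intro E x _ hE
    exact punctExt_adjoin_simple E x hE

/-- Elements of a finitely generated subring lie in a finitely generated subfield. -/
theorem exists_hom_adjoin (K : Type u) {k : Type u} [Field K] [Field k] [Algebra K k]
    (C : Subalgebra ℤ k) (hC : C.FG) :
    ∃ (S : Finset k) (ψ : C →+* adjoin K (S : Set k)),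
      (algebraMap (adjoin K (S : Set k)) k).comp ψ = algebraMap C k := by
  obtain ⟨S, hS⟩ := hC
  have hle : ∀ c ∈ C, c ∈ adjoin K (S : Set k) := by
    intro c hc
    rw [← hS] at hc
    have h1 : Algebra.adjoin ℤ (S : Set k) ≤
        ((adjoin K (S : Set k)).toSubalgebra.restrictScalars ℤ) :=
      Algebra.adjoin_le (subset_adjoin K (S : Set k))
    exact h1 hc
  refine ⟨S, (algebraMap C k).codRestrict (adjoin K (S : Set k)) (fun c => hle c c.2), ?_⟩
  ext c
  rfl

/-- Puncturing after an arbitrary extension of an algebraically closed field. -/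
theorem punctExt_of_isAlgClosed (K k : Type u) [Field K] [Field k] [Algebra K k] [IsAlgClosed K]
    [CharZero k] : PunctExt K k := by
  intro X Xk s sk gk hk hX hXk hsep hft hqc hAS U hU hUs
  obtain ⟨A, 𝒳, π, g, hA, h1, h2, h3, hp⟩ := hAS.hasModel
  have hskf : LocallyOfFiniteType sk := MorphismProperty.of_isPullback hk inferInstance
  have hskq : QuasiCompact sk := MorphismProperty.of_isPullback hk inferInstance
  have hln : IsLocallyNoetherian Xk := LocallyOfFiniteType.isLocallyNoetherian sk
  have hcs : CompactSpace Xk := QuasiCompact.compactSpace_of_compactSpace sk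
  have hn : IsNoetherian Xk := {}
  let φ := mapSubHom k A
  have hφ : (algebraMap (mapSub k A) k).comp φ = (algebraMap K k).comp (algebraMap A K) := rfl
  have hq : IsPullback (pullback.fst π (Spec.map (CommRingCat.ofHom φ)))
      (pullback.snd π (Spec.map (CommRingCat.ofHom φ))) π (Spec.map (CommRingCat.ofHom φ)) :=
    IsPullback.of_hasPullback _ _
  obtain ⟨𝒳', q, π', h1', h2', h3', hq⟩ : ∃ (𝒳' : Scheme.{u}) (q : 𝒳' ⟶ 𝒳)
      (π' : 𝒳' ⟶ Spec (.of (mapSub k A))), IsSeparated π' ∧ LocallyOfFiniteType π' ∧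
      QuasiCompact π' ∧ IsPullback q π' π (Spec.map (CommRingCat.ofHom φ)) :=
    ⟨_, _, _, inferInstance, inferInstance, inferInstance, hq⟩
  let G : Xk ⟶ 𝒳' := modelMap φ hφ hq hk hp
  have hG : IsPullback G sk π' (specMap (mapSub k A) k) := modelMap_isPullback φ hφ hq hk hp
  have hG1 : G ≫ q = gk ≫ g := modelMap_q φ hφ hq hk hp
  obtain ⟨C, U₂, hU₂⟩ := exists_open π' hG (hA.map _) U
    (TopologicalSpace.NoetherianSpace.isCompact _)
  obtain ⟨S, ψ, hψ⟩ := exists_hom_adjoin K C.alg C.fg
  let L := adjoin K (S : Set k)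
  let XL := pullback s (specMap K L)
  let sL : XL ⟶ Spec (.of L) := pullback.snd s (specMap K L)
  let gL : XL ⟶ X := pullback.fst s (specMap K L)
  have hL : IsPullback gL sL s (specMap K L) := IsPullback.of_hasPullback _ _
  let p : Xk ⟶ XL := hL.lift gk (sk ≫ specMap L k) (by
    rw [Category.assoc, specMap_specMap, hk.w])
  have hpg : p ≫ gL = gk := IsPullback.lift_fst _ _ _ _
  have hps : p ≫ sL = sk ≫ specMap L k := IsPullback.lift_snd _ _ _ _
  have hpp : IsPullback p sk sL (specMap L k) := by
    refine IsPullback.of_right (h₁₂ := gL) (h₂₂ := specMap K L) (v₁₃ := s) ?_ hps hL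
    rw [hpg, specMap_specMap]
    exact hk
  have hχ : (ψ.comp C.inclA).comp φ = (algebraMap K L).comp (algebraMap A K) := by
    ext a
    have h4 := congrArg (fun f => f (C.inclA (φ a))) hψ
    exact h4
  have hψs : specMap L k ≫ Spec.map (CommRingCat.ofHom ψ) = specMap C.alg k := by
    rw [← Spec.map_comp, ← CommRingCat.ofHom_comp, hψ]
  let a : XL ⟶ 𝒳' := hq.lift (gL ≫ g) (sL ≫ Spec.map (CommRingCat.ofHom (ψ.comp C.inclA))) (by
    rw [Category.assoc, hp.w, reassoc_of% hL.w, Category.assoc, ← Spec.map_comp, ← Spec.map_comp,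
      ← CommRingCat.ofHom_comp, ← CommRingCat.ofHom_comp, hχ])
  have ha1 : a ≫ q = gL ≫ g := IsPullback.lift_fst _ _ _ _
  have ha2 : a ≫ π' = sL ≫ Spec.map (CommRingCat.ofHom (ψ.comp C.inclA)) :=
    IsPullback.lift_snd _ _ _ _
  let b : XL ⟶ bc π' C := (bc_isPullback π' C).lift a (sL ≫ Spec.map (CommRingCat.ofHom ψ)) (by
    rw [ha2, Category.assoc, specA, ← Spec.map_comp, ← CommRingCat.ofHom_comp])
  have hb1 : b ≫ bcp π' C = a := IsPullback.lift_fst _ _ _ _
  have hb2 : b ≫ bcπ π' C = sL ≫ Spec.map (CommRingCat.ofHom ψ) := IsPullback.lift_snd _ _ _ _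
  have hpb : p ≫ b = bcg π' hG C := by
    apply bc_hom_ext
    · rw [Category.assoc, hb1, bcg_bcp]
      apply hq.hom_ext
      · rw [Category.assoc, ha1, hG1, ← Category.assoc, hpg]
      · rw [Category.assoc, ha2, hG.w, ← Category.assoc, hps, Category.assoc,
          CommRingCat.ofHom_comp, Spec.map_comp, ← Category.assoc (specMap L k), hψs]
        exact congrArg (fun f => sk ≫ f) (specMap_specA C)
    · rw [Category.assoc, hb2, bcg_bcπ, ← Category.assoc, hps, Category.assoc, hψs]
  have hXL : IsIntegral XL := isIntegral_of_field hpp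
  let V : XL.Opens := b ⁻¹ᵁ U₂
  have hVU : p ⁻¹ᵁ V = U := by
    rw [← hU₂, ← hpb]
    rfl
  have hmem : ∀ z : Xk, p z ∈ V ↔ z ∈ U := by
    intro z
    have h4 := congrArg (fun O : Xk.Opens => z ∈ O) hVU
    exact Iff.of_eq h4
  have hVAS : ArithmeticallySpecial (V.ι ≫ sL) := by
    apply punctExt_adjoin S X XL s sL gL hL hX hXL hsep hft hqc hAS V
    · intro w hw
      apply two_le_coheight_of_field hpp U hU w
      intro z hz hzU
      exact hw (hz ▸ (hmem z).mpr hzU)
    · intro x
      obtain ⟨z, hz, hzU⟩ := hUs x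
      refine ⟨p z, ?_, (hmem z).mpr hzU⟩
      rw [← Scheme.Hom.comp_apply, hpg, hz]
  have h4 := hVAS.fieldExt (restrict_isPullback hpp V)
  rw [hVU] at h4
  exact h4

end Adjoin

end Pool.Agent.Helper411_AS
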