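import Pool.Agent.Helper411_AS.Spread

/-!
# Spreading out automorphisms
-/

set_option autoImplicit false
set_option linter.unusedVariables false
set_option linter.unusedSectionVars false

open CategoryTheory AlgebraicGeometry Limits Opposite

universe u

namespace Pool.Agent.Helper411_AS

/-- The endomorphism `γ` of `X` extends to an automorphism of `𝒳` over `S`. -/
def Ext {𝒳 S X : Scheme.{u}} (π : 𝒳 ⟶ S) (g : X ⟶ 𝒳) (γ : X ⟶ X) : Prop :=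
  ∃ h : 𝒳 ≅ 𝒳, h.hom ≫ π = π ∧ g ≫ h.hom = γ ≫ g

theorem Ext.id {𝒳 S X : Scheme.{u}} (π : 𝒳 ⟶ S) (g : X ⟶ 𝒳) : Ext π g (𝟙 X) :=
  ⟨Iso.refl _, Category.id_comp _, by simp⟩

theorem Ext.comp {𝒳 S X : Scheme.{u}} {π : 𝒳 ⟶ S} {g : X ⟶ 𝒳} {γ γ' : X ⟶ X}
    (h : Ext π g γ) (h' : Ext π g γ') : Ext π g (γ ≫ γ') := by
  obtain ⟨e, he, he'⟩ := h
  obtain ⟨f, hf, hf'⟩ := h'
  refine ⟨e ≪≫ f, by simp [he, hf], ?_⟩
  rw [Iso.trans_hom, reassoc_of% he', hf', Category.assoc]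

theorem Ext.inv {𝒳 S X : Scheme.{u}} {π : 𝒳 ⟶ S} {g : X ⟶ 𝒳} {γ γ' : X ⟶ X}
    (h : Ext π g γ) (hγ : γ' ≫ γ = 𝟙 _) : Ext π g γ' := by
  obtain ⟨e, he, he'⟩ := h
  refine ⟨e.symm, by rw [Iso.symm_hom, Iso.inv_comp_eq, he], ?_⟩
  rw [Iso.symm_hom, Iso.comp_inv_eq, Category.assoc, he', reassoc_of% hγ]

theorem Ext.baseChange {𝒳 S X 𝒳' S' : Scheme.{u}} {π : 𝒳 ⟶ S} {π' : 𝒳' ⟶ S'} {p : 𝒳' ⟶ 𝒳}
    {q : S' ⟶ S} (hP : IsPullback p π' π q) {g : X ⟶ 𝒳} {g' : X ⟶ 𝒳'} (hg : g' ≫ p = g)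
    {γ : X ⟶ X} (hγ : γ ≫ g' ≫ π' = g' ≫ π') (h : Ext π g γ) : Ext π' g' γ := by
  obtain ⟨e, he, he'⟩ := h
  have he2 : e.inv ≫ π = π := by rw [Iso.inv_comp_eq, he]
  have w1 : (p ≫ e.hom) ≫ π = π' ≫ q := by rw [Category.assoc, he, hP.w]
  have w2 : (p ≫ e.inv) ≫ π = π' ≫ q := by rw [Category.assoc, he2, hP.w]
  refine ⟨⟨hP.lift (p ≫ e.hom) π' w1, hP.lift (p ≫ e.inv) π' w2, ?_, ?_⟩, ?_, ?_⟩
  · apply hP.hom_ext <;> simp
  · apply hP.hom_ext <;> simp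
  · exact hP.lift_snd _ _ _
  · apply hP.hom_ext
    · simp only [Category.assoc, IsPullback.lift_fst]
      rw [reassoc_of% hg, he', hg]
    · simp only [Category.assoc, IsPullback.lift_snd]
      exact hγ.symm

variable {k : Type u} [Field k] {A : Subalgebra ℤ k} {𝒳 : Scheme.{u}} (π : 𝒳 ⟶ Spec (.of A))
  {X : Scheme.{u}} {s : X ⟶ Spec (.of k)} {g : X ⟶ 𝒳}
  (hp : IsPullback g s π (specMap A k)) [IsSeparated π] [QuasiCompact π]
  [LocallyOfFinitePresentation π]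

theorem Ext.mono {γ : X ⟶ X} (hγ : γ ≫ s = s) {B C : Idx A} (h : B ≤ C)
    (hE : Ext (bcπ π B) (bcg π hp B) γ) : Ext (bcπ π C) (bcg π hp C) γ := by
  refine Ext.baseChange (bcI_isPullback π h) (bcg_bcI π hp h) ?_ hE
  rw [bcg_bcπ, reassoc_of% hγ]

/-- Automorphisms spread out. -/
theorem exists_ext (hA : A.FG) (γ : X ≅ X) (hγ : γ.hom ≫ s = s) :
    ∃ B : Idx A, Ext (bcπ π B) (bcg π hp B) γ.hom := by
  have hγ' : γ.inv ≫ s = s := by rw [Iso.inv_comp_eq, hγ]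
  obtain ⟨B₁, a₁, ha₁, ha₁'⟩ := exists_hom π hp hA π (γ.hom ≫ g)
    (by rw [Category.assoc, hp.w, reassoc_of% hγ])
  obtain ⟨B₂, a₂, ha₂, ha₂'⟩ := exists_hom π hp hA π (γ.inv ≫ g)
    (by rw [Category.assoc, hp.w, reassoc_of% hγ'])
  obtain ⟨B, h₁, h₂⟩ := exists_ge_ge B₁ B₂
  -- the two endomorphisms over every larger base
  have key : ∀ C : Idx A, ∀ hC₁ : B₁ ≤ C, ∀ hC₂ : B₂ ≤ C,
      (bcI π hC₁ ≫ a₁) ≫ π = bcπ π C ≫ specA C ∧ (bcI π hC₂ ≫ a₂) ≫ π = bcπ π C ≫ specA C := by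
    intro C hC₁ hC₂
    constructor
    · rw [Category.assoc, ha₁', bcI_bcπ_assoc, specI_specA]
    · rw [Category.assoc, ha₂', bcI_bcπ_assoc, specI_specA]
  let e₁ : ∀ C : Idx A, ∀ hC : B ≤ C, bc π C ⟶ bc π C := fun C hC =>
    (bc_isPullback π C).lift (bcI π (h₁.trans hC) ≫ a₁) (bcπ π C)
      (key C (h₁.trans hC) (h₂.trans hC)).1
  let e₂ : ∀ C : Idx A, ∀ hC : B ≤ C, bc π C ⟶ bc π C := fun C hC =>
    (bc_isPullback π C).lift (bcI π (h₂.trans hC) ≫ a₂) (bcπ π C)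
      (key C (h₁.trans hC) (h₂.trans hC)).2
  have e₁p : ∀ C hC, e₁ C hC ≫ bcp π C = bcI π (h₁.trans hC) ≫ a₁ := fun C hC =>
    IsPullback.lift_fst _ _ _ _
  have e₂p : ∀ C hC, e₂ C hC ≫ bcp π C = bcI π (h₂.trans hC) ≫ a₂ := fun C hC =>
    IsPullback.lift_fst _ _ _ _
  have e₁π : ∀ C hC, e₁ C hC ≫ bcπ π C = bcπ π C := fun C hC => IsPullback.lift_snd _ _ _ _
  have e₂π : ∀ C hC, e₂ C hC ≫ bcπ π C = bcπ π C := fun C hC => IsPullback.lift_snd _ _ _ _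
  have e₁g : ∀ C hC, bcg π hp C ≫ e₁ C hC = γ.hom ≫ bcg π hp C := fun C hC => by
    apply bc_hom_ext
    · rw [Category.assoc, e₁p C hC, bcg_bcI_assoc, ha₁, Category.assoc, bcg_bcp]
    · rw [Category.assoc, e₁π C hC, Category.assoc, bcg_bcπ, reassoc_of% hγ]
  have e₂g : ∀ C hC, bcg π hp C ≫ e₂ C hC = γ.inv ≫ bcg π hp C := fun C hC => by
    apply bc_hom_ext
    · rw [Category.assoc, e₂p C hC, bcg_bcI_assoc, ha₂, Category.assoc, bcg_bcp]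
    · rw [Category.assoc, e₂π C hC, Category.assoc, bcg_bcπ, reassoc_of% hγ']
  have e₁I : ∀ C hC D (hD : C ≤ D), e₁ D (hC.trans hD) ≫ bcI π hD = bcI π hD ≫ e₁ C hC := by
    intro C hC D hD
    apply bc_hom_ext
    · rw [Category.assoc, bcI_bcp, e₁p D (hC.trans hD), Category.assoc, e₁p C hC, bcI_bcI_assoc]
    · rw [Category.assoc, bcI_bcπ, reassoc_of% (e₁π D (hC.trans hD)), Category.assoc, e₁π C hC,
        bcI_bcπ]
  have e₂I : ∀ C hC D (hD : C ≤ D), e₂ D (hC.trans hD) ≫ bcI π hD = bcI π hD ≫ e₂ C hC := by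
    intro C hC D hD
    apply bc_hom_ext
    · rw [Category.assoc, bcI_bcp, e₂p D (hC.trans hD), Category.assoc, e₂p C hC, bcI_bcI_assoc]
    · rw [Category.assoc, bcI_bcπ, reassoc_of% (e₂π D (hC.trans hD)), Category.assoc, e₂π C hC,
        bcI_bcπ]
  obtain ⟨C₁, hC₁, h12⟩ := exists_hom_eq π hp hA π (B := B)
    (e₁ B le_rfl ≫ e₂ B le_rfl ≫ bcp π B) (bcp π B)
    (by rw [Category.assoc, Category.assoc, bc_w, reassoc_of% (e₂π B le_rfl),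
      reassoc_of% (e₁π B le_rfl)]) (bc_w π B)
    (by rw [reassoc_of% (e₁g B le_rfl), reassoc_of% (e₂g B le_rfl), Iso.hom_inv_id_assoc])
  obtain ⟨C₂, hC₂, h21⟩ := exists_hom_eq π hp hA π (B := B)
    (e₂ B le_rfl ≫ e₁ B le_rfl ≫ bcp π B) (bcp π B)
    (by rw [Category.assoc, Category.assoc, bc_w, reassoc_of% (e₁π B le_rfl),
      reassoc_of% (e₂π B le_rfl)]) (bc_w π B)
    (by rw [reassoc_of% (e₂g B le_rfl), reassoc_of% (e₁g B le_rfl), Iso.inv_hom_id_assoc])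
  obtain ⟨C, hCC₁, hCC₂⟩ := exists_ge_ge C₁ C₂
  have hBC : B ≤ C := hC₁.trans hCC₁
  refine ⟨C, ⟨e₁ C hBC, e₂ C hBC, ?_, ?_⟩, e₁π C hBC, e₁g C hBC⟩
  · apply bc_hom_ext
    · have h := congrArg (fun f => bcI π hCC₁ ≫ f) h12
      simp only [bcI_bcI_assoc, bcI_bcp] at h
      rw [← reassoc_of% (e₁I B le_rfl C hBC), ← reassoc_of% (e₂I B le_rfl C hBC), bcI_bcp] at h
      rw [Category.assoc, h, Category.id_comp]
    · rw [Category.assoc, e₂π C hBC, e₁π C hBC, Category.id_comp]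
  · apply bc_hom_ext
    · have h := congrArg (fun f => bcI π hCC₂ ≫ f) h21
      simp only [bcI_bcI_assoc, bcI_bcp] at h
      rw [← reassoc_of% (e₂I B le_rfl C hBC), ← reassoc_of% (e₁I B le_rfl C hBC), bcI_bcp] at h
      rw [Category.assoc, h, Category.id_comp]
    · rw [Category.assoc, e₁π C hBC, e₂π C hBC, Category.id_comp]

/-- Finitely generated groups of automorphisms spread out. -/
theorem exists_ext_group (hA : A.FG) (Γ : Subgroup (Aut (Over.mk s))) (hΓ : Γ.FG) :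
    ∃ B : Idx A, ∀ γ ∈ Γ, Ext (bcπ π B) (bcg π hp B) γ.hom.left := by
  obtain ⟨S, rfl⟩ := hΓ
  have hw : ∀ γ : Aut (Over.mk s), γ.hom.left ≫ s = s := fun γ => Over.w γ.hom
  have hS : ∃ B : Idx A, ∀ γ ∈ S, Ext (bcπ π B) (bcg π hp B) γ.hom.left := by
    classical
    induction S using Finset.induction_on with
    | empty => exact ⟨Idx.self hA, by simp⟩
    | insert γ S _ ih =>
      obtain ⟨B, hB⟩ := ih
      obtain ⟨C, hC⟩ := exists_ext π hp hA ((Over.forget _).mapIso γ) (hw γ)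
      obtain ⟨D, hBD, hCD⟩ := exists_ge_ge B C
      refine ⟨D, fun δ hδ => ?_⟩
      rcases Finset.mem_insert.mp hδ with rfl | hδ
      · exact Ext.mono π hp (hw δ) hCD hC
      · exact Ext.mono π hp (hw δ) hBD (hB δ hδ)
  obtain ⟨B, hB⟩ := hS
  refine ⟨B, fun γ hγ => ?_⟩
  induction hγ using Subgroup.closure_induction with
  | mem x hx => exact hB x hx
  | one => exact Ext.id _ _
  | mul x y _ _ hx hy => exact hy.comp hx
  | inv x _ hx => exact hx.inv (by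
      have := x.inv_hom_id
      exact congrArg Over.Hom.left this)

end Pool.Agent.Helper411_AS
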