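import Pool.Agent.Helper411_AS.Height

/-!
# Points of codimension at most one avoid the closure of the image of a small closed set
-/

set_option autoImplicit false

open CategoryTheory AlgebraicGeometry Limits Opposite

universe u

namespace Pool.Agent.Helper411_AS

theorem eq_bot_or_eq_of_height_le_one {A : Type u} [CommRing A] [IsDomain A]
    (q : Spec (.of A)) (hq : (q : PrimeSpectrum A).asIdeal.height ≤ 1)
    (a : Spec (.of A)) (ha : a ⤳ q) : a = botPt (.of A) ∨ a = q := by
  have ha' : (a : PrimeSpectrum A).asIdeal ≤ (q : PrimeSpectrum A).asIdeal :=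
    (PrimeSpectrum.le_iff_specializes _ _).mpr ha
  rcases eq_or_lt_of_le ha' with h | h
  · right
    exact PrimeSpectrum.ext h
  · left
    have hap : (a : PrimeSpectrum A).asIdeal.IsPrime := (a : PrimeSpectrum A).isPrime
    have hqp : (q : PrimeSpectrum A).asIdeal.IsPrime := (q : PrimeSpectrum A).isPrime
    have h1 := Ideal.height_add_one_le_of_lt_of_isPrime h
    have h2 : (a : PrimeSpectrum A).asIdeal.height = 0 := by
      have h3 := h1.trans hq
      have h4 : (a : PrimeSpectrum A).asIdeal.height + 1 ≤ 0 + 1 := by simpa using h3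
      have h5 : (a : PrimeSpectrum A).asIdeal.height ≤ 0 :=
        (ENat.add_le_add_iff_right (by simp)).mp h4
      exact le_antisymm h5 bot_le
    rw [Ideal.height_eq_zero_iff_eq_bot] at h2
    exact PrimeSpectrum.ext h2

/-- Height one primes of an immersed affine scheme have codimension at most one. -/
theorem codimLE1_of_isImmersion {A : Type u} [CommRing A] [IsDomain A] {𝒳 : Scheme.{u}}
    (e : Spec (.of A) ⟶ 𝒳) [IsImmersion e] (q : Spec (.of A))
    (hq : (q : PrimeSpectrum A).asIdeal.height ≤ 1) :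
    CodimLE1 (e (botPt (.of A))) (e q) := by
  intro a h1 h2
  have hlc : IsLocallyClosed (Set.range e) := e.isLocallyClosed_range
  obtain ⟨U, Z, hU, hZ, hUZ⟩ := hlc
  have hq' : e q ∈ U ∩ Z := hUZ ▸ ⟨q, rfl⟩
  have hb' : e (botPt (.of A)) ∈ U ∩ Z := hUZ ▸ ⟨_, rfl⟩
  have ha : a ∈ Set.range e := by
    rw [hUZ]
    exact ⟨h2.mem_open hU hq'.1, h1.mem_closed hZ hb'.2⟩
  obtain ⟨a, rfl⟩ := ha
  have h3 : a ⤳ q := e.isEmbedding.toIsInducing.specializes_iff.mp h2
  rcases eq_bot_or_eq_of_height_le_one q hq a h3 with h | h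
  · left; rw [h]
  · right; rw [h]

/-- A point of codimension at most one in the closure of `g η` cannot lie in the closure of the
image of a closed set of codimension at least two which is saturated with respect to `g`. -/
theorem notMem_closure_image {X 𝒳 : Scheme.{u}} [IsIntegral X] [IsNoetherian X]
    (g : X ⟶ 𝒳) (Z : Set X) (hZ : IsClosed Z) (hcodim : ∀ z ∈ Z, 2 ≤ Order.coheight z)
    (hsat : g ⁻¹' (closure (g '' Z)) ⊆ Z) (y : 𝒳)
    (hy : CodimLE1 (g (genericPoint X)) y) : y ∉ closure (g '' Z) := by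
  intro hmem
  obtain ⟨S, hSf, hScl, hSirr, hSZ⟩ :=
    TopologicalSpace.NoetherianSpace.exists_finite_set_isClosed_irreducible hZ
  rw [hSZ, Set.sUnion_eq_biUnion, Set.image_iUnion₂, hSf.closure_biUnion] at hmem
  simp only [Set.mem_iUnion] at hmem
  obtain ⟨t, ht, hyt⟩ := hmem
  obtain ⟨ζ, hζ⟩ := QuasiSober.sober (hSirr t ht) (hScl t ht)
  have hζZ : ζ ∈ Z := by
    rw [hSZ]
    exact ⟨t, ht, hζ.mem⟩
  have h1 : g ζ ⤳ y := by
    rw [specializes_iff_mem_closure]
    have h2 : closure (g '' t) ⊆ closure {g ζ} := by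
      apply closure_minimal _ isClosed_closure
      rintro _ ⟨x, hx, rfl⟩
      rw [← specializes_iff_mem_closure]
      exact (hζ.specializes hx).map g.continuous
    exact h2 hyt
  have h2 : CodimLE1 (g (genericPoint X)) (g ζ) :=
    hy.of_specializes ((genericPoint_specializes ζ).map g.continuous) h1
  obtain ⟨ζ', -, h3, h4⟩ := exists_lift_codim g ζ h2
  have h5 : ζ' ∈ Z := by
    apply hsat
    change g ζ' ∈ closure (g '' Z)
    rw [h3]
    exact subset_closure ⟨ζ, hζZ, rfl⟩
  have h6 := (hcodim ζ' h5).trans h4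
  exact absurd h6 (by decide)

end Pool.Agent.Helper411_AS
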