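import Mathlib

/-!
# Simultaneous avoidance of roots modulo finitely many primes
-/

set_option autoImplicit false

universe u

namespace Pool.Agent.Helper411_AS

theorem cast_ne_zero_of_le {F : Type u} [Field F] {D : ℕ} (hD : ((D.factorial : ℕ) : F) ≠ 0)
    {n : ℕ} (hn0 : n ≠ 0) (hn : n ≤ D) : (n : F) ≠ 0 := by
  intro h
  apply hD
  obtain ⟨c, hc⟩ := Nat.dvd_factorial (Nat.pos_of_ne_zero hn0) hn
  rw [hc, Nat.cast_mul, h, zero_mul]

theorem exists_multiple {F : Type u} [Field F] {D : ℕ} (hD : ((D.factorial : ℕ) : F) ≠ 0)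
    (f : Polynomial F) (hf : f ≠ 0) (hfD : f.natDegree ≤ D) (u : F) (hu : u ≠ 0) :
    ∃ n : ℕ, f.eval ((n : F) * u) ≠ 0 := by
  classical
  by_contra hcon
  push Not at hcon
  apply hf
  refine Polynomial.eq_zero_of_natDegree_lt_card_of_eval_eq_zero' f
    ((Finset.range (D + 1)).image fun n : ℕ => (n : F) * u) ?_ ?_
  · intro x hx
    obtain ⟨n, -, rfl⟩ := Finset.mem_image.mp hx
    exact hcon n
  · rw [Finset.card_image_of_injOn, Finset.card_range]
    · omega
    · intro a ha b hb hab
      simp only [Finset.coe_range, Set.mem_Iio] at ha hb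
      have hab' : (a : F) = b := mul_right_cancel₀ hu hab
      rcases lt_trichotomy a b with h | h | h
      · exfalso
        have h1 : ((b - a : ℕ) : F) = 0 := by
          rw [Nat.cast_sub h.le, hab', sub_self]
        exact cast_ne_zero_of_le hD (by omega) (by omega) h1
      · exact h
      · exfalso
        have h1 : ((a - b : ℕ) : F) = 0 := by
          rw [Nat.cast_sub h.le, hab', sub_self]
        exact cast_ne_zero_of_le hD (by omega) (by omega) h1

/-- Simultaneous avoidance of the roots of polynomials of bounded degree over the residue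
fields of finitely many pairwise incomparable primes. -/
theorem exists_avoiding {A : Type u} [CommRing A] {ι : Type u} [Finite ι] (p : ι → Ideal A)
    (hp : ∀ i, (p i).IsPrime) (hinc : ∀ i j, i ≠ j → ¬ p i ≤ p j)
    {D : ℕ} (hD : IsUnit ((D.factorial : ℕ) : A))
    (F : ι → Type u) [∀ i, Field (F i)] (φ : ∀ i, A →+* F i) (hφ : ∀ i a, φ i a = 0 ↔ a ∈ p i)
    (f : ∀ i, Polynomial (F i)) (hf0 : ∀ i, f i ≠ 0) (hfD : ∀ i, (f i).natDegree ≤ D) :
    ∃ t : A, ∀ i, (f i).eval (φ i t) ≠ 0 := by
  classical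
  have := Fintype.ofFinite ι
  have hu : ∀ i, ∃ u : A, u ∉ p i ∧ ∀ j, j ≠ i → u ∈ p j := by
    intro i
    have h1 : ¬ ((Finset.univ.erase i).inf p ≤ p i) := by
      rw [(hp i).inf_le']
      rintro ⟨j, hj, hji⟩
      exact hinc j i (Finset.ne_of_mem_erase hj) hji
    obtain ⟨u, hu, hui⟩ := SetLike.not_le_iff_exists.mp h1
    refine ⟨u, hui, fun j hj => ?_⟩
    exact (Finset.inf_le (f := p) (Finset.mem_erase.mpr ⟨hj, Finset.mem_univ j⟩)) hu
  choose u hui huj using hu
  have hn : ∀ i, ∃ n : ℕ, (f i).eval ((n : F i) * φ i (u i)) ≠ 0 := by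
    intro i
    apply exists_multiple (D := D) _ (f i) (hf0 i) (hfD i)
    · rw [Ne, hφ]
      exact hui i
    · have := hD.map (φ i)
      rw [map_natCast] at this
      exact this.ne_zero
  choose n hn using hn
  refine ⟨∑ i, (n i : A) * u i, ?_⟩
  intro i
  have h1 : φ i (∑ j, (n j : A) * u j) = (n i : F i) * φ i (u i) := by
    rw [map_sum, Finset.sum_eq_single i]
    · rw [map_mul, map_natCast]
    · intro j _ hji
      rw [map_mul, (hφ i (u j)).mpr (huj j i (Ne.symm hji)), mul_zero]
    · intro h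
      exact absurd (Finset.mem_univ i) h
  rw [h1]
  exact hn i

end Pool.Agent.Helper411_AS
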