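import Pool.Agent.Helper411_AS.Criterion

/-!
# A near-integral point meets a proper closed subset over finitely many primes of height one
-/

set_option autoImplicit false

open CategoryTheory AlgebraicGeometry Limits Opposite

universe u

namespace Pool.Agent.Helper411_AS

section

variable {A : Type u} [CommRing A] [IsDomain A]

theorem atPrimeToFrac_algebraMap (p : Ideal A) [p.IsPrime] (a : A) :
    atPrimeToFrac p (algebraMap A (Localization.AtPrime p) a) = algebraMap A (FractionRing A) a :=
  IsLocalization.lift_eq _ a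

theorem atPrimeToFrac_injective (p : Ideal A) [p.IsPrime] :
    Function.Injective (atPrimeToFrac p) := by
  rw [injective_iff_map_eq_zero]
  intro x hx
  obtain ⟨⟨a, s⟩, h⟩ := IsLocalization.surj p.primeCompl x
  have h1 : atPrimeToFrac p (algebraMap A (Localization.AtPrime p) a) = 0 := by
    rw [← h, map_mul, hx, zero_mul]
  rw [atPrimeToFrac_algebraMap] at h1
  have h2 : a = 0 := (IsFractionRing.injective A (FractionRing A)) (by rw [h1, map_zero])
  have h3 : x * algebraMap A (Localization.AtPrime p) s = 0 := by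
    rw [h]
    change algebraMap A (Localization.AtPrime p) a = 0
    rw [h2, map_zero]
  exact (IsUnit.mul_left_eq_zero (IsLocalization.map_units (Localization.AtPrime p) s)).mp h3

instance isDominant_atPrimeToFrac (p : Ideal A) [p.IsPrime] :
    IsDominant (Spec.map (CommRingCat.ofHom (atPrimeToFrac p))) := by
  refine ⟨?_⟩
  have h := (PrimeSpectrum.denseRange_comap_iff_ker_le_nilRadical (atPrimeToFrac p)).mpr (by
    rw [(RingHom.injective_iff_ker_eq_bot _).mp (atPrimeToFrac_injective p)]
    exact bot_le)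
  exact h

/-- Over all primes not containing a suitable nonzero element, a morphism of an algebra of finite
type to the fraction field lands in the local ring. -/
theorem exists_denominator {C : Type u} [CommRing C] [Algebra A C] [Algebra.FiniteType A C]
    (φ : C →ₐ[A] FractionRing A) :
    ∃ a : A, a ≠ 0 ∧ ∀ (p : Ideal A) [p.IsPrime], a ∉ p → ∀ c, φ c ∈ (atPrimeToFrac p).range := by
  classical
  obtain ⟨s, hs⟩ := (inferInstance : Algebra.FiniteType A C).out
  obtain ⟨b, hb⟩ := IsLocalization.exist_integer_multiples_of_finset (nonZeroDivisors A)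
    (s.image φ)
  refine ⟨b, nonZeroDivisors.coe_ne_zero b, ?_⟩
  intro p _ hbp c
  have hc : c ∈ Algebra.adjoin A (s : Set C) := by
    rw [hs]
    trivial
  induction hc using Algebra.adjoin_induction with
  | mem x hx =>
    obtain ⟨r, hr⟩ := hb (φ x) (Finset.mem_image_of_mem _ hx)
    have hu : IsUnit (algebraMap A (Localization.AtPrime p) b) :=
      IsLocalization.map_units (Localization.AtPrime p) (⟨b, hbp⟩ : p.primeCompl)
    refine ⟨algebraMap A (Localization.AtPrime p) r * ↑(hu.unit⁻¹), ?_⟩
    have h1 : atPrimeToFrac p ↑(hu.unit⁻¹) * algebraMap A (FractionRing A) b = 1 := by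
      rw [← atPrimeToFrac_algebraMap p, ← map_mul]
      have : (↑(hu.unit⁻¹) : Localization.AtPrime p) * algebraMap A (Localization.AtPrime p) b = 1 :=
        hu.val_inv_mul
      rw [this, map_one]
    rw [map_mul, atPrimeToFrac_algebraMap, hr, Algebra.smul_def, mul_comm, ← mul_assoc, h1, one_mul]
  | algebraMap r =>
    exact ⟨algebraMap A _ r, by rw [atPrimeToFrac_algebraMap, AlgHom.commutes]⟩
  | add x y _ _ hx hy =>
    rw [map_add]
    exact add_mem hx hy
  | mul x y _ _ hx hy =>
    rw [map_mul]
    exact mul_mem hx hy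

/-- A near-integral point which generically lies in the open subset `V` does so over all primes
not containing a suitable nonzero element. -/
theorem exists_ne_zero_forall_mem {𝒲 : Scheme.{u}} (π : 𝒲 ⟶ Spec (.of A)) [LocallyOfFiniteType π]
    [IsSeparated π] (P : Spec (.of (FractionRing A)) ⟶ 𝒲)
    (hP : P ≫ π = specMap A (FractionRing A)) (V : 𝒲.Opens) (hV : atPt P ∈ V) :
    ∃ a : A, a ≠ 0 ∧ ∀ (p : Ideal A) [p.IsPrime], a ∉ p →
      ∀ Q : Spec (.of (Localization.AtPrime p)) ⟶ 𝒲, Q ≫ π = specMap A (Localization.AtPrime p) →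
        Spec.map (CommRingCat.ofHom (atPrimeToFrac p)) ≫ Q = P → ∀ q, Q q ∈ V := by
  obtain ⟨W, hW, hPW, hWV⟩ := exists_isAffineOpen_mem_and_subset (X := 𝒲) (x := atPt P)
    (U := V) hV
  let φ : CommRingCat.of A ⟶ Γ(𝒲, W) := Spec.preimage (hW.fromSpec ≫ π)
  have hφ : Spec.map φ = hW.fromSpec ≫ π := Spec.map_preimage _
  have hft : φ.hom.FiniteType := by
    rw [← HasRingHomProperty.Spec_iff (P := @LocallyOfFiniteType), hφ]
    infer_instance
  let _ : Algebra A Γ(𝒲, W) := φ.hom.toAlgebra
  have : Algebra.FiniteType A Γ(𝒲, W) := hft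
  have hr : ∀ q, P q ∈ Set.range hW.fromSpec := by
    intro q
    rw [hW.range_fromSpec, apply_eq_atPt]
    exact hPW
  obtain ⟨P₀, hP₀⟩ : ∃ P₀ : Spec (.of (FractionRing A)) ⟶ Spec Γ(𝒲, W), P₀ ≫ hW.fromSpec = P :=
    ⟨IsOpenImmersion.lift hW.fromSpec P (by rintro _ ⟨q, rfl⟩; exact hr q),
      IsOpenImmersion.lift_fac _ _ _⟩
  let χ : Γ(𝒲, W) ⟶ CommRingCat.of (FractionRing A) := Spec.preimage P₀
  have hχ : Spec.map χ = P₀ := Spec.map_preimage _
  have hχφ : φ ≫ χ = CommRingCat.ofHom (algebraMap A (FractionRing A)) := by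
    apply Spec.map_injective
    rw [Spec.map_comp, hχ, hφ, ← Category.assoc, hP₀, hP]
  let χ' : Γ(𝒲, W) →ₐ[A] FractionRing A :=
    { χ.hom with
      commutes' := fun a => congrArg (fun f => f.hom a) hχφ }
  obtain ⟨a, ha, h⟩ := exists_denominator χ'
  refine ⟨a, ha, ?_⟩
  intro p hp hap Q hQ hQP q
  -- the lift to the local ring
  obtain ⟨ψ, hψ⟩ : ∃ ψ : Γ(𝒲, W) →+* Localization.AtPrime p,
      (atPrimeToFrac p).comp ψ = χ.hom := by
    let e := RingHom.rangeRestrict (atPrimeToFrac p)
    let E : Localization.AtPrime p ≃+* (atPrimeToFrac p).range :=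
      RingEquiv.ofBijective e ⟨fun x y hxy => atPrimeToFrac_injective p (congrArg Subtype.val hxy),
        RingHom.rangeRestrict_surjective _⟩
    refine ⟨E.symm.toRingHom.comp (χ.hom.codRestrict _ (h p hap)), ?_⟩
    ext c
    change (E (E.symm _) : FractionRing A) = _
    rw [RingEquiv.apply_symm_apply]
    rfl
  have hψφ : ψ.comp φ.hom = algebraMap A (Localization.AtPrime p) := by
    ext b
    apply atPrimeToFrac_injective p
    rw [atPrimeToFrac_algebraMap]
    have h1 := congrArg (fun f => f (φ.hom b)) hψ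
    have h2 := congrArg (fun f => f.hom b) hχφ
    exact h1.trans h2
  have h3 : φ ≫ CommRingCat.ofHom ψ =
      CommRingCat.ofHom (algebraMap A (Localization.AtPrime p)) := by
    ext b
    exact congrArg (fun f => f b) hψφ
  have hQ' : Q = Spec.map (CommRingCat.ofHom ψ) ≫ hW.fromSpec := by
    apply ext_of_isDominant_of_isSeparated π (by
      rw [hQ, Category.assoc, ← hφ, ← Spec.map_comp, h3])
      (Spec.map (CommRingCat.ofHom (atPrimeToFrac p)))
    rw [hQP, ← Category.assoc, ← Spec.map_comp, ← CommRingCat.ofHom_comp, hψ, ← hP₀, ← hχ]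
    rfl
  apply hWV
  have h1 : Q q ∈ Set.range hW.fromSpec := by
    rw [hQ']
    exact ⟨_, rfl⟩
  rw [hW.range_fromSpec] at h1
  exact h1

/-- Only finitely many primes of height one contain a given nonzero element. -/
theorem finite_heightOne [IsNoetherianRing A] (a : A) (ha : a ≠ 0) :
    {p : PrimeSpectrum A | p.asIdeal.height = 1 ∧ a ∈ p.asIdeal}.Finite := by
  have h := (Ideal.finite_minimalPrimes_of_isNoetherianRing A (Ideal.span {a}))
  refine Set.Finite.subset (h.preimage (f := PrimeSpectrum.asIdeal)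
    (fun x _ y _ hxy => PrimeSpectrum.ext hxy)) ?_
  rintro p ⟨hp, hap⟩
  change p.asIdeal ∈ (Ideal.span {a}).minimalPrimes
  apply Ideal.mem_minimalPrimes_of_height_le
  · rwa [Ideal.span_singleton_le_iff_mem]
  · rw [hp, Order.one_le_iff_pos, pos_iff_ne_zero]
    intro h0
    rw [Ideal.height_eq_zero_iff_eq_bot, Ideal.span_singleton_eq_bot] at h0
    exact ha h0

end

end Pool.Agent.Helper411_AS
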