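import Pool.Agent.Helper411_AS.Defs

/-!
# A field is the filtered colimit of its finitely generated subalgebras
-/

set_option autoImplicit false

open CategoryTheory AlgebraicGeometry Limits

universe u

namespace Pool.Agent.Helper411_AS

variable {k : Type u} [Field k]

/-- The finitely generated subalgebras of `k` containing `A`. -/
structure Idx (A : Subalgebra ℤ k) : Type u where
  alg : Subalgebra ℤ k
  le : A ≤ alg
  fg : alg.FG

namespace Idx

variable {A : Subalgebra ℤ k}

instance : Preorder (Idx A) := Preorder.lift Idx.alg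

theorem le_def {B C : Idx A} : B ≤ C ↔ B.alg ≤ C.alg := Iff.rfl

instance : IsDirectedOrder (Idx A) where
  directed B C := ⟨⟨B.alg ⊔ C.alg, B.le.trans le_sup_left, B.fg.sup C.fg⟩,
    (le_sup_left : B.alg ≤ B.alg ⊔ C.alg), (le_sup_right : C.alg ≤ B.alg ⊔ C.alg)⟩

/-- `A` itself. -/
def self (hA : A.FG) : Idx A := ⟨A, le_rfl, hA⟩

/-- the inclusion `B ⟶ C`. -/
noncomputable def incl {B C : Idx A} (h : B ≤ C) : B.alg →+* C.alg :=
  (Subalgebra.inclusion (show B.alg ≤ C.alg from h)).toRingHom

/-- the inclusion `A ⟶ B`. -/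
noncomputable def inclA (B : Idx A) : A →+* B.alg :=
  (Subalgebra.inclusion B.le).toRingHom

end Idx

/-- The diagram of finitely generated subalgebras. -/
noncomputable def ringF (A : Subalgebra ℤ k) : Idx A ⥤ CommRingCat.{u} where
  obj B := .of B.alg
  map {B C} f := CommRingCat.ofHom (Idx.incl (leOfHom f))
  map_id B := by ext x; rfl
  map_comp f g := by ext x; rfl

/-- The cocone with point `k`. -/
noncomputable def ringCocone (A : Subalgebra ℤ k) : Cocone (ringF A) where
  pt := .of k
  ι :=
    { app := fun B => CommRingCat.ofHom (algebraMap B.alg k)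
      naturality := fun B C f => by ext x; rfl }

theorem exists_mem_idx {A : Subalgebra ℤ k} (hA : A.FG) (x : k) : ∃ B : Idx A, x ∈ B.alg :=
  ⟨⟨A ⊔ Algebra.adjoin ℤ {x}, le_sup_left, hA.sup ⟨{x}, by simp⟩⟩,
    (le_sup_right : _ ≤ A ⊔ Algebra.adjoin ℤ {x}) (Algebra.subset_adjoin rfl)⟩

/-- `k` is the colimit of its finitely generated subalgebras. -/
noncomputable def ringIsColimit {A : Subalgebra ℤ k} (hA : A.FG) : IsColimit (ringCocone A) := by
  have : Nonempty (Idx A) := ⟨Idx.self hA⟩
  have : IsFiltered (Idx A) := inferInstance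
  have : ReflectsColimit (ringF A) (forget CommRingCat.{u}) :=
    reflectsColimit_of_reflectsIsomorphisms _ _
  refine isColimitOfReflects (forget CommRingCat.{u}) ?_
  refine Types.FilteredColimit.isColimitOf _ _ ?_ ?_
  · intro x
    obtain ⟨B, hB⟩ := exists_mem_idx hA (show k from x)
    exact ⟨B, (⟨x, hB⟩ : B.alg), rfl⟩
  · intro B C b c h
    obtain ⟨D, hB, hC⟩ := exists_ge_ge B C
    refine ⟨D, homOfLE hB, homOfLE hC, ?_⟩
    apply Subtype.ext
    exact h

end Pool.Agent.Helper411_AS
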