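import Pool.Agent.Helper411_AS.Defs

/-!
# Points of codimension at most one and base change
-/

set_option autoImplicit false

open CategoryTheory AlgebraicGeometry Limits Opposite

universe u

namespace Pool.Agent.Helper411_AS

/-- There is no point strictly between `ξ` and its specialization `y`. -/
def CodimLE1 {α : Type*} [TopologicalSpace α] (ξ y : α) : Prop :=
  ∀ a, ξ ⤳ a → a ⤳ y → a = ξ ∨ a = y

theorem CodimLE1.of_specializes {α : Type*} [TopologicalSpace α] [T0Space α] {ξ y z : α}
    (h : CodimLE1 ξ y) (hξ : ξ ⤳ z) (hz : z ⤳ y) : CodimLE1 ξ z := by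
  intro a ha haz
  rcases h a ha (haz.trans hz) with h | h
  · exact Or.inl h
  · right
    subst h
    exact haz.antisymm hz |>.eq

theorem CodimLE1.map_homeo {α : Type*} [TopologicalSpace α] {ξ y : α}
    (h : CodimLE1 ξ y) (e : α ≃ₜ α) (he : e ξ = ξ) : CodimLE1 ξ (e y) := by
  intro a ha hay
  have h1 : ξ ⤳ e.symm a := by
    have := ha.map e.symm.continuous
    rwa [← he, e.symm_apply_apply, ← he, he] at this
  have h2 : e.symm a ⤳ y := by
    have := hay.map e.symm.continuous
    rwa [e.symm_apply_apply] at this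
  rcases h _ h1 h2 with h | h
  · left
    rw [← he, ← h, e.apply_symm_apply]
  · right
    rw [← h, e.apply_symm_apply]

/-- In an integral scheme, a point which has no generizations except itself and the generic
point has codimension at most one. -/
theorem coheight_le_one_of {X : Scheme.{u}} [IsIntegral X] {y : X}
    (h : ∀ a, a ⤳ y → a = genericPoint X ∨ a = y) : Order.coheight y ≤ 1 := by
  have h1 : Order.coheight y ≤ ((1 : ℕ) : ℕ∞) := by
    rw [Order.coheight_le_coe_iff]
    intro b hb
    have hby : b ⤳ y := hb.le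
    rcases h b hby with rfl | rfl
    · have : Order.coheight (genericPoint X) = 0 := Order.coheight_top X
      rw [this]
      simp
    · exact absurd hb (lt_irrefl _)
  simpa using h1

theorem fromSpecStalk_injective {X : Scheme.{u}} (x : X) :
    Function.Injective (X.fromSpecStalk x) := (X.fromSpecStalk x).isEmbedding.injective

theorem fromSpecStalk_specializes {X : Scheme.{u}} (x : X) {a b : Spec (X.presheaf.stalk x)} :
    X.fromSpecStalk x a ⤳ X.fromSpecStalk x b ↔ a ⤳ b :=
  (X.fromSpecStalk x).isEmbedding.toIsInducing.specializes_iff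

/-- The zero ideal as a point of the spectrum of a domain. -/
def botPt (R : CommRingCat.{u}) [IsDomain R] : Spec R :=
  (⟨⊥, Ideal.isPrime_bot⟩ : PrimeSpectrum R)

theorem botPt_specializes (R : CommRingCat.{u}) [IsDomain R] (a : Spec R) : botPt R ⤳ a :=
  (PrimeSpectrum.le_iff_specializes _ _).mp (bot_le (a := (a : PrimeSpectrum R).asIdeal))

theorem fromSpecStalk_bot {X : Scheme.{u}} [IsIntegral X] (x : X) :
    X.fromSpecStalk x (botPt (X.presheaf.stalk x)) = genericPoint X := by
  have h1 : genericPoint X ⤳ x := genericPoint_specializes x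
  have h2 : genericPoint X ∈ Set.range (X.fromSpecStalk x) := by
    rw [Scheme.range_fromSpecStalk]
    exact h1
  obtain ⟨a, ha⟩ := h2
  have h4 := (botPt_specializes _ a).map (X.fromSpecStalk x).continuous
  rw [ha] at h4
  exact (h4.antisymm (genericPoint_specializes _)).eq

theorem specializes_of_fromSpecStalk {X : Scheme.{u}} (x : X) (a : Spec (X.presheaf.stalk x)) :
    X.fromSpecStalk x a ⤳ x := by
  have : X.fromSpecStalk x a ∈ Set.range (X.fromSpecStalk x) := ⟨_, rfl⟩
  rwa [Scheme.range_fromSpecStalk] at this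

theorem stalk_comp {X 𝒳 : Scheme.{u}} (g : X ⟶ 𝒳) (ζ : X) (p : Spec (X.presheaf.stalk ζ)) :
    g (X.fromSpecStalk ζ p) = 𝒳.fromSpecStalk (g ζ) (Spec.map (g.stalkMap ζ) p) := by
  rw [← Scheme.Hom.comp_apply, ← Scheme.SpecMap_stalkMap_fromSpecStalk, Scheme.Hom.comp_apply]

/-- In a noetherian local domain, a nonzero element of the maximal ideal lies in a prime ideal
all of whose proper generizations are zero. -/
theorem exists_height_one {R : CommRingCat.{u}} [IsDomain R] [IsNoetherianRing R] [IsLocalRing R]
    (c : R) (hc : c ∈ IsLocalRing.maximalIdeal R) :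
    ∃ r : Spec R, c ∈ (r : PrimeSpectrum R).asIdeal ∧
      ∀ a : Spec R, a ⤳ r → a = botPt R ∨ a = r := by
  have hle : Ideal.span {c} ≤ IsLocalRing.maximalIdeal R := by
    rwa [Ideal.span_singleton_le_iff_mem]
  obtain ⟨r, hr, hrle⟩ := Ideal.exists_minimalPrimes_le hle
  have hrp : r.IsPrime := hr.1.1
  have hcr : c ∈ r := hr.1.2 (Ideal.mem_span_singleton_self _)
  have hht : r.height ≤ 1 :=
    Ideal.height_le_one_of_isPrincipal_of_mem_minimalPrimes _ r hr
  refine ⟨(⟨r, hrp⟩ : PrimeSpectrum R), hcr, ?_⟩
  intro a ha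
  have ha' : (a : PrimeSpectrum R).asIdeal ≤ r := (PrimeSpectrum.le_iff_specializes _ _).mpr ha
  rcases eq_or_lt_of_le ha' with h | h
  · right
    exact PrimeSpectrum.ext h
  · left
    have hap : (a : PrimeSpectrum R).asIdeal.IsPrime := (a : PrimeSpectrum R).isPrime
    have h1 := Ideal.height_add_one_le_of_lt_of_isPrime h
    have h2 : (a : PrimeSpectrum R).asIdeal.height = 0 := by
      have h3 := h1.trans hht
      have h4 : (a : PrimeSpectrum R).asIdeal.height + 1 ≤ 0 + 1 := by simpa using h3
      have h5 : (a : PrimeSpectrum R).asIdeal.height ≤ 0 :=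
        (ENat.add_le_add_iff_right (by simp)).mp h4
      exact le_antisymm h5 bot_le
    rw [Ideal.height_eq_zero_iff_eq_bot] at h2
    exact PrimeSpectrum.ext h2

/-- The key lemma: codimension at most one lifts along `g : X ⟶ 𝒳`. -/
theorem exists_lift_codim {X 𝒳 : Scheme.{u}} [IsIntegral X] [IsLocallyNoetherian X] (g : X ⟶ 𝒳)
    (ζ : X) (hz : CodimLE1 (g (genericPoint X)) (g ζ)) :
    ∃ ζ' : X, ζ' ⤳ ζ ∧ g ζ' = g ζ ∧ Order.coheight ζ' ≤ 1 := by
  have hgen : g (genericPoint X) ⤳ g ζ := (genericPoint_specializes ζ).map g.continuous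
  by_cases hker : ∀ c ∈ IsLocalRing.maximalIdeal (𝒳.presheaf.stalk (g ζ)),
      (g.stalkMap ζ).hom c = 0
  · -- the generic point maps to `g ζ`
    refine ⟨genericPoint X, genericPoint_specializes ζ, ?_, ?_⟩
    · have h1 := stalk_comp g ζ (botPt (X.presheaf.stalk ζ))
      rw [fromSpecStalk_bot] at h1
      rw [h1]
      have h2 : Spec.map (g.stalkMap ζ) (botPt (X.presheaf.stalk ζ)) =
          IsLocalRing.closedPoint (𝒳.presheaf.stalk (g ζ)) := by
        apply PrimeSpectrum.ext
        apply le_antisymm
        · exact IsLocalRing.le_maximalIdeal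
            (PrimeSpectrum.isPrime (Spec.map (g.stalkMap ζ) (botPt (X.presheaf.stalk ζ)))).ne_top
        · intro c hc
          exact hker c hc
      rw [h2, Scheme.fromSpecStalk_closedPoint]
    · have : Order.coheight (genericPoint X) = 0 := Order.coheight_top X
      rw [this]
      simp
  · push Not at hker
    obtain ⟨c, hc, hc0⟩ := hker
    have hmem : (g.stalkMap ζ).hom c ∈ IsLocalRing.maximalIdeal (X.presheaf.stalk ζ) := by
      rw [IsLocalRing.mem_maximalIdeal] at hc ⊢
      intro hu
      exact hc (isUnit_of_map_unit (g.stalkMap ζ).hom c hu)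
    obtain ⟨R, hcr, hR⟩ := exists_height_one _ hmem
    refine ⟨X.fromSpecStalk ζ R, specializes_of_fromSpecStalk _ _, ?_, ?_⟩
    · have h1 : g (genericPoint X) ⤳ g (X.fromSpecStalk ζ R) :=
        (genericPoint_specializes _).map g.continuous
      have h2 : g (X.fromSpecStalk ζ R) ⤳ g ζ :=
        Specializes.map (specializes_of_fromSpecStalk _ _) g.continuous
      rcases hz _ h1 h2 with h3 | h3
      · exfalso
        rw [← fromSpecStalk_bot ζ, stalk_comp, stalk_comp] at h3
        have h4 := fromSpecStalk_injective _ h3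
        have h5 : c ∈ (Spec.map (g.stalkMap ζ) R : PrimeSpectrum _).asIdeal := hcr
        rw [h4] at h5
        exact hc0 h5
      · exact h3
    · apply coheight_le_one_of
      intro a ha
      have h1 : a ∈ Set.range (X.fromSpecStalk ζ) := by
        rw [Scheme.range_fromSpecStalk]
        exact ha.trans (specializes_of_fromSpecStalk _ _)
      obtain ⟨a, rfl⟩ := h1
      rw [fromSpecStalk_specializes] at ha
      rcases hR a ha with h | h
      · left
        rw [h, fromSpecStalk_bot]
      · right
        rw [h]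

end Pool.Agent.Helper411_AS
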