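import Pool.Agent.Helper411_AS.LinesLocal
import Pool.Agent.Helper411_AS.Height

/-!
# Codimension on affine lines
-/

set_option autoImplicit false

open CategoryTheory AlgebraicGeometry Limits Opposite

universe u

namespace Pool.Agent.Helper411_AS

section Ring

variable {R : Type u} [CommRing R]

theorem isPrime_map_mvC (p : Ideal R) [p.IsPrime] :
    (p.map (MvPolynomial.C : R →+* MvPolynomial PUnit.{u+1} R)).IsPrime := by
  rw [← Ideal.Quotient.isDomain_iff_prime]
  exact (MvPolynomial.quotientEquivQuotientMvPolynomial (σ := PUnit.{u+1}) p).symm.injective.isDomain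
    (MvPolynomial.quotientEquivQuotientMvPolynomial (σ := PUnit.{u+1}) p).symm.toRingHom

theorem comap_map_mvC (p : Ideal R) :
    (p.map (MvPolynomial.C : R →+* MvPolynomial PUnit.{u+1} R)).comap MvPolynomial.C = p := by
  apply le_antisymm
  · intro a ha
    rw [Ideal.mem_comap, MvPolynomial.mem_map_C_iff] at ha
    simpa using ha 0
  · exact Ideal.le_comap_map

theorem height_map_mvC_le [IsNoetherianRing R] (p : Ideal R) [p.IsPrime] :
    (p.map (MvPolynomial.C : R →+* MvPolynomial PUnit.{u+1} R)).height ≤ p.height := by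
  have hprime := isPrime_map_mvC p
  have hover : (p.map (MvPolynomial.C : R →+* MvPolynomial PUnit.{u+1} R)).LiesOver p :=
    ⟨(comap_map_mvC p).symm⟩
  have h := Ideal.height_le_height_add_of_liesOver p
    (p.map (MvPolynomial.C : R →+* MvPolynomial PUnit.{u+1} R))
  have h1 : (Ideal.map (Ideal.Quotient.mk (Ideal.map
      (algebraMap R (MvPolynomial PUnit.{u+1} R)) p))
      (p.map (MvPolynomial.C : R →+* MvPolynomial PUnit.{u+1} R))) = ⊥ := by
    rw [Ideal.map_eq_bot_iff_le_ker, Ideal.mk_ker]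
    rfl
  have hnt : Nontrivial (MvPolynomial PUnit.{u+1} R ⧸ Ideal.map
      (algebraMap R (MvPolynomial PUnit.{u+1} R)) p) :=
    Ideal.Quotient.nontrivial_iff.mpr hprime.ne_top
  rw [h1, Ideal.height_bot, add_zero] at h
  exact h

attribute [local instance] MvPolynomial.algebraMvPolynomial in
theorem height_le_one_of_comap_eq_bot [IsDomain R] (P : Ideal (MvPolynomial PUnit.{u+1} R))
    [P.IsPrime] (hP : P.comap MvPolynomial.C = ⊥) : P.height ≤ 1 := by
  have hdisj : Disjoint (((nonZeroDivisors R).map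
      (MvPolynomial.C : R →+* MvPolynomial PUnit.{u+1} R) :
      Submonoid (MvPolynomial PUnit.{u+1} R)) : Set (MvPolynomial PUnit.{u+1} R)) P := by
    rw [Set.disjoint_left]
    rintro _ ⟨a, ha, rfl⟩ haP
    have h1 : a ∈ P.comap MvPolynomial.C := haP
    rw [hP, Ideal.mem_bot] at h1
    exact nonZeroDivisors.ne_zero ha h1
  have h1 := IsLocalization.height_map_of_disjoint (S := MvPolynomial PUnit.{u+1} (FractionRing R))
    ((nonZeroDivisors R).map (MvPolynomial.C : R →+* MvPolynomial PUnit.{u+1} R)) P hdisj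
  have h2 := IsLocalization.isPrime_of_isPrime_disjoint
    ((nonZeroDivisors R).map (MvPolynomial.C : R →+* MvPolynomial PUnit.{u+1} R))
    (MvPolynomial PUnit.{u+1} (FractionRing R)) P inferInstance hdisj
  rw [← h1]
  have h3 := Ideal.height_le_ringKrullDim_of_isPrime
    (I := P.map (algebraMap _ (MvPolynomial PUnit.{u+1} (FractionRing R))))
  rw [MvPolynomial.ringKrullDim_of_isNoetherianRing, ringKrullDim_eq_zero_of_field] at h3
  simp at h3
  exact_mod_cast h3

end Ring

theorem coheight_chart {R : CommRingCat.{u}} {S : Scheme.{u}} (j : Spec R ⟶ S) [IsOpenImmersion j]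
    (P : Spec (.of (MvPolynomial PUnit.{u+1} R))) :
    Order.coheight (chart j P) = (P : PrimeSpectrum _).asIdeal.height := by
  rw [idealHeight_eq_coheight]
  exact coheight_eq_of_isOpenImmersion (chart j)

theorem over_chart {R : CommRingCat.{u}} {S : Scheme.{u}} (j : Spec R ⟶ S)
    (P : Spec (.of (MvPolynomial PUnit.{u+1} R))) :
    (𝔸(PUnit.{u+1}; S) ↘ S) (chart j P) =
      j (Spec.map (CommRingCat.ofHom (MvPolynomial.C (σ := PUnit.{u+1}))) P) :=
  congrArg (fun a : Spec (.of (MvPolynomial PUnit.{u+1} R)) ⟶ S => a P) (chart_over j)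

/-- Over every point of the base there is a point of the affine line of no larger
codimension. -/
theorem exists_over_coheight_le {S : Scheme.{u}} [IsLocallyNoetherian S] (w : S) :
    ∃ z : 𝔸(PUnit.{u+1}; S), (𝔸(PUnit.{u+1}; S) ↘ S) z = w ∧
      Order.coheight z ≤ Order.coheight w := by
  obtain ⟨W, hW, hwW, -⟩ := exists_isAffineOpen_mem_and_subset (X := S) (x := w) (U := ⊤) trivial
  have hN : IsNoetherianRing Γ(S, W) := IsLocallyNoetherian.component_noetherian ⟨W, hW⟩
  have hwj : w ∈ Set.range hW.fromSpec := by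
    rw [hW.range_fromSpec]
    exact hwW
  obtain ⟨p, hp⟩ := hwj
  have hpp : (p : PrimeSpectrum _).asIdeal.IsPrime := (p : PrimeSpectrum _).isPrime
  let P : Spec (.of (MvPolynomial PUnit.{u+1} Γ(S, W))) :=
    (⟨(p : PrimeSpectrum _).asIdeal.map MvPolynomial.C, isPrime_map_mvC _⟩ : PrimeSpectrum _)
  refine ⟨chart hW.fromSpec P, ?_, ?_⟩
  · rw [over_chart, ← hp]
    congr 1
    apply PrimeSpectrum.ext
    exact comap_map_mvC _
  · rw [coheight_chart]
    refine (height_map_mvC_le _).trans ?_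
    rw [idealHeight_eq_coheight, ← hp]
    exact (coheight_eq_of_isOpenImmersion hW.fromSpec).ge

/-- An open subset of the affine line over an integral scheme containing all points of codimension
at most one contains the affine line over a nonempty open subset of the base. -/
theorem not_dense_of_codim {S : Scheme.{u}} [IsIntegral S] (M : 𝔸(PUnit.{u+1}; S).Opens)
    (hM : ∀ z : 𝔸(PUnit.{u+1}; S), z ∉ M → 2 ≤ Order.coheight z) :
    ¬ Dense {w : S | ∃ z : 𝔸(PUnit.{u+1}; S), (𝔸(PUnit.{u+1}; S) ↘ S) z = w ∧ z ∉ M} := by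
  obtain ⟨W, hW, hwW, -⟩ := exists_isAffineOpen_mem_and_subset (X := S) (x := genericPoint S)
    (U := ⊤) trivial
  have hne : Nonempty W := ⟨⟨_, hwW⟩⟩
  have hdom : IsDomain Γ(S, W) := inferInstance
  set R := Γ(S, W) with hR
  set j : Spec R ⟶ S := hW.fromSpec with hj
  obtain ⟨I, hI⟩ : ∃ I : Ideal (MvPolynomial PUnit.{u+1} R),
      ∀ P : PrimeSpectrum (MvPolynomial PUnit.{u+1} R), chart j P ∉ M ↔ I ≤ P.asIdeal := by
    obtain ⟨I, hI⟩ := (PrimeSpectrum.isClosed_iff_zeroLocus_ideal _).mp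
      ((chart j) ⁻¹ᵁ M).isOpen.isClosed_compl
    refine ⟨I, fun P => ?_⟩
    have h1 : P ∈ PrimeSpectrum.zeroLocus (I : Set (MvPolynomial PUnit.{u+1} R)) ↔
        I ≤ P.asIdeal := Iff.rfl
    rw [← h1, ← hI]
    rfl
  have hr : ∃ r : R, r ≠ 0 ∧ MvPolynomial.C r ∈ I := by
    by_contra hcon
    push Not at hcon
    have hdisj : Disjoint (I : Set (MvPolynomial PUnit.{u+1} R)) (((nonZeroDivisors R).map
        (MvPolynomial.C : R →+* MvPolynomial PUnit.{u+1} R) :
        Submonoid (MvPolynomial PUnit.{u+1} R)) : Set (MvPolynomial PUnit.{u+1} R)) := by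
      rw [Set.disjoint_right]
      rintro _ ⟨a, ha, rfl⟩ haP
      exact hcon a (nonZeroDivisors.ne_zero ha) haP
    obtain ⟨P, hP, hIP, hPd⟩ := Ideal.exists_le_prime_disjoint _ _ hdisj
    have hcomap : P.comap MvPolynomial.C = ⊥ := by
      rw [eq_bot_iff]
      intro a ha
      by_contra ha0
      exact Set.disjoint_left.mp hPd ha ⟨a, mem_nonZeroDivisors_of_ne_zero ha0, rfl⟩
    have h1 := height_le_one_of_comap_eq_bot P hcomap
    let Q : Spec (.of (MvPolynomial PUnit.{u+1} R)) := (⟨P, hP⟩ : PrimeSpectrum _)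
    have h2 : chart j Q ∉ M := (hI ⟨P, hP⟩).mpr hIP
    have h4 := hM _ h2
    rw [coheight_chart] at h4
    exact absurd (h4.trans h1) (by decide)
  obtain ⟨r, hr0, hrI⟩ := hr
  intro hdense
  have hopen : IsOpen (j '' (PrimeSpectrum.basicOpen r : Set (PrimeSpectrum R))) :=
    j.isOpenEmbedding.isOpenMap _ (PrimeSpectrum.basicOpen r).isOpen
  obtain ⟨_, ⟨v, hv, rfl⟩, z, hz, hzM⟩ := hdense.inter_open_nonempty _ hopen
    ⟨j (botPt R), botPt R, by
      change r ∉ (⊥ : Ideal R)
      rwa [Ideal.mem_bot], rfl⟩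
  obtain ⟨P, rfl⟩ := mem_range_chart j z ⟨v, hz.symm⟩
  rw [over_chart] at hz
  have h1 := j.isOpenEmbedding.injective hz
  have h2 := (hI P).mp hzM
  apply hv
  rw [← h1]
  exact h2 hrI

end Pool.Agent.Helper411_AS
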