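import Pool.Agent.Helper411_AS.LinesFinal
import Pool.Agent.Helper411_AS.LinesCodim

/-!
# Affine spaces as towers of affine lines
-/

set_option autoImplicit false

open CategoryTheory AlgebraicGeometry Limits Opposite

universe u

namespace Pool.Agent.Helper411_AS

section Tower

variable (n : Type u) (V : Scheme.{u})

/-- The affine line over affine space is affine space. -/
noncomputable def towerHom : 𝔸(PUnit.{u+1}; 𝔸(n; V)) ⟶ 𝔸(Option n; V) :=
  AffineSpace.homOfVector ((𝔸(PUnit.{u+1}; 𝔸(n; V)) ↘ 𝔸(n; V)) ≫ (𝔸(n; V) ↘ V))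
    (fun o => o.elim (AffineSpace.coord _ PUnit.unit)
      (fun i => (𝔸(PUnit.{u+1}; 𝔸(n; V)) ↘ 𝔸(n; V)).appTop (AffineSpace.coord V i)))

/-- Affine space as affine line over affine space. -/
noncomputable def towerInv : 𝔸(Option n; V) ⟶ 𝔸(PUnit.{u+1}; 𝔸(n; V)) :=
  AffineSpace.homOfVector (AffineSpace.reindex some V) (fun _ => AffineSpace.coord V none)

@[reassoc]
theorem towerHom_over : towerHom n V ≫ (𝔸(Option n; V) ↘ V) =
    (𝔸(PUnit.{u+1}; 𝔸(n; V)) ↘ 𝔸(n; V)) ≫ (𝔸(n; V) ↘ V) :=
  AffineSpace.homOfVector_over _ _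

@[reassoc]
theorem towerInv_over : towerInv n V ≫ (𝔸(PUnit.{u+1}; 𝔸(n; V)) ↘ 𝔸(n; V)) =
    AffineSpace.reindex some V :=
  AffineSpace.homOfVector_over _ _

theorem towerHom_none : (towerHom n V).appTop (AffineSpace.coord V none) =
    AffineSpace.coord _ PUnit.unit :=
  AffineSpace.homOfVector_appTop_coord _ _ _

theorem towerHom_some (i : n) : (towerHom n V).appTop (AffineSpace.coord V (some i)) =
    (𝔸(PUnit.{u+1}; 𝔸(n; V)) ↘ 𝔸(n; V)).appTop (AffineSpace.coord V i) :=
  AffineSpace.homOfVector_appTop_coord _ _ _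

theorem towerInv_coord : (towerInv n V).appTop (AffineSpace.coord _ PUnit.unit) =
    AffineSpace.coord V none :=
  AffineSpace.homOfVector_appTop_coord _ _ _

theorem towerHom_reindex : towerHom n V ≫ AffineSpace.reindex some V =
    (𝔸(PUnit.{u+1}; 𝔸(n; V)) ↘ 𝔸(n; V)) := by
  apply AffineSpace.hom_ext
  · rw [Category.assoc, AffineSpace.reindex_over, towerHom_over]
  · intro i
    rw [Scheme.Hom.comp_appTop, CommRingCat.comp_apply, AffineSpace.reindex_appTop_coord,
      towerHom_some]

theorem towerHom_towerInv : towerHom n V ≫ towerInv n V = 𝟙 _ := by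
  apply AffineSpace.hom_ext
  · rw [Category.assoc, towerInv_over, towerHom_reindex, Category.id_comp]
  · rintro ⟨⟩
    rw [Scheme.Hom.comp_appTop, CommRingCat.comp_apply, towerInv_coord, towerHom_none]
    simp

theorem towerInv_towerHom : towerInv n V ≫ towerHom n V = 𝟙 _ := by
  apply AffineSpace.hom_ext
  · rw [Category.assoc, towerHom_over, ← Category.assoc, towerInv_over, AffineSpace.reindex_over,
      Category.id_comp]
  · rintro (_ | i)
    · rw [Scheme.Hom.comp_appTop, CommRingCat.comp_apply, towerHom_none, towerInv_coord]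
      simp
    · rw [Scheme.Hom.comp_appTop, CommRingCat.comp_apply, towerHom_some, ← CommRingCat.comp_apply,
        ← Scheme.Hom.comp_appTop, towerInv_over, AffineSpace.reindex_appTop_coord]
      simp

/-- The affine line over affine space is affine space. -/
noncomputable def towerIso : 𝔸(PUnit.{u+1}; 𝔸(n; V)) ≅ 𝔸(Option n; V) where
  hom := towerHom n V
  inv := towerInv n V
  hom_inv_id := towerHom_towerInv n V
  inv_hom_id := towerInv_towerHom n V

instance : IsIso (towerHom n V) := (towerIso n V).isIso_hom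

end Tower

section Reindex

variable {n m : Type u} (e : m ≃ n) (V : Scheme.{u})

instance : IsIso (AffineSpace.reindex e V) := by
  refine ⟨AffineSpace.reindex e.symm V, ?_, ?_⟩
  · apply AffineSpace.hom_ext
    · simp
    · intro i
      rw [Scheme.Hom.comp_appTop, CommRingCat.comp_apply, AffineSpace.reindex_appTop_coord,
        AffineSpace.reindex_appTop_coord]
      simp
  · apply AffineSpace.hom_ext
    · simp
    · intro i
      rw [Scheme.Hom.comp_appTop, CommRingCat.comp_apply, AffineSpace.reindex_appTop_coord,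
        AffineSpace.reindex_appTop_coord]
      simp

end Reindex

variable {k : Type u} [Field k]

/-- Invariance under isomorphisms. -/
theorem ArithmeticallySpecial.of_isIso {X Y : Scheme.{u}} {s : X ⟶ Spec (.of k)}
    {t : Y ⟶ Spec (.of k)} (e : Y ⟶ X) [IsIso e] (he : e ≫ s = t)
    (h : ArithmeticallySpecial s) : ArithmeticallySpecial t := by
  obtain ⟨A, 𝒳, π, g, hA, h1, h2, h3, hp, hd⟩ := h
  refine ⟨A, 𝒳, π, e ≫ g, hA, h1, h2, h3, ?_, ?_⟩
  · have h4 : IsPullback e t s (𝟙 _) := IsPullback.of_horiz_isIso ⟨by rw [he, Category.comp_id]⟩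
    have h5 := h4.paste_horiz hp
    rwa [Category.id_comp] at h5
  · have h4 := hd.preimage e.isOpenEmbedding.isOpenMap
    refine h4.mono ?_
    rintro y ⟨P, z, hP, hz, hzP, hzy⟩
    refine ⟨P, z ≫ inv e, hP, ?_, ?_, ?_⟩
    · rw [← he, Category.assoc, IsIso.inv_hom_id_assoc, hz]
    · rw [Category.assoc, IsIso.inv_hom_id_assoc, hzP]
    · apply e.isOpenEmbedding.injective
      rw [← hzy]
      have h6 : z = (z ≫ inv e) ≫ e := by rw [Category.assoc, IsIso.inv_hom_id, Category.comp_id]
      conv_rhs => rw [h6]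
      rfl

theorem ArithmeticallySpecial.hasModel {X : Scheme.{u}} {s : X ⟶ Spec (.of k)}
    (h : ArithmeticallySpecial s) : HasModel s := by
  obtain ⟨A, 𝒳, π, g, hA, h1, h2, h3, hp, hd⟩ := h
  exact ⟨A, 𝒳, π, g, hA, h1, h2, h3, hp⟩

theorem HasModel.affineSpace {V : Scheme.{u}} {v : V ⟶ Spec (.of k)}
    (h : HasModel v) (n : Type u) [Finite n] : HasModel ((𝔸(n; V) ↘ V) ≫ v) := by
  obtain ⟨A, 𝒱, π, g, hA, h1, h2, h3, hp⟩ := h
  exact ⟨A, 𝔸(n; 𝒱), (𝔸(n; 𝒱) ↘ 𝒱) ≫ π, AffineSpace.map n g, hA, inferInstance, inferInstance,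
    inferInstance, (AffineSpace.isPullback_map g).paste_vert hp⟩

end Pool.Agent.Helper411_AS
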