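import Pool.Agent.Helper411_AS.FieldExt
import Pool.Agent.Helper411_AS.Height
import Pool.Agent.Helper411_AS.Tower

/-!
# Puncturing after extension of the base field: the property and towers
-/

set_option autoImplicit false

open CategoryTheory AlgebraicGeometry Limits Opposite

universe u

namespace Pool.Agent.Helper411_AS

/-- Integrality descends along flat surjective morphisms. -/
theorem isIntegral_of_flat_surjective {X' X : Scheme.{u}} (f : X' ⟶ X) [Flat f] [Surjective f]
    [IsIntegral X'] : IsIntegral X := by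
  have hred : IsReduced X := by
    have h : ∀ x : X, _root_.IsReduced (X.presheaf.stalk x) := by
      intro x
      obtain ⟨x, rfl⟩ := f.surjective x
      have hinj : Function.Injective (f.stalkMap x).hom := by
        algebraize [(f.stalkMap x).hom]
        have : Module.FaithfullyFlat (X.presheaf.stalk (f x)) (X'.presheaf.stalk x) :=
          @Module.FaithfullyFlat.of_flat_of_isLocalHom _ _ _ _ _ _ _
            (Flat.stalkMap f x) (f.toLRSHom.prop x)
        exact ‹RingHom.FaithfullyFlat _›.injective
      exact isReduced_of_injective (f.stalkMap x).hom hinj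
    exact isReduced_of_isReduced_stalk X
  have hirr : IrreducibleSpace X := by
    have h1 := (IrreducibleSpace.isIrreducible_univ X').image f f.continuous.continuousOn
    rw [Set.image_univ, Set.range_eq_univ.mpr f.surjective] at h1
    rwa [irreducibleSpace_def]
  exact isIntegral_of_irreducibleSpace_of_isReduced X

variable {K L M : Type u} [Field K] [Field L] [Field M] [Algebra K L]

section

variable {X XL : Scheme.{u}} {s : X ⟶ Spec (.of K)} {sL : XL ⟶ Spec (.of L)} {gL : XL ⟶ X}
  (hL : IsPullback gL sL s (specMap K L))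

include hL

theorem flat_of_field : Flat gL := by
  have : Subsingleton (Spec (.of K)) := subsingleton_spec_field _
  have h1 : Flat (specMap K L) := inferInstance
  exact MorphismProperty.of_isPullback hL.flip h1

theorem surjective_of_field : Surjective gL := by
  have : Subsingleton (Spec (.of K)) := subsingleton_spec_field _
  have h1 : Surjective (specMap K L) := by
    refine ⟨fun x => ⟨(IsLocalRing.closedPoint L : Spec (.of L)), Subsingleton.elim _ _⟩⟩
  exact MorphismProperty.of_isPullback hL.flip h1

theorem isIntegral_of_field [IsIntegral XL] : IsIntegral X := by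
  have h1 := flat_of_field hL
  have h2 := surjective_of_field hL
  exact isIntegral_of_flat_surjective gL

/-- Points of codimension at least two downstairs. -/
theorem two_le_coheight_of_field [IsIntegral XL] [IsLocallyNoetherian XL] (U : XL.Opens)
    (hU : ∀ z : XL, z ∉ U → 2 ≤ Order.coheight z) (w : X) (hw : ∀ z : XL, gL z = w → z ∉ U) :
    2 ≤ Order.coheight w := by
  have h2 := surjective_of_field hL
  by_contra hcon
  have hcodim : CodimLE1 (gL (genericPoint XL)) w := by
    intro a h3 h4
    by_contra h5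
    push Not at h5
    apply hcon
    have h6 : w < a := lt_of_le_not_ge h4 (fun h => h5.2 (h4.antisymm h).eq)
    have h7 : a < gL (genericPoint XL) := lt_of_le_not_ge h3 (fun h => by
      have h8 : a ⤳ gL (genericPoint XL) := h
      exact h5.1 (h8.antisymm h3).eq)
    have h8 := Order.coheight_add_one_le h7
    have h9 := Order.coheight_add_one_le h6
    have h10 : (1 : ℕ∞) ≤ Order.coheight a := le_trans (by simp) h8
    calc (2 : ℕ∞) = 1 + 1 := by norm_num
      _ ≤ Order.coheight a + 1 := by gcongr
      _ ≤ _ := h9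
  obtain ⟨z, rfl⟩ := gL.surjective w
  obtain ⟨z', -, hz', hz'c⟩ := exists_lift_codim gL z hcodim
  have h3 := (hU z' (hw z' hz')).trans hz'c
  exact absurd h3 (by decide)

end

/-- Puncturing after extension of the base field from `K` to `L`. -/
def PunctExt (K L : Type u) [Field K] [Field L] [Algebra K L] : Prop :=
  ∀ (X XL : Scheme.{u}) (s : X ⟶ Spec (.of K)) (sL : XL ⟶ Spec (.of L)) (gL : XL ⟶ X),
    IsPullback gL sL s (specMap K L) → IsIntegral X → IsIntegral XL → IsSeparated s →
    LocallyOfFiniteType s → QuasiCompact s →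
    ArithmeticallySpecial s → ∀ U : XL.Opens, (∀ z : XL, z ∉ U → 2 ≤ Order.coheight z) →
      (∀ x : X, ∃ z : XL, gL z = x ∧ z ∈ U) → ArithmeticallySpecial (U.ι ≫ sL)

theorem specMap_specMap [Algebra L M] [Algebra K M] [IsScalarTower K L M] :
    specMap L M ≫ specMap K L = specMap K M := by
  rw [← Spec.map_comp, ← CommRingCat.ofHom_comp, ← IsScalarTower.algebraMap_eq]

/-- The image of an open subset under the projection. -/
def imF {X XL : Scheme.{u}} {s : X ⟶ Spec (.of K)} {sL : XL ⟶ Spec (.of L)} {gL : XL ⟶ X}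
    (hL : IsPullback gL sL s (specMap K L)) (U : XL.Opens) : X.Opens :=
  ⟨gL '' (U : Set XL), by
    have h := universallyOpen_of_field hL
    exact gL.isOpenMap _ U.isOpen⟩

/-- The base change of an open subset. -/
theorem restrict_isPullback {X XL : Scheme.{u}} {s : X ⟶ Spec (.of K)} {sL : XL ⟶ Spec (.of L)}
    {gL : XL ⟶ X} (hL : IsPullback gL sL s (specMap K L)) (V : X.Opens) :
    IsPullback (gL ∣_ V) ((gL ⁻¹ᵁ V).ι ≫ sL) (V.ι ≫ s) (specMap K L) :=
  (isPullback_morphismRestrict gL V).paste_vert hL

/-- The property is transitive in towers. -/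
theorem PunctExt.trans [Algebra L M] [Algebra K M] [IsScalarTower K L M]
    (h₁ : PunctExt K L) (h₂ : PunctExt L M) : PunctExt K M := by
  intro X XM s sM gM hM hX hXM hsep hft hqc hAS U hU hUs
  -- the intermediate scheme
  let XL := pullback s (specMap K L)
  let sL : XL ⟶ Spec (.of L) := pullback.snd s (specMap K L)
  let gL : XL ⟶ X := pullback.fst s (specMap K L)
  have hL : IsPullback gL sL s (specMap K L) := IsPullback.of_hasPullback _ _
  let gML : XM ⟶ XL := hL.lift gM (sM ≫ specMap L M) (by
    rw [Category.assoc, specMap_specMap, hM.w])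
  have hgML : gML ≫ gL = gM := IsPullback.lift_fst _ _ _ _
  have hML : IsPullback gML sM sL (specMap L M) := by
    refine IsPullback.of_right (h₁₂ := gL) (h₂₂ := specMap K L) (v₁₃ := s) ?_
      (IsPullback.lift_snd _ _ _ _) hL
    rw [hgML, specMap_specMap]
    exact hM
  have hXL : IsIntegral XL := isIntegral_of_field hML
  have hXMn : IsLocallyNoetherian XM := by
    have : LocallyOfFiniteType sM := MorphismProperty.of_isPullback hM hft
    exact LocallyOfFiniteType.isLocallyNoetherian sM
  let V := imF hML U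
  have hVc : ∀ w : XL, w ∉ V → 2 ≤ Order.coheight w := by
    intro w hw
    apply two_le_coheight_of_field hML U hU w
    intro z hz hzU
    exact hw ⟨z, hzU, hz⟩
  have hVs : ∀ x : X, ∃ z : XL, gL z = x ∧ z ∈ V := by
    intro x
    obtain ⟨z, hz, hzU⟩ := hUs x
    refine ⟨gML z, ?_, z, hzU, rfl⟩
    rw [← Scheme.Hom.comp_apply, hgML, hz]
  have hVAS := h₁ X XL s sL gL hL hX hXL hsep hft hqc hAS V hVc hVs
  -- the open subset of `XM` over `V`
  have hUV : U ≤ gML ⁻¹ᵁ V := fun z hz => ⟨z, hz, rfl⟩
  obtain ⟨x₀⟩ := (inferInstance : Nonempty X)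
  obtain ⟨z₀, -, hz₀⟩ := hUs x₀
  have hne : Nonempty V := ⟨⟨gML z₀, z₀, hz₀, rfl⟩⟩
  have hne' : Nonempty (gML ⁻¹ᵁ V) := ⟨⟨z₀, hUV hz₀⟩⟩
  have hsL : IsSeparated sL := inferInstance
  have hsLf : LocallyOfFiniteType sL := inferInstance
  have hsLq : QuasiCompact sL := inferInstance
  have hXLn : IsLocallyNoetherian XL := LocallyOfFiniteType.isLocallyNoetherian sL
  have h3 := h₂ V (gML ⁻¹ᵁ V) (V.ι ≫ sL) ((gML ⁻¹ᵁ V).ι ≫ sM) (gML ∣_ V)
    (restrict_isPullback hML V) inferInstance inferInstance inferInstance inferInstance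
    inferInstance hVAS ((gML ⁻¹ᵁ V).ι ⁻¹ᵁ U) ?_ ?_
  · refine h3.of_isIso (Scheme.Opens.isoOfLE hUV).inv ?_
    rw [← Category.assoc, ← Category.assoc, Category.assoc (Scheme.Opens.isoOfLE hUV).inv,
      Scheme.Opens.isoOfLE_inv_ι]
  · intro z hz
    have h4 := hU ((gML ⁻¹ᵁ V).ι z) hz
    rw [coheight_eq_of_isOpenImmersion] at h4
    exact h4
  · rintro ⟨w, z, hz, rfl⟩
    refine ⟨⟨z, hUV hz⟩, ?_, hz⟩
    apply V.ι.isOpenEmbedding.injective
    exact congrArg (fun f : ((gML ⁻¹ᵁ V : XM.Opens) : Scheme.{u}) ⟶ XL =>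
      f (⟨z, hUV hz⟩ : (gML ⁻¹ᵁ V : XM.Opens))) (morphismRestrict_ι gML V)

end Pool.Agent.Helper411_AS
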