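import Pool.Agent.Helper411_AS.NonVanish
import Pool.Agent.Helper411_AS.PunctExt

/-!
# Moving a closed subset away from the points over a smaller field
-/

set_option autoImplicit false

open CategoryTheory AlgebraicGeometry Limits Opposite TensorProduct

universe u

namespace Pool.Agent.Helper411_AS

variable {K k : Type u} [Field K] [Field k] [Algebra K k]

section Slice

variable {T X : Scheme.{u}} {t : T ⟶ Spec (.of k)} {s : X ⟶ Spec (.of k)}

/-- The slice of a product over a rational point. -/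
noncomputable def slice (t : T ⟶ Spec (.of k)) (s : X ⟶ Spec (.of k))
    (y : Spec (.of k) ⟶ X) (hy : y ≫ s = 𝟙 _) : T ⟶ pullback t s :=
  pullback.lift (𝟙 T) (t ≫ y) (by rw [Category.id_comp, Category.assoc, hy, Category.comp_id])

@[reassoc (attr := simp)]
theorem slice_fst (y : Spec (.of k) ⟶ X) (hy : y ≫ s = 𝟙 _) :
    slice t s y hy ≫ pullback.fst t s = 𝟙 T := pullback.lift_fst _ _ _

@[reassoc (attr := simp)]
theorem slice_snd (y : Spec (.of k) ⟶ X) (hy : y ≫ s = 𝟙 _) :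
    slice t s y hy ≫ pullback.snd t s = t ≫ y := pullback.lift_snd _ _ _

end Slice

section Ring

variable {S R : Type u} [CommRing S] [CommRing R] [Algebra K S] [Algebra K R]

/-- Evaluation of the second variable. -/
noncomputable def evalR (η : R →ₐ[K] K) : S ⊗[K] R →ₐ[K] S :=
  Algebra.TensorProduct.lift (AlgHom.id K S) ((Algebra.ofId K S).comp η)
    (fun _ _ => Commute.all _ _)

theorem evalR_tmul (η : R →ₐ[K] K) (a : S) (r : R) :
    evalR η (a ⊗ₜ[K] r) = a * algebraMap K S (η r) := by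
  simp [evalR]

/-- The values of a function in two variables for varying second variable lie in a finite
dimensional space. -/
theorem exists_submodule (f : S ⊗[K] R) :
    ∃ V : Submodule K S, V.FG ∧ ∀ η : R →ₐ[K] K, evalR η f ∈ V := by
  induction f using TensorProduct.induction_on with
  | zero => exact ⟨⊥, Submodule.fg_bot, fun η => by rw [map_zero]; exact Submodule.zero_mem _⟩
  | tmul a r =>
    refine ⟨Submodule.span K {a}, Submodule.fg_span_singleton a, fun η => ?_⟩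
    rw [evalR_tmul, mul_comm, ← Algebra.smul_def]
    exact Submodule.smul_mem _ _ (Submodule.mem_span_singleton_self a)
  | add f g hf hg =>
    obtain ⟨V, hV, hVf⟩ := hf
    obtain ⟨W, hW, hWg⟩ := hg
    refine ⟨V ⊔ W, hV.sup hW, fun η => ?_⟩
    rw [map_add]
    exact Submodule.add_mem_sup (hVf η) (hWg η)

end Ring

section Local

variable {S R : Type u} [CommRing S] [CommRing R] [Algebra K S] [Algebra K R] [Algebra k S]
  [IsScalarTower K k S]
  {T X X₀ : Scheme.{u}} {t : T ⟶ Spec (.of k)} {s : X ⟶ Spec (.of k)} {s₀ : X₀ ⟶ Spec (.of K)}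
  {g : X ⟶ X₀} (hg : IsPullback g s s₀ (specMap K k))
  (jT : Spec (.of S) ⟶ T) (hjT : jT ≫ t = specMap k S)
  (jR : Spec (.of R) ⟶ X₀) (hjR : jR ≫ s₀ = specMap K R)

/-- The first projection of the product chart. -/
noncomputable def chartL (K S R : Type u) [Field K] [CommRing S] [CommRing R] [Algebra K S] [Algebra K R] :
    Spec (.of (S ⊗[K] R)) ⟶ Spec (.of S) :=
  Spec.map (CommRingCat.ofHom (Algebra.TensorProduct.includeLeft (R := K) (S := K)
    (A := S) (B := R)).toRingHom)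

/-- The second projection of the product chart. -/
noncomputable def chartR (K S R : Type u) [Field K] [CommRing S] [CommRing R] [Algebra K S] [Algebra K R] :
    Spec (.of (S ⊗[K] R)) ⟶ Spec (.of R) :=
  Spec.map (CommRingCat.ofHom (Algebra.TensorProduct.includeRight (R := K)
    (A := S) (B := R)).toRingHom)

theorem chart_w : chartR K S R ≫ specMap K R = chartL K S R ≫ specMap K S := by
  rw [chartL, chartR, ← Spec.map_comp, ← Spec.map_comp, ← CommRingCat.ofHom_comp,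
    ← CommRingCat.ofHom_comp]
  congr 2
  ext c
  simp

/-- The spectrum of the evaluation. -/
noncomputable def specEval (η : R →ₐ[K] K) : Spec (.of S) ⟶ Spec (.of (S ⊗[K] R)) :=
  Spec.map (CommRingCat.ofHom (evalR η).toRingHom)

theorem specEval_chartL (η : R →ₐ[K] K) : specEval (S := S) η ≫ chartL K S R = 𝟙 _ := by
  rw [specEval, chartL, ← Spec.map_comp, ← CommRingCat.ofHom_comp, ← Spec.map_id]
  congr 1
  apply CommRingCat.hom_ext
  ext a
  simp [evalR]

theorem specEval_chartR (η : R →ₐ[K] K) : specEval (S := S) η ≫ chartR K S R =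
    specMap K S ≫ Spec.map (CommRingCat.ofHom η.toRingHom) := by
  rw [specEval, chartR, ← Spec.map_comp, ← CommRingCat.ofHom_comp, ← Spec.map_comp,
    ← CommRingCat.ofHom_comp]
  congr 2
  ext a
  simp [evalR]

theorem specMap_tower : specMap k S ≫ specMap K k = specMap K S := by
  rw [← Spec.map_comp, ← CommRingCat.ofHom_comp, ← IsScalarTower.algebraMap_eq]

include hjT hjR in
theorem chart_aux : (chartR K S R ≫ jR) ≫ s₀ = (chartL K S R ≫ jT ≫ t) ≫ specMap K k := by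
  rw [Category.assoc, hjR, chart_w, hjT, Category.assoc, specMap_tower]

/-- The product chart. -/
noncomputable def prodChart : Spec (.of (S ⊗[K] R)) ⟶ pullback t s :=
  pullback.lift (chartL K S R ≫ jT) (hg.lift (chartR K S R ≫ jR) (chartL K S R ≫ jT ≫ t)
    (chart_aux jT hjT jR hjR)) (by
    rw [IsPullback.lift_snd, Category.assoc])

theorem specEval_prodChart (η : R →ₐ[K] K) (y₀ : Spec (.of K) ⟶ X₀) (hy₀ : y₀ ≫ s₀ = 𝟙 _)
    (hη : Spec.map (CommRingCat.ofHom η.toRingHom) ≫ jR = y₀) :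
    specEval η ≫ prodChart hg jT hjT jR hjR =
      jT ≫ slice t s (ptL hg y₀ hy₀) (ptL_s hg y₀ hy₀) := by
  apply pullback.hom_ext
  · rw [Category.assoc, Category.assoc, slice_fst, prodChart, pullback.lift_fst,
      ← Category.assoc, specEval_chartL, Category.id_comp, Category.comp_id]
  · rw [Category.assoc, Category.assoc, slice_snd, prodChart, pullback.lift_snd]
    apply hg.hom_ext
    · rw [Category.assoc, IsPullback.lift_fst, ← Category.assoc, specEval_chartR, Category.assoc,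
        hη, Category.assoc, Category.assoc, ptL_g, ← Category.assoc, hjT, ← Category.assoc,
        specMap_tower]
    · rw [Category.assoc, IsPullback.lift_snd, ← Category.assoc, specEval_chartL,
        Category.id_comp, Category.assoc, Category.assoc, ptL_s, Category.comp_id]

end Local

section Main

variable {S R : Type u} [CommRing S] [CommRing R] [Algebra K S] [Algebra K R] [Algebra k S]
  [IsScalarTower K k S] [Algebra.FiniteType k S] [Algebra.FiniteType K R]
  {T X X₀ : Scheme.{u}} {t : T ⟶ Spec (.of k)} {s : X ⟶ Spec (.of k)} {s₀ : X₀ ⟶ Spec (.of K)}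
  {g : X ⟶ X₀} (hg : IsPullback g s s₀ (specMap K k))
  (jT : Spec (.of S) ⟶ T) (hjT : jT ≫ t = specMap k S)
  (jR : Spec (.of R) ⟶ X₀) (hjR : jR ≫ s₀ = specMap K R)

include hjT hjR in
theorem exists_submodule_chart (O : (pullback t s).Opens) : ∃ V : Submodule K S, V.FG ∧
    ∀ (η : R →ₐ[K] K) (y₀ : Spec (.of K) ⟶ X₀) (hy₀ : y₀ ≫ s₀ = 𝟙 _),
      Spec.map (CommRingCat.ofHom η.toRingHom) ≫ jR = y₀ →
      (∃ σ : Spec (.of S), slice t s (ptL hg y₀ hy₀) (ptL_s hg y₀ hy₀) (jT σ) ∈ O) →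
      ∀ P : S →ₐ[k] k, (∀ v ∈ V, v ≠ 0 → P v ≠ 0) →
        atPt ((Spec.map (CommRingCat.ofHom P.toRingHom) ≫ jT) ≫
          slice t s (ptL hg y₀ hy₀) (ptL_s hg y₀ hy₀)) ∈ O := by
  have hN : IsNoetherianRing (S ⊗[K] R) := by
    have h1 : IsNoetherianRing S := Algebra.FiniteType.isNoetherianRing k S
    exact Algebra.FiniteType.isNoetherianRing S (S ⊗[K] R)
  obtain ⟨I, hI⟩ : ∃ I : Ideal (S ⊗[K] R), ∀ q : Spec (.of (S ⊗[K] R)),
      prodChart hg jT hjT jR hjR q ∈ O ↔ ¬ I ≤ (q : PrimeSpectrum (S ⊗[K] R)).asIdeal := by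
    obtain ⟨I, hI⟩ := (PrimeSpectrum.isClosed_iff_zeroLocus_ideal _).mp
      ((prodChart hg jT hjT jR hjR) ⁻¹ᵁ O).isOpen.isClosed_compl
    refine ⟨I, fun q => ?_⟩
    have h1 : (q : PrimeSpectrum (S ⊗[K] R)) ∈ PrimeSpectrum.zeroLocus (I : Set (S ⊗[K] R)) ↔
        I ≤ (q : PrimeSpectrum (S ⊗[K] R)).asIdeal := Iff.rfl
    rw [← h1, ← hI]
    exact (not_not (a := prodChart hg jT hjT jR hjR q ∈ O)).symm
  obtain ⟨F, hF⟩ := (isNoetherianRing_iff_ideal_fg _).mp hN I
  choose V hV hVη using fun f : S ⊗[K] R => exists_submodule (K := K) (S := S) (R := R) f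
  refine ⟨F.sup V, Submodule.fg_finset_sup F V (fun f _ => hV f), ?_⟩
  intro η y₀ hy₀ hη ⟨σ, hσ⟩ P hP
  have hcomp := specEval_prodChart hg jT hjT jR hjR η y₀ hy₀ hη
  have h1 : prodChart hg jT hjT jR hjR (specEval η σ) ∈ O := by
    rw [← Scheme.Hom.comp_apply, hcomp, Scheme.Hom.comp_apply]
    exact hσ
  rw [hI] at h1
  have h2 : ∃ f ∈ F, evalR (S := S) η f ∉ (σ : PrimeSpectrum S).asIdeal := by
    by_contra hcon
    push Not at hcon
    apply h1
    rw [← hF, Ideal.span_le]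
    intro f hf
    exact hcon f hf
  obtain ⟨f, hf, hfσ⟩ := h2
  have hf0 : evalR (S := S) η f ≠ 0 := by
    intro h
    apply hfσ
    rw [h]
    exact Ideal.zero_mem _
  have hle : V f ≤ F.sup V := Finset.le_sup hf
  have hfV : evalR (S := S) η f ∈ F.sup V := hle (hVη f η)
  have hPf := hP _ hfV hf0
  rw [Category.assoc, ← hcomp, ← Category.assoc, atPt_comp, hI]
  intro hle
  have h3 : f ∈ I := hF ▸ Ideal.subset_span hf
  have h4 := hle h3
  apply hPf
  have h5 : P (evalR (S := S) η f) ∈ IsLocalRing.maximalIdeal k := h4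
  rw [IsLocalRing.maximalIdeal_eq_bot] at h5
  exact h5

end Main

section Global

variable {T X X₀ : Scheme.{u}} {t : T ⟶ Spec (.of k)} {s : X ⟶ Spec (.of k)}
  {s₀ : X₀ ⟶ Spec (.of K)} {g : X ⟶ X₀}

/-- The algebra structure on an affine chart. -/
theorem exists_algebra_chart {F : Type u} [Field F] {Y : Scheme.{u}} (y : Y ⟶ Spec (.of F))
    [LocallyOfFiniteType y] (W : Y.Opens) (hW : IsAffineOpen W) :
    ∃ φ : F →+* Γ(Y, W), φ.FiniteType ∧
      hW.fromSpec ≫ y = Spec.map (CommRingCat.ofHom φ) := by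
  obtain ⟨φ, hφ⟩ : ∃ φ : CommRingCat.of F ⟶ Γ(Y, W), Spec.map φ = hW.fromSpec ≫ y :=
    ⟨Spec.preimage _, Spec.map_preimage _⟩
  refine ⟨φ.hom, ?_, hφ.symm⟩
  have h1 : LocallyOfFiniteType (Spec.map φ) := by
    rw [hφ]
    infer_instance
  exact (HasRingHomProperty.Spec_iff (P := @LocallyOfFiniteType)).mp h1

theorem exists_submodule_affine {S : Type u} [CommRing S] [Algebra K S] [Algebra k S]
    [IsScalarTower K k S] [Algebra.FiniteType k S] [IsIntegral T]
    [LocallyOfFiniteType s₀] (hg : IsPullback g s s₀ (specMap K k))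
    (jT : Spec (.of S) ⟶ T) [IsOpenImmersion jT] (hne : Nonempty (Spec (.of S)))
    (hjT : jT ≫ t = specMap k S)
    (O : (pullback t s).Opens) (W : X₀.Opens) (hW : IsAffineOpen W) :
    ∃ V : Submodule K S, V.FG ∧
    ∀ (y₀ : Spec (.of K) ⟶ X₀) (hy₀ : y₀ ≫ s₀ = 𝟙 _), atPt y₀ ∈ W →
      (∃ τ : T, slice t s (ptL hg y₀ hy₀) (ptL_s hg y₀ hy₀) τ ∈ O) →
      ∀ P : S →ₐ[k] k, (∀ v ∈ V, v ≠ 0 → P v ≠ 0) →
        atPt ((Spec.map (CommRingCat.ofHom P.toRingHom) ≫ jT) ≫
          slice t s (ptL hg y₀ hy₀) (ptL_s hg y₀ hy₀)) ∈ O := by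
  obtain ⟨ψ, hψ, hψX⟩ := exists_algebra_chart s₀ W hW
  let _ : Algebra K Γ(X₀, W) := ψ.toAlgebra
  have hft : Algebra.FiniteType K Γ(X₀, W) := hψ
  obtain ⟨V, hV, hVP⟩ := exists_submodule_chart (K := K) (R := Γ(X₀, W)) hg jT hjT hW.fromSpec
    hψX O
  refine ⟨V, hV, ?_⟩
  intro y₀ hy₀ hy₀W ⟨τ, hτ⟩
  -- factor the point through the affine chart
  obtain ⟨y₁, hy₁⟩ : ∃ y₁ : Spec (.of K) ⟶ Spec Γ(X₀, W), y₁ ≫ hW.fromSpec = y₀ :=
    ⟨IsOpenImmersion.lift hW.fromSpec y₀ (by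
      rintro _ ⟨q, rfl⟩
      rw [apply_eq_atPt, hW.range_fromSpec]
      exact hy₀W), IsOpenImmersion.lift_fac _ _ _⟩
  obtain ⟨χ, hχ⟩ : ∃ χ : Γ(X₀, W) ⟶ .of K, Spec.map χ = y₁ :=
    ⟨Spec.preimage y₁, Spec.map_preimage _⟩
  have hχψ : χ.hom.comp ψ = RingHom.id K := by
    have h1 : Spec.map (CommRingCat.ofHom (χ.hom.comp ψ)) = 𝟙 _ := by
      rw [CommRingCat.ofHom_comp, Spec.map_comp, ← hψX]
      change Spec.map χ ≫ hW.fromSpec ≫ s₀ = 𝟙 _
      rw [hχ, ← Category.assoc, hy₁, hy₀]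
    have h2 : CommRingCat.ofHom (χ.hom.comp ψ) = 𝟙 _ := by
      apply Spec.map_injective
      rw [h1, Spec.map_id]
    exact congrArg CommRingCat.Hom.hom h2
  let η : Γ(X₀, W) →ₐ[K] K :=
    { χ.hom with
      commutes' := fun c => congrArg (fun f => f c) hχψ }
  refine hVP η y₀ hy₀ ?_ ?_
  · change Spec.map χ ≫ hW.fromSpec = y₀
    rw [hχ, hy₁]
  · -- the slice is nonempty and open, so it meets the chart
    obtain ⟨q⟩ := hne
    have h1 : IsOpen (Set.range jT) := jT.isOpenEmbedding.isOpen_range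
    have h2 : IsOpen ((slice t s (ptL hg y₀ hy₀) (ptL_s hg y₀ hy₀)) ⁻¹' (O : Set _)) :=
      O.isOpen.preimage (Scheme.Hom.continuous _)
    obtain ⟨_, ⟨σ, rfl⟩, hσ⟩ := nonempty_preirreducible_inter h1 h2 ⟨jT q, q, rfl⟩ ⟨τ, hτ⟩
    exact ⟨σ, hσ⟩

theorem exists_moving_point [IsAlgClosed K] [IsAlgClosed k]
    (h : ¬ Function.Surjective (algebraMap K k)) [IsIntegral T] [LocallyOfFiniteType t]
    [LocallyOfFiniteType s₀] [QuasiCompact s₀] (hg : IsPullback g s s₀ (specMap K k))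
    (O : (pullback t s).Opens)
    (hO : ∀ (y₀ : Spec (.of K) ⟶ X₀) (hy₀ : y₀ ≫ s₀ = 𝟙 _),
      ∃ τ : T, slice t s (ptL hg y₀ hy₀) (ptL_s hg y₀ hy₀) τ ∈ O) :
    ∃ P : Spec (.of k) ⟶ T, P ≫ t = 𝟙 _ ∧
      ∀ (y₀ : Spec (.of K) ⟶ X₀) (hy₀ : y₀ ≫ s₀ = 𝟙 _),
        atPt (P ≫ slice t s (ptL hg y₀ hy₀) (ptL_s hg y₀ hy₀)) ∈ O := by
  obtain ⟨W, hW, hηW, -⟩ := exists_isAffineOpen_mem_and_subset (X := T) (x := genericPoint T)
    (U := ⊤) trivial
  have hWne : Nonempty W := ⟨⟨_, hηW⟩⟩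
  obtain ⟨φ, hφ, hφT⟩ := exists_algebra_chart t W hW
  let _ : Algebra k Γ(T, W) := φ.toAlgebra
  let _ : Algebra K Γ(T, W) := (φ.comp (algebraMap K k)).toAlgebra
  have htow : IsScalarTower K k Γ(T, W) := IsScalarTower.of_algebraMap_eq' rfl
  have hft : Algebra.FiniteType k Γ(T, W) := hφ
  have hdom : IsDomain Γ(T, W) := inferInstance
  have hne : Nonempty (Spec (.of Γ(T, W))) := ⟨botPt (.of Γ(T, W))⟩
  have hopen : IsOpenImmersion (hW.fromSpec : Spec (.of Γ(T, W)) ⟶ T) :=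
    hW.isOpenImmersion_fromSpec
  have hcs : CompactSpace X₀ := QuasiCompact.compactSpace_of_compactSpace s₀
  have haff : ∀ x : X₀, ∃ A : X₀.Opens, IsAffineOpen A ∧ x ∈ A := by
    intro x
    obtain ⟨A, hA, hxA, -⟩ := exists_isAffineOpen_mem_and_subset (X := X₀) (x := x)
      (U := ⊤) trivial
    exact ⟨A, hA, hxA⟩
  choose A hA hxA using haff
  obtain ⟨F, hF⟩ := isCompact_univ.elim_finite_subcover (fun x => (A x : Set X₀))
    (fun x => (A x).isOpen) (fun x _ => Set.mem_iUnion.mpr ⟨x, hxA x⟩)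
  choose V hV hVP using fun x => exists_submodule_affine (K := K) (S := Γ(T, W)) hg
    hW.fromSpec hne hφT O (A x) (hA x)
  obtain ⟨P, hP⟩ := exists_point_domain h (F.sup V) (Submodule.fg_finset_sup F V
    (fun x _ => hV x))
  refine ⟨Spec.map (CommRingCat.ofHom P.toRingHom) ≫ hW.fromSpec, ?_, ?_⟩
  · rw [Category.assoc, hφT, ← Spec.map_comp, ← CommRingCat.ofHom_comp, ← Spec.map_id]
    congr 1
    apply CommRingCat.hom_ext
    ext c
    exact P.commutes c
  · intro y₀ hy₀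
    obtain ⟨x, hx⟩ := Set.mem_iUnion.mp (hF (Set.mem_univ (atPt y₀)))
    obtain ⟨hxF, hxA⟩ := Set.mem_iUnion.mp hx
    refine hVP x y₀ hy₀ hxA (hO y₀ hy₀) P ?_
    intro v hv hv0
    have hle : V x ≤ F.sup V := Finset.le_sup hxF
    exact hP v (hle hv) hv0

end Global

end Pool.Agent.Helper411_AS
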