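import Pool.Agent.Helper411_AS.AllExt
import Pool.Agent.Helper411_AS.MovePoint

/-!
# Families of maps from a variety defined over a smaller field
-/

set_option autoImplicit false

open CategoryTheory AlgebraicGeometry Limits Opposite

universe u

namespace Pool.Agent.Helper411_AS

variable {K k : Type u} [Field K] [Field k] [Algebra K k]

/-- The section of the second projection of a product given by a rational point of the first
factor. -/
noncomputable def cosection {T W : Scheme.{u}} (t : T ⟶ Spec (.of k)) (w : W ⟶ Spec (.of k))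
    (P : Spec (.of k) ⟶ T) (hP : P ≫ t = 𝟙 _) : W ⟶ pullback t w :=
  pullback.lift (w ≫ P) (𝟙 W) (by
    rw [Category.id_comp, Category.assoc, hP, Category.comp_id])

@[reassoc (attr := simp)]
theorem cosection_fst {T W : Scheme.{u}} (t : T ⟶ Spec (.of k)) (w : W ⟶ Spec (.of k))
    (P : Spec (.of k) ⟶ T) (hP : P ≫ t = 𝟙 _) :
    cosection t w P hP ≫ pullback.fst t w = w ≫ P := pullback.lift_fst _ _ _

@[reassoc (attr := simp)]
theorem cosection_snd {T W : Scheme.{u}} (t : T ⟶ Spec (.of k)) (w : W ⟶ Spec (.of k))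
    (P : Spec (.of k) ⟶ T) (hP : P ≫ t = 𝟙 _) :
    cosection t w P hP ≫ pullback.snd t w = 𝟙 W := pullback.lift_snd _ _ _

theorem comp_slice {T W : Scheme.{u}} {t : T ⟶ Spec (.of k)} {w : W ⟶ Spec (.of k)}
    (P : Spec (.of k) ⟶ T) (hP : P ≫ t = 𝟙 _) (y : Spec (.of k) ⟶ W) (hy : y ≫ w = 𝟙 _) :
    P ≫ slice t w y hy = y ≫ cosection t w P hP := by
  apply pullback.hom_ext
  · rw [Category.assoc, slice_fst, Category.comp_id, Category.assoc, cosection_fst,
      ← Category.assoc, hy, Category.id_comp]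
  · rw [Category.assoc, slice_snd, ← Category.assoc, hP, Category.id_comp, Category.assoc,
      cosection_snd, Category.comp_id]

theorem arithmeticallySpecial_of_constant_family [IsAlgClosed K] [IsAlgClosed k] [CharZero k]
    (hKk : ¬ Function.Surjective (algebraMap K k))
    {W₀ W T X : Scheme.{u}} {w₀ : W₀ ⟶ Spec (.of K)} {w : W ⟶ Spec (.of k)}
    {t : T ⟶ Spec (.of k)} {s : X ⟶ Spec (.of k)}
    [IsIntegral W₀] [IsSeparated w₀] [LocallyOfFiniteType w₀] [QuasiCompact w₀]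
    (hW₀ : ArithmeticallySpecial w₀) {g : W ⟶ W₀} (hg : IsPullback g w w₀ (specMap K k))
    [IsIntegral W] [IsIntegral T] [LocallyOfFiniteType t] (hX : HasModel s)
    (Ψ : pullback t w ⟶ X) (hΨ : Ψ ≫ s = pullback.fst t w ≫ t) (U : X.Opens)
    (h₁ : ∀ (P : Spec (.of k) ⟶ T) (hP : P ≫ t = 𝟙 _), IsDominant (cosection t w P hP ≫ Ψ) ∧
      ∀ z : W, (cosection t w P hP ≫ Ψ) z ∉ U → 2 ≤ Order.coheight z)
    (h₂ : ∀ (y₀ : Spec (.of K) ⟶ W₀) (hy₀ : y₀ ≫ w₀ = 𝟙 _), ∃ τ : T,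
      (slice t w (ptL hg y₀ hy₀) (ptL_s hg y₀ hy₀) ≫ Ψ) τ ∈ U) :
    ArithmeticallySpecial (U.ι ≫ s) := by
  obtain ⟨P, hP, hPU⟩ := exists_moving_point hKk (t := t) hg (Ψ ⁻¹ᵁ U) h₂
  obtain ⟨hdom, hcodim⟩ := h₁ P hP
  set ψ := cosection t w P hP ≫ Ψ with hψ
  have hψs : ψ ≫ s = w := by
    rw [hψ, Category.assoc, hΨ, cosection_fst_assoc, hP, Category.comp_id]
  let V : W.Opens := ψ ⁻¹ᵁ U
  have hVpt : ∀ (y₀ : Spec (.of K) ⟶ W₀) (hy₀ : y₀ ≫ w₀ = 𝟙 _), atPt (ptL hg y₀ hy₀) ∈ V := by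
    intro y₀ hy₀
    have h3 := hPU y₀ hy₀
    rw [comp_slice P hP] at h3
    have h4 : Ψ (atPt (ptL hg y₀ hy₀ ≫ cosection t w P hP)) ∈ U := h3
    rw [atPt_comp] at h4
    exact h4
  have htop : imF hg V = ⊤ := by
    apply eq_top_of_forall_rational w₀
    intro y₀ hy₀
    refine ⟨_, hVpt y₀ hy₀, ?_⟩
    rw [← atPt_comp, ptL_g, atPt_comp, apply_eq_atPt]
  have hsurj : ∀ x : W₀, ∃ z : W, g z = x ∧ z ∈ V := by
    intro x
    have h3 : x ∈ imF hg V := by
      rw [htop]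
      trivial
    obtain ⟨z, hz, hzx⟩ := h3
    exact ⟨z, hzx, hz⟩
  have hVAS := punctExt_of_isAlgClosed K k W₀ W w₀ w g hg inferInstance inferInstance
    inferInstance inferInstance inferInstance hW₀ V hcodim hsurj
  obtain ⟨x₀⟩ := (inferInstance : Nonempty W₀)
  obtain ⟨z₀, -, hz₀⟩ := hsurj x₀
  have hne : Nonempty V := ⟨⟨z₀, hz₀⟩⟩
  have hdomV : IsDominant V.ι := by
    refine ⟨?_⟩
    have h1 : IsOpen (Set.range V.ι) := V.ι.isOpenEmbedding.isOpen_range
    exact h1.dense (Set.range_nonempty _)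
  refine ArithmeticallySpecial.open_of_dominant hX hVAS (V.ι ≫ ψ) ?_ U (fun x => x.2)
  rw [Category.assoc, hψs]

end Pool.Agent.Helper411_AS
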