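import Pool.Agent.Helper411_AS.Density

/-!
# Open subschemes of varieties with a dense orbit: the core theorem
-/

set_option autoImplicit false

open CategoryTheory AlgebraicGeometry Limits Opposite

universe u

namespace Pool.Agent.Helper411_AS

variable {k : Type u} [Field k]

/-- The core theorem, with everything defined over the base of the model. -/
theorem arithmeticallySpecial_of_dense_orbits [IsAlgClosed k] {X 𝒳 : Scheme.{u}} [IsIntegral X]
    {s : X ⟶ Spec (.of k)} {A : Subalgebra ℤ k} (hA : A.FG)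
    (hk : Cardinal.aleph0 ≤ Algebra.trdeg A k) (π : 𝒳 ⟶ Spec (.of A))
    [IsSeparated π] [LocallyOfFiniteType π] [QuasiCompact π]
    (g : X ⟶ 𝒳) (hp : IsPullback g s π (specMap A k))
    (G : Set (X ⟶ X)) (hGs : ∀ γ ∈ G, γ ≫ s = s) (H : ∀ γ ∈ G, Ext π g γ)
    (hGη : ∀ γ ∈ G, γ (genericPoint X) = genericPoint X)
    (hD : Dense {x : X | ∃ x' : Spec (.of k) ⟶ X, x' ≫ s = 𝟙 _ ∧ atPt x' = x ∧
      Dense {z | ∃ γ ∈ G, γ x = z}})
    (W : 𝒳.Opens) (hcodim : ∀ z : X, z ∉ g ⁻¹ᵁ W → 2 ≤ Order.coheight z) :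
    ArithmeticallySpecial ((g ⁻¹ᵁ W).ι ≫ s) := by
  -- `X` is noetherian
  have hsft : LocallyOfFiniteType s := MorphismProperty.of_isPullback hp inferInstance
  have hsqc : QuasiCompact s := MorphismProperty.of_isPullback hp inferInstance
  have hln : IsLocallyNoetherian X := LocallyOfFiniteType.isLocallyNoetherian s
  have hcs : CompactSpace X := QuasiCompact.compactSpace_of_compactSpace s
  have hn : IsNoetherian X := {}
  obtain ⟨B, e, V, v, he, himm, hbot, hV, hv⟩ := exists_generic hA hk π g hp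
  -- the closed set
  let Z : Set X := ((g ⁻¹ᵁ W : X.Opens) : Set X)ᶜ
  have hZ : IsClosed Z := (g ⁻¹ᵁ W).isOpen.isClosed_compl
  have hZW : closure (g '' Z) ⊆ (W : Set 𝒳)ᶜ := by
    apply closure_minimal _ W.isOpen.isClosed_compl
    rintro _ ⟨z, hz, rfl⟩
    exact hz
  have hsat : g ⁻¹' (closure (g '' Z)) ⊆ Z := fun z hz => hZW hz
  let O : 𝒳.Opens := ⟨(closure (g '' Z))ᶜ, isClosed_closure.isOpen_compl⟩
  have hO : g ⁻¹ᵁ O = g ⁻¹ᵁ W := by
    ext z
    constructor
    · intro hz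
      by_contra hzW
      exact hz (subset_closure ⟨z, hzW, rfl⟩)
    · intro hz hz'
      exact hsat hz' hz
  let OB : (bc π B).Opens := bcp π B ⁻¹ᵁ O
  have hOB : bcg π hp B ⁻¹ᵁ OB = g ⁻¹ᵁ W := by
    rw [← hO, ← Scheme.Hom.comp_preimage, bcg_bcp]
  have hdense := dense_kpt π B e he hp V hV v hv e.isEmbedding.injective hbot G hGs H hD
  rw [← hOB]
  apply arithmeticallySpecial_open_of_sections B.fg (bcπ π B) (bcg π hp B)
    (bcg_isPullback π hp B) OB
  refine hdense.mono ?_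
  rintro x ⟨γ, hγ, h, hh, hgh, rfl⟩
  refine ⟨sec π B (e ≫ h.hom) (by rw [Category.assoc, hh, he]), kpt π B (e ≫ h.hom) _ hp,
    sec_bcπ _ _ _ _, ?_, kpt_s _ _ _ _ _, kpt_bcg _ _ _ _ _, rfl⟩
  intro q hq
  change bcp π B (sec π B (e ≫ h.hom) _ q) ∈ O
  rw [← Scheme.Hom.comp_apply, sec_bcp]
  change h.hom (e q) ∉ closure (g '' Z)
  have h1 : h.hom (g (genericPoint X)) = g (genericPoint X) := by
    rw [← Scheme.Hom.comp_apply, hgh, Scheme.Hom.comp_apply, hGη γ hγ]
  have h2 : CodimLE1 (g (genericPoint X)) (e q) := by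
    rw [← hbot]
    exact codimLE1_of_isImmersion e q hq
  have h3 : CodimLE1 (g (genericPoint X)) (h.hom (e q)) :=
    h2.map_homeo (Scheme.homeoOfIso h) h1
  exact notMem_closure_image g Z hZ (fun z hz => hcodim z hz) hsat _ h3

end Pool.Agent.Helper411_AS
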