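import Pool.Agent.Helper411_AS.Defs

/-!
# A criterion for open subschemes to be arithmetically special
-/

set_option autoImplicit false

open CategoryTheory AlgebraicGeometry Limits Opposite

universe u

namespace Pool.Agent.Helper411_AS

variable {k : Type u} [Field k]

theorem isNoetherianRing_of_fg {A : Subalgebra ℤ k} (hA : A.FG) : IsNoetherianRing A := by
  have : Algebra.FiniteType ℤ A := (Subalgebra.fg_iff_finiteType A).mp hA
  exact Algebra.FiniteType.isNoetherianRing ℤ A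

theorem isLocallyNoetherian_model {A : Subalgebra ℤ k} (hA : A.FG) {𝒳 : Scheme.{u}}
    (π : 𝒳 ⟶ Spec (.of A)) [LocallyOfFiniteType π] : IsLocallyNoetherian 𝒳 := by
  have : IsNoetherianRing (CommRingCat.of A) := isNoetherianRing_of_fg hA
  exact LocallyOfFiniteType.isLocallyNoetherian π

/-- The image of a morphism from the spectrum of a field. -/
noncomputable def atPt {F : Type u} [Field F] {X : Scheme.{u}} (y : Spec (.of F) ⟶ X) : X :=
  y (IsLocalRing.closedPoint F)

theorem atPt_comp {F : Type u} [Field F] {X Y : Scheme.{u}} (y : Spec (.of F) ⟶ X) (f : X ⟶ Y) :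
    atPt (y ≫ f) = f (atPt y) := rfl

theorem apply_eq_atPt {F : Type u} [Field F] {X : Scheme.{u}} (y : Spec (.of F) ⟶ X)
    (q : Spec (.of F)) : y q = atPt y := by
  have h : q = (IsLocalRing.closedPoint F : PrimeSpectrum F) :=
    Subsingleton.elim (α := PrimeSpectrum F) _ _
  rw [h]
  rfl

/-- Near-integral points of `𝒳` avoiding the complement of `O`. -/
structure IsNearIntegralIn {A : Type u} [CommRing A] [IsDomain A] {𝒳 : Scheme.{u}}
    (π : 𝒳 ⟶ Spec (.of A)) (O : 𝒳.Opens) (P : Spec (.of (FractionRing A)) ⟶ 𝒳) : Prop where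
  comp_eq : P ≫ π = specMap A (FractionRing A)
  exists_lift : ∀ (p : Ideal A) [p.IsPrime], p.height = 1 →
    ∃ Q : Spec (.of (Localization.AtPrime p)) ⟶ 𝒳,
      Q ≫ π = specMap A (Localization.AtPrime p) ∧
      Spec.map (CommRingCat.ofHom (atPrimeToFrac p)) ≫ Q = P ∧ ∀ q, Q q ∈ O

/-- The criterion. -/
theorem arithmeticallySpecial_open {X 𝒳 : Scheme.{u}} {s : X ⟶ Spec (.of k)}
    {A : Subalgebra ℤ k} (hA : A.FG) (π : 𝒳 ⟶ Spec (.of A)) [IsSeparated π]
    [LocallyOfFiniteType π] [QuasiCompact π] (g : X ⟶ 𝒳) (hp : IsPullback g s π (specMap A k))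
    (O : 𝒳.Opens)
    (hd : Dense {x : X | ∃ (P : Spec (.of (FractionRing A)) ⟶ 𝒳) (y : Spec (.of k) ⟶ X),
      IsNearIntegralIn π O P ∧ y ≫ s = 𝟙 _ ∧
      y ≫ g = Spec.map (CommRingCat.ofHom (fracToField A)) ≫ P ∧
      y (IsLocalRing.closedPoint k) = x}) :
    ArithmeticallySpecial ((g ⁻¹ᵁ O).ι ≫ s) := by
  have := isLocallyNoetherian_model hA π
  refine ⟨A, O, O.ι ≫ π, g ∣_ O, hA, inferInstance, inferInstance, inferInstance, ?_, ?_⟩
  · exact (isPullback_morphismRestrict g O).paste_vert hp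
  · have h1 := hd.preimage (g ⁻¹ᵁ O).ι.isOpenEmbedding.isOpenMap
    refine h1.mono ?_
    rintro x ⟨P, y, hP, hy, hyg, hyx⟩
    have hyx' : atPt y = (g ⁻¹ᵁ O).ι x := hyx
    have hPO : ∀ q, P q ∈ O := by
      intro q
      have h2 : g (atPt y) ∈ O := by
        rw [hyx']
        exact x.2
      rw [← atPt_comp, hyg, atPt_comp] at h2
      have h3 : atPt P ∈ O := by
        have h4 := atPt_comp (Spec.map (CommRingCat.ofHom (fracToField A))) P
        rw [apply_eq_atPt] at h2
        exact h2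
      rw [apply_eq_atPt]
      exact h3
    have hyU : ∀ q, y q ∈ g ⁻¹ᵁ O := by
      intro q
      rw [apply_eq_atPt, hyx']
      exact x.2
    refine ⟨IsOpenImmersion.lift O.ι P (by
        rw [Scheme.Opens.range_ι]; rintro _ ⟨q, rfl⟩; exact hPO q),
      IsOpenImmersion.lift (g ⁻¹ᵁ O).ι y (by
        rw [Scheme.Opens.range_ι]; rintro _ ⟨q, rfl⟩; exact hyU q), ⟨?_, ?_⟩, ?_, ?_, ?_⟩
    · rw [IsOpenImmersion.lift_fac_assoc, hP.comp_eq]
    · intro p _ hpp
      obtain ⟨Q, hQ, hQP, hQO⟩ := hP.exists_lift p hpp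
      refine ⟨IsOpenImmersion.lift O.ι Q (by
        rw [Scheme.Opens.range_ι]; rintro _ ⟨q, rfl⟩; exact hQO q), ?_, ?_⟩
      · rw [IsOpenImmersion.lift_fac_assoc, hQ]
      · rw [← cancel_mono O.ι, Category.assoc, IsOpenImmersion.lift_fac, IsOpenImmersion.lift_fac,
          hQP]
    · rw [IsOpenImmersion.lift_fac_assoc, hy]
    · rw [← cancel_mono O.ι, Category.assoc, Category.assoc, IsOpenImmersion.lift_fac,
        morphismRestrict_ι, IsOpenImmersion.lift_fac_assoc, hyg]
    · apply (g ⁻¹ᵁ O).ι.isOpenEmbedding.injective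
      rw [← hyx']
      change atPt (IsOpenImmersion.lift (g ⁻¹ᵁ O).ι y _ ≫ (g ⁻¹ᵁ O).ι) = _
      rw [IsOpenImmersion.lift_fac]

theorem atPrimeToFrac_comp {A : Type u} [CommRing A] [IsDomain A] (p : Ideal A) [p.IsPrime] :
    (atPrimeToFrac p).comp (algebraMap A (Localization.AtPrime p)) =
      algebraMap A (FractionRing A) :=
  RingHom.ext fun a => IsLocalization.lift_eq _ a

theorem fracToField_comp (A : Subalgebra ℤ k) :
    (fracToField A).comp (algebraMap A (FractionRing A)) = algebraMap A k :=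
  RingHom.ext fun a => IsFractionRing.lift_algebraMap (A := A)
    (FaithfulSMul.algebraMap_injective A k) a

theorem specMap_atPrime_le {A : Type u} [CommRing A] (p : Ideal A) [p.IsPrime]
    (q : Spec (.of (Localization.AtPrime p))) :
    (specMap A (Localization.AtPrime p) q : PrimeSpectrum A).asIdeal ≤ p := by
  intro a ha
  by_contra hap
  have h1 : IsUnit (algebraMap A (Localization.AtPrime p) a) :=
    IsLocalization.map_units (Localization.AtPrime p) (⟨a, hap⟩ : p.primeCompl)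
  have h2 : algebraMap A (Localization.AtPrime p) a ∈ (q : PrimeSpectrum _).asIdeal := ha
  exact (q : PrimeSpectrum _).isPrime.ne_top (Ideal.eq_top_of_isUnit_mem _ h2 h1)

/-- Sections over `Spec A` define near-integral points. -/
theorem isNearIntegralIn_of_section {A : Type u} [CommRing A] [IsDomain A] {𝒳 : Scheme.{u}}
    (π : 𝒳 ⟶ Spec (.of A)) (O : 𝒳.Opens) (σ : Spec (.of A) ⟶ 𝒳) (hσ : σ ≫ π = 𝟙 _)
    (h : ∀ q : Spec (.of A), (q : PrimeSpectrum A).asIdeal.height ≤ 1 → σ q ∈ O) :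
    IsNearIntegralIn π O (specMap A (FractionRing A) ≫ σ) where
  comp_eq := by rw [Category.assoc, hσ, Category.comp_id]
  exists_lift p _ hp := by
    refine ⟨specMap A (Localization.AtPrime p) ≫ σ, by rw [Category.assoc, hσ, Category.comp_id],
      ?_, ?_⟩
    · rw [← Category.assoc, ← Spec.map_comp, ← CommRingCat.ofHom_comp, atPrimeToFrac_comp]
    · intro q
      change σ (specMap A (Localization.AtPrime p) q) ∈ O
      apply h
      exact (Ideal.height_mono (specMap_atPrime_le p q)).trans hp.le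

/-- The criterion for sections. -/
theorem arithmeticallySpecial_open_of_sections {X 𝒳 : Scheme.{u}} {s : X ⟶ Spec (.of k)}
    {A : Subalgebra ℤ k} (hA : A.FG) (π : 𝒳 ⟶ Spec (.of A)) [IsSeparated π]
    [LocallyOfFiniteType π] [QuasiCompact π] (g : X ⟶ 𝒳) (hp : IsPullback g s π (specMap A k))
    (O : 𝒳.Opens)
    (hd : Dense {x : X | ∃ (σ : Spec (.of A) ⟶ 𝒳) (y : Spec (.of k) ⟶ X), σ ≫ π = 𝟙 _ ∧
      (∀ q : Spec (.of A), (q : PrimeSpectrum A).asIdeal.height ≤ 1 → σ q ∈ O) ∧
      y ≫ s = 𝟙 _ ∧ y ≫ g = specMap A k ≫ σ ∧ y (IsLocalRing.closedPoint k) = x}) :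
    ArithmeticallySpecial ((g ⁻¹ᵁ O).ι ≫ s) := by
  apply arithmeticallySpecial_open hA π g hp O
  refine hd.mono ?_
  rintro x ⟨σ, y, hσ, hσO, hy, hyg, hyx⟩
  refine ⟨specMap A (FractionRing A) ≫ σ, y, isNearIntegralIn_of_section π O σ hσ hσO, hy, ?_,
    hyx⟩
  rw [hyg, ← Category.assoc, ← Spec.map_comp, ← CommRingCat.ofHom_comp, fracToField_comp]

end Pool.Agent.Helper411_AS
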