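import Mathlib

/-!
# Arithmetically-special varieties: definitions

The definitions follow the problem file of `MP_84b56d_ag`.
-/

set_option autoImplicit false

open CategoryTheory AlgebraicGeometry Limits

universe u

namespace Pool.Agent.Helper411_AS

/-- A variety over the field `k`: an integral separated scheme `X` of finite type over `k`,
with structure morphism `s`. -/
structure IsVariety {k : Type u} [Field k] {X : Scheme.{u}} (s : X ⟶ Spec (.of k)) : Prop where
  isIntegral : IsIntegral X
  isSeparated : IsSeparated s
  locallyOfFiniteType : LocallyOfFiniteType s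
  quasiCompact : QuasiCompact s

/-- The morphism `Spec B ⟶ Spec A` attached to an `A`-algebra `B`. -/
noncomputable abbrev specMap (A B : Type u) [CommRing A] [CommRing B] [Algebra A B] :
    Spec (CommRingCat.of B) ⟶ Spec (CommRingCat.of A) :=
  Spec.map (CommRingCat.ofHom (algebraMap A B))

/-- The canonical map from the local ring `A_p` of a domain `A` to the fraction field of `A`. -/
noncomputable def atPrimeToFrac {A : Type u} [CommRing A] [IsDomain A] (p : Ideal A) [p.IsPrime] :
    Localization.AtPrime p →+* FractionRing A :=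
  IsLocalization.lift (M := p.primeCompl) (g := algebraMap A (FractionRing A)) (by
    intro y
    have hy : (y : A) ≠ 0 := fun h => y.2 (by rw [h]; exact p.zero_mem)
    exact isUnit_iff_ne_zero.mpr
      (fun h => hy ((IsFractionRing.injective A (FractionRing A)) (by rw [h, map_zero]))))

/-- Near-integral points.  For a domain `A` with fraction field `K` and a morphism
`π : 𝒳 ⟶ Spec A`, an element `P` of `𝒳(K)` (a morphism `Spec K ⟶ 𝒳` over `Spec A`) lies in
`𝒳(A)^(1)` if for every prime `p` of `A` of height one it comes from an `A`-morphism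
`Spec A_p ⟶ 𝒳`. -/
structure IsNearIntegral {A : Type u} [CommRing A] [IsDomain A] {𝒳 : Scheme.{u}}
    (π : 𝒳 ⟶ Spec (.of A)) (P : Spec (.of (FractionRing A)) ⟶ 𝒳) : Prop where
  comp_eq : P ≫ π = specMap A (FractionRing A)
  exists_lift : ∀ (p : Ideal A) [p.IsPrime], p.height = 1 →
    ∃ Q : Spec (.of (Localization.AtPrime p)) ⟶ 𝒳,
      Q ≫ π = specMap A (Localization.AtPrime p) ∧
      Spec.map (CommRingCat.ofHom (atPrimeToFrac p)) ≫ Q = P

/-- For a subalgebra `A` of a field `k`, the inclusion of the fraction field of `A` in `k`. -/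
noncomputable def fracToField {k : Type u} [Field k] (A : Subalgebra ℤ k) :
    FractionRing A →+* k :=
  IsFractionRing.lift (A := A) (g := algebraMap A k) (FaithfulSMul.algebraMap_injective A k)

/-- A scheme `X` over a field `k` (with structure morphism `s`) is arithmetically-special over `k`
if there are a finitely generated `ℤ`-subalgebra `A` of `k` and a separated model `π : 𝒳 ⟶ Spec A`
of finite type (the cartesian square identifies `X` with the base change of `𝒳` to `k`) such that
the near-integral points `𝒳(A)^(1)`, viewed inside `X(k)`, are Zariski dense in `X`. -/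
def ArithmeticallySpecial {k : Type u} [Field k] {X : Scheme.{u}} (s : X ⟶ Spec (.of k)) : Prop :=
  ∃ (A : Subalgebra ℤ k) (𝒳 : Scheme.{u}) (π : 𝒳 ⟶ Spec (.of A)) (g : X ⟶ 𝒳),
    A.FG ∧ IsSeparated π ∧ LocallyOfFiniteType π ∧ QuasiCompact π ∧
    IsPullback g s π (specMap A k) ∧
    Dense {x : X | ∃ (P : Spec (.of (FractionRing A)) ⟶ 𝒳) (y : Spec (.of k) ⟶ X),
      IsNearIntegral π P ∧ y ≫ s = 𝟙 _ ∧
      y ≫ g = Spec.map (CommRingCat.ofHom (fracToField A)) ≫ P ∧
      y (IsLocalRing.closedPoint k) = x}

end Pool.Agent.Helper411_AS
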