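import Pool.Agent.Helper411_AS.Criterion

/-!
# Descent of open subsets to a model
-/

set_option autoImplicit false

open CategoryTheory AlgebraicGeometry Limits Opposite

universe u

namespace Pool.Agent.Helper411_AS

variable {k : Type u} [Field k]

theorem subsingleton_spec_field (F : Type u) [Field F] : Subsingleton (Spec (.of F)) :=
  inferInstanceAs (Subsingleton (PrimeSpectrum F))

/-- An open subset of `X` and the image in the model. -/
theorem exists_open_descend {X 𝒳 : Scheme.{u}} {s : X ⟶ Spec (.of k)}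
    {A : Subalgebra ℤ k} (π : 𝒳 ⟶ Spec (.of A)) (g : X ⟶ 𝒳)
    (hp : IsPullback g s π (specMap A k)) (O : Set X) (hO : IsOpen O) :
    ∃ O₁ : 𝒳.Opens, g ⁻¹' (O₁ : Set 𝒳) = g ⁻¹' (g '' O) := by
  let j : Spec (.of k) ⟶ Spec (.of (FractionRing A)) :=
    Spec.map (CommRingCat.ofHom (fracToField A))
  have hj : j ≫ specMap A (FractionRing A) = specMap A k := by
    rw [← Spec.map_comp, ← CommRingCat.ofHom_comp, fracToField_comp]
  let q := pullback.fst π (specMap A (FractionRing A))
  let ρ := pullback.snd π (specMap A (FractionRing A))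
  have hq : IsPullback q ρ π (specMap A (FractionRing A)) := IsPullback.of_hasPullback _ _
  let gL : X ⟶ pullback π (specMap A (FractionRing A)) := hq.lift g (s ≫ j) (by
    rw [Category.assoc, hj, hp.w])
  have hgq : gL ≫ q = g := hq.lift_fst _ _ _
  have hgρ : gL ≫ ρ = s ≫ j := hq.lift_snd _ _ _
  have hP : IsPullback gL s ρ j := by
    refine IsPullback.of_right (h₁₂ := q) (h₂₂ := specMap A (FractionRing A)) (v₁₃ := π) ?_
      hgρ hq
    rw [hgq, hj]
    exact hp
  have : Subsingleton (Spec (.of (FractionRing A))) := subsingleton_spec_field _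
  have : UniversallyOpen j := inferInstance
  have hopen : UniversallyOpen gL := MorphismProperty.of_isPullback hP.flip this
  have hpre : IsPreimmersion (specMap A (FractionRing A)) :=
    IsPreimmersion.of_isLocalization (nonZeroDivisors A)
  have hqpre : IsPreimmersion q := MorphismProperty.of_isPullback hq.flip hpre
  have h1 : IsOpen (gL '' O) := gL.isOpenMap O hO
  obtain ⟨O₁, hO₁, h2⟩ := q.isEmbedding.isOpen_iff.mp h1
  refine ⟨⟨O₁, hO₁⟩, ?_⟩
  have h3 : g ⁻¹' O₁ = gL ⁻¹' (gL '' O) := by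
    rw [← h2, ← hgq]
    rfl
  change g ⁻¹' O₁ = _
  rw [h3]
  ext x
  constructor
  · rintro ⟨y, hy, hyx⟩
    refine ⟨y, hy, ?_⟩
    rw [← hgq]
    change q (gL y) = q (gL x)
    rw [hyx]
  · rintro ⟨y, hy, hyx⟩
    refine ⟨y, hy, ?_⟩
    rw [← hgq] at hyx
    exact q.isEmbedding.injective hyx

/-- The fibre over a section is a single point. -/
theorem eq_atPt_of_section {X 𝒳 : Scheme.{u}} {s : X ⟶ Spec (.of k)}
    {A : Subalgebra ℤ k} (π : 𝒳 ⟶ Spec (.of A)) (g : X ⟶ 𝒳)
    (hp : IsPullback g s π (specMap A k)) (σ : Spec (.of A) ⟶ 𝒳) (hσ : σ ≫ π = 𝟙 _)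
    (y : Spec (.of k) ⟶ X) (hy : y ≫ s = 𝟙 _) (hyg : y ≫ g = specMap A k ≫ σ) (x : X)
    (hx : g x = g (atPt y)) : x = atPt y := by
  have h1 : IsPullback (specMap A k) y σ g := by
    refine IsPullback.of_bot (h₃₁ := specMap A k) (v₂₁ := s) (v₂₂ := π) ?_ hyg.symm hp
    rw [hy, hσ]
    exact IsPullback.of_vert_isIso ⟨by rw [Category.id_comp, Category.comp_id]⟩
  have h2 : σ (atPt (specMap A k)) = g x := by
    rw [hx, ← atPt_comp, ← atPt_comp, hyg]
  obtain ⟨p, -, hp2⟩ := Scheme.exists_preimage_of_isPullback h1 _ _ h2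
  rw [← hp2]
  exact apply_eq_atPt y p

end Pool.Agent.Helper411_AS
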