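import Mathlib

/-!
# Embedding finitely generated domains into large algebraically closed fields
-/

set_option autoImplicit false

universe u

namespace Pool.Agent.Helper411_AS

open Cardinal Algebra

/-- A domain of finite type over a subring `A` of an algebraically closed field `k` of infinite
transcendence degree over `A` embeds into `k` over `A`. -/
theorem exists_injective_algHom {A D k : Type u} [CommRing A] [IsDomain A] [CommRing D] [IsDomain D]
    [Field k] [IsAlgClosed k] [Algebra A D] [Algebra A k] [FaithfulSMul A D] [FaithfulSMul A k]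
    [Algebra.FiniteType A D] (hk : ℵ₀ ≤ Algebra.trdeg A k) :
    ∃ f : D →ₐ[A] k, Function.Injective f := by
  obtain ⟨ι, x, hx⟩ := exists_isTranscendenceBasis' A D
  obtain ⟨κ, y, hy⟩ := exists_isTranscendenceBasis' A k
  have h1 : #ι < ℵ₀ := by
    rw [hx.cardinalMk_eq_trdeg]
    exact trdeg_lt_aleph0_of_finiteType
  have h2 : ℵ₀ ≤ #κ := by
    rw [hy.cardinalMk_eq_trdeg]
    exact hk
  obtain ⟨e⟩ : Nonempty (ι ↪ κ) := by
    have := h1.le.trans h2
    exact Cardinal.le_def ι κ |>.mp this
  have hz : AlgebraicIndependent A (y ∘ e) := hy.1.comp e e.injective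
  let _ : Algebra (MvPolynomial ι A) D := (MvPolynomial.aeval x).toRingHom.toAlgebra
  let _ : Algebra (MvPolynomial ι A) k := (MvPolynomial.aeval (y ∘ e)).toRingHom.toAlgebra
  have hDinj : Function.Injective (algebraMap (MvPolynomial ι A) D) := hx.1
  have hkinj : Function.Injective (algebraMap (MvPolynomial ι A) k) := hz
  have : IsScalarTower A (MvPolynomial ι A) D := IsScalarTower.of_algebraMap_eq fun a => by
    change _ = MvPolynomial.aeval x (MvPolynomial.C a)
    simp
  have : IsScalarTower A (MvPolynomial ι A) k := IsScalarTower.of_algebraMap_eq fun a => by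
    change _ = MvPolynomial.aeval (y ∘ e) (MvPolynomial.C a)
    simp
  have : FaithfulSMul (MvPolynomial ι A) D :=
    (faithfulSMul_iff_algebraMap_injective _ _).mpr hDinj
  have : FaithfulSMul (MvPolynomial ι A) k :=
    (faithfulSMul_iff_algebraMap_injective _ _).mpr hkinj
  have halg : Algebra.IsAlgebraic (Algebra.adjoin A (Set.range x)) D := hx.isAlgebraic
  have : Algebra.IsAlgebraic (MvPolynomial ι A) D := by
    refine Algebra.IsAlgebraic.of_ringHom_of_comp_eq
      (S := Algebra.adjoin A (Set.range x)) (B := D)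
      (hx.1.aevalEquiv : MvPolynomial ι A →+* Algebra.adjoin A (Set.range x)) (RingHom.id D)
      (EquivLike.surjective hx.1.aevalEquiv) Function.injective_id ?_
    exact RingHom.ext fun p => hx.1.algebraMap_aevalEquiv p
  let f : D →ₐ[MvPolynomial ι A] k := IsAlgClosed.lift
  refine ⟨f.restrictScalars A, ?_⟩
  rw [AlgHom.coe_restrictScalars', injective_iff_map_eq_zero]
  intro d hd
  by_contra hne
  refine Ideal.comap_ne_bot_of_algebraic_mem (I := RingHom.ker f) (R := MvPolynomial ι A) hne hd
    (Algebra.IsAlgebraic.isAlgebraic d) ?_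
  rw [eq_bot_iff]
  intro p hp
  have h3 : f (algebraMap _ D p) = 0 := hp
  rw [AlgHom.commutes] at h3
  exact hkinj (by rw [h3, map_zero])

/-- The same for a quotient by a prime ideal. -/
theorem exists_algHom_ker {A C k : Type u} [CommRing A] [IsDomain A] [CommRing C]
    [Field k] [IsAlgClosed k] [Algebra A C] [Algebra A k] [FaithfulSMul A k]
    [Algebra.FiniteType A C] (hk : ℵ₀ ≤ Algebra.trdeg A k) (P : Ideal C) [P.IsPrime]
    (hP : P.comap (algebraMap A C) = ⊥) :
    ∃ f : C →ₐ[A] k, RingHom.ker f = P := by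
  have : FaithfulSMul A (C ⧸ P) := by
    rw [faithfulSMul_iff_algebraMap_injective, injective_iff_map_eq_zero]
    intro a ha
    rw [IsScalarTower.algebraMap_apply A C (C ⧸ P), Ideal.Quotient.algebraMap_eq,
      Ideal.Quotient.eq_zero_iff_mem] at ha
    have : a ∈ P.comap (algebraMap A C) := ha
    rwa [hP] at this
  obtain ⟨f, hf⟩ := exists_injective_algHom (A := A) (D := C ⧸ P) (k := k) hk
  refine ⟨f.comp (Ideal.Quotient.mkₐ A P), ?_⟩
  ext c
  rw [RingHom.mem_ker]
  change f (Ideal.Quotient.mk P c) = 0 ↔ _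
  rw [map_eq_zero_iff f hf, Ideal.Quotient.eq_zero_iff_mem]

/-- The transcendence degree over a finitely generated subring is still infinite. -/
theorem aleph0_le_trdeg {k : Type u} [Field k] [CharZero k] (hk : ℵ₀ ≤ Algebra.trdeg ℚ k)
    (A : Subalgebra ℤ k) (hA : A.FG) : ℵ₀ ≤ Algebra.trdeg A k := by
  have h0 : Algebra.trdeg ℤ k = Algebra.trdeg ℚ k := by
    have := lift_trdeg_add_eq ℤ ℚ k
    have h1 : Algebra.IsAlgebraic ℤ ℚ := IsLocalization.isAlgebraic ℚ (nonZeroDivisors ℤ)
    rw [trdeg_eq_zero, Cardinal.lift_zero, zero_add] at this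
    exact (Cardinal.lift_injective this).symm
  have : Algebra.FiniteType ℤ A := (Subalgebra.fg_iff_finiteType A).mp hA
  have h2 : Algebra.trdeg ℤ A < ℵ₀ := trdeg_lt_aleph0_of_finiteType
  have h3 : Algebra.trdeg ℤ A + Algebra.trdeg A k = Algebra.trdeg ℤ k := trdeg_add_eq ℤ A
  by_contra hlt
  rw [not_le] at hlt
  have h4 := Cardinal.add_lt_aleph0 h2 hlt
  rw [h3, h0] at h4
  exact absurd hk (not_le.mpr h4)

end Pool.Agent.Helper411_AS
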