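import Pool.Agent.Helper411_AS.Spread
import Pool.Agent.Helper411_AS.Emb
import Pool.Agent.Helper411_AS.Avoid
import Pool.Agent.Helper411_AS.Descent

/-!
# Generic points of a model
-/

set_option autoImplicit false

open CategoryTheory AlgebraicGeometry Limits Opposite

universe u

namespace Pool.Agent.Helper411_AS

/-- A morphism from a reduced scheme to an affine scheme factors through a closed subscheme if it
does so on points. -/
theorem exists_factor {V : Scheme.{u}} [IsReduced V] {C B : CommRingCat.{u}} (ψ : C ⟶ B)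
    (hψ : Function.Surjective ψ.hom) (m : V ⟶ Spec C)
    (h : ∀ (x : V) (c : C), ψ.hom c = 0 → c ∈ (m x : PrimeSpectrum C).asIdeal) :
    ∃ v : V ⟶ Spec B, v ≫ Spec.map ψ = m := by
  have hI : RingHom.ker ψ.hom ≤ RingHom.ker ((Scheme.ΓSpecIso C).inv ≫ m.appTop).hom := by
    intro c hc
    rw [RingHom.mem_ker] at hc ⊢
    change m.appTop ((Scheme.ΓSpecIso C).inv c) = 0
    rw [← basicOpen_eq_bot_iff, ← Scheme.preimage_basicOpen_top, basicOpen_eq_of_affine]
    ext x
    simp only [SetLike.mem_coe, TopologicalSpace.Opens.coe_bot, Set.mem_empty_iff_false, iff_false]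
    intro hx
    exact hx (h x c hc)
  let e := RingHom.quotientKerEquivOfSurjective hψ
  refine ⟨m.liftQuotient _ hI ≫ Spec.map (CommRingCat.ofHom e.symm.toRingHom), ?_⟩
  have h1 : ψ ≫ CommRingCat.ofHom e.symm.toRingHom =
      CommRingCat.ofHom (Ideal.Quotient.mk (RingHom.ker ψ.hom)) := by
    ext c
    change e.symm (ψ.hom c) = _
    rw [RingEquiv.symm_apply_eq]
    rfl
  rw [Category.assoc, ← Spec.map_comp, h1, Scheme.Hom.liftQuotient_comp]

variable {k : Type u} [Field k]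

/-- Generic points: a model of an integral scheme contains a closed subscheme of an open subset
which is the spectrum of a finitely generated subalgebra of `k` and whose generic point is the
image of the generic point of `X`. -/
theorem exists_generic [IsAlgClosed k] {X 𝒳 : Scheme.{u}} [IsIntegral X]
    {s : X ⟶ Spec (.of k)} {A : Subalgebra ℤ k} (hA : A.FG)
    (hk : Cardinal.aleph0 ≤ Algebra.trdeg A k) (π : 𝒳 ⟶ Spec (.of A)) [LocallyOfFiniteType π]
    (g : X ⟶ 𝒳) (hp : IsPullback g s π (specMap A k)) :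
    ∃ (B : Idx A) (e : Spec (.of B.alg) ⟶ 𝒳) (V : X.Opens) (v : V.toScheme ⟶ Spec (.of B.alg)),
      e ≫ π = specA B ∧ IsImmersion e ∧ e (botPt (.of B.alg)) = g (genericPoint X) ∧
      genericPoint X ∈ V ∧ v ≫ e = V.ι ≫ g := by
  obtain ⟨W, hW, hξW, -⟩ := exists_isAffineOpen_mem_and_subset (X := 𝒳) (x := g (genericPoint X))
    (U := ⊤) trivial
  let φ : CommRingCat.of A ⟶ Γ(𝒳, W) := Spec.preimage (hW.fromSpec ≫ π)
  have hφ : Spec.map φ = hW.fromSpec ≫ π := Spec.map_preimage _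
  have hft : φ.hom.FiniteType := by
    rw [← HasRingHomProperty.Spec_iff (P := @LocallyOfFiniteType), hφ]
    infer_instance
  let _ : Algebra A Γ(𝒳, W) := φ.hom.toAlgebra
  have : Algebra.FiniteType A Γ(𝒳, W) := hft
  obtain ⟨c, hc⟩ : g (genericPoint X) ∈ Set.range hW.fromSpec := by
    rw [hW.range_fromSpec]
    exact hξW
  have hcprime : (c : PrimeSpectrum Γ(𝒳, W)).asIdeal.IsPrime := (c : PrimeSpectrum _).isPrime
  have hcomap : ((c : PrimeSpectrum Γ(𝒳, W)).asIdeal).comap (algebraMap A Γ(𝒳, W)) = ⊥ := by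
    have h1 : Spec.map φ c = specMap A k (s (genericPoint X)) := by
      rw [hφ, Scheme.Hom.comp_apply, hc, ← Scheme.Hom.comp_apply, hp.w, Scheme.Hom.comp_apply]
    have h2 : (s (genericPoint X) : PrimeSpectrum k).asIdeal = ⊥ :=
      (Ideal.eq_bot_or_top _).resolve_right (s (genericPoint X) : PrimeSpectrum k).isPrime.ne_top
    have h3 : (Spec.map φ c : PrimeSpectrum A).asIdeal =
        (specMap A k (s (genericPoint X)) : PrimeSpectrum A).asIdeal := by rw [h1]
    have h4 : (specMap A k (s (genericPoint X)) : PrimeSpectrum A).asIdeal =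
        ((s (genericPoint X) : PrimeSpectrum k).asIdeal).comap (algebraMap A k) := rfl
    rw [h2] at h4
    have h5 : (⊥ : Ideal k).comap (algebraMap A k) = ⊥ := by
      rw [← RingHom.ker_eq_comap_bot, RingHom.ker_eq_bot_iff_eq_zero]
      intro a ha
      exact (map_eq_zero_iff _ (FaithfulSMul.algebraMap_injective A k)).mp ha
    exact (h3.trans h4).trans h5
  obtain ⟨ψ, hψ⟩ := exists_algHom_ker (A := A) (C := Γ(𝒳, W)) (k := k) hk
    (c : PrimeSpectrum Γ(𝒳, W)).asIdeal hcomap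
  have hftA : Algebra.FiniteType ℤ A := (Subalgebra.fg_iff_finiteType A).mp hA
  have hftC : Algebra.FiniteType ℤ Γ(𝒳, W) := Algebra.FiniteType.trans hftA inferInstance
  let ψ' : Γ(𝒳, W) →ₐ[ℤ] k := ψ.restrictScalars ℤ
  have hle : A ≤ ψ'.range := by
    intro a ha
    exact ⟨algebraMap A Γ(𝒳, W) ⟨a, ha⟩, ψ.commutes ⟨a, ha⟩⟩
  have hfg : ψ'.range.FG := by
    rw [Subalgebra.fg_iff_finiteType]
    exact Algebra.FiniteType.of_surjective ψ'.rangeRestrict ψ'.rangeRestrict_surjective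
  let B : Idx A := ⟨ψ'.range, hle, hfg⟩
  let χ : Γ(𝒳, W) ⟶ CommRingCat.of B.alg := CommRingCat.ofHom ψ'.rangeRestrict.toRingHom
  have hχ : Function.Surjective χ.hom := ψ'.rangeRestrict_surjective
  have hχ0 : ∀ d, χ.hom d = 0 ↔ d ∈ (c : PrimeSpectrum Γ(𝒳, W)).asIdeal := by
    intro d
    rw [← hψ, RingHom.mem_ker]
    exact Subtype.ext_iff
  have hcl : IsClosedImmersion (Spec.map χ) := IsClosedImmersion.spec_of_surjective χ hχ
  have hχbot : Spec.map χ (botPt (.of B.alg)) = c := by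
    apply PrimeSpectrum.ext
    ext d
    exact hχ0 d
  have hφχ : φ ≫ χ = CommRingCat.ofHom B.inclA := by
    ext a
    exact ψ.commutes a
  have hvp : ∀ x : (g ⁻¹ᵁ W).toScheme, (((g ⁻¹ᵁ W).ι ≫ g) x) ∈ Set.range hW.fromSpec := by
    intro x
    rw [hW.range_fromSpec]
    exact x.2
  let m : (g ⁻¹ᵁ W).toScheme ⟶ Spec Γ(𝒳, W) :=
    IsOpenImmersion.lift hW.fromSpec ((g ⁻¹ᵁ W).ι ≫ g) (by rintro _ ⟨x, rfl⟩; exact hvp x)
  have hm : m ≫ hW.fromSpec = (g ⁻¹ᵁ W).ι ≫ g := IsOpenImmersion.lift_fac _ _ _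
  have hmc : ∀ x, c ⤳ m x := by
    intro x
    rw [← hW.fromSpec.isEmbedding.toIsInducing.specializes_iff, hc, ← Scheme.Hom.comp_apply, hm,
      Scheme.Hom.comp_apply]
    exact (genericPoint_specializes _).map g.continuous
  obtain ⟨v, hv⟩ := exists_factor χ hχ m (by
    intro x d hd
    have h1 : (c : PrimeSpectrum Γ(𝒳, W)).asIdeal ≤ (m x : PrimeSpectrum Γ(𝒳, W)).asIdeal :=
      (PrimeSpectrum.le_iff_specializes _ _).mpr (hmc x)
    exact h1 ((hχ0 d).mp hd))
  refine ⟨B, Spec.map χ ≫ hW.fromSpec, g ⁻¹ᵁ W, v, ?_, inferInstance, ?_, hξW, ?_⟩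
  · rw [Category.assoc, ← hφ, ← Spec.map_comp, hφχ]
    rfl
  · rw [Scheme.Hom.comp_apply, hχbot, hc]
  · rw [reassoc_of% hv, hm]

end Pool.Agent.Helper411_AS
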