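import Pool.Agent.Helper411_AS.Auts
import Pool.Agent.Helper411_AS.Generic

/-!
# Density of the orbit of a generic point
-/

set_option autoImplicit false

open CategoryTheory AlgebraicGeometry Limits Opposite

universe u

namespace Pool.Agent.Helper411_AS

variable {k : Type u} [Field k]

theorem specMap_eq_botPt (A : Subalgebra ℤ k) (q : Spec (.of k)) :
    specMap A k q = botPt (.of A) := by
  apply PrimeSpectrum.ext
  have h2 : (q : PrimeSpectrum k).asIdeal = ⊥ :=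
    (Ideal.eq_bot_or_top _).resolve_right (q : PrimeSpectrum k).isPrime.ne_top
  have h4 : (specMap A k q : PrimeSpectrum A).asIdeal =
      ((q : PrimeSpectrum k).asIdeal).comap (algebraMap A k) := rfl
  rw [h2] at h4
  have h5 : (⊥ : Ideal k).comap (algebraMap A k) = ⊥ := by
    rw [← RingHom.ker_eq_comap_bot, RingHom.ker_eq_bot_iff_eq_zero]
    intro a ha
    exact (map_eq_zero_iff _ (FaithfulSMul.algebraMap_injective A k)).mp ha
  exact h4.trans h5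

/-- The section of the base change defined by a morphism. -/
noncomputable def sec {A : Subalgebra ℤ k} {𝒳 : Scheme.{u}} (π : 𝒳 ⟶ Spec (.of A)) (B : Idx A)
    (e : Spec (.of B.alg) ⟶ 𝒳) (he : e ≫ π = specA B) : Spec (.of B.alg) ⟶ bc π B :=
  (bc_isPullback π B).lift e (𝟙 _) (by rw [he, Category.id_comp])

section

variable {A : Subalgebra ℤ k} {𝒳 : Scheme.{u}} (π : 𝒳 ⟶ Spec (.of A)) (B : Idx A)
    (e : Spec (.of B.alg) ⟶ 𝒳) (he : e ≫ π = specA B)

@[reassoc (attr := simp)]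
theorem sec_bcp : sec π B e he ≫ bcp π B = e := IsPullback.lift_fst _ _ _ _

@[reassoc (attr := simp)]
theorem sec_bcπ : sec π B e he ≫ bcπ π B = 𝟙 _ := IsPullback.lift_snd _ _ _ _

variable {X : Scheme.{u}} {s : X ⟶ Spec (.of k)} {g : X ⟶ 𝒳}
  (hp : IsPullback g s π (specMap A k))

/-- The `k`-point defined by a section. -/
noncomputable def kpt : Spec (.of k) ⟶ X :=
  (bcg_isPullback π hp B).lift (specMap B.alg k ≫ sec π B e he) (𝟙 _) (by
    rw [Category.assoc, sec_bcπ, Category.comp_id, Category.id_comp])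

@[reassoc (attr := simp)]
theorem kpt_bcg : kpt π B e he hp ≫ bcg π hp B = specMap B.alg k ≫ sec π B e he :=
  IsPullback.lift_fst _ _ _ _

@[reassoc (attr := simp)]
theorem kpt_s : kpt π B e he hp ≫ s = 𝟙 _ := IsPullback.lift_snd _ _ _ _

/-- Density of the orbit of the generic point. -/
theorem dense_kpt [IsIntegral X] (V : X.Opens) (hV : genericPoint X ∈ V)
    (v : V.toScheme ⟶ Spec (.of B.alg)) (hv : v ≫ e = V.ι ≫ g) (hinj : Function.Injective e)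
    (hbot : e (botPt (.of B.alg)) = g (genericPoint X))
    (G : Set (X ⟶ X)) (hGs : ∀ γ ∈ G, γ ≫ s = s) (H : ∀ γ ∈ G, Ext π g γ)
    (hD : Dense {x : X | ∃ x' : Spec (.of k) ⟶ X, x' ≫ s = 𝟙 _ ∧ atPt x' = x ∧
      Dense {z | ∃ γ ∈ G, γ x = z}}) :
    Dense {x : X | ∃ (γ : X ⟶ X) (_ : γ ∈ G) (h : 𝒳 ≅ 𝒳) (hh : h.hom ≫ π = π)
      (_ : g ≫ h.hom = γ ≫ g),
      x = atPt (kpt π B (e ≫ h.hom) (by rw [Category.assoc, hh, he]) hp)} := by
  rw [dense_iff_inter_open]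
  rintro O hO ⟨o, ho⟩
  obtain ⟨O₁, hO₁⟩ := exists_open_descend (bcπ π B) (bcg π hp B) (bcg_isPullback π hp B) O hO
  have hp2' : IsPullback (pullback.fst s (V.ι ≫ s)) (pullback.snd s (V.ι ≫ s)) s (V.ι ≫ s) :=
    IsPullback.of_hasPullback _ _
  obtain ⟨T, p1, p2, hT⟩ : ∃ (T : Scheme.{u}) (p1 : T ⟶ X) (p2 : T ⟶ V.toScheme),
      IsPullback p1 p2 s (V.ι ≫ s) := ⟨_, _, _, hp2'⟩
  have hvA : v ≫ specA B = (V.ι ≫ s) ≫ specMap A k := by
    rw [← he, reassoc_of% hv, hp.w, Category.assoc]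
  have hw : (p1 ≫ g) ≫ π = (p2 ≫ v) ≫ specA B := by
    rw [Category.assoc, Category.assoc, hvA, hp.w, ← Category.assoc, ← Category.assoc, hT.w]
  obtain ⟨τ, hτ1, hτ2⟩ : ∃ τ : T ⟶ bc π B, τ ≫ bcp π B = p1 ≫ g ∧ τ ≫ bcπ π B = p2 ≫ v :=
    ⟨(bc_isPullback π B).lift (p1 ≫ g) (p2 ≫ v) hw, IsPullback.lift_fst _ _ _ _,
      IsPullback.lift_snd _ _ _ _⟩
  have hτ : IsPullback τ p2 (bcπ π B) v := by
    refine IsPullback.of_right (h₁₂ := bcp π B) (h₂₂ := specA B) (v₁₃ := π) ?_ hτ2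
      (bc_isPullback π B)
    rw [hτ1, hvA]
    exact hT.paste_horiz hp
  -- the preimage of `O₁` in `T` is nonempty
  let ηV : V.toScheme := (⟨genericPoint X, hV⟩ : V)
  have hvbot : v ηV = botPt (.of B.alg) := by
    apply hinj
    rw [hbot, ← Scheme.Hom.comp_apply, hv]
    rfl
  have hob : bcπ π B (bcg π hp B o) = botPt (.of B.alg) := by
    rw [← Scheme.Hom.comp_apply, bcg_bcπ, Scheme.Hom.comp_apply]
    exact specMap_eq_botPt _ _
  obtain ⟨t, ht1, ht2⟩ := Scheme.exists_preimage_of_isPullback hτ (bcg π hp B o)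
    ηV (hob.trans hvbot.symm)
  have htO : τ t ∈ O₁ := by
    have h1 : o ∈ bcg π hp B ⁻¹' (O₁ : Set (bc π B)) := by
      rw [hO₁]
      exact ⟨o, ho, rfl⟩
    have h2 : τ t = bcg π hp B o := ht1
    rw [h2]
    exact h1
  -- the image in `V`
  have : Subsingleton (Spec (.of k)) := subsingleton_spec_field _
  have hsopen : UniversallyOpen s := inferInstance
  have hp2open : UniversallyOpen p2 := MorphismProperty.of_isPullback hT hsopen
  have hN : IsOpen (V.ι '' (p2 '' (τ ⁻¹' (O₁ : Set (bc π B))))) :=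
    V.ι.isOpenEmbedding.isOpenMap _ (p2.isOpenMap _ (O₁.isOpen.preimage τ.continuous))
  obtain ⟨x, ⟨-, ⟨t', ht'O, rfl⟩, rfl⟩, x', hx's, hx', hdx⟩ := hD.inter_open_nonempty _ hN
    ⟨_, _, ⟨t, htO, rfl⟩, rfl⟩
  have hxV : ∀ q, x' q ∈ V := by
    intro q
    rw [apply_eq_atPt, hx']
    exact (p2 t').2
  obtain ⟨x'', hx''⟩ : ∃ x'' : Spec (.of k) ⟶ V.toScheme, x'' ≫ V.ι = x' :=
    ⟨IsOpenImmersion.lift V.ι x' (by
      rw [Scheme.Opens.range_ι]; rintro _ ⟨q, rfl⟩; exact hxV q),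
      IsOpenImmersion.lift_fac _ _ _⟩
  have hx''s : x'' ≫ V.ι ≫ s = 𝟙 _ := by rw [reassoc_of% hx'', hx's]
  have hx''pt : atPt x'' = p2 t' := by
    apply V.ι.isOpenEmbedding.injective
    rw [← atPt_comp, hx'', hx']
  obtain ⟨j, hj1, hj2⟩ : ∃ j : X ⟶ T, j ≫ p1 = 𝟙 _ ∧ j ≫ p2 = s ≫ x'' :=
    ⟨hT.lift (𝟙 _) (s ≫ x'') (by rw [Category.assoc, hx''s, Category.id_comp, Category.comp_id]),
      IsPullback.lift_fst _ _ _ _, IsPullback.lift_snd _ _ _ _⟩
  have hj : IsPullback j s p2 x'' := by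
    refine IsPullback.of_right (h₁₂ := p1) (h₂₂ := V.ι ≫ s) (v₁₃ := s) ?_ hj2 hT
    rw [hj1, hx''s]
    exact IsPullback.of_horiz_isIso ⟨by rw [Category.id_comp, Category.comp_id]⟩
  obtain ⟨a, ha1, -⟩ := Scheme.exists_preimage_of_isPullback hj t'
    (IsLocalRing.closedPoint k : Spec (.of k)) hx''pt.symm
  have ha1' : j a = t' := ha1
  have haO : τ (j a) ∈ O₁ := by
    rw [ha1']
    exact ht'O
  obtain ⟨_, hbO, γ, hγ, rfl⟩ := hdx.inter_open_nonempty (j ⁻¹' (τ ⁻¹' (O₁ : Set (bc π B))))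
    ((O₁.isOpen.preimage τ.continuous).preimage j.continuous) ⟨a, haO⟩
  obtain ⟨h, hh, hgh⟩ := H γ hγ
  have heh : (e ≫ h.hom) ≫ π = specA B := by rw [Category.assoc, hh, he]
  have key : x' ≫ γ ≫ j ≫ τ = x'' ≫ v ≫ sec π B (e ≫ h.hom) heh := by
    apply bc_hom_ext
    · simp only [Category.assoc, hτ1, sec_bcp]
      rw [reassoc_of% hj1, reassoc_of% hv, reassoc_of% hx'', hgh]
    · simp only [Category.assoc, hτ2, sec_bcπ, Category.comp_id]
      rw [reassoc_of% hj2, reassoc_of% (hGs γ hγ), reassoc_of% hx's]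
  have h1 : sec π B (e ≫ h.hom) heh (atPt (x'' ≫ v)) ∈ O₁ := by
    rw [← atPt_comp, Category.assoc, ← key]
    have h2 : τ (j (γ (atPt x'))) ∈ O₁ := by
      rw [hx']
      exact hbO
    exact h2
  have h2 : sec π B (e ≫ h.hom) heh (botPt (.of B.alg)) ∈ O₁ :=
    ((botPt_specializes _ (atPt (x'' ≫ v))).map (sec π B (e ≫ h.hom) heh).continuous).mem_open
      O₁.isOpen h1
  have h3 : bcg π hp B (atPt (kpt π B (e ≫ h.hom) heh hp)) =
      sec π B (e ≫ h.hom) heh (botPt (.of B.alg)) := by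
    rw [← atPt_comp, kpt_bcg, atPt_comp]
    congr 1
    exact specMap_eq_botPt _ _
  have h4 : atPt (kpt π B (e ≫ h.hom) heh hp) ∈ bcg π hp B ⁻¹' (O₁ : Set (bc π B)) := by
    change bcg π hp B _ ∈ O₁
    rw [h3]
    exact h2
  rw [hO₁] at h4
  obtain ⟨o', ho', hoo⟩ := h4
  have h5 := eq_atPt_of_section (bcπ π B) (bcg π hp B) (bcg_isPullback π hp B)
    (sec π B (e ≫ h.hom) heh) (sec_bcπ _ _ _ _) (kpt π B (e ≫ h.hom) heh hp) (kpt_s _ _ _ _ _)
    (kpt_bcg _ _ _ _ _) o' hoo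
  refine ⟨atPt (kpt π B (e ≫ h.hom) heh hp), ?_, γ, hγ, h, hh, hgh, rfl⟩
  rw [← h5]
  exact ho'

end

end Pool.Agent.Helper411_AS
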