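import Pool.Agent.Helper411_AS.Persist
import Pool.Agent.Helper411_AS.Descent

/-!
# Extension of the base field
-/

set_option autoImplicit false
set_option linter.unusedVariables false
set_option linter.unusedSectionVars false

open CategoryTheory AlgebraicGeometry Limits Opposite

universe u

namespace Pool.Agent.Helper411_AS

variable {K L : Type u} [Field K] [Field L] [Algebra K L]

instance isDomain_subalgebra' (A : Subalgebra ℤ K) : IsDomain A := inferInstance

section Points

variable {X XL : Scheme.{u}} {s : X ⟶ Spec (.of K)} {sL : XL ⟶ Spec (.of L)} {gL : XL ⟶ X}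
  (hL : IsPullback gL sL s (specMap K L))

/-- The point over the larger field. -/
noncomputable def ptL (y : Spec (.of K) ⟶ X) (hy : y ≫ s = 𝟙 _) : Spec (.of L) ⟶ XL :=
  hL.lift (specMap K L ≫ y) (𝟙 _) (by
    rw [Category.assoc, hy, Category.comp_id, Category.id_comp])

@[reassoc (attr := simp)]
theorem ptL_g (y : Spec (.of K) ⟶ X) (hy : y ≫ s = 𝟙 _) :
    ptL hL y hy ≫ gL = specMap K L ≫ y := IsPullback.lift_fst _ _ _ _

@[reassoc (attr := simp)]
theorem ptL_s (y : Spec (.of K) ⟶ X) (hy : y ≫ s = 𝟙 _) :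
    ptL hL y hy ≫ sL = 𝟙 _ := IsPullback.lift_snd _ _ _ _

theorem ptL_isPullback (y : Spec (.of K) ⟶ X) (hy : y ≫ s = 𝟙 _) :
    IsPullback (ptL hL y hy) (specMap K L) gL y := by
  refine IsPullback.of_right (h₁₂ := sL) (h₂₂ := s) (v₁₃ := specMap K L) ?_ (ptL_g hL y hy)
    hL.flip
  rw [ptL_s, hy]
  exact IsPullback.of_horiz_isIso ⟨by rw [Category.id_comp, Category.comp_id]⟩

/-- There is exactly one point over a rational point. -/
theorem eq_ptL (y : Spec (.of K) ⟶ X) (hy : y ≫ s = 𝟙 _) (z : XL) (hz : gL z = atPt y) :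
    z = atPt (ptL hL y hy) := by
  obtain ⟨q, hq, -⟩ := Scheme.exists_preimage_of_isPullback (ptL_isPullback hL y hy) z
    (IsLocalRing.closedPoint K : Spec (.of K)) hz
  have h1 : ptL hL y hy q = z := hq
  rw [← h1, apply_eq_atPt]

theorem universallyOpen_of_field (hL : IsPullback gL sL s (specMap K L)) :
    UniversallyOpen gL := by
  have : Subsingleton (Spec (.of K)) := subsingleton_spec_field _
  have h1 : UniversallyOpen (specMap K L) := inferInstance
  exact MorphismProperty.of_isPullback hL.flip h1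

theorem dense_ptL (Γ : Set X) (hΓ : Dense Γ) (O : Set XL) (hO : IsOpen O) (hne : O.Nonempty) :
    ∃ w ∈ Γ, ∀ (y : Spec (.of K) ⟶ X) (hy : y ≫ s = 𝟙 _), atPt y = w →
      atPt (ptL hL y hy) ∈ O := by
  have h1 := universallyOpen_of_field hL
  obtain ⟨_, ⟨z, hz, rfl⟩, hw⟩ := hΓ.inter_open_nonempty _ (gL.isOpenMap O hO)
    (hne.image _)
  refine ⟨_, hw, ?_⟩
  intro y hy hyw
  rw [← eq_ptL hL y hy z hyw.symm]
  exact hz

end Points

section Models

variable {A : Subalgebra ℤ K} {B : Subalgebra ℤ L} (φ : A →+* B)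
  (hφ : (algebraMap B L).comp φ = (algebraMap K L).comp (algebraMap A K))

include hφ

theorem phi_injective : Function.Injective φ := by
  have h1 : Function.Injective ((algebraMap B L).comp φ) := by
    rw [hφ]
    exact (algebraMap K L).injective.comp (FaithfulSMul.algebraMap_injective A K)
  intro a b hab
  exact h1 (congrArg (algebraMap B L) hab)

theorem specMap_phi : specMap B L ≫ Spec.map (CommRingCat.ofHom φ) =
    specMap K L ≫ specMap A K := by
  rw [← Spec.map_comp, ← Spec.map_comp, ← CommRingCat.ofHom_comp, ← CommRingCat.ofHom_comp, hφ]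

theorem fracToField_phi : (fracToField B).comp (fracMap φ (phi_injective φ hφ)) =
    (algebraMap K L).comp (fracToField A) := by
  apply IsLocalization.ringHom_ext (nonZeroDivisors A)
  rw [RingHom.comp_assoc, fracMap_comp, ← RingHom.comp_assoc, fracToField_comp, hφ,
    RingHom.comp_assoc, fracToField_comp]

variable {𝒳 𝒳' X XL : Scheme.{u}} {π : 𝒳 ⟶ Spec (.of A)} {π' : 𝒳' ⟶ Spec (.of B)} {q : 𝒳' ⟶ 𝒳}
  (hq : IsPullback q π' π (Spec.map (CommRingCat.ofHom φ)))
  {s : X ⟶ Spec (.of K)} {sL : XL ⟶ Spec (.of L)} {gL : XL ⟶ X}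
  (hL : IsPullback gL sL s (specMap K L)) {g : X ⟶ 𝒳} (hp : IsPullback g s π (specMap A K))

/-- The map to the model over the larger ring. -/
noncomputable def modelMap : XL ⟶ 𝒳' :=
  hq.lift (gL ≫ g) (sL ≫ specMap B L) (by
    rw [Category.assoc, Category.assoc, specMap_phi φ hφ, hp.w, reassoc_of% hL.w])

theorem modelMap_q : modelMap φ hφ hq hL hp ≫ q = gL ≫ g := IsPullback.lift_fst _ _ _ _

theorem modelMap_π : modelMap φ hφ hq hL hp ≫ π' = sL ≫ specMap B L :=
  IsPullback.lift_snd _ _ _ _

theorem modelMap_isPullback :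
    IsPullback (modelMap φ hφ hq hL hp) sL π' (specMap B L) := by
  refine IsPullback.of_right (h₁₂ := q) (h₂₂ := Spec.map (CommRingCat.ofHom φ)) (v₁₃ := π) ?_
    (modelMap_π φ hφ hq hL hp) hq
  rw [modelMap_q, specMap_phi φ hφ]
  exact hL.paste_horiz hp

/-- The point with values in the larger field. -/
theorem ptL_modelMap {P : Spec (.of (FractionRing A)) ⟶ 𝒳} {P' : Spec (.of (FractionRing B)) ⟶ 𝒳'}
    (hP' : P' ≫ π' = specMap B (FractionRing B))
    (hPP' : P' ≫ q = Spec.map (CommRingCat.ofHom (fracMap φ (phi_injective φ hφ))) ≫ P)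
    (y : Spec (.of K) ⟶ X) (hy : y ≫ s = 𝟙 _)
    (hyg : y ≫ g = Spec.map (CommRingCat.ofHom (fracToField A)) ≫ P) :
    ptL hL y hy ≫ modelMap φ hφ hq hL hp =
      Spec.map (CommRingCat.ofHom (fracToField B)) ≫ P' := by
  apply hq.hom_ext
  · rw [Category.assoc, modelMap_q, ptL_g_assoc, hyg, Category.assoc, hPP', ← Category.assoc,
      ← Category.assoc, ← Spec.map_comp, ← Spec.map_comp, ← CommRingCat.ofHom_comp,
      ← CommRingCat.ofHom_comp, fracToField_phi φ hφ]
  · rw [Category.assoc, modelMap_π, ptL_s_assoc, Category.assoc, hP', ← Spec.map_comp,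
      ← CommRingCat.ofHom_comp, fracToField_comp]

end Models

/-- The image of a subalgebra in a larger field. -/
noncomputable def mapSub (L : Type u) [Field L] [Algebra K L] (A : Subalgebra ℤ K) :
    Subalgebra ℤ L := A.map ((algebraMap K L).toIntAlgHom)

/-- The isomorphism with the image. -/
noncomputable def mapSubHom (L : Type u) [Field L] [Algebra K L] (A : Subalgebra ℤ K) :
    A →+* mapSub L A where
  toFun a := ⟨algebraMap K L a, a.1, a.2, rfl⟩
  map_one' := Subtype.ext (map_one _)
  map_mul' a b := Subtype.ext (map_mul _ _ _)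
  map_zero' := Subtype.ext (map_zero _)
  map_add' a b := Subtype.ext (map_add _ _ _)

theorem mapSubHom_comp (A : Subalgebra ℤ K) :
    (algebraMap (mapSub L A) L).comp (mapSubHom L A) =
      (algebraMap K L).comp (algebraMap A K) := rfl

theorem mapSubHom_surjective (A : Subalgebra ℤ K) : Function.Surjective (mapSubHom L A) := by
  rintro ⟨_, a, ha, rfl⟩
  exact ⟨⟨a, ha⟩, rfl⟩

/-- Arithmetically-special schemes remain so after extension of the base field. -/
theorem ArithmeticallySpecial.fieldExt {X XL : Scheme.{u}} {s : X ⟶ Spec (.of K)}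
    {sL : XL ⟶ Spec (.of L)} {gL : XL ⟶ X} (hL : IsPullback gL sL s (specMap K L))
    (h : ArithmeticallySpecial s) : ArithmeticallySpecial sL := by
  obtain ⟨A, 𝒳, π, g, hA, h1, h2, h3, hp, hd⟩ := h
  let φ := mapSubHom L A
  have hφ : (algebraMap (mapSub L A) L).comp φ = (algebraMap K L).comp (algebraMap A K) := rfl
  have hbij : Function.Bijective φ := ⟨phi_injective φ hφ, mapSubHom_surjective A⟩
  have hq : IsPullback (pullback.fst π (Spec.map (CommRingCat.ofHom φ)))
      (pullback.snd π (Spec.map (CommRingCat.ofHom φ))) π (Spec.map (CommRingCat.ofHom φ)) :=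
    IsPullback.of_hasPullback _ _
  refine ⟨mapSub L A, pullback π (Spec.map (CommRingCat.ofHom φ)),
    pullback.snd π (Spec.map (CommRingCat.ofHom φ)), modelMap φ hφ hq hL hp, hA.map _,
    inferInstance, inferInstance, inferInstance, modelMap_isPullback φ hφ hq hL hp, ?_⟩
  rw [dense_iff_inter_open]
  intro O hO hne
  obtain ⟨w, ⟨P, y, hP, hys, hyP, hyw⟩, hwO⟩ := dense_ptL hL _ hd O hO hne
  obtain ⟨P', hP', hPP'⟩ := hP.baseChange φ (phi_injective φ hφ) hq (by
    intro r _ hr
    have h4 := (RingEquiv.ofBijective φ hbij).height_comap r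
    have h5 : r.comap φ = r.comap (RingEquiv.ofBijective φ hbij) := rfl
    rw [h5, h4]
    exact hr)
  exact ⟨atPt (ptL hL y hys), hwO y hys hyw, P', ptL hL y hys, hP', ptL_s hL y hys,
    ptL_modelMap φ hφ hq hL hp hP'.comp_eq hPP' y hys hyP, rfl⟩

end Pool.Agent.Helper411_AS
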