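import Pool.Agent.Helper411_AS.Colim

/-!
# Extensions of finitely generated subalgebras without new fibral divisors
-/

set_option autoImplicit false

open CategoryTheory AlgebraicGeometry Limits Opposite

universe u

namespace Pool.Agent.Helper411_AS

/-- In characteristic zero an extension of domains of finite type over a noetherian base is
smooth after inverting one nonzero element. -/
theorem exists_smooth_away {R S : Type u} [CommRing R] [IsDomain R] [IsNoetherianRing R]
    [CharZero R] [CommRing S] [IsDomain S] [Algebra R S] [FaithfulSMul R S]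
    [Algebra.FiniteType R S] : ∃ c : S, c ≠ 0 ∧ Algebra.Smooth R (Localization.Away c) := by
  have hfp : Algebra.FinitePresentation R S := Algebra.FinitePresentation.of_finiteType.mp inferInstance
  have : FaithfulSMul R (FractionRing S) := FaithfulSMul.trans R S (FractionRing S)
  let _ : Algebra (FractionRing R) (FractionRing S) := FractionRing.liftAlgebra R (FractionRing S)
  have : IsScalarTower R (FractionRing R) (FractionRing S) :=
    FractionRing.isScalarTower_liftAlgebra R (FractionRing S)
  have : CharZero (FractionRing R) :=
    charZero_of_injective_algebraMap (IsFractionRing.injective R (FractionRing R))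
  have : Algebra.EssFiniteType S (FractionRing S) :=
    Algebra.EssFiniteType.of_isLocalization (S := FractionRing S) (nonZeroDivisors S)
  have : Algebra.EssFiniteType R (FractionRing S) :=
    Algebra.EssFiniteType.comp R S (FractionRing S)
  have : Algebra.EssFiniteType (FractionRing R) (FractionRing S) :=
    Algebra.EssFiniteType.of_comp R (FractionRing R) (FractionRing S)
  have : Algebra.FormallySmooth (FractionRing R) (FractionRing S) :=
    Algebra.FormallySmooth.of_perfectField
  have : Algebra.FormallySmooth R (FractionRing R) :=
    Algebra.FormallySmooth.of_isLocalization (nonZeroDivisors R)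
  have : Algebra.FormallySmooth R (FractionRing S) :=
    Algebra.FormallySmooth.comp R (FractionRing R) (FractionRing S)
  have hbot : IsLocalization (⊥ : Ideal S).primeCompl (FractionRing S) := by
    rw [Ideal.primeCompl_bot]
    infer_instance
  let e : FractionRing S ≃ₐ[S] Localization.AtPrime (⊥ : Ideal S) :=
    IsLocalization.algEquiv (⊥ : Ideal S).primeCompl _ _
  have : Algebra.IsSmoothAt R (⊥ : Ideal S) :=
    Algebra.FormallySmooth.of_equiv (e.restrictScalars R)
  obtain ⟨f, hf, hs⟩ := Algebra.IsSmoothAt.exists_notMem_smooth R (⊥ : Ideal S)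
  exact ⟨f, by simpa using hf, hs⟩

/-- Flat extensions do not raise heights of contractions. -/
theorem height_comap_le_of_flat {R S : Type u} [CommRing R] [CommRing S] [IsNoetherianRing R]
    [IsNoetherianRing S] [Algebra R S] [Module.Flat R S] (P : Ideal S) [P.IsPrime] :
    (P.comap (algebraMap R S)).height ≤ P.height := by
  have h := Ideal.height_eq_height_add_of_liesOver_of_hasGoingDown (R := R) (P.under R) P
  rw [h]
  exact le_self_add

variable {k : Type u} [Field k]

/-- The contraction to `A` of every height one prime of `B` has height at most one. -/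
def NoNewDivisors {A : Subalgebra ℤ k} (B : Idx A) : Prop :=
  ∀ (q : Ideal B.alg) [q.IsPrime], q.height ≤ 1 → (q.comap B.inclA).height ≤ 1

theorem isNoetherianRing_of_fg' {A : Subalgebra ℤ k} (hA : A.FG) : IsNoetherianRing A := by
  have : Algebra.FiniteType ℤ A := (Subalgebra.fg_iff_finiteType A).mp hA
  exact Algebra.FiniteType.isNoetherianRing ℤ A

/-- Every finitely generated extension of `A` in `k` can be enlarged such that contractions of
height one primes have height at most one. -/
theorem exists_noNewDivisors [CharZero k] {A : Subalgebra ℤ k} (hA : A.FG) (B₀ : Idx A) :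
    ∃ B : Idx A, B₀ ≤ B ∧ NoNewDivisors B := by
  have hAn : IsNoetherianRing A := isNoetherianRing_of_fg' hA
  have hB₀ : Algebra.FiniteType ℤ B₀.alg := (Subalgebra.fg_iff_finiteType B₀.alg).mp B₀.fg
  let _ : Algebra A B₀.alg := B₀.inclA.toAlgebra
  have hinj : Function.Injective (algebraMap A B₀.alg) :=
    Subalgebra.inclusion_injective B₀.le
  have : FaithfulSMul A B₀.alg := (faithfulSMul_iff_algebraMap_injective _ _).mpr hinj
  have : CharZero A := charZero_of_injective_algebraMap (R := ℤ) (algebraMap ℤ A).injective_int
  have : Algebra.FiniteType A B₀.alg := Algebra.FiniteType.of_restrictScalars_finiteType ℤ A B₀.alg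
  obtain ⟨c, hc0, hc⟩ := exists_smooth_away (R := A) (S := B₀.alg)
  have hck : IsUnit (algebraMap B₀.alg k c) := by
    rw [isUnit_iff_ne_zero]
    intro h
    exact hc0 (Subtype.ext h)
  let θ : Localization.Away c →+* k := IsLocalization.Away.lift c hck
  have hθ : ∀ b, θ (algebraMap B₀.alg _ b) = (b : k) := fun b => IsLocalization.Away.lift_eq c hck b
  have hθinj : Function.Injective θ := by
    rw [injective_iff_map_eq_zero]
    intro x hx
    obtain ⟨n, b, hb⟩ := IsLocalization.Away.surj c x
    have h1 : θ (algebraMap B₀.alg _ b) = 0 := by rw [← hb, map_mul, hx, zero_mul]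
    rw [hθ] at h1
    have h2 : b = 0 := Subtype.ext h1
    rw [h2, map_zero] at hb
    have h3 : IsUnit ((algebraMap B₀.alg (Localization.Away c)) c ^ n) :=
      (IsLocalization.Away.algebraMap_isUnit c).pow n
    exact (IsUnit.mul_left_eq_zero h3).mp hb
  let θ' : Localization.Away c →ₐ[ℤ] k := ⟨θ, fun n => by simp⟩
  have hftl : Algebra.FiniteType ℤ (Localization.Away c) :=
    Algebra.FiniteType.trans hB₀ inferInstance
  have hfg : θ'.range.FG := by
    rw [Subalgebra.fg_iff_finiteType]
    exact Algebra.FiniteType.of_surjective θ'.rangeRestrict θ'.rangeRestrict_surjective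
  have hle₀ : B₀.alg ≤ θ'.range := fun b hb => ⟨algebraMap B₀.alg _ ⟨b, hb⟩, hθ ⟨b, hb⟩⟩
  let B : Idx A := ⟨θ'.range, B₀.le.trans hle₀, hfg⟩
  refine ⟨B, hle₀, ?_⟩
  intro q hq hht
  have hBn : IsNoetherianRing B.alg := isNoetherianRing_of_fg' B.fg
  let _ : Algebra A B.alg := B.inclA.toAlgebra
  let e : Localization.Away c ≃ₐ[A] B.alg :=
    { RingEquiv.ofBijective θ'.rangeRestrict.toRingHom
        ⟨fun x y h => hθinj (congrArg Subtype.val h), θ'.rangeRestrict_surjective⟩ with
      commutes' := fun a => by
        apply Subtype.ext
        change θ (algebraMap A (Localization.Away c) a) = a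
        rw [IsScalarTower.algebraMap_apply A B₀.alg (Localization.Away c), hθ]
        rfl }
  have : Module.Flat A (Localization.Away c) := Algebra.Smooth.flat _ _
  have : Module.Flat A B.alg := Module.Flat.of_linearEquiv e.symm.toLinearEquiv
  exact (height_comap_le_of_flat (R := A) (S := B.alg) q).trans hht

end Pool.Agent.Helper411_AS
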