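import Pool.Agent.Helper411_AS.LinesFinal

/-!
# Good models of punctured affine lines
-/

set_option autoImplicit false
set_option linter.unusedVariables false

open CategoryTheory AlgebraicGeometry Limits Opposite

universe u

namespace Pool.Agent.Helper411_AS

theorem exists_good_model {K : Type u} [Field K] [CharZero K] {V : Scheme.{u}}
    {v : V ⟶ Spec (.of K)} [IsIntegral V] (hV : ArithmeticallySpecial v)
    (N : 𝔸(PUnit.{u+1}; V).Opens)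
    (hN₁ : ¬ Dense {x : V | ∃ z : 𝔸(PUnit.{u+1}; V), (𝔸(PUnit.{u+1}; V) ↘ V) z = x ∧ z ∉ N})
    (hN₂ : ∀ x : V, ∃ z : 𝔸(PUnit.{u+1}; V), (𝔸(PUnit.{u+1}; V) ↘ V) z = x ∧ z ∈ N) :
    ∃ (A : Subalgebra ℤ K) (𝒱 : Scheme.{u}) (ρ : 𝒱 ⟶ Spec (.of A)) (gv : V ⟶ 𝒱)
      (𝒩 : 𝔸(PUnit.{u+1}; 𝒱).Opens) (𝒱₀ : 𝒱.Opens),
      A.FG ∧ IsSeparated ρ ∧ LocallyOfFiniteType ρ ∧ QuasiCompact ρ ∧
      IsPullback gv v ρ (specMap A K) ∧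
      (∀ z : 𝔸(PUnit.{u+1}; V), AffineSpace.map PUnit.{u+1} gv z ∈ 𝒩 ↔ z ∈ N) ∧
      (∀ z : 𝔸(PUnit.{u+1}; 𝒱), (𝔸(PUnit.{u+1}; 𝒱) ↘ 𝒱) z ∈ 𝒱₀ → z ∈ 𝒩) ∧
      (∃ x : V, gv x ∈ 𝒱₀) ∧ (∀ x : 𝒱, x ∈ imL 𝒩) ∧
      Dense {w : V | ∃ (P : Spec (.of (FractionRing A)) ⟶ 𝒱) (y : Spec (.of K) ⟶ V),
        IsNearIntegral ρ P ∧ y ≫ v = 𝟙 _ ∧
        y ≫ gv = Spec.map (CommRingCat.ofHom (fracToField A)) ≫ P ∧ atPt y = w} := by
  obtain ⟨A, 𝒱, ρ, gv, hA, _, _, _, hv, hd⟩ := hV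
  have hAn : IsNoetherianRing (CommRingCat.of A) := Helper411_AS.isNoetherianRing_of_fg hA
  have hvft : LocallyOfFiniteType v := MorphismProperty.of_isPullback hv inferInstance
  have hvqc : QuasiCompact v := MorphismProperty.of_isPullback hv inferInstance
  have hlnV : IsLocallyNoetherian V := LocallyOfFiniteType.isLocallyNoetherian v
  have hcsV : CompactSpace V := QuasiCompact.compactSpace_of_compactSpace v
  have hnV : IsNoetherian V := {}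
  have hlnW : IsLocallyNoetherian 𝔸(PUnit.{u+1}; V) :=
    LocallyOfFiniteType.isLocallyNoetherian (𝔸(PUnit.{u+1}; V) ↘ V)
  have hcsW : CompactSpace 𝔸(PUnit.{u+1}; V) :=
    QuasiCompact.compactSpace_of_compactSpace (𝔸(PUnit.{u+1}; V) ↘ V)
  have hnW : IsNoetherian 𝔸(PUnit.{u+1}; V) := {}
  let V₀ : V.Opens := ⟨(closure {x : V | ∃ z : 𝔸(PUnit.{u+1}; V),
    (𝔸(PUnit.{u+1}; V) ↘ V) z = x ∧ z ∉ N})ᶜ, isClosed_closure.isOpen_compl⟩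
  have hV₀ne : ∃ x : V, x ∈ V₀ := by
    by_contra hcon
    push Not at hcon
    apply hN₁
    intro x
    by_contra hx
    exact hcon x hx
  have hV₀ : ∀ z : 𝔸(PUnit.{u+1}; V), (𝔸(PUnit.{u+1}; V) ↘ V) z ∈ V₀ → z ∈ N := by
    intro z hz
    by_contra hzU
    exact hz (subset_closure ⟨z, rfl, hzU⟩)
  obtain ⟨C₂, U₂, hU₂'⟩ := exists_open (lineπ ρ) (line_isPullback ρ hv) hA N
    (TopologicalSpace.NoetherianSpace.isCompact _)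
  obtain ⟨C₃, V₃, hV₃⟩ := exists_open ρ hv hA V₀ (TopologicalSpace.NoetherianSpace.isCompact _)
  obtain ⟨C, h₂, h₃⟩ := exists_ge_ge C₂ C₃
  have hlnL : IsLocallyNoetherian (bc (lineπ ρ) C) := isLocallyNoetherian_model C.fg (bcπ _ C)
  have hcsL : CompactSpace (bc (lineπ ρ) C) := inferInstance
  have hnL : IsNoetherian (bc (lineπ ρ) C) := {}
  have hmemN : ∀ (E : Idx A) (hE : C₂ ≤ E) (x : 𝔸(PUnit.{u+1}; V)),
      bcI (lineπ ρ) hE (bcg (lineπ ρ) (line_isPullback ρ hv) E x) ∈ U₂ ↔ x ∈ N := by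
    intro E hE x
    rw [← Scheme.Hom.comp_apply, bcg_bcI]
    have h1 := congrArg (fun O : 𝔸(PUnit.{u+1}; V).Opens => (O : Set 𝔸(PUnit.{u+1}; V))) hU₂'
    have h2 := congrArg (fun O : Set 𝔸(PUnit.{u+1}; V) => x ∈ O) h1
    exact Iff.of_eq h2
  have hmemV : ∀ (E : Idx A) (hE : C₃ ≤ E) (x : V),
      bcI ρ hE (bcg ρ hv E x) ∈ V₃ ↔ x ∈ V₀ := by
    intro E hE x
    rw [← Scheme.Hom.comp_apply, bcg_bcI]
    have h1 := congrArg (fun O : V.Opens => (O : Set V)) hV₃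
    have h2 := congrArg (fun O : Set V => x ∈ O) h1
    exact Iff.of_eq h2
  let 𝒜 : (bc (lineπ ρ) C).Opens := linePr ρ C ⁻¹ᵁ (bcI ρ h₃ ⁻¹ᵁ V₃)
  let ℬ : (bc (lineπ ρ) C).Opens := bcI (lineπ ρ) h₂ ⁻¹ᵁ U₂
  have hAB : bcg (lineπ ρ) (line_isPullback ρ hv) C ⁻¹ᵁ 𝒜 ≤
      bcg (lineπ ρ) (line_isPullback ρ hv) C ⁻¹ᵁ ℬ := by
    intro z hz
    apply (hmemN C h₂ z).mpr
    apply hV₀
    rw [← hmemV C h₃]
    have h1 : bcI ρ h₃ (linePr ρ C (bcg (lineπ ρ) (line_isPullback ρ hv) C z)) ∈ V₃ := hz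
    rw [← Scheme.Hom.comp_apply (bcg (lineπ ρ) (line_isPullback ρ hv) C), bcg_linePr,
      Scheme.Hom.comp_apply] at h1
    exact h1
  obtain ⟨C₇, h₇, hAB'⟩ := exists_open_le (lineπ ρ) (line_isPullback ρ hv) hA 𝒜 ℬ
    (TopologicalSpace.NoetherianSpace.isCompact _) hAB
  let N' : 𝔸(PUnit.{u+1}; bc ρ C).Opens := lineα ρ C ⁻¹ᵁ ℬ
  have htop : bcg ρ hv C ⁻¹ᵁ imL N' = ⊤ := by
    rw [eq_top_iff]
    intro x _
    obtain ⟨z, hzx, hzU⟩ := hN₂ x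
    refine ⟨AffineSpace.map PUnit.{u+1} (bcg ρ hv C) z, ?_, ?_⟩
    · change lineα ρ C (AffineSpace.map PUnit.{u+1} (bcg ρ hv C) z) ∈ ℬ
      rw [← Scheme.Hom.comp_apply, ← bcg_line]
      exact (hmemN C h₂ z).mpr hzU
    · rw [← Scheme.Hom.comp_apply, AffineSpace.map_over, Scheme.Hom.comp_apply, hzx]
  obtain ⟨C₈, h₈, htop'⟩ := exists_eq_top ρ hv hA (imL N') htop
  obtain ⟨C₉, h₇₉, h₈₉⟩ := exists_ge_ge C₇ C₈
  obtain ⟨E, hE₉, hE⟩ := exists_noNewDivisors hA C₉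
  have h₈E : C₈ ≤ E := h₈₉.trans hE₉
  have h₇E : C₇ ≤ E := h₇₉.trans hE₉
  have hCE : C ≤ E := h₇.trans h₇E
  refine ⟨E.alg, bc ρ E, bcπ ρ E, bcg ρ hv E, lineα ρ E ⁻¹ᵁ (bcI (lineπ ρ) hCE ⁻¹ᵁ ℬ),
    bcI ρ (h₃.trans hCE) ⁻¹ᵁ V₃, E.fg, inferInstance, inferInstance, inferInstance,
    bcg_isPullback ρ hv E, ?_, ?_, ?_, ?_, ?_⟩
  · intro z
    rw [← hmemN E (h₂.trans hCE) z]
    change bcI (lineπ ρ) h₂ (bcI (lineπ ρ) hCE (lineα ρ E (AffineSpace.map PUnit.{u+1}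
      (bcg ρ hv E) z))) ∈ U₂ ↔ _
    rw [← Scheme.Hom.comp_apply (AffineSpace.map PUnit.{u+1} (bcg ρ hv E)), ← bcg_line,
      ← Scheme.Hom.comp_apply (bcI (lineπ ρ) hCE), bcI_bcI]
  · intro z hz
    have h1 : bcI ρ (h₃.trans hCE) ((𝔸(PUnit.{u+1}; bc ρ E) ↘ bc ρ E) z) ∈ V₃ := hz
    have h2 : bcI (lineπ ρ) h₇E (lineα ρ E z) ∈ bcI (lineπ ρ) h₇ ⁻¹ᵁ 𝒜 := by
      change bcI ρ h₃ (linePr ρ C (bcI (lineπ ρ) h₇ (bcI (lineπ ρ) h₇E (lineα ρ E z)))) ∈ V₃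
      rw [← Scheme.Hom.comp_apply (bcI (lineπ ρ) h₇E), bcI_bcI,
        ← Scheme.Hom.comp_apply (bcI (lineπ ρ) hCE), linePr_bcI, Scheme.Hom.comp_apply,
        ← Scheme.Hom.comp_apply (lineα ρ E), lineα_linePr,
        ← Scheme.Hom.comp_apply (bcI ρ hCE), bcI_bcI]
      exact h1
    have h3 := hAB' h2
    have h4 : bcI (lineπ ρ) h₇ (bcI (lineπ ρ) h₇E (lineα ρ E z)) ∈ ℬ := h3
    rw [← Scheme.Hom.comp_apply (bcI (lineπ ρ) h₇E), bcI_bcI] at h4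
    exact h4
  · obtain ⟨x, hx⟩ := hV₀ne
    exact ⟨x, (hmemV E (h₃.trans hCE) x).mpr hx⟩
  · intro x
    have h1 : bcI ρ hCE x ∈ imL N' := by
      have h2 : bcI ρ h₈E x ∈ bcI ρ h₈ ⁻¹ᵁ imL N' := by
        rw [htop']
        trivial
      have h3 : bcI ρ h₈ (bcI ρ h₈E x) ∈ imL N' := h2
      rw [← Scheme.Hom.comp_apply (bcI ρ h₈E), bcI_bcI] at h3
      exact h3
    obtain ⟨z, hzN, hz⟩ := h1
    obtain ⟨z', hz', hz''⟩ := Scheme.exists_preimage_of_isPullback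
      (AffineSpace.isPullback_map (n := PUnit.{u+1}) (bcI ρ hCE)) z x hz
    refine ⟨z', ?_, hz''⟩
    change bcI (lineπ ρ) hCE (lineα ρ E z') ∈ ℬ
    rw [← Scheme.Hom.comp_apply (lineα ρ E), lineα_bcI, Scheme.Hom.comp_apply]
    have h2 : AffineSpace.map PUnit.{u+1} (bcI ρ hCE) z' = z := hz'
    rw [h2]
    exact hzN
  · refine hd.mono ?_
    rintro w ⟨P, y, hP, hyt, hyP, hyw⟩
    obtain ⟨P', hP', hP'P⟩ := hP.baseChange E.inclA (inclA_injective E) (bc_isPullback ρ E)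
      (fun r _ hr => hE r hr)
    refine ⟨P', y, hP', hyt, ?_, hyw⟩
    refine comp_eq_of_baseChange E (bc_isPullback ρ E) (g := gv) ?_ ?_ hP' hP'P y hyt hyP
    · exact bcg_bcp ρ hv E
    · exact bcg_bcπ ρ hv E

end Pool.Agent.Helper411_AS
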