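import Pool.Agent.Helper411_AS.Criterion

/-!
# Points of affine lines over a scheme
-/

set_option autoImplicit false

open CategoryTheory AlgebraicGeometry Limits Opposite

universe u

namespace Pool.Agent.Helper411_AS

/-- The point with coordinate `t` on the affine line over the point `x`. -/
noncomputable def lin {R : CommRingCat.{u}} {S : Scheme.{u}} (x : Spec R ⟶ S) (t : R) :
    Spec R ⟶ 𝔸(PUnit.{u+1}; S) :=
  AffineSpace.homOfVector x (fun _ => (Scheme.ΓSpecIso R).inv t)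

@[reassoc (attr := simp)]
theorem lin_over {R : CommRingCat.{u}} {S : Scheme.{u}} (x : Spec R ⟶ S) (t : R) :
    lin x t ≫ (𝔸(PUnit.{u+1}; S) ↘ S) = x :=
  AffineSpace.homOfVector_over _ _

theorem lin_coord {R : CommRingCat.{u}} {S : Scheme.{u}} (x : Spec R ⟶ S) (t : R)
    (i : PUnit.{u+1}) :
    (lin x t).appTop (AffineSpace.coord S i) = (Scheme.ΓSpecIso R).inv t :=
  AffineSpace.homOfVector_appTop_coord _ _ _

theorem eq_lin {R : CommRingCat.{u}} {S : Scheme.{u}} (x : Spec R ⟶ S) (t : R)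
    (f : Spec R ⟶ 𝔸(PUnit.{u+1}; S)) (h₁ : f ≫ (𝔸(PUnit.{u+1}; S) ↘ S) = x)
    (h₂ : f.appTop (AffineSpace.coord S PUnit.unit) = (Scheme.ΓSpecIso R).inv t) :
    f = lin x t := by
  apply AffineSpace.hom_ext
  · rw [lin_over, h₁]
  · rintro ⟨⟩
    rw [lin_coord, h₂]

theorem specMap_lin {R R' : CommRingCat.{u}} {S : Scheme.{u}} (φ : R ⟶ R') (x : Spec R ⟶ S)
    (t : R) : Spec.map φ ≫ lin x t = lin (Spec.map φ ≫ x) (φ t) := by
  apply eq_lin
  · rw [Category.assoc, lin_over]
  · rw [Scheme.Hom.comp_appTop, CommRingCat.comp_apply, lin_coord,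
      ← CommRingCat.comp_apply, ← Scheme.ΓSpecIso_inv_naturality, CommRingCat.comp_apply]

theorem lin_map {R : CommRingCat.{u}} {S S' : Scheme.{u}} (f : S ⟶ S') (x : Spec R ⟶ S)
    (t : R) : lin x t ≫ AffineSpace.map PUnit.{u+1} f = lin (x ≫ f) t := by
  apply eq_lin
  · rw [Category.assoc, AffineSpace.map_over, lin_over_assoc]
  · rw [Scheme.Hom.comp_appTop, CommRingCat.comp_apply, AffineSpace.map_appTop_coord, lin_coord]

end Pool.Agent.Helper411_AS
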