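import Pool.Agent.Helper411_AS.LinesLocal
import Pool.Agent.Helper411_AS.AvoidRoots
import Pool.Agent.Helper411_AS.BadPrimes

/-!
# Moving near-integral points along families of affine lines
-/

set_option autoImplicit false

open CategoryTheory AlgebraicGeometry Limits Opposite

universe u

namespace Pool.Agent.Helper411_AS

variable {k : Type u} [Field k]

/-- The point of the local ring at `p` with values in the residue field. -/
noncomputable def resPt {A : Type u} [CommRing A] (p : Ideal A) [p.IsPrime] :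
    Spec (.of (p.ResidueField)) ⟶ Spec (.of (Localization.AtPrime p)) :=
  Spec.map (CommRingCat.ofHom (algebraMap (Localization.AtPrime p) p.ResidueField))

theorem resPt_apply {A : Type u} [CommRing A] (p : Ideal A) [p.IsPrime] :
    atPt (resPt p) = (IsLocalRing.closedPoint (Localization.AtPrime p) :
      PrimeSpectrum (Localization.AtPrime p)) := by
  apply PrimeSpectrum.ext
  apply le_antisymm
  · exact IsLocalRing.le_maximalIdeal (PrimeSpectrum.isPrime (atPt (resPt p))).ne_top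
  · intro x hx
    change algebraMap (Localization.AtPrime p) p.ResidueField x ∈
      IsLocalRing.maximalIdeal p.ResidueField
    rw [IsLocalRing.maximalIdeal_eq_bot]
    change algebraMap (Localization.AtPrime p) p.ResidueField x = 0
    exact (IsLocalRing.residue_eq_zero_iff x).mpr hx

theorem residue_algebraMap_eq_zero_iff {A : Type u} [CommRing A] (p : Ideal A) [p.IsPrime]
    (a : A) : algebraMap A p.ResidueField a = 0 ↔ a ∈ p :=
  Ideal.algebraMap_residueField_eq_zero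

/-- The core of the argument. -/
theorem arithmeticallySpecial_of_lines [CharZero k] {X 𝒳 V 𝒱 : Scheme.{u}} [IsIntegral V]
    {s : X ⟶ Spec (.of k)} {v : V ⟶ Spec (.of k)} {A : Subalgebra ℤ k} (hA : A.FG)
    (π : 𝒳 ⟶ Spec (.of A)) [IsSeparated π] [LocallyOfFiniteType π] [QuasiCompact π]
    (g : X ⟶ 𝒳) (hp : IsPullback g s π (specMap A k))
    (ρ : 𝒱 ⟶ Spec (.of A)) [IsSeparated ρ] [LocallyOfFiniteType ρ]
    (gv : V ⟶ 𝒱)
    (h : 𝔸(PUnit.{u+1}; V) ⟶ X) (hh : h ≫ s = (𝔸(PUnit.{u+1}; V) ↘ V) ≫ v) [IsDominant h]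
    (H : 𝔸(PUnit.{u+1}; 𝒱) ⟶ 𝒳) (hH : H ≫ π = (𝔸(PUnit.{u+1}; 𝒱) ↘ 𝒱) ≫ ρ)
    (hHh : AffineSpace.map PUnit.{u+1} gv ≫ H = h ≫ g)
    (O : 𝒳.Opens) (𝒱₀ : 𝒱.Opens)
    (h0 : ∀ z : 𝔸(PUnit.{u+1}; 𝒱), (𝔸(PUnit.{u+1}; 𝒱) ↘ 𝒱) z ∈ 𝒱₀ → H z ∈ O)
    (hne : ∃ x : V, gv x ∈ 𝒱₀)
    (D : ℕ) (hD : ∀ (F : Type u) [Field F] (x : Spec (.of F) ⟶ 𝒱),
      ∃ f : Polynomial F, f ≠ 0 ∧ f.natDegree ≤ D ∧
        ∀ t : F, f.eval t ≠ 0 → H (atPt (lin x t)) ∈ O)
    (hDA : IsUnit ((D.factorial : ℕ) : A))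
    (Γ : Set V) (hΓ : Dense Γ)
    (hΓn : ∀ w ∈ Γ, ∃ (P : Spec (.of (FractionRing A)) ⟶ 𝒱) (y : Spec (.of k) ⟶ V),
      IsNearIntegral ρ P ∧ y ≫ v = 𝟙 _ ∧
      y ≫ gv = Spec.map (CommRingCat.ofHom (fracToField A)) ≫ P ∧ atPt y = w) :
    ArithmeticallySpecial ((g ⁻¹ᵁ O).ι ≫ s) := by
  have hAn : IsNoetherianRing A := isNoetherianRing_of_fg hA
  apply arithmeticallySpecial_open hA π g hp O
  rw [dense_iff_inter_open]
  rintro O' hO' hO'ne
  -- the open subset of the affine line over `V`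
  obtain ⟨x₁, hx₁O, z₁, rfl⟩ := h.denseRange.inter_open_nonempty _ hO' hO'ne
  obtain ⟨x₂, hx₂⟩ := hne
  obtain ⟨z₂, hz₂⟩ := (𝔸(PUnit.{u+1}; V) ↘ V).surjective x₂
  let N : 𝔸(PUnit.{u+1}; V).Opens :=
    ⟨h ⁻¹' O' ∩ (𝔸(PUnit.{u+1}; V) ↘ V) ⁻¹' (gv ⁻¹' (𝒱₀ : Set 𝒱)),
      (hO'.preimage h.continuous).inter
        ((𝒱₀.isOpen.preimage gv.continuous).preimage (𝔸(PUnit.{u+1}; V) ↘ V).continuous)⟩
  have hNne : ∃ z, z ∈ N := by
    refine nonempty_preirreducible_inter (hO'.preimage h.continuous)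
      ((𝒱₀.isOpen.preimage gv.continuous).preimage (𝔸(PUnit.{u+1}; V) ↘ V).continuous)
      ⟨z₁, hx₁O⟩ ⟨z₂, ?_⟩
    change gv ((𝔸(PUnit.{u+1}; V) ↘ V) z₂) ∈ 𝒱₀
    rw [hz₂]
    exact hx₂
  obtain ⟨z₀, hz₀⟩ := hNne
  obtain ⟨w, hwN, hwΓ⟩ := hΓ.inter_open_nonempty (imL N : Set V) (imL N).isOpen ⟨_, z₀, hz₀, rfl⟩
  obtain ⟨z, hzN, hzw⟩ := hwN
  obtain ⟨P, y, hP, hyv, hyP, hyw⟩ := hΓn w hwΓ
  have hPV : atPt P ∈ 𝒱₀ := by
    have h1 : gv w = atPt P := by
      rw [← hyw, ← atPt_comp, hyP, atPt_comp, apply_eq_atPt]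
    rw [← h1, ← hzw]
    exact hzN.2
  obtain ⟨e, he, heN⟩ := exists_poly N y z hzN (by rw [hzw, hyw])
  obtain ⟨a, ha, hbad⟩ := exists_ne_zero_forall_mem ρ P hP.comp_eq 𝒱₀ hPV
  -- the bad primes
  have hfin := finite_heightOne a ha
  let ι := {p : PrimeSpectrum A | p.asIdeal.height = 1 ∧ a ∈ p.asIdeal}
  have hι : Finite ι := hfin
  have hlift : ∀ p : ι, ∃ Q : Spec (.of (Localization.AtPrime p.1.asIdeal)) ⟶ 𝒱,
      Q ≫ ρ = specMap A (Localization.AtPrime p.1.asIdeal) ∧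
      Spec.map (CommRingCat.ofHom (atPrimeToFrac p.1.asIdeal)) ≫ Q = P :=
    fun p => hP.exists_lift p.1.asIdeal p.2.1
  choose Q hQρ hQP using hlift
  have hf : ∀ p : ι, ∃ f : Polynomial p.1.asIdeal.ResidueField, f ≠ 0 ∧ f.natDegree ≤ D ∧
        ∀ t : p.1.asIdeal.ResidueField, f.eval t ≠ 0 →
          H (atPt (lin (resPt p.1.asIdeal ≫ Q p) t)) ∈ O :=
    fun p => hD _ _
  choose f hf0 hfD hfO using hf
  obtain ⟨t₀, ht₀⟩ := exists_avoiding (fun p : ι => p.1.asIdeal) (fun p => p.1.isPrime) (by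
    intro p q hpq hle
    apply hpq
    apply Subtype.ext
    apply PrimeSpectrum.ext
    by_contra hne
    have h1 := Ideal.height_add_one_le_of_lt_of_isPrime (lt_of_le_of_ne hle hne)
    rw [p.2.1, q.2.1] at h1
    exact absurd h1 (by decide)) hDA (fun p => p.1.asIdeal.ResidueField)
    (fun p => algebraMap A p.1.asIdeal.ResidueField)
    (fun p b => residue_algebraMap_eq_zero_iff _ _) f hf0 hfD
  -- the choice of the parameter
  obtain ⟨m, hm⟩ : ∃ m : ℕ, e.eval (((t₀ + m * a : A) : A) : k) ≠ 0 := by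
    by_contra hcon
    push Not at hcon
    apply he
    apply Polynomial.eq_zero_of_infinite_isRoot
    refine Set.Infinite.mono (s := Set.range fun m : ℕ => (((t₀ + m * a : A) : A) : k)) ?_ ?_
    · rintro _ ⟨m, rfl⟩
      exact hcon m
    · apply Set.infinite_range_of_injective
      intro m n hmn
      have h1 : (t₀ + m * a : A) = t₀ + n * a := Subtype.ext hmn
      have h2 : (m : A) * a = n * a := add_left_cancel h1
      have h3 : (m : A) = n := mul_right_cancel₀ ha h2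
      have h4 : ((m : A) : k) = ((n : A) : k) := congrArg _ h3
      have h5 : (m : k) = n := by simpa using h4
      exact_mod_cast h5
  set t : A := t₀ + m * a with ht
  -- the point
  refine ⟨h (atPt (lin y (t : k))), ?_, lin P (algebraMap A (FractionRing A) t) ≫ H,
    lin y (t : k) ≫ h, ⟨?_, ?_⟩, ?_, ?_, ?_⟩
  · exact (heN _ hm).1
  · rw [Category.assoc, hH, lin_over_assoc, hP.comp_eq]
  · intro p hpp hp1
    have key : ∀ Q' : Spec (.of (Localization.AtPrime p)) ⟶ 𝒱,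
        Q' ≫ ρ = specMap A (Localization.AtPrime p) →
        Spec.map (CommRingCat.ofHom (atPrimeToFrac p)) ≫ Q' = P →
        (lin Q' (algebraMap A (Localization.AtPrime p) t) ≫ H) ≫ π =
          specMap A (Localization.AtPrime p) ∧
        Spec.map (CommRingCat.ofHom (atPrimeToFrac p)) ≫
          lin Q' (algebraMap A (Localization.AtPrime p) t) ≫ H =
          lin P (algebraMap A (FractionRing A) t) ≫ H := by
      intro Q' hQ'ρ hQ'P
      refine ⟨?_, ?_⟩
      · rw [Category.assoc, hH, lin_over_assoc, hQ'ρ]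
      · rw [← Category.assoc, specMap_lin, hQ'P]
        congr 2
        exact atPrimeToFrac_algebraMap p t
    by_cases hap : a ∈ p
    · let i : ι := ⟨⟨p, hpp⟩, hp1, hap⟩
      obtain ⟨h1, h2⟩ := key (Q i) (hQρ i) (hQP i)
      refine ⟨_, h1, h2, ?_⟩
      intro q
      have h3 : q ⤳ IsLocalRing.closedPoint (Localization.AtPrime p) :=
        IsLocalRing.specializes_closedPoint q
      have h4 := (h3.map (lin (Q i) (algebraMap A (Localization.AtPrime p) t)).continuous).map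
        H.continuous
      apply h4.mem_open O.isOpen
      have h5 : H (atPt (lin (resPt p ≫ Q i) (algebraMap A p.ResidueField t))) ∈ O := by
        apply hfO i
        have h6 : algebraMap A p.ResidueField t = algebraMap A p.ResidueField t₀ := by
          rw [ht, map_add, map_mul, (residue_algebraMap_eq_zero_iff p a).mpr hap, mul_zero,
            add_zero]
        rw [h6]
        exact ht₀ i
      have h7 : lin (resPt p ≫ Q i) (algebraMap A p.ResidueField t) =
          resPt p ≫ lin (Q i) (algebraMap A (Localization.AtPrime p) t) := by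
        rw [resPt, specMap_lin]
        rfl
      rw [h7, atPt_comp, resPt_apply] at h5
      exact h5
    · obtain ⟨Q', hQ'ρ, hQ'P⟩ := hP.exists_lift p hp1
      obtain ⟨h1, h2⟩ := key Q' hQ'ρ hQ'P
      refine ⟨_, h1, h2, ?_⟩
      intro q
      apply h0
      have h3 := hbad p hap Q' hQ'ρ hQ'P q
      have h4 : (lin Q' (algebraMap A (Localization.AtPrime p) t) ≫ (𝔸(PUnit.{u+1}; 𝒱) ↘ 𝒱)) q
          ∈ 𝒱₀ := by
        rw [lin_over]
        exact h3
      exact h4
  · rw [Category.assoc, hh, lin_over_assoc, hyv]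
  · rw [Category.assoc, ← hHh, ← Category.assoc, lin_map, hyP, ← Category.assoc, specMap_lin]
    congr 2
    have h1 : fracToField A (algebraMap A (FractionRing A) t) = algebraMap A k t :=
      congrArg (fun f => f t) (fracToField_comp A)
    exact h1.symm
  · rfl

end Pool.Agent.Helper411_AS
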