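import Pool.Agent.Helper411_AS.FlatExt
import Pool.Agent.Helper411_AS.Criterion

/-!
# Persistence of near-integral points
-/

set_option autoImplicit false
set_option linter.unusedSectionVars false

open CategoryTheory AlgebraicGeometry Limits Opposite

universe u

namespace Pool.Agent.Helper411_AS

/-- Near-integral points also extend over the local rings at primes of height at most one. -/
theorem IsNearIntegral.exists_lift' {A : Type u} [CommRing A] [IsDomain A] {𝒳 : Scheme.{u}}
    {π : 𝒳 ⟶ Spec (.of A)} {P : Spec (.of (FractionRing A)) ⟶ 𝒳} (hP : IsNearIntegral π P)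
    (p : Ideal A) [p.IsPrime] (hp : p.height ≤ 1) :
    ∃ Q : Spec (.of (Localization.AtPrime p)) ⟶ 𝒳,
      Q ≫ π = specMap A (Localization.AtPrime p) ∧
      Spec.map (CommRingCat.ofHom (atPrimeToFrac p)) ≫ Q = P := by
  rcases eq_or_lt_of_le hp with h | h
  · exact hP.exists_lift p h
  · rw [Order.lt_one_iff, Ideal.height_eq_zero_iff_eq_bot] at h
    subst h
    let ρ : FractionRing A →+* Localization.AtPrime (⊥ : Ideal A) :=
      IsLocalization.lift (M := nonZeroDivisors A)
        (g := algebraMap A (Localization.AtPrime (⊥ : Ideal A))) (by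
          intro y
          exact IsLocalization.map_units (Localization.AtPrime (⊥ : Ideal A))
            (⟨y, fun h => nonZeroDivisors.coe_ne_zero y h⟩ : (⊥ : Ideal A).primeCompl))
    have h1 : ρ.comp (algebraMap A (FractionRing A)) =
        algebraMap A (Localization.AtPrime (⊥ : Ideal A)) :=
      RingHom.ext fun a => IsLocalization.lift_eq _ a
    have h2 : (atPrimeToFrac (⊥ : Ideal A)).comp ρ = RingHom.id _ := by
      apply IsLocalization.ringHom_ext (nonZeroDivisors A)
      rw [RingHom.comp_assoc, h1, atPrimeToFrac_comp, RingHom.id_comp]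
    refine ⟨Spec.map (CommRingCat.ofHom ρ) ≫ P, ?_, ?_⟩
    · rw [Category.assoc, hP.comp_eq, ← Spec.map_comp, ← CommRingCat.ofHom_comp, h1]
    · rw [← Category.assoc, ← Spec.map_comp, ← CommRingCat.ofHom_comp, h2]
      change Spec.map (𝟙 _) ≫ P = P
      rw [Spec.map_id, Category.id_comp]

section Ring

variable {R S : Type u} [CommRing R] [IsDomain R] [CommRing S] [IsDomain S] (f : R →+* S)
  (hf : Function.Injective f)

include hf in
theorem fracMap_injective :
    Function.Injective ((algebraMap S (FractionRing S)).comp f) :=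
  (IsFractionRing.injective S (FractionRing S)).comp hf

/-- The map of fraction fields. -/
noncomputable def fracMap : FractionRing R →+* FractionRing S :=
  IsLocalization.lift (M := nonZeroDivisors R) (g := (algebraMap S (FractionRing S)).comp f) (by
    intro y
    apply isUnit_iff_ne_zero.mpr
    intro h
    exact nonZeroDivisors.coe_ne_zero y (fracMap_injective f hf (by rw [h, map_zero])))

theorem fracMap_comp : (fracMap f hf).comp (algebraMap R (FractionRing R)) =
    (algebraMap S (FractionRing S)).comp f :=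
  RingHom.ext fun a => IsLocalization.lift_eq _ a

/-- The map of local rings. -/
noncomputable def localMap (q : Ideal S) [q.IsPrime] :
    Localization.AtPrime (q.comap f) →+* Localization.AtPrime q :=
  Localization.localRingHom (q.comap f) q f rfl

theorem localMap_comp (q : Ideal S) [q.IsPrime] :
    (localMap f q).comp (algebraMap R (Localization.AtPrime (q.comap f))) =
      (algebraMap S (Localization.AtPrime q)).comp f :=
  RingHom.ext fun a => Localization.localRingHom_to_map _ _ _ rfl a

theorem atPrimeToFrac_localMap (q : Ideal S) [q.IsPrime] :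
    (atPrimeToFrac q).comp (localMap f q) =
      (fracMap f hf).comp (atPrimeToFrac (q.comap f)) := by
  apply IsLocalization.ringHom_ext (q.comap f).primeCompl
  rw [RingHom.comp_assoc, localMap_comp, RingHom.comp_assoc, atPrimeToFrac_comp,
    ← RingHom.comp_assoc, atPrimeToFrac_comp, fracMap_comp]

variable {𝒳 𝒳' : Scheme.{u}} {π : 𝒳 ⟶ Spec (.of R)} {π' : 𝒳' ⟶ Spec (.of S)} {q : 𝒳' ⟶ 𝒳}

/-- Near-integral points persist under base change to algebras without new divisors. -/
theorem IsNearIntegral.baseChange (hq : IsPullback q π' π (Spec.map (CommRingCat.ofHom f)))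
    (hB : ∀ (r : Ideal S) [r.IsPrime], r.height ≤ 1 → (r.comap f).height ≤ 1)
    {P : Spec (.of (FractionRing R)) ⟶ 𝒳} (hP : IsNearIntegral π P) :
    ∃ P' : Spec (.of (FractionRing S)) ⟶ 𝒳', IsNearIntegral π' P' ∧
      P' ≫ q = Spec.map (CommRingCat.ofHom (fracMap f hf)) ≫ P := by
  have hw : (Spec.map (CommRingCat.ofHom (fracMap f hf)) ≫ P) ≫ π =
      specMap S (FractionRing S) ≫ Spec.map (CommRingCat.ofHom f) := by
    rw [Category.assoc, hP.comp_eq, ← Spec.map_comp, ← Spec.map_comp,
      ← CommRingCat.ofHom_comp, ← CommRingCat.ofHom_comp, fracMap_comp]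
  obtain ⟨P', hP'1, hP'2⟩ : ∃ P' : Spec (.of (FractionRing S)) ⟶ 𝒳',
      P' ≫ q = Spec.map (CommRingCat.ofHom (fracMap f hf)) ≫ P ∧
      P' ≫ π' = specMap S (FractionRing S) :=
    ⟨hq.lift _ _ hw, hq.lift_fst _ _ hw, hq.lift_snd _ _ hw⟩
  refine ⟨P', ⟨hP'2, ?_⟩, hP'1⟩
  intro r hr hht
  obtain ⟨Q, hQ, hQP⟩ := hP.exists_lift' (r.comap f) (hB r hht.le)
  have hw' : (Spec.map (CommRingCat.ofHom (localMap f r)) ≫ Q) ≫ π =
      specMap S (Localization.AtPrime r) ≫ Spec.map (CommRingCat.ofHom f) := by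
    rw [Category.assoc, hQ, ← Spec.map_comp, ← Spec.map_comp,
      ← CommRingCat.ofHom_comp, ← CommRingCat.ofHom_comp, localMap_comp]
  obtain ⟨Q', hQ'1, hQ'2⟩ : ∃ Q' : Spec (.of (Localization.AtPrime r)) ⟶ 𝒳',
      Q' ≫ q = Spec.map (CommRingCat.ofHom (localMap f r)) ≫ Q ∧
      Q' ≫ π' = specMap S (Localization.AtPrime r) :=
    ⟨hq.lift _ _ hw', hq.lift_fst _ _ hw', hq.lift_snd _ _ hw'⟩
  refine ⟨Q', hQ'2, ?_⟩
  apply hq.hom_ext
  · rw [Category.assoc, hQ'1, hP'1, ← Category.assoc,
      ← Spec.map_comp, ← CommRingCat.ofHom_comp, atPrimeToFrac_localMap,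
      CommRingCat.ofHom_comp, Spec.map_comp, Category.assoc, hQP]
  · rw [Category.assoc, hQ'2, hP'2, ← Spec.map_comp,
      ← CommRingCat.ofHom_comp, atPrimeToFrac_comp]

end Ring

variable {k : Type u} [Field k] {A : Subalgebra ℤ k} (B : Idx A)

theorem inclA_injective : Function.Injective B.inclA := Subalgebra.inclusion_injective B.le

theorem fracToField_fracMap :
    (fracToField B.alg).comp (fracMap B.inclA (inclA_injective B)) = fracToField A := by
  apply IsLocalization.ringHom_ext (nonZeroDivisors A)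
  rw [RingHom.comp_assoc, fracMap_comp, ← RingHom.comp_assoc, fracToField_comp, fracToField_comp]
  rfl

variable {𝒳 𝒳' : Scheme.{u}} {π : 𝒳 ⟶ Spec (.of A)} {π' : 𝒳' ⟶ Spec (.of B.alg)} {q : 𝒳' ⟶ 𝒳}

/-- The `k`-point defined by a near-integral point after base change. -/
theorem comp_eq_of_baseChange (hq : IsPullback q π' π (Spec.map (CommRingCat.ofHom B.inclA)))
    {X : Scheme.{u}} {s : X ⟶ Spec (.of k)} {g : X ⟶ 𝒳} {g' : X ⟶ 𝒳'} (hg : g' ≫ q = g)
    (hg' : g' ≫ π' = s ≫ specMap B.alg k)
    {P : Spec (.of (FractionRing A)) ⟶ 𝒳} {P' : Spec (.of (FractionRing B.alg)) ⟶ 𝒳'}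
    (hP' : IsNearIntegral π' P')
    (hPP' : P' ≫ q = Spec.map (CommRingCat.ofHom (fracMap B.inclA (inclA_injective B))) ≫ P)
    (y : Spec (.of k) ⟶ X) (hy : y ≫ s = 𝟙 _)
    (hyg : y ≫ g = Spec.map (CommRingCat.ofHom (fracToField A)) ≫ P) :
    y ≫ g' = Spec.map (CommRingCat.ofHom (fracToField B.alg)) ≫ P' := by
  apply hq.hom_ext
  · rw [Category.assoc, hg, hyg, Category.assoc, hPP', ← Category.assoc, ← Spec.map_comp,
      ← CommRingCat.ofHom_comp, fracToField_fracMap]
  · rw [Category.assoc, hg', ← Category.assoc, hy, Category.id_comp, Category.assoc, hP'.comp_eq,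
      ← Spec.map_comp, ← CommRingCat.ofHom_comp, fracToField_comp]

end Pool.Agent.Helper411_AS
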