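import Pool.Agent.Helper411_AS.LinesSpread
import Pool.Agent.Helper411_AS.LinesCore
import Pool.Agent.Helper411_AS.Persist

/-!
# Families of affine lines
-/

set_option autoImplicit false
set_option linter.unusedVariables false

open CategoryTheory AlgebraicGeometry Limits Opposite

universe u

namespace Pool.Agent.Helper411_AS

/-- The existence of a model. -/
def HasModel {k : Type u} [Field k] {X : Scheme.{u}} (s : X ⟶ Spec (.of k)) : Prop :=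
  ∃ (A : Subalgebra ℤ k) (𝒳 : Scheme.{u}) (π : 𝒳 ⟶ Spec (.of A)) (g : X ⟶ 𝒳),
    A.FG ∧ IsSeparated π ∧ LocallyOfFiniteType π ∧ QuasiCompact π ∧
    IsPullback g s π (specMap A k)

theorem exists_isUnit_factorial {k : Type u} [Field k] [CharZero k] {A : Subalgebra ℤ k}
    (B : Idx A) (D : ℕ) : ∃ C : Idx A, B ≤ C ∧ ∀ E : Idx A, C ≤ E →
      IsUnit ((D.factorial : ℕ) : E.alg) := by
  have hfg : (Algebra.adjoin ℤ {((D.factorial : ℕ) : k)⁻¹} : Subalgebra ℤ k).FG :=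
    ⟨{((D.factorial : ℕ) : k)⁻¹}, by simp⟩
  refine ⟨⟨B.alg ⊔ Algebra.adjoin ℤ {((D.factorial : ℕ) : k)⁻¹}, B.le.trans le_sup_left,
    B.fg.sup hfg⟩, (le_sup_left : B.alg ≤ B.alg ⊔ _), ?_⟩
  intro E hE
  have h1 : ((D.factorial : ℕ) : k)⁻¹ ∈ E.alg :=
    hE (le_sup_right (a := B.alg) (Algebra.subset_adjoin (Set.mem_singleton _)))
  refine IsUnit.of_mul_eq_one ⟨_, h1⟩ ?_
  apply Subtype.ext
  change (((D.factorial : ℕ) : E.alg) : k) * ((D.factorial : ℕ) : k)⁻¹ = 1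
  rw [show (((D.factorial : ℕ) : E.alg) : k) = ((D.factorial : ℕ) : k) by simp]
  exact mul_inv_cancel₀ (Nat.cast_ne_zero.mpr (Nat.factorial_ne_zero D))

theorem lines_of_models {k : Type u} [Field k] [CharZero k]
    {X 𝒳 V 𝒱 𝒱₁ : Scheme.{u}} {s : X ⟶ Spec (.of k)} {v : V ⟶ Spec (.of k)} [IsIntegral V]
    {A₁ : Subalgebra ℤ k} (hA₁ : A₁.FG) (B₁ : Idx A₁)
    (π : 𝒳 ⟶ Spec (.of B₁.alg)) [IsSeparated π] [LocallyOfFiniteType π] [QuasiCompact π]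
    (g : X ⟶ 𝒳) (hp : IsPullback g s π (specMap B₁.alg k))
    (ρ : 𝒱 ⟶ Spec (.of B₁.alg)) [IsSeparated ρ] [LocallyOfFiniteType ρ] [QuasiCompact ρ]
    (gv : V ⟶ 𝒱) (hv : IsPullback gv v ρ (specMap B₁.alg k))
    (ρ₁ : 𝒱₁ ⟶ Spec (.of A₁)) (gv₁ : V ⟶ 𝒱₁)
    (q : 𝒱 ⟶ 𝒱₁) (hq : IsPullback q ρ ρ₁ (specA B₁)) (hgvq : gv ≫ q = gv₁)
    (h : 𝔸(PUnit.{u+1}; V) ⟶ X) (hh : h ≫ s = (𝔸(PUnit.{u+1}; V) ↘ V) ≫ v) [IsDominant h]
    (U : X.Opens)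
    (hU₁ : ¬ Dense {x : V | ∃ z : 𝔸(PUnit.{u+1}; V), (𝔸(PUnit.{u+1}; V) ↘ V) z = x ∧ h z ∉ U})
    (hU₂ : ∀ x : V, ∃ z : 𝔸(PUnit.{u+1}; V), (𝔸(PUnit.{u+1}; V) ↘ V) z = x ∧ h z ∈ U)
    (Γ : Set V) (hΓ : Dense Γ)
    (hΓn : ∀ w ∈ Γ, ∃ (P : Spec (.of (FractionRing A₁)) ⟶ 𝒱₁) (y : Spec (.of k) ⟶ V),
      IsNearIntegral ρ₁ P ∧ y ≫ v = 𝟙 _ ∧
      y ≫ gv₁ = Spec.map (CommRingCat.ofHom (fracToField A₁)) ≫ P ∧ atPt y = w) :
    ArithmeticallySpecial (U.ι ≫ s) := by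
  have hB := B₁.fg
  have hAn : IsNoetherianRing (CommRingCat.of B₁.alg) :=
    Helper411_AS.isNoetherianRing_of_fg hB
  have hfp : LocallyOfFinitePresentation π :=
    (LocallyOfFinitePresentation.iff_locallyOfFiniteType).mpr inferInstance
  have hsft : LocallyOfFiniteType s := MorphismProperty.of_isPullback hp inferInstance
  have hsqc : QuasiCompact s := MorphismProperty.of_isPullback hp inferInstance
  have hlnX : IsLocallyNoetherian X := LocallyOfFiniteType.isLocallyNoetherian s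
  have hcs : CompactSpace X := QuasiCompact.compactSpace_of_compactSpace s
  have hn : IsNoetherian X := {}
  have hvft : LocallyOfFiniteType v := MorphismProperty.of_isPullback hv inferInstance
  have hvqc : QuasiCompact v := MorphismProperty.of_isPullback hv inferInstance
  have hlnV : IsLocallyNoetherian V := LocallyOfFiniteType.isLocallyNoetherian v
  have hcsV : CompactSpace V := QuasiCompact.compactSpace_of_compactSpace v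
  have hnV : IsNoetherian V := {}
  -- the open subset of `V` over which the lines stay in `U`
  let V₀ : V.Opens := ⟨(closure {x : V | ∃ z : 𝔸(PUnit.{u+1}; V),
    (𝔸(PUnit.{u+1}; V) ↘ V) z = x ∧ h z ∉ U})ᶜ, isClosed_closure.isOpen_compl⟩
  have hV₀ne : ∃ x : V, x ∈ V₀ := by
    by_contra hcon
    push Not at hcon
    apply hU₁
    intro x
    by_contra hx
    exact hcon x hx
  have hV₀ : ∀ z : 𝔸(PUnit.{u+1}; V), (𝔸(PUnit.{u+1}; V) ↘ V) z ∈ V₀ → h z ∈ U := by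
    intro z hz
    by_contra hzU
    exact hz (subset_closure ⟨z, rfl, hzU⟩)
  obtain ⟨C₂, U₂, hU₂'⟩ := exists_open π hp hB U (TopologicalSpace.NoetherianSpace.isCompact _)
  obtain ⟨C₃, V₃, hV₃⟩ := exists_open ρ hv hB V₀ (TopologicalSpace.NoetherianSpace.isCompact _)
  obtain ⟨C₄, σ₄, hσ₄, hσ₄'⟩ := exists_hom (lineπ ρ) (line_isPullback ρ hv) hB π (h ≫ g) (by
    rw [Category.assoc, hp.w, reassoc_of% hh, Category.assoc])
  obtain ⟨C₅, h₃₅, h₂₅⟩ := exists_ge_ge C₃ C₂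
  obtain ⟨C, h₅, h₄⟩ := exists_ge_ge C₅ C₄
  have h₂ : C₂ ≤ C := h₂₅.trans h₅
  have h₃ : C₃ ≤ C := h₃₅.trans h₅
  -- the morphism over larger bases
  have hlift : ∀ E : Idx B₁.alg, ∀ hE : C₄ ≤ E, ∃ τ : bc (lineπ ρ) E ⟶ bc π E,
      τ ≫ bcp π E = bcI (lineπ ρ) hE ≫ σ₄ ∧ τ ≫ bcπ π E = bcπ (lineπ ρ) E := by
    intro E hE
    have w : (bcI (lineπ ρ) hE ≫ σ₄) ≫ π = bcπ (lineπ ρ) E ≫ specA E := by
      rw [Category.assoc, hσ₄', bcI_bcπ_assoc, specI_specA]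
    exact ⟨(bc_isPullback π E).lift _ _ w, IsPullback.lift_fst _ _ _ _,
      IsPullback.lift_snd _ _ _ _⟩
  choose τ hτ₁ hτ₂ using hlift
  have hτg : ∀ E hE, bcg (lineπ ρ) (line_isPullback ρ hv) E ≫ τ E hE = h ≫ bcg π hp E := by
    intro E hE
    apply bc_hom_ext
    · rw [Category.assoc, hτ₁, bcg_bcI_assoc, hσ₄, Category.assoc, bcg_bcp]
    · rw [Category.assoc, hτ₂, Category.assoc, bcg_bcπ, bcg_bcπ, reassoc_of% hh, Category.assoc]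
  have hτI : ∀ E hE F (hF : E ≤ F), τ F (hE.trans hF) ≫ bcI π hF =
      bcI (lineπ ρ) hF ≫ τ E hE := by
    intro E hE F hF
    apply bc_hom_ext
    · rw [Category.assoc, bcI_bcp, hτ₁, Category.assoc, hτ₁, bcI_bcI_assoc]
    · rw [Category.assoc, bcI_bcπ, reassoc_of% (hτ₂ F (hE.trans hF)), Category.assoc, hτ₂,
        bcI_bcπ]
  -- comparison of open subsets of the affine line over the model
  have hlnL : IsLocallyNoetherian (bc (lineπ ρ) C) := isLocallyNoetherian_model C.fg (bcπ _ C)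
  have hcsL : CompactSpace (bc (lineπ ρ) C) := inferInstance
  have hnL : IsNoetherian (bc (lineπ ρ) C) := {}
  have hlnC : IsLocallyNoetherian (bc ρ C) := isLocallyNoetherian_model C.fg (bcπ _ C)
  have hcsC : CompactSpace (bc ρ C) := inferInstance
  have hnC : IsNoetherian (bc ρ C) := {}
  have hmemU : ∀ (E : Idx B₁.alg) (hE : C₂ ≤ E) (x : X),
      bcI π hE (bcg π hp E x) ∈ U₂ ↔ x ∈ U := by
    intro E hE x
    rw [← Scheme.Hom.comp_apply, bcg_bcI]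
    have h1 := congrArg (fun O : X.Opens => (O : Set X)) hU₂'
    have h2 := congrArg (fun O : Set X => x ∈ O) h1
    exact Iff.of_eq h2
  have hmemV : ∀ (E : Idx B₁.alg) (hE : C₃ ≤ E) (x : V),
      bcI ρ hE (bcg ρ hv E x) ∈ V₃ ↔ x ∈ V₀ := by
    intro E hE x
    rw [← Scheme.Hom.comp_apply, bcg_bcI]
    have h1 := congrArg (fun O : V.Opens => (O : Set V)) hV₃
    have h2 := congrArg (fun O : Set V => x ∈ O) h1
    exact Iff.of_eq h2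
  let 𝒜 : (bc (lineπ ρ) C).Opens := linePr ρ C ⁻¹ᵁ (bcI ρ h₃ ⁻¹ᵁ V₃)
  let ℬ : (bc (lineπ ρ) C).Opens := τ C h₄ ⁻¹ᵁ (bcI π h₂ ⁻¹ᵁ U₂)
  have hBmem : ∀ z : 𝔸(PUnit.{u+1}; V),
      bcg (lineπ ρ) (line_isPullback ρ hv) C z ∈ ℬ ↔ h z ∈ U := by
    intro z
    rw [← hmemU C h₂ (h z)]
    change bcI π h₂ (τ C h₄ (bcg (lineπ ρ) (line_isPullback ρ hv) C z)) ∈ U₂ ↔ _
    rw [← Scheme.Hom.comp_apply (bcg (lineπ ρ) (line_isPullback ρ hv) C), hτg,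
      Scheme.Hom.comp_apply]
  have hAB : bcg (lineπ ρ) (line_isPullback ρ hv) C ⁻¹ᵁ 𝒜 ≤
      bcg (lineπ ρ) (line_isPullback ρ hv) C ⁻¹ᵁ ℬ := by
    intro z hz
    apply (hBmem z).mpr
    apply hV₀
    rw [← hmemV C h₃]
    have h1 : bcI ρ h₃ (linePr ρ C (bcg (lineπ ρ) (line_isPullback ρ hv) C z)) ∈ V₃ := hz
    rw [← Scheme.Hom.comp_apply (bcg (lineπ ρ) (line_isPullback ρ hv) C), bcg_linePr,
      Scheme.Hom.comp_apply] at h1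
    exact h1
  obtain ⟨C₇, h₇, hAB'⟩ := exists_open_le (lineπ ρ) (line_isPullback ρ hv) hB 𝒜 ℬ
    (TopologicalSpace.NoetherianSpace.isCompact _) hAB
  -- the image in the base
  let N : 𝔸(PUnit.{u+1}; bc ρ C).Opens := lineα ρ C ⁻¹ᵁ ℬ
  have htop : bcg ρ hv C ⁻¹ᵁ imL N = ⊤ := by
    rw [eq_top_iff]
    intro x _
    obtain ⟨z, hzx, hzU⟩ := hU₂ x
    refine ⟨AffineSpace.map PUnit.{u+1} (bcg ρ hv C) z, ?_, ?_⟩
    · change lineα ρ C (AffineSpace.map PUnit.{u+1} (bcg ρ hv C) z) ∈ ℬ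
      rw [← Scheme.Hom.comp_apply, ← bcg_line, hBmem]
      exact hzU
    · rw [← Scheme.Hom.comp_apply, AffineSpace.map_over, Scheme.Hom.comp_apply, hzx]
  obtain ⟨C₈, h₈, htop'⟩ := exists_eq_top ρ hv hB (imL N) htop
  obtain ⟨D, hD⟩ := exists_bound N
  -- the final base
  obtain ⟨C₉, h₇₉, h₈₉⟩ := exists_ge_ge C₇ C₈
  obtain ⟨C₁₀, h₉₁₀, hfact⟩ := exists_isUnit_factorial C₉ D
  obtain ⟨E, hE₁₀, hE⟩ := exists_noNewDivisors hA₁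
    (⟨C₁₀.alg, B₁.le.trans C₁₀.le, C₁₀.fg⟩ : Idx A₁)
  let B : Idx B₁.alg := ⟨E.alg, C₁₀.le.trans hE₁₀, E.fg⟩
  have h₁₀B : C₁₀ ≤ B := hE₁₀
  have h₈B : C₈ ≤ B := (h₈₉.trans h₉₁₀).trans h₁₀B
  have h₇B : C₇ ≤ B := (h₇₉.trans h₉₁₀).trans h₁₀B
  have hCB : C ≤ B := h₇.trans h₇B
  have hUB : bcg π hp B ⁻¹ᵁ (bcI π (h₂.trans hCB) ⁻¹ᵁ U₂) = U := by
    rw [← Scheme.Hom.comp_preimage, bcg_bcI, hU₂']
  have hOmem : ∀ z : bc (lineπ ρ) B, bcI (lineπ ρ) hCB z ∈ ℬ →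
      τ B (h₄.trans hCB) z ∈ bcI π (h₂.trans hCB) ⁻¹ᵁ U₂ := by
    intro z hz
    have h1 : bcI π h₂ (τ C h₄ (bcI (lineπ ρ) hCB z)) ∈ U₂ := hz
    change bcI π (h₂.trans hCB) (τ B (h₄.trans hCB) z) ∈ U₂
    rw [← Scheme.Hom.comp_apply (bcI (lineπ ρ) hCB), ← hτI C h₄ B hCB, Scheme.Hom.comp_apply,
      ← Scheme.Hom.comp_apply (bcI π hCB), bcI_bcI] at h1
    exact h1
  rw [← hUB]
  refine arithmeticallySpecial_of_lines B.fg (bcπ π B) (bcg π hp B) (bcg_isPullback π hp B)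
    (bcπ ρ B) (bcg ρ hv B) h hh (lineα ρ B ≫ τ B (h₄.trans hCB)) ?_ ?_
    (bcI π (h₂.trans hCB) ⁻¹ᵁ U₂) (bcI ρ (h₃.trans hCB) ⁻¹ᵁ V₃) ?_ ?_ D ?_ (hfact B h₁₀B)
    Γ hΓ ?_
  · rw [Category.assoc, hτ₂, lineα_bcπ]
  · rw [← Category.assoc, ← bcg_line, hτg]
  · intro z hz
    apply hOmem
    have h1 : bcI ρ (h₃.trans hCB) ((𝔸(PUnit.{u+1}; bc ρ B) ↘ bc ρ B) z) ∈ V₃ := hz
    have h2 : bcI (lineπ ρ) h₇B (lineα ρ B z) ∈ bcI (lineπ ρ) h₇ ⁻¹ᵁ 𝒜 := by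
      change bcI ρ h₃ (linePr ρ C (bcI (lineπ ρ) h₇ (bcI (lineπ ρ) h₇B (lineα ρ B z)))) ∈ V₃
      rw [← Scheme.Hom.comp_apply (bcI (lineπ ρ) h₇B), bcI_bcI,
        ← Scheme.Hom.comp_apply (bcI (lineπ ρ) hCB), linePr_bcI, Scheme.Hom.comp_apply,
        ← Scheme.Hom.comp_apply (lineα ρ B), lineα_linePr,
        ← Scheme.Hom.comp_apply (bcI ρ hCB), bcI_bcI]
      exact h1
    have h3 := hAB' h2
    have h4 : bcI (lineπ ρ) h₇ (bcI (lineπ ρ) h₇B (lineα ρ B z)) ∈ ℬ := h3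
    rw [← Scheme.Hom.comp_apply (bcI (lineπ ρ) h₇B), bcI_bcI] at h4
    exact h4
  · obtain ⟨x, hx⟩ := hV₀ne
    exact ⟨x, (hmemV B (h₃.trans hCB) x).mpr hx⟩
  · intro F _ x
    have hx : atPt (x ≫ bcI ρ hCB) ∈ imL N := by
      have h1 : bcI ρ h₈B (atPt x) ∈ bcI ρ h₈ ⁻¹ᵁ imL N := by
        rw [htop']
        trivial
      have h2 : bcI ρ h₈ (bcI ρ h₈B (atPt x)) ∈ imL N := h1
      rw [← Scheme.Hom.comp_apply (bcI ρ h₈B), bcI_bcI] at h2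
      exact h2
    obtain ⟨f, hf, hfD, hfN⟩ := hD F (x ≫ bcI ρ hCB) hx
    refine ⟨f, hf, hfD, ?_⟩
    intro t ht
    have h1 := hfN t ht
    rw [← lin_map, atPt_comp] at h1
    have h2 : lineα ρ C (AffineSpace.map PUnit.{u+1} (bcI ρ hCB) (atPt (lin x t))) ∈ ℬ := h1
    rw [← Scheme.Hom.comp_apply (AffineSpace.map PUnit.{u+1} (bcI ρ hCB)), ← lineα_bcI,
      Scheme.Hom.comp_apply] at h2
    exact hOmem _ h2
  · intro w hw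
    obtain ⟨P, y, hP, hyt, hyP, hyw⟩ := hΓn w hw
    have hqq : IsPullback (bcp ρ B ≫ q) (bcπ ρ B) ρ₁ (Spec.map (CommRingCat.ofHom E.inclA)) := by
      have h1 := (bc_isPullback ρ B).paste_horiz hq
      have h2 : specA B ≫ specA B₁ = Spec.map (CommRingCat.ofHom E.inclA) := by
        rw [specA, specA, ← Spec.map_comp]
        rfl
      rw [← h2]
      exact h1
    obtain ⟨P', hP', hP'P⟩ := hP.baseChange E.inclA (inclA_injective E) hqq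
      (fun r _ hr => hE r hr)
    refine ⟨P', y, hP', hyt, ?_, hyw⟩
    refine comp_eq_of_baseChange E hqq (g := gv₁) ?_ ?_ hP' hP'P y hyt hyP
    · rw [bcg_bcp_assoc, hgvq]
    · exact bcg_bcπ ρ hv B

theorem arithmeticallySpecial_of_affineLines {k : Type u} [Field k] [CharZero k]
    {X V : Scheme.{u}} {s : X ⟶ Spec (.of k)} {v : V ⟶ Spec (.of k)} [IsIntegral V]
    (hX : HasModel s) (hV : ArithmeticallySpecial v)
    (h : 𝔸(PUnit.{u+1}; V) ⟶ X) (hh : h ≫ s = (𝔸(PUnit.{u+1}; V) ↘ V) ≫ v) [IsDominant h]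
    (U : X.Opens)
    (hU₁ : ¬ Dense {x : V | ∃ z : 𝔸(PUnit.{u+1}; V), (𝔸(PUnit.{u+1}; V) ↘ V) z = x ∧ h z ∉ U})
    (hU₂ : ∀ x : V, ∃ z : 𝔸(PUnit.{u+1}; V), (𝔸(PUnit.{u+1}; V) ↘ V) z = x ∧ h z ∈ U) :
    ArithmeticallySpecial (U.ι ≫ s) := by
  obtain ⟨A₀, 𝒳₀, π₀, g₀, hA₀, _, _, _, hp₀⟩ := hX
  obtain ⟨A₁, 𝒱₁, ρ₁, gv₁, hA₁, _, _, _, hv₁, hD⟩ := hV
  -- the common base
  let B₀ : Idx A₀ := ⟨A₀ ⊔ A₁, le_sup_left, hA₀.sup hA₁⟩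
  let B₁ : Idx A₁ := ⟨A₀ ⊔ A₁, le_sup_right, hA₀.sup hA₁⟩
  refine lines_of_models hA₁ B₁ (bcπ π₀ B₀) (bcg π₀ hp₀ B₀)
    (bcg_isPullback π₀ hp₀ B₀) (bcπ ρ₁ B₁) (bcg ρ₁ hv₁ B₁) (bcg_isPullback ρ₁ hv₁ B₁) ρ₁ gv₁
    (bcp ρ₁ B₁) (bc_isPullback ρ₁ B₁) (bcg_bcp ρ₁ hv₁ B₁) h hh U hU₁ hU₂ _ hD ?_
  rintro w ⟨P, y, h1, h2, h3, h4⟩
  exact ⟨P, y, h1, h2, h3, h4⟩

end Pool.Agent.Helper411_AS
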