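import Pool.Agent.Helper411_AS.Lines

/-!
# Open subsets of affine lines over a scheme: uniform bounds
-/

set_option autoImplicit false

open CategoryTheory AlgebraicGeometry Limits Opposite

universe u

namespace Pool.Agent.Helper411_AS

/-- The affine line over an affine open subset. -/
noncomputable def chart {R : CommRingCat.{u}} {S : Scheme.{u}} (j : Spec R ⟶ S) :
    Spec (.of (MvPolynomial PUnit.{u+1} R)) ⟶ 𝔸(PUnit.{u+1}; S) :=
  (AffineSpace.SpecIso PUnit.{u+1} R).inv ≫ AffineSpace.map PUnit.{u+1} j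

theorem chart_over {R : CommRingCat.{u}} {S : Scheme.{u}} (j : Spec R ⟶ S) :
    chart j ≫ (𝔸(PUnit.{u+1}; S) ↘ S) =
      Spec.map (CommRingCat.ofHom (MvPolynomial.C (σ := PUnit.{u+1}))) ≫ j := by
  rw [chart, Category.assoc, AffineSpace.map_over, AffineSpace.SpecIso_inv_over_assoc]

/-- Points of the affine line over points of an affine open subset. -/
theorem lin_eq_chart {R F : CommRingCat.{u}} {S : Scheme.{u}} (j : Spec R ⟶ S) (χ : R ⟶ F)
    (t : F) : lin (Spec.map χ ≫ j) t =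
      Spec.map (CommRingCat.ofHom (MvPolynomial.eval₂Hom χ.hom (fun _ : PUnit.{u+1} => t))) ≫
        chart j := by
  symm
  apply eq_lin
  · rw [Category.assoc, chart_over, ← Category.assoc, ← Spec.map_comp, ← CommRingCat.ofHom_comp,
      MvPolynomial.eval₂Hom_comp_C]
    rfl
  · rw [chart, Scheme.Hom.comp_appTop, Scheme.Hom.comp_appTop, CommRingCat.comp_apply,
      CommRingCat.comp_apply, AffineSpace.map_appTop_coord, AffineSpace.SpecIso_inv_appTop_coord,
      ← CommRingCat.comp_apply, ← Scheme.ΓSpecIso_inv_naturality, CommRingCat.comp_apply]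
    congr 1
    exact MvPolynomial.eval₂_X _ _ _

instance {R : CommRingCat.{u}} {S : Scheme.{u}} (j : Spec R ⟶ S) [IsOpenImmersion j] :
    IsOpenImmersion (chart j) := by
  have : IsOpenImmersion (AffineSpace.map PUnit.{u+1} j) :=
    MorphismProperty.of_isPullback (AffineSpace.isPullback_map j).flip inferInstance
  unfold chart
  infer_instance

theorem mem_range_chart {R : CommRingCat.{u}} {S : Scheme.{u}} (j : Spec R ⟶ S)
    (z : 𝔸(PUnit.{u+1}; S)) (hz : (𝔸(PUnit.{u+1}; S) ↘ S) z ∈ Set.range j) :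
    z ∈ Set.range (chart j) := by
  obtain ⟨v, hv⟩ := hz
  obtain ⟨w, hw, -⟩ := Scheme.exists_preimage_of_isPullback
    (AffineSpace.isPullback_map (n := PUnit.{u+1}) j) z v hv.symm
  refine ⟨(AffineSpace.SpecIso PUnit.{u+1} R).hom w, ?_⟩
  rw [chart, ← Scheme.Hom.comp_apply, Iso.hom_inv_id_assoc]
  exact hw

section

variable {R F : Type u} [CommRing R] [CommRing F] (χ : R →+* F)

/-- The univariate polynomial attached to a point and a function on the affine line. -/
noncomputable def polyAt (f : MvPolynomial PUnit.{u+1} R) :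
    Polynomial F :=
  MvPolynomial.eval₂Hom (Polynomial.C.comp χ) (fun _ : PUnit.{u+1} => Polynomial.X) f

theorem polyAt_add (p q : MvPolynomial PUnit.{u+1} R) :
    polyAt χ (p + q) = polyAt χ p + polyAt χ q := map_add _ _ _

theorem eval_polyAt (f : MvPolynomial PUnit.{u+1} R)
    (t : F) : (polyAt χ f).eval t =
      MvPolynomial.eval₂Hom χ (fun _ : PUnit.{u+1} => t) f := by
  have h : (Polynomial.evalRingHom t).comp
      (MvPolynomial.eval₂Hom (Polynomial.C.comp χ) (fun _ : PUnit.{u+1} => Polynomial.X)) =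
      MvPolynomial.eval₂Hom χ (fun _ : PUnit.{u+1} => t) := by
    apply MvPolynomial.ringHom_ext
    · intro r
      simp
    · intro i
      simp
  exact congrArg (fun g => g f) h

theorem coeff_polyAt (f : MvPolynomial PUnit.{u+1} R)
    (m : PUnit.{u+1} →₀ ℕ) : (polyAt χ f).coeff (m PUnit.unit) = χ (f.coeff m) := by
  induction f using MvPolynomial.induction_on' with
  | monomial u a =>
    rw [polyAt, MvPolynomial.coe_eval₂Hom, MvPolynomial.eval₂_monomial, MvPolynomial.coeff_monomial,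
      Finsupp.prod_fintype _ _ (by simp)]
    simp only [Finset.univ_unique, Finset.prod_singleton, RingHom.comp_apply]
    rw [Polynomial.coeff_C_mul_X_pow]
    by_cases h : u = m
    · subst h
      simp
    · have h' : ¬ (m PUnit.unit = u default) := by
        intro h1
        apply h
        apply Finsupp.ext
        rintro ⟨⟩
        exact h1.symm
      rw [if_neg h', if_neg h, map_zero]
  | add p q hp hq =>
    rw [polyAt_add, Polynomial.coeff_add, MvPolynomial.coeff_add, RingHom.map_add, hp, hq]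

theorem natDegree_polyAt_le (f : MvPolynomial PUnit.{u+1} R) :
    (polyAt χ f).natDegree ≤ f.totalDegree := by
  rw [Polynomial.natDegree_le_iff_coeff_eq_zero]
  intro N hN
  have h := coeff_polyAt χ f (Finsupp.single PUnit.unit N)
  rw [Finsupp.single_eq_same] at h
  rw [h, MvPolynomial.coeff_eq_zero_of_totalDegree_lt, map_zero]
  rw [← Finsupp.degree_apply, Finsupp.degree_single]
  exact hN

end

/-- Locally on the base, the points of an affine line which do not lie in an open subset are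
zeros of a nonzero polynomial of bounded degree. -/
theorem exists_local_bound {S : Scheme.{u}} (N : 𝔸(PUnit.{u+1}; S).Opens)
    (z : 𝔸(PUnit.{u+1}; S)) (hz : z ∈ N) :
    ∃ (D : ℕ) (O : S.Opens), (𝔸(PUnit.{u+1}; S) ↘ S) z ∈ O ∧
      ∀ (F : Type u) [Field F] (x : Spec (.of F) ⟶ S), atPt x ∈ O →
        ∃ f : Polynomial F, f ≠ 0 ∧ f.natDegree ≤ D ∧
          ∀ t : F, f.eval t ≠ 0 → atPt (lin x t) ∈ N := by
  obtain ⟨W, hW, hzW, -⟩ := exists_isAffineOpen_mem_and_subset (X := S)
    (x := (𝔸(PUnit.{u+1}; S) ↘ S) z) (U := ⊤) trivial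
  set R := Γ(S, W) with hR
  set j : Spec R ⟶ S := hW.fromSpec with hj
  have hzj : (𝔸(PUnit.{u+1}; S) ↘ S) z ∈ Set.range j := by
    rw [hj, hW.range_fromSpec]
    exact hzW
  obtain ⟨w, hw⟩ := mem_range_chart j z hzj
  have hwN : w ∈ (chart j) ⁻¹ᵁ N := by
    change chart j w ∈ N
    rw [hw]
    exact hz
  obtain ⟨_, ⟨f, rfl⟩, hwf, hfN⟩ :=
    PrimeSpectrum.isTopologicalBasis_basic_opens.exists_subset_of_mem_open hwN
      ((chart j) ⁻¹ᵁ N).isOpen
  have hv := (MvPolynomial.mem_image_comap_C_basicOpen f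
    (PrimeSpectrum.comap (MvPolynomial.C (σ := PUnit.{u+1})) w)).mp ⟨w, hwf, rfl⟩
  obtain ⟨m, hm⟩ := hv
  refine ⟨f.totalDegree, j ''ᵁ (PrimeSpectrum.basicOpen (f.coeff m)), ?_, ?_⟩
  · refine ⟨Spec.map (CommRingCat.ofHom (MvPolynomial.C (σ := PUnit.{u+1}))) w, hm, ?_⟩
    have h1 := congrArg (fun a : Spec (.of (MvPolynomial PUnit.{u+1} R)) ⟶ S => a w)
      (chart_over j)
    have h2 : (𝔸(PUnit.{u+1}; S) ↘ S) (chart j w) =
      j (Spec.map (CommRingCat.ofHom (MvPolynomial.C (σ := PUnit.{u+1}))) w) := h1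
    rw [hw] at h2
    exact h2.symm
  · intro F _ x hx
    obtain ⟨v, hv, hvx⟩ := hx
    obtain ⟨x₀, hx₀⟩ : ∃ x₀ : Spec (.of F) ⟶ Spec R, x₀ ≫ j = x :=
      ⟨IsOpenImmersion.lift j x (by
        rintro _ ⟨q, rfl⟩
        rw [apply_eq_atPt, ← hvx]
        exact ⟨v, rfl⟩), IsOpenImmersion.lift_fac _ _ _⟩
    obtain ⟨χ, hχ⟩ : ∃ χ : R ⟶ .of F, Spec.map χ = x₀ := ⟨Spec.preimage x₀, Spec.map_preimage _⟩
    have hxv : atPt x₀ = v := by
      apply j.isOpenEmbedding.injective
      have h1 : j (atPt x₀) = atPt x := by rw [← atPt_comp, hx₀]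
      exact h1.trans hvx.symm
    have hc : χ.hom (f.coeff m) ≠ 0 := by
      intro h0
      rw [← hxv, ← hχ] at hv
      apply hv
      change χ.hom (f.coeff m) ∈ IsLocalRing.maximalIdeal F
      rw [h0]
      exact Ideal.zero_mem _
    refine ⟨polyAt (F := F) χ.hom f, ?_, natDegree_polyAt_le (F := F) χ.hom f, ?_⟩
    · intro h0
      apply hc
      have h1 := coeff_polyAt (F := F) χ.hom f m
      rw [h0, Polynomial.coeff_zero] at h1
      exact h1.symm
    · intro t ht
      rw [eval_polyAt] at ht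
      rw [← hx₀, ← hχ, lin_eq_chart, atPt_comp]
      apply hfN
      change ¬ (MvPolynomial.eval₂Hom χ.hom (fun _ : PUnit.{u+1} => t) f ∈
        IsLocalRing.maximalIdeal F)
      intro h1
      apply ht
      rw [IsLocalRing.maximalIdeal_eq_bot] at h1
      exact h1

/-- The points of an affine line which do not lie in an open subset are zeros of a nonzero
polynomial. -/
theorem exists_poly {S : Scheme.{u}} (N : 𝔸(PUnit.{u+1}; S).Opens) {F : Type u} [Field F]
    (x : Spec (.of F) ⟶ S) (z : 𝔸(PUnit.{u+1}; S)) (hz : z ∈ N)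
    (hzx : (𝔸(PUnit.{u+1}; S) ↘ S) z = atPt x) :
    ∃ f : Polynomial F, f ≠ 0 ∧ ∀ t : F, f.eval t ≠ 0 → atPt (lin x t) ∈ N := by
  obtain ⟨D, O, hO, h⟩ := exists_local_bound N z hz
  obtain ⟨f, hf, -, hfN⟩ := h F x (by rw [← hzx]; exact hO)
  exact ⟨f, hf, hfN⟩

/-- The image of an open subset of the affine line in the base. -/
def imL {S : Scheme.{u}} (N : 𝔸(PUnit.{u+1}; S).Opens) : S.Opens :=
  ⟨(𝔸(PUnit.{u+1}; S) ↘ S) '' (N : Set 𝔸(PUnit.{u+1}; S)),
    AffineSpace.isOpenMap_over S _ N.isOpen⟩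

/-- The points of an affine line which do not lie in an open subset are
zeros of a nonzero polynomial of bounded degree. -/
theorem exists_bound {S : Scheme.{u}} [TopologicalSpace.NoetherianSpace S]
    (N : 𝔸(PUnit.{u+1}; S).Opens) :
    ∃ D : ℕ, ∀ (F : Type u) [Field F] (x : Spec (.of F) ⟶ S), atPt x ∈ imL N →
        ∃ f : Polynomial F, f ≠ 0 ∧ f.natDegree ≤ D ∧
          ∀ t : F, f.eval t ≠ 0 → atPt (lin x t) ∈ N := by
  have h1 : ∀ v ∈ imL N, ∃ (D : ℕ) (O : S.Opens), v ∈ O ∧
      ∀ (F : Type u) [Field F] (x : Spec (.of F) ⟶ S), atPt x ∈ O →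
        ∃ f : Polynomial F, f ≠ 0 ∧ f.natDegree ≤ D ∧
          ∀ t : F, f.eval t ≠ 0 → atPt (lin x t) ∈ N := by
    rintro _ ⟨z, hz, rfl⟩
    exact exists_local_bound N z hz
  choose! D O hvO hDO using h1
  have h2 : IsCompact (imL N : Set S) := TopologicalSpace.NoetherianSpace.isCompact _
  obtain ⟨T, hT, hcov⟩ := h2.elim_nhds_subcover (fun v => (O v : Set S))
    (fun v hv => (O v).isOpen.mem_nhds (hvO v hv))
  refine ⟨T.sup D, ?_⟩
  intro F _ x hx
  have h3 := hcov hx
  simp only [Set.mem_iUnion] at h3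
  obtain ⟨v, hvT, hxv⟩ := h3
  obtain ⟨f, hf, hfD, hfN⟩ := hDO v (hT v hvT) F x hxv
  exact ⟨f, hf, hfD.trans (Finset.le_sup (f := D) hvT), hfN⟩

end Pool.Agent.Helper411_AS
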