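import Pool.Agent.Helper411_AS.SpreadMore
import Pool.Agent.Helper411_AS.Lines

/-!
# Spreading out affine lines over a scheme
-/

set_option autoImplicit false
set_option linter.unusedVariables false

open CategoryTheory AlgebraicGeometry Limits Opposite

universe u

namespace Pool.Agent.Helper411_AS

variable {k : Type u} [Field k] {A : Subalgebra ℤ k} {𝒱 : Scheme.{u}} (ρ : 𝒱 ⟶ Spec (.of A))

/-- The structure morphism of the affine line over a model. -/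
noncomputable abbrev lineπ : 𝔸(PUnit.{u+1}; 𝒱) ⟶ Spec (.of A) := (𝔸(PUnit.{u+1}; 𝒱) ↘ 𝒱) ≫ ρ

/-- Comparison of the affine line over the base change and the base change of the affine line. -/
noncomputable def lineα (E : Idx A) : 𝔸(PUnit.{u+1}; bc ρ E) ⟶ bc (lineπ ρ) E :=
  (bc_isPullback (lineπ ρ) E).lift (AffineSpace.map PUnit.{u+1} (bcp ρ E))
    ((𝔸(PUnit.{u+1}; bc ρ E) ↘ bc ρ E) ≫ bcπ ρ E) (by
      rw [AffineSpace.map_over_assoc, Category.assoc, bc_w])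

@[reassoc (attr := simp)]
theorem lineα_bcp (E : Idx A) :
    lineα ρ E ≫ bcp (lineπ ρ) E = AffineSpace.map PUnit.{u+1} (bcp ρ E) :=
  IsPullback.lift_fst _ _ _ _

@[reassoc (attr := simp)]
theorem lineα_bcπ (E : Idx A) :
    lineα ρ E ≫ bcπ (lineπ ρ) E = (𝔸(PUnit.{u+1}; bc ρ E) ↘ bc ρ E) ≫ bcπ ρ E :=
  IsPullback.lift_snd _ _ _ _

/-- The projection of the base change of the affine line. -/
noncomputable def linePr (E : Idx A) : bc (lineπ ρ) E ⟶ bc ρ E :=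
  (bc_isPullback ρ E).lift (bcp (lineπ ρ) E ≫ (𝔸(PUnit.{u+1}; 𝒱) ↘ 𝒱)) (bcπ (lineπ ρ) E) (by
      rw [Category.assoc]; exact bc_w (lineπ ρ) E)

@[reassoc (attr := simp)]
theorem linePr_bcp (E : Idx A) :
    linePr ρ E ≫ bcp ρ E = bcp (lineπ ρ) E ≫ (𝔸(PUnit.{u+1}; 𝒱) ↘ 𝒱) :=
  IsPullback.lift_fst _ _ _ _

@[reassoc (attr := simp)]
theorem linePr_bcπ (E : Idx A) : linePr ρ E ≫ bcπ ρ E = bcπ (lineπ ρ) E :=
  IsPullback.lift_snd _ _ _ _

@[reassoc (attr := simp)]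
theorem lineα_linePr (E : Idx A) :
    lineα ρ E ≫ linePr ρ E = (𝔸(PUnit.{u+1}; bc ρ E) ↘ bc ρ E) := by
  apply bc_hom_ext
  · rw [Category.assoc, linePr_bcp, lineα_bcp_assoc, AffineSpace.map_over]
  · rw [Category.assoc, linePr_bcπ, lineα_bcπ]

@[reassoc]
theorem linePr_bcI {E F : Idx A} (h : E ≤ F) :
    bcI (lineπ ρ) h ≫ linePr ρ E = linePr ρ F ≫ bcI ρ h := by
  apply bc_hom_ext
  · rw [Category.assoc, linePr_bcp, bcI_bcp_assoc, Category.assoc, bcI_bcp, linePr_bcp]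
  · rw [Category.assoc, linePr_bcπ, bcI_bcπ, Category.assoc, bcI_bcπ, linePr_bcπ_assoc]

@[reassoc]
theorem lineα_bcI {E F : Idx A} (h : E ≤ F) :
    lineα ρ F ≫ bcI (lineπ ρ) h = AffineSpace.map PUnit.{u+1} (bcI ρ h) ≫ lineα ρ E := by
  apply bc_hom_ext
  · rw [Category.assoc, bcI_bcp, lineα_bcp, Category.assoc, lineα_bcp, ← AffineSpace.map_comp,
      bcI_bcp]
  · rw [Category.assoc, bcI_bcπ, lineα_bcπ_assoc, Category.assoc, lineα_bcπ,
      AffineSpace.map_over_assoc, bcI_bcπ]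

variable {V : Scheme.{u}} {v : V ⟶ Spec (.of k)} {gv : V ⟶ 𝒱}
  (hv : IsPullback gv v ρ (specMap A k))

include hv in
theorem line_isPullback : IsPullback (AffineSpace.map PUnit.{u+1} gv)
    ((𝔸(PUnit.{u+1}; V) ↘ V) ≫ v) (lineπ ρ) (specMap A k) :=
  (AffineSpace.isPullback_map gv).paste_vert hv

theorem bcg_line (E : Idx A) :
    bcg (lineπ ρ) (line_isPullback ρ hv) E =
      AffineSpace.map PUnit.{u+1} (bcg ρ hv E) ≫ lineα ρ E := by
  apply bc_hom_ext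
  · rw [bcg_bcp, Category.assoc, lineα_bcp, ← AffineSpace.map_comp, bcg_bcp]
  · rw [bcg_bcπ, Category.assoc, Category.assoc, lineα_bcπ, AffineSpace.map_over_assoc, bcg_bcπ]

theorem bcg_linePr (E : Idx A) :
    bcg (lineπ ρ) (line_isPullback ρ hv) E ≫ linePr ρ E =
      (𝔸(PUnit.{u+1}; V) ↘ V) ≫ bcg ρ hv E := by
  rw [bcg_line, Category.assoc, lineα_linePr, AffineSpace.map_over]

end Pool.Agent.Helper411_AS
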