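import Mathlib

/-!
# Groups acting on noetherian spaces
-/

set_option autoImplicit false

open TopologicalSpace Filter Topology

namespace Pool.Agent.Helper411_AS

/-- Finitely many translates of the set of group elements moving finitely many points into
an open neighbourhood cover the group. -/
theorem exists_finite_cover {H α : Type*} [Group H] [TopologicalSpace α] [NoetherianSpace α]
    [MulAction H α] (hc : ∀ h : H, Continuous fun a : α => h • a) {ι : Type*} [Finite ι]
    (x : ι → α) (U : Set α) (hU : IsOpen U) (hx : ∀ i, x i ∈ U) :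
    ∃ S : Finset H, ∀ h : H, ∃ s ∈ S, ∀ i, s⁻¹ • h • x i ∈ U := by
  classical
  by_contra hcon
  push Not at hcon
  let F : H → Set H := fun s => {h | ∃ i, s⁻¹ • h • x i ∉ U}
  obtain ⟨u, hu⟩ := Ultrafilter.exists_ultrafilter_of_finite_inter_nonempty (Set.range F) (by
    intro T hT
    obtain ⟨T, rfl⟩ : ∃ S : Finset H, S.image F = T := by
      rw [← Set.image_univ] at hT
      obtain ⟨S, -, hS⟩ := Finset.subset_set_image_iff.mp hT
      exact ⟨S, hS⟩
    obtain ⟨h, hh⟩ := hcon T
    refine ⟨h, ?_⟩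
    simp only [Finset.coe_image, Set.sInter_image, Set.mem_iInter, SetLike.mem_coe]
    exact fun s hs => hh s hs)
  have hL : ∀ i, {h : H | (u.map (fun h => h • x i) : Filter α) ≤ 𝓝 (h • x i)} ∈ u := by
    intro i
    by_contra hcon
    have h1 := Ultrafilter.compl_mem_iff_notMem.mpr hcon
    obtain ⟨a, ⟨h, hh, rfl⟩, ha⟩ := isCompact_iff_ultrafilter_le_nhds'.mp
      (NoetherianSpace.isCompact ((fun h => h • x i) ''
        {h : H | (u.map (fun h => h • x i) : Filter α) ≤ 𝓝 (h • x i)}ᶜ))
      (u.map (fun h => h • x i)) (Filter.image_mem_map h1)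
    exact hh ha
  have hL' : (⋂ i, {h : H | (u.map (fun h => h • x i) : Filter α) ≤ 𝓝 (h • x i)}) ∈ u :=
    Filter.iInter_mem.mpr hL
  obtain ⟨h, hh⟩ := Ultrafilter.nonempty_of_mem hL'
  rw [Set.mem_iInter] at hh
  have h2 : ∀ i, {h' : H | h⁻¹ • h' • x i ∈ U} ∈ u := by
    intro i
    have h3 : (fun a : α => h⁻¹ • a) ⁻¹' U ∈ 𝓝 (h • x i) := by
      apply (hU.preimage (hc h⁻¹)).mem_nhds
      change h⁻¹ • h • x i ∈ U
      rw [inv_smul_smul]
      exact hx i
    exact hh i h3
  have h3 : (⋂ i, {h' : H | h⁻¹ • h' • x i ∈ U}) ∈ u := Filter.iInter_mem.mpr h2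
  have h4 : F h ∈ u := hu ⟨h, rfl⟩
  obtain ⟨h', h5, i, h6⟩ := Ultrafilter.nonempty_of_mem (Filter.inter_mem h3 h4)
  rw [Set.mem_iInter] at h5
  exact h6 (h5 i)

/-- If a group acts on a noetherian space `α` and on a space `β`, if an orbit in `β` has
irreducible closure, and `x i` are finitely many points of an open subset `U` of `α`, then
the part of the orbit given by the group elements `h` with `h • x i ∈ U` for all `i` is dense
in the orbit. -/
theorem closure_orbit_subset {H α β : Type*} [Group H] [TopologicalSpace α] [NoetherianSpace α]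
    [MulAction H α] (hα : ∀ h : H, Continuous fun a : α => h • a)
    [TopologicalSpace β] [MulAction H β] (hβ : ∀ h : H, Continuous fun b : β => h • b)
    {ι : Type*} [Finite ι]
    (x : ι → α) (U : Set α) (hU : IsOpen U) (hx : ∀ i, x i ∈ U) (b : β)
    (hb : IsIrreducible (closure {c : β | ∃ h : H, h • b = c})) :
    closure {c : β | ∃ h : H, h • b = c} ⊆
      closure {c : β | ∃ h : H, (∀ i, h • x i ∈ U) ∧ h • b = c} := by
  classical
  obtain ⟨S, hS⟩ := exists_finite_cover hα x U hU hx
  set C := closure {c : β | ∃ h : H, h • b = c} with hC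
  set E := {c : β | ∃ h : H, (∀ i, h • x i ∈ U) ∧ h • b = c} with hE
  have hcov : C ⊆ ⋃ s ∈ S, (fun c : β => s⁻¹ • c) ⁻¹' closure E := by
    apply closure_minimal
    · rintro _ ⟨h, rfl⟩
      obtain ⟨s, hs, hsi⟩ := hS h
      simp only [Set.mem_iUnion]
      refine ⟨s, hs, subset_closure ⟨s⁻¹ * h, fun i => ?_, ?_⟩⟩
      · rw [mul_smul]
        exact hsi i
      · rw [mul_smul]
    · apply Set.Finite.isClosed_biUnion S.finite_toSet
      intro s _
      exact isClosed_closure.preimage (hβ s⁻¹)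
  have hex : ∃ s ∈ S, C ⊆ (fun c : β => s⁻¹ • c) ⁻¹' closure E := by
    have h1 := (isIrreducible_iff_sUnion_isClosed.mp hb)
      (S.image fun s => (fun c : β => s⁻¹ • c) ⁻¹' closure E) (by
        intro z hz
        obtain ⟨s, -, rfl⟩ := Finset.mem_image.mp hz
        exact isClosed_closure.preimage (hβ s⁻¹)) (by
        rw [Finset.coe_image, Set.sUnion_image]
        exact hcov)
    obtain ⟨z, hz, hz'⟩ := h1
    obtain ⟨s, hs, rfl⟩ := Finset.mem_image.mp hz
    exact ⟨s, hs, hz'⟩
  obtain ⟨s, -, hs⟩ := hex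
  apply closure_minimal _ isClosed_closure
  rintro _ ⟨h, rfl⟩
  have h1 : s • h • b ∈ C := subset_closure ⟨s * h, mul_smul _ _ _⟩
  have h2 := hs h1
  change s⁻¹ • s • h • b ∈ closure E at h2
  rwa [inv_smul_smul] at h2

end Pool.Agent.Helper411_AS
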