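import Pool.Agent.Helper411_AS.Auts
import Pool.Agent.Helper411_AS.Noeth
import Pool.Agent.Helper411_AS.BadPrimes
import Pool.Agent.Helper411_AS.Descent

/-!
# Moving near-integral points by a group of automorphisms
-/

set_option autoImplicit false

open CategoryTheory AlgebraicGeometry Limits Opposite

universe u

namespace Pool.Agent.Helper411_AS

/-- The action of the automorphism group of a scheme on its points. -/
@[reducible]
noncomputable def autAction (𝒳 : Scheme.{u}) : MulAction (Aut 𝒳) 𝒳 where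
  smul h x := h.hom x
  one_smul _ := rfl
  mul_smul _ _ _ := rfl

/-- The action on the points of `X` of the automorphism group of `X` over a base. -/
@[reducible]
noncomputable def overAutAction {X S : Scheme.{u}} (s : X ⟶ S) :
    MulAction (Aut (Over.mk s)) X where
  smul h x := h.hom.left x
  one_smul _ := rfl
  mul_smul _ _ _ := rfl

variable {k : Type u} [Field k]

/-- The core of the moving argument. -/
theorem arithmeticallySpecial_of_moving {X 𝒳 W 𝒲 : Scheme.{u}} [IsIntegral X]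
    {s : X ⟶ Spec (.of k)} {t : W ⟶ Spec (.of k)} {A : Subalgebra ℤ k} (hA : A.FG)
    (π : 𝒳 ⟶ Spec (.of A)) [IsSeparated π] [LocallyOfFiniteType π] [QuasiCompact π]
    (g : X ⟶ 𝒳) (hp : IsPullback g s π (specMap A k))
    (ρ : 𝒲 ⟶ Spec (.of A)) (gw : W ⟶ 𝒲)
    (σ : W ⟶ X) (hσ : σ ≫ s = t) (σ' : 𝒲 ⟶ 𝒳) (hσ' : σ' ≫ π = ρ) (hσσ' : gw ≫ σ' = σ ≫ g)
    (U V : 𝒳.Opens) (hVU : V ≤ U) (hσU : ∀ w, σ' w ∈ U) (hV : ∃ x : X, g x ∈ V)
    (H : Subgroup (Aut 𝒳 × Aut (Over.mk s)))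
    (hH : ∀ h ∈ H, h.1.hom ≫ π = π ∧ g ≫ h.1.hom = h.2.hom.left ≫ g)
    (hHV : ∀ h ∈ H, ∀ x, h.1.hom x ∈ V ↔ x ∈ V)
    (D : Set W) (hD : Dense D)
    (hDn : ∀ w ∈ D, ∃ (P : Spec (.of (FractionRing A)) ⟶ 𝒲) (y : Spec (.of k) ⟶ W),
      IsNearIntegral ρ P ∧ y ≫ t = 𝟙 _ ∧
      y ≫ gw = Spec.map (CommRingCat.ofHom (fracToField A)) ≫ P ∧ atPt y = w)
    (hDi : ∀ w ∈ D, IsIrreducible (closure {x : X | ∃ h ∈ H, h.2.hom.left (σ w) = x}))
    (hdense : Dense {x : X | ∃ h ∈ H, ∃ w : W, h.2.hom.left (σ w) = x}) :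
    ArithmeticallySpecial ((g ⁻¹ᵁ U).ι ≫ s) := by
  have hAn : IsNoetherianRing A := isNoetherianRing_of_fg hA
  have hln := isLocallyNoetherian_model hA π
  have hcs : CompactSpace 𝒳 := QuasiCompact.compactSpace_of_compactSpace π
  have hn : IsNoetherian 𝒳 := {}
  apply arithmeticallySpecial_open hA π g hp U
  rw [dense_iff_inter_open]
  rintro O hO hOne
  -- shrink `O`
  have hO' : (O ∩ g ⁻¹' (V : Set 𝒳)).Nonempty := by
    obtain ⟨x, hx⟩ := hV
    exact nonempty_preirreducible_inter hO (V.isOpen.preimage g.continuous) hOne ⟨x, hx⟩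
  obtain ⟨_, ⟨hx₁, hx₂⟩, h₀, hh₀, w₀, rfl⟩ := hdense.inter_open_nonempty _
    (hO.inter (V.isOpen.preimage g.continuous)) hO'
  have hcont : Continuous fun w : W => h₀.2.hom.left (σ w) :=
    h₀.2.hom.left.continuous.comp σ.continuous
  obtain ⟨w, hwO, hwD⟩ := hD.inter_open_nonempty ((fun w : W => h₀.2.hom.left (σ w)) ⁻¹'
    (O ∩ g ⁻¹' (V : Set 𝒳))) ((hO.inter (V.isOpen.preimage g.continuous)).preimage hcont)
    ⟨w₀, hx₁, hx₂⟩
  obtain ⟨hwO, hwV⟩ := hwO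
  obtain ⟨P, y, hP, hyt, hyP, hyw⟩ := hDn w hwD
  -- the point of `𝒳`
  have hgw : g (σ w) = atPt (P ≫ σ') := by
    have h1 : y ≫ σ ≫ g = Spec.map (CommRingCat.ofHom (fracToField A)) ≫ P ≫ σ' := by
      rw [← hσσ', reassoc_of% hyP]
    have h2 : atPt (y ≫ σ ≫ g) = g (σ w) := by rw [← hyw]; rfl
    rw [← h2, h1, atPt_comp, apply_eq_atPt]
  have hgV : atPt (P ≫ σ') ∈ V := by
    rw [← hgw, ← hHV h₀ hh₀]
    have h1 : h₀.1.hom (g (σ w)) = g (h₀.2.hom.left (σ w)) := by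
      have := (hH h₀ hh₀).2
      rw [← Scheme.Hom.comp_apply, this]
      rfl
    rw [h1]
    exact hwV
  obtain ⟨a, ha, hbad⟩ := exists_ne_zero_forall_mem π (P ≫ σ') (by
    rw [Category.assoc, hσ', hP.comp_eq]) V hgV
  -- the bad primes
  have hfin := finite_heightOne a ha
  let ι := {p : PrimeSpectrum A | p.asIdeal.height = 1 ∧ a ∈ p.asIdeal}
  have hι : Finite ι := hfin
  have hlift : ∀ p : ι, ∃ Q : Spec (.of (Localization.AtPrime p.1.asIdeal)) ⟶ 𝒲,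
      Q ≫ ρ = specMap A (Localization.AtPrime p.1.asIdeal) ∧
      Spec.map (CommRingCat.ofHom (atPrimeToFrac p.1.asIdeal)) ≫ Q = P :=
    fun p => hP.exists_lift p.1.asIdeal p.2.1
  choose Q hQρ hQP using hlift
  let x : ι → 𝒳 := fun p =>
    σ' (Q p (IsLocalRing.closedPoint (Localization.AtPrime p.1.asIdeal)))
  -- the topological argument
  let _ : MulAction (Aut 𝒳) 𝒳 := autAction 𝒳
  let _ : MulAction (Aut (Over.mk s)) X := overAutAction s
  let _ : MulAction H 𝒳 := MulAction.compHom 𝒳 ((MonoidHom.fst _ _).comp H.subtype)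
  let _ : MulAction H X := MulAction.compHom X ((MonoidHom.snd _ _).comp H.subtype)
  have hcl := closure_orbit_subset (H := H) (α := 𝒳) (β := X) (fun h => h.1.1.hom.continuous)
    (fun h => h.1.2.hom.left.continuous) x (U : Set 𝒳) U.isOpen (fun p => hσU _) (σ w) (by
      have h1 := hDi w hwD
      have h2 : {c : X | ∃ h : H, h • σ w = c} = {x : X | ∃ h ∈ H, h.2.hom.left (σ w) = x} := by
        ext c
        constructor
        · rintro ⟨h, rfl⟩
          exact ⟨h.1, h.2, rfl⟩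
        · rintro ⟨h, hh, rfl⟩
          exact ⟨⟨h, hh⟩, rfl⟩
      rw [h2]
      exact h1)
  have h1 : h₀.2.hom.left (σ w) ∈ closure {c : X | ∃ h : H, h • σ w = c} :=
    subset_closure ⟨⟨h₀, hh₀⟩, rfl⟩
  have h2 := hcl h1
  rw [mem_closure_iff] at h2
  obtain ⟨_, hcO, h, hhU, rfl⟩ := h2 O hO hwO
  have hh := hH h.1 h.2
  refine ⟨h.1.2.hom.left (σ w), hcO, P ≫ σ' ≫ h.1.1.hom, y ≫ σ ≫ h.1.2.hom.left, ⟨?_, ?_⟩, ?_, ?_,
    ?_⟩
  · rw [Category.assoc, Category.assoc, hh.1, hσ', hP.comp_eq]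
  · intro p hpp hp1
    by_cases hap : a ∈ p
    · refine ⟨Q ⟨⟨p, hpp⟩, hp1, hap⟩ ≫ σ' ≫ h.1.1.hom, ?_, ?_, ?_⟩
      · rw [Category.assoc, Category.assoc, hh.1, hσ', hQρ]
      · rw [reassoc_of% (hQP ⟨⟨p, hpp⟩, hp1, hap⟩)]
      · intro q
        have h3 : h.1.1.hom (x ⟨⟨p, hpp⟩, hp1, hap⟩) ∈ U := hhU ⟨⟨p, hpp⟩, hp1, hap⟩
        have h4 : q ⤳ IsLocalRing.closedPoint (Localization.AtPrime p) :=
          IsLocalRing.specializes_closedPoint q
        have h5 := (((h4.map (Q ⟨⟨p, hpp⟩, hp1, hap⟩).continuous).map σ'.continuous).map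
          h.1.1.hom.continuous)
        exact h5.mem_open U.isOpen h3
    · obtain ⟨Q', hQ'ρ, hQ'P⟩ := hP.exists_lift p hp1
      refine ⟨Q' ≫ σ' ≫ h.1.1.hom, ?_, ?_, ?_⟩
      · rw [Category.assoc, Category.assoc, hh.1, hσ', hQ'ρ]
      · rw [reassoc_of% hQ'P]
      · intro q
        have h3 := hbad p hap (Q' ≫ σ') (by rw [Category.assoc, hσ', hQ'ρ])
          (by rw [reassoc_of% hQ'P]) q
        have h4 : h.1.1.hom ((Q' ≫ σ') q) ∈ V := (hHV h.1 h.2 _).mpr h3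
        exact hVU h4
  · have h3 : h.1.2.hom.left ≫ s = s := Over.w h.1.2.hom
    rw [Category.assoc, Category.assoc, h3, hσ, hyt]
  · rw [Category.assoc, Category.assoc, ← hh.2, ← reassoc_of% hσσ', reassoc_of% hyP]
  · rw [← hyw]
    rfl

end Pool.Agent.Helper411_AS
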