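import Pool.Agent.Helper411_AS.Spread

/-!
# More on spreading out: comparison of open subsets
-/

set_option autoImplicit false
set_option linter.unusedVariables false

open CategoryTheory AlgebraicGeometry Limits Opposite

universe u

namespace Pool.Agent.Helper411_AS

variable {k : Type u} [Field k] {A : Subalgebra ℤ k} {𝒳 : Scheme.{u}} (π : 𝒳 ⟶ Spec (.of A))
  {X : Scheme.{u}} {s : X ⟶ Spec (.of k)} {g : X ⟶ 𝒳} (hp : IsPullback g s π (specMap A k))
  [IsSeparated π] [QuasiCompact π]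

/-- An open subset containing the image of `X` is everything at a later stage. -/
theorem exists_eq_top (hA : A.FG) {B : Idx A} (O : (bc π B).Opens)
    (hO : bcg π hp B ⁻¹ᵁ O = ⊤) : ∃ (C : Idx A) (h : B ≤ C), bcI π h ⁻¹ᵁ O = ⊤ := by
  have := isCofiltered_idx hA
  obtain ⟨C, h, hC⟩ := exists_map_eq_top (bcF π) (bcCone π hp) (bcIsLimit π hp hA) (i := op B) O hO
  exact ⟨C.unop, leOfHom h.unop, hC⟩

/-- Inclusions of quasi-compact open subsets spread out. -/
theorem exists_open_le (hA : A.FG) {B : Idx A} (U V : (bc π B).Opens)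
    (hU : IsCompact (U : Set (bc π B)))
    (h : bcg π hp B ⁻¹ᵁ U ≤ bcg π hp B ⁻¹ᵁ V) :
    ∃ (C : Idx A) (h : B ≤ C), bcI π h ⁻¹ᵁ U ≤ bcI π h ⁻¹ᵁ V := by
  have := isCofiltered_idx hA
  obtain ⟨C, h, hC⟩ := exists_map_preimage_le_map_preimage (bcF π) (bcCone π hp)
    (bcIsLimit π hp hA) (i := op B) hU h
  exact ⟨C.unop, leOfHom h.unop, hC⟩

end Pool.Agent.Helper411_AS
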