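import Pool.Agent.Helper411_AS.Through
import Pool.Agent.Helper411_AS.Moving
import Pool.Agent.Helper411_AS.SpreadMore
import Pool.Agent.Helper411_AS.Persist

/-!
# The moving theorem
-/

set_option autoImplicit false
set_option linter.unusedVariables false

open CategoryTheory AlgebraicGeometry Limits Opposite

universe u

namespace Pool.Agent.Helper411_AS

theorem inv_comp_of {C : Type*} [Category C] {X S : C} {π : X ⟶ S} (a : X ≅ X)
    (h : a.hom ≫ π = π) : a.inv ≫ π = π := by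
  rw [Iso.inv_comp_eq, h]

theorem comp_inv_of {C : Type*} [Category C] {X Y : C} {g : Y ⟶ X} (a : X ≅ X) (c c' : Y ⟶ Y)
    (h : g ≫ a.hom = c ≫ g) (hc : c' ≫ c = 𝟙 _) : g ≫ a.inv = c' ≫ g := by
  rw [Iso.comp_inv_eq, Category.assoc, h, reassoc_of% hc]

/-- The pairs of automorphisms of the model and of `X` which are compatible. -/
def compatGroup {k : Type u} [Field k] {A : Subalgebra ℤ k} {X 𝒳 : Scheme.{u}}
    {s : X ⟶ Spec (.of k)} (π : 𝒳 ⟶ Spec (.of A)) (g : X ⟶ 𝒳)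
    (G : Subgroup (Aut (Over.mk s))) : Subgroup (Aut 𝒳 × Aut (Over.mk s)) where
  carrier := {h | h.2 ∈ G ∧ h.1.hom ≫ π = π ∧ g ≫ h.1.hom = h.2.hom.left ≫ g}
  mul_mem' := by
    rintro ⟨a, γ⟩ ⟨b, δ⟩ ⟨h1, h2, h3⟩ ⟨h4, h5, h6⟩
    refine ⟨G.mul_mem h1 h4, ?_, ?_⟩
    · change (b.hom ≫ a.hom) ≫ π = π
      rw [Category.assoc, h2, h5]
    · change g ≫ b.hom ≫ a.hom = (δ.hom.left ≫ γ.hom.left) ≫ g
      rw [reassoc_of% h6, h3, Category.assoc]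
  one_mem' := by
    refine ⟨G.one_mem, Category.id_comp _, ?_⟩
    change g ≫ 𝟙 _ = 𝟙 _ ≫ g
    rw [Category.comp_id, Category.id_comp]
  inv_mem' := by
    rintro ⟨a, γ⟩ ⟨h1, h2, h3⟩
    refine ⟨G.inv_mem h1, ?_, ?_⟩
    · exact inv_comp_of (X := 𝒳) a h2
    · exact comp_inv_of (X := 𝒳) a γ.hom.left γ.inv.left h3 (by
        rw [← Over.comp_left, γ.inv_hom_id]
        rfl)

theorem closure_saturated {X 𝒳 : Scheme.{u}} (g : X ⟶ 𝒳) (Z : Set X) (O : 𝒳.Opens)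
    (hO : (g ⁻¹' (O : Set 𝒳)) = Zᶜ) : g ⁻¹' (closure (g '' Z)) = Z := by
  apply subset_antisymm
  · intro x hx
    have h1 : closure (g '' Z) ⊆ (O : Set 𝒳)ᶜ := by
      apply closure_minimal _ O.isOpen.isClosed_compl
      rintro _ ⟨z, hz, rfl⟩
      intro hzO
      have h2 : z ∈ g ⁻¹' (O : Set 𝒳) := hzO
      rw [hO] at h2
      exact h2 hz
    by_contra hxZ
    have h2 : x ∈ g ⁻¹' (O : Set 𝒳) := by
      rw [hO]
      exact hxZ
    exact h1 hx h2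
  · intro x hx
    exact subset_closure ⟨x, hx, rfl⟩

/-- The complement of the closure of an image. -/
def complClosure {X 𝒳 : Scheme.{u}} (g : X ⟶ 𝒳) (Z : Set X) : 𝒳.Opens :=
  ⟨(closure (g '' Z))ᶜ, isClosed_closure.isOpen_compl⟩

theorem mem_complClosure_iff_of_stable {X 𝒳 : Scheme.{u}} (g : X ⟶ 𝒳) (Z : Set X) (h : 𝒳 ≅ 𝒳)
    (γ : X ⟶ X) (hgh : g ≫ h.hom = γ ≫ g) (hZ : ∀ z, γ z ∈ Z ↔ z ∈ Z)
    (hγ : Function.Surjective γ) (x : 𝒳) :
    h.hom x ∈ complClosure g Z ↔ x ∈ complClosure g Z := by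
  have himg : h.hom '' (g '' Z) = g '' Z := by
    ext y
    constructor
    · rintro ⟨_, ⟨z, hz, rfl⟩, rfl⟩
      refine ⟨γ z, (hZ z).mpr hz, ?_⟩
      rw [← Scheme.Hom.comp_apply, ← hgh, Scheme.Hom.comp_apply]
    · rintro ⟨z, hz, rfl⟩
      obtain ⟨z', rfl⟩ := hγ z
      refine ⟨g z', ⟨z', (hZ z').mp hz, rfl⟩, ?_⟩
      rw [← Scheme.Hom.comp_apply, hgh, Scheme.Hom.comp_apply]
  have h1 : h.hom '' closure (g '' Z) = closure (g '' Z) := by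
    have := (Scheme.homeoOfIso h).image_closure (g '' Z)
    change h.hom '' closure (g '' Z) = closure (h.hom '' (g '' Z)) at this
    rw [this, himg]
  have h2 : h.hom x ∈ closure (g '' Z) ↔ x ∈ closure (g '' Z) := by
    constructor
    · intro hx
      rw [← h1] at hx
      obtain ⟨x', hx', hxx'⟩ := hx
      have := h.hom.isOpenEmbedding.injective hxx'
      rwa [← this]
    · intro hx
      rw [← h1]
      exact ⟨x, hx, rfl⟩
  exact not_congr h2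

/-- The set swept out by the complement of `U` under a group. -/
def swept {k : Type u} [Field k] {X : Scheme.{u}} {s : X ⟶ Spec (.of k)}
    (G : Subgroup (Aut (Over.mk s))) (U : X.Opens) : Set X :=
  {x : X | ∃ γ ∈ G, ∃ z : X, z ∉ U ∧ γ.hom.left z = x}

theorem swept_stable {k : Type u} [Field k] {X : Scheme.{u}} {s : X ⟶ Spec (.of k)}
    (G : Subgroup (Aut (Over.mk s))) (U : X.Opens) (γ : Aut (Over.mk s)) (hγ : γ ∈ G) (z : X) :
    γ.hom.left z ∈ closure (swept G U) ↔ z ∈ closure (swept G U) := by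
  have key : ∀ δ ∈ G, ∀ z : X, z ∈ closure (swept G U) →
      δ.hom.left z ∈ closure (swept G U) := by
    intro δ hδ z hz
    have h1 := map_mem_closure δ.hom.left.continuous hz (t := swept G U) (by
      rintro _ ⟨ε, hε, z, hz, rfl⟩
      exact ⟨δ * ε, G.mul_mem hδ hε, z, hz, rfl⟩)
    exact h1
  refine ⟨fun h => ?_, key γ hγ z⟩
  have h1 := key γ⁻¹ (G.inv_mem hγ) _ h
  have h2 : (γ⁻¹).hom.left (γ.hom.left z) = z := by
    have h3 : γ.hom.left ≫ (γ⁻¹).hom.left = 𝟙 _ := by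
      have h4 : γ.hom ≫ γ.inv = 𝟙 _ := γ.hom_inv_id
      exact congrArg Over.Hom.left h4
    rw [← Scheme.Hom.comp_apply, h3]
    rfl
  rwa [h2] at h1

theorem arithmeticallySpecial_of_models {k : Type u} [Field k] [CharZero k]
    {X 𝒳 W 𝒲 𝒲₁ : Scheme.{u}} {s : X ⟶ Spec (.of k)} {t : W ⟶ Spec (.of k)} [IsIntegral X]
    {A₁ : Subalgebra ℤ k} (hA₁ : A₁.FG) (B₁ : Idx A₁)
    (π : 𝒳 ⟶ Spec (.of B₁.alg)) [IsSeparated π] [LocallyOfFiniteType π] [QuasiCompact π]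
    (g : X ⟶ 𝒳) (hp : IsPullback g s π (specMap B₁.alg k))
    (ρ : 𝒲 ⟶ Spec (.of B₁.alg)) [IsSeparated ρ] [LocallyOfFiniteType ρ] [QuasiCompact ρ]
    (gw : W ⟶ 𝒲) (hw : IsPullback gw t ρ (specMap B₁.alg k))
    (ρ₁ : 𝒲₁ ⟶ Spec (.of A₁)) (gw₁ : W ⟶ 𝒲₁)
    (q : 𝒲 ⟶ 𝒲₁) (hq : IsPullback q ρ ρ₁ (specA B₁)) (hgwq : gw ≫ q = gw₁)
    (G : Subgroup (Aut (Over.mk s))) (hG : G.FG)
    (U : X.Opens) (hU : ¬ Dense (swept G U))
    (σ : W ⟶ X) (hσ : σ ≫ s = t)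
    (hσU : ∀ w, σ w ∈ U)
    (D : Set W) (hD : Dense D)
    (hDn : ∀ w ∈ D, ∃ (P : Spec (.of (FractionRing A₁)) ⟶ 𝒲₁) (y : Spec (.of k) ⟶ W),
      IsNearIntegral ρ₁ P ∧ y ≫ t = 𝟙 _ ∧
      y ≫ gw₁ = Spec.map (CommRingCat.ofHom (fracToField A₁)) ≫ P ∧ atPt y = w)
    (hDi : ∀ w ∈ D, IsIrreducible (closure {x : X | ∃ γ ∈ G, γ.hom.left (σ w) = x}))
    (hdense : Dense {x : X | ∃ γ ∈ G, ∃ w : W, γ.hom.left (σ w) = x}) :
    ArithmeticallySpecial (U.ι ≫ s) := by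
  have hB := B₁.fg
  have hAn : IsNoetherianRing (CommRingCat.of B₁.alg) :=
    Helper411_AS.isNoetherianRing_of_fg hB
  have hfp : LocallyOfFinitePresentation π :=
    (LocallyOfFinitePresentation.iff_locallyOfFiniteType).mpr inferInstance
  have hsft : LocallyOfFiniteType s := MorphismProperty.of_isPullback hp inferInstance
  have hsqc : QuasiCompact s := MorphismProperty.of_isPullback hp inferInstance
  have hlnX : IsLocallyNoetherian X := LocallyOfFiniteType.isLocallyNoetherian s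
  have hcs : CompactSpace X := QuasiCompact.compactSpace_of_compactSpace s
  have hn : IsNoetherian X := {}
  -- the open subset swept out
  let V : X.Opens := ⟨(closure (swept G U))ᶜ, isClosed_closure.isOpen_compl⟩
  obtain ⟨C₁, hC₁⟩ := exists_ext_group π hp hB G hG
  obtain ⟨C₂, U₂, hU₂⟩ := exists_open π hp hB U (TopologicalSpace.NoetherianSpace.isCompact _)
  obtain ⟨C₃, V₃, hV₃⟩ := exists_open π hp hB V (TopologicalSpace.NoetherianSpace.isCompact _)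
  obtain ⟨C₄, σ₄, hσ₄, hσ₄'⟩ := exists_hom ρ hw hB π (σ ≫ g) (by
    rw [Category.assoc, hp.w, reassoc_of% hσ])
  obtain ⟨C₅, h₁₅, h₂₅⟩ := exists_ge_ge C₁ C₂
  obtain ⟨C₆, h₃₆, h₄₆⟩ := exists_ge_ge C₃ C₄
  obtain ⟨C, h₅, h₆⟩ := exists_ge_ge C₅ C₆
  -- the morphism over larger bases
  have hlift : ∀ E : Idx B₁.alg, ∀ hE : C₄ ≤ E, ∃ τ : bc ρ E ⟶ bc π E,
      τ ≫ bcp π E = bcI ρ hE ≫ σ₄ ∧ τ ≫ bcπ π E = bcπ ρ E := by
    intro E hE
    have w : (bcI ρ hE ≫ σ₄) ≫ π = bcπ ρ E ≫ specA E := by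
      rw [Category.assoc, hσ₄', bcI_bcπ_assoc, specI_specA]
    exact ⟨(bc_isPullback π E).lift _ _ w, IsPullback.lift_fst _ _ _ _,
      IsPullback.lift_snd _ _ _ _⟩
  choose τ hτ₁ hτ₂ using hlift
  have hτg : ∀ E hE, bcg ρ hw E ≫ τ E hE = σ ≫ bcg π hp E := by
    intro E hE
    apply bc_hom_ext
    · rw [Category.assoc, hτ₁, bcg_bcI_assoc, hσ₄, Category.assoc, bcg_bcp]
    · rw [Category.assoc, hτ₂, Category.assoc, bcg_bcπ, bcg_bcπ, reassoc_of% hσ]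
  have hτI : ∀ E hE F (hF : E ≤ F), τ F (hE.trans hF) ≫ bcI π hF = bcI ρ hF ≫ τ E hE := by
    intro E hE F hF
    apply bc_hom_ext
    · rw [Category.assoc, bcI_bcp, hτ₁, Category.assoc, hτ₁, bcI_bcI_assoc]
    · rw [Category.assoc, bcI_bcπ, reassoc_of% (hτ₂ F (hE.trans hF)), Category.assoc, hτ₂,
        bcI_bcπ]
  have hC₄ : C₄ ≤ C := h₄₆.trans h₆
  -- saturation
  have hsatU : ∀ E : Idx B₁.alg, C ≤ E →
      bcg π hp E ⁻¹' (closure (bcg π hp E '' ((U : Set X)ᶜ))) = (U : Set X)ᶜ := by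
    intro E hE
    apply closure_saturated _ _ (bcI π ((h₂₅.trans h₅).trans hE) ⁻¹ᵁ U₂)
    have h1 : bcg π hp E ⁻¹ᵁ (bcI π ((h₂₅.trans h₅).trans hE) ⁻¹ᵁ U₂) = U := by
      rw [← Scheme.Hom.comp_preimage, bcg_bcI, hU₂]
    have h2 := congrArg (fun O : X.Opens => (O : Set X)) h1
    rw [compl_compl]
    exact h2
  have hsatV : ∀ E : Idx B₁.alg, C ≤ E →
      bcg π hp E ⁻¹' (closure (bcg π hp E '' ((V : Set X)ᶜ))) = (V : Set X)ᶜ := by
    intro E hE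
    apply closure_saturated _ _ (bcI π ((h₃₆.trans h₆).trans hE) ⁻¹ᵁ V₃)
    have h1 : bcg π hp E ⁻¹ᵁ (bcI π ((h₃₆.trans h₆).trans hE) ⁻¹ᵁ V₃) = V := by
      rw [← Scheme.Hom.comp_preimage, bcg_bcI, hV₃]
    have h2 := congrArg (fun O : X.Opens => (O : Set X)) h1
    rw [compl_compl]
    exact h2
  -- the morphism to `U` spreads out
  have htop : bcg ρ hw C ⁻¹ᵁ (τ C hC₄ ⁻¹ᵁ complClosure (bcg π hp C) (U : Set X)ᶜ) = ⊤ := by
    rw [← Scheme.Hom.comp_preimage, hτg, eq_top_iff]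
    intro w _
    change bcg π hp C (σ w) ∉ closure _
    intro hmem
    have h1 : σ w ∈ bcg π hp C ⁻¹' (closure (bcg π hp C '' ((U : Set X)ᶜ))) := hmem
    rw [hsatU C le_rfl] at h1
    exact h1 (hσU w)
  obtain ⟨C', hC', htop'⟩ := exists_eq_top ρ hw hB _ htop
  obtain ⟨E, hC'E, hE⟩ := exists_noNewDivisors hA₁ (⟨C'.alg, B₁.le.trans C'.le, C'.fg⟩ : Idx A₁)
  let B : Idx B₁.alg := ⟨E.alg, C'.le.trans hC'E, E.fg⟩
  have hC'B : C' ≤ B := hC'E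
  have hCB : C ≤ B := hC'.trans hC'B
  have hUB : bcg π hp B ⁻¹ᵁ complClosure (bcg π hp B) (U : Set X)ᶜ = U := by
    have h1 := congrArg compl (hsatU B hCB)
    rw [compl_compl] at h1
    exact TopologicalSpace.Opens.ext h1
  have hExt : ∀ γ ∈ G, ∃ h ∈ compatGroup (bcπ π B) (bcg π hp B) G, h.2 = γ := by
    intro γ hγ
    obtain ⟨h, hh, hgh⟩ := Ext.mono π hp (Over.w γ.hom) ((h₁₅.trans h₅).trans hCB) (hC₁ γ hγ)
    exact ⟨(h, γ), ⟨hγ, hh, hgh⟩, rfl⟩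
  have hC₄B : C₄ ≤ B := hC₄.trans hCB
  have hVU : (V : Set X) ⊆ U := by
    intro x hx
    by_contra hxU
    exact hx (subset_closure ⟨1, G.one_mem, x, hxU, rfl⟩)
  have hVne : ∃ x : X, x ∈ V := by
    by_contra hcon
    push Not at hcon
    apply hU
    intro x
    by_contra hx
    exact hcon x hx
  rw [← hUB]
  refine arithmeticallySpecial_of_moving (t := t) B.fg (bcπ π B) (bcg π hp B)
    (bcg_isPullback π hp B) (bcπ ρ B) (bcg ρ hw B) σ hσ (τ B hC₄B) (hτ₂ _ _) (hτg _ _)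
    (complClosure (bcg π hp B) (U : Set X)ᶜ) (complClosure (bcg π hp B) (V : Set X)ᶜ)
    ?_ ?_ ?_ (compatGroup (bcπ π B) (bcg π hp B) G) ?_ ?_ D hD ?_ ?_ ?_
  · intro x hx hx'
    exact hx (closure_mono (Set.image_mono (Set.compl_subset_compl.mpr hVU)) hx')
  · intro w hw'
    have h1 : (bcI ρ hC'B w) ∈ bcI ρ hC' ⁻¹ᵁ (τ C hC₄ ⁻¹ᵁ
        complClosure (bcg π hp C) (U : Set X)ᶜ) := by
      rw [htop']
      trivial
    have h2 : τ C hC₄ (bcI ρ hC' (bcI ρ hC'B w)) ∉ closure (bcg π hp C '' (U : Set X)ᶜ) := h1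
    have h3 : τ C hC₄ (bcI ρ hC' (bcI ρ hC'B w)) = bcI π hCB (τ B hC₄B w) := by
      rw [← Scheme.Hom.comp_apply, ← Scheme.Hom.comp_apply, ← Scheme.Hom.comp_apply,
        bcI_bcI_assoc, hτI C hC₄ B hCB]
    rw [h3] at h2
    apply h2
    have h4 := map_mem_closure (bcI π hCB).continuous hw' (t := bcg π hp C '' (U : Set X)ᶜ) (by
      rintro _ ⟨x, hx, rfl⟩
      refine ⟨x, hx, ?_⟩
      rw [← bcg_bcI π hp hCB, Scheme.Hom.comp_apply])
    exact h4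
  · obtain ⟨x, hx⟩ := hVne
    refine ⟨x, ?_⟩
    intro hmem
    have h1 : x ∈ bcg π hp B ⁻¹' (closure (bcg π hp B '' ((V : Set X)ᶜ))) := hmem
    rw [hsatV B hCB] at h1
    exact h1 hx
  · rintro h ⟨-, h1, h2⟩
    exact ⟨h1, h2⟩
  · rintro h ⟨h0, -, h2⟩ x
    refine mem_complClosure_iff_of_stable _ _ h.1 h.2.hom.left h2 ?_ ?_ x
    · intro z
      exact not_congr (not_congr (swept_stable G U h.2 h0 z))
    · intro z
      refine ⟨(h.2⁻¹).hom.left z, ?_⟩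
      have h3 : (h.2⁻¹).hom.left ≫ h.2.hom.left = 𝟙 _ := by
        have h4 : h.2.inv ≫ h.2.hom = 𝟙 _ := h.2.inv_hom_id
        exact congrArg Over.Hom.left h4
      rw [← Scheme.Hom.comp_apply, h3]
      rfl
  · intro w hwD
    obtain ⟨P, y, hP, hyt, hyP, hyw⟩ := hDn w hwD
    have hqq : IsPullback (bcp ρ B ≫ q) (bcπ ρ B) ρ₁ (Spec.map (CommRingCat.ofHom E.inclA)) := by
      have h1 := (bc_isPullback ρ B).paste_horiz hq
      have h2 : specA B ≫ specA B₁ = Spec.map (CommRingCat.ofHom E.inclA) := by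
        rw [specA, specA, ← Spec.map_comp]
        rfl
      rw [← h2]
      exact h1
    obtain ⟨P', hP', hP'P⟩ := hP.baseChange E.inclA (inclA_injective E) hqq
      (fun r _ hr => hE r hr)
    refine ⟨P', y, hP', hyt, ?_, hyw⟩
    refine comp_eq_of_baseChange E hqq (g := gw₁) ?_ ?_ hP' hP'P y hyt hyP
    · rw [bcg_bcp_assoc, hgwq]
    · exact bcg_bcπ ρ hw B
  · intro w hwD
    have h1 := hDi w hwD
    have h2 : {x : X | ∃ h ∈ compatGroup (bcπ π B) (bcg π hp B) G, h.2.hom.left (σ w) = x} =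
        {x : X | ∃ γ ∈ G, γ.hom.left (σ w) = x} := by
      ext x
      constructor
      · rintro ⟨h, hh, rfl⟩
        exact ⟨h.2, hh.1, rfl⟩
      · rintro ⟨γ, hγ, rfl⟩
        obtain ⟨h, hh, rfl⟩ := hExt γ hγ
        exact ⟨h, hh, rfl⟩
    rw [h2]
    exact h1
  · refine hdense.mono ?_
    rintro _ ⟨γ, hγ, w, rfl⟩
    obtain ⟨h, hh, rfl⟩ := hExt γ hγ
    exact ⟨h, hh, w, rfl⟩

theorem arithmeticallySpecial_of_through {k : Type u} [Field k] [CharZero k]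
    {X : Scheme.{u}} (s : X ⟶ Spec (.of k)) [IsIntegral X] (hAS : ArithmeticallySpecial s)
    (G : Subgroup (Aut (Over.mk s))) (hG : G.FG)
    (U : X.Opens) (hU : ¬ Dense {x : X | ∃ γ ∈ G, ∃ z : X, z ∉ U ∧ γ.hom.left z = x})
    {W : Scheme.{u}} (t : W ⟶ Spec (.of k)) (σ : W ⟶ X) (hσ : σ ≫ s = t)
    (hσU : ∀ w, σ w ∈ U)
    (hWAS : ArithmeticallySpecialThrough t
      {w : W | IsIrreducible (closure {x : X | ∃ γ ∈ G, γ.hom.left (σ w) = x})})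
    (hdense : Dense {x : X | ∃ γ ∈ G, ∃ w : W, γ.hom.left (σ w) = x}) :
    ArithmeticallySpecial (U.ι ≫ s) := by
  obtain ⟨A₀, 𝒳₀, π₀, g₀, hA₀, _, _, _, hp₀, -⟩ := hAS
  obtain ⟨A₁, 𝒲₁, ρ₁, gw₁, hA₁, _, _, _, hw₁, hD⟩ := hWAS
  -- the common base
  let B₀ : Idx A₀ := ⟨A₀ ⊔ A₁, le_sup_left, hA₀.sup hA₁⟩
  let B₁ : Idx A₁ := ⟨A₀ ⊔ A₁, le_sup_right, hA₀.sup hA₁⟩
  refine arithmeticallySpecial_of_models (t := t) hA₁ B₁ (bcπ π₀ B₀) (bcg π₀ hp₀ B₀)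
    (bcg_isPullback π₀ hp₀ B₀) (bcπ ρ₁ B₁) (bcg ρ₁ hw₁ B₁) (bcg_isPullback ρ₁ hw₁ B₁) ρ₁ gw₁
    (bcp ρ₁ B₁) (bc_isPullback ρ₁ B₁) (bcg_bcp ρ₁ hw₁ B₁) G hG U hU σ hσ hσU _ hD ?_ ?_ hdense
  · rintro w ⟨-, P, y, h1, h2, h3, h4⟩
    exact ⟨P, y, h1, h2, h3, h4⟩
  · rintro w ⟨h, -⟩
    exact h

end Pool.Agent.Helper411_AS
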