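import Pool.Agent.Helper411_AS.ValPoly

/-!
# Points at which a small space of functions does not vanish
-/

set_option autoImplicit false

universe u

namespace Pool.Agent.Helper411_AS

variable {K k : Type u} [Field K] [Field k] [Algebra K k]

theorem exists_point_mvPolynomial [IsAlgClosed K] (h : ¬ Function.Surjective (algebraMap K k))
    (m : ℕ) (V : Submodule K (MvPolynomial (Fin m) k)) (hV : V.FG) :
    ∃ Q : Fin m → k, ∀ f ∈ V, f ≠ 0 → MvPolynomial.eval Q f ≠ 0 := by
  induction m with
  | zero =>
    refine ⟨Fin.elim0, fun f _ hf h0 => hf ?_⟩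
    have h1 : f = MvPolynomial.C (MvPolynomial.coeff 0 f) :=
      MvPolynomial.eq_C_of_isEmpty f
    rw [h1, MvPolynomial.eval_C] at h0
    rw [h1, h0, map_zero]
  | succ m ih =>
    classical
    obtain ⟨S, rfl⟩ := hV
    let e := MvPolynomial.finSuccEquiv k m
    let C : Finset (MvPolynomial (Fin m) k) := S.biUnion (fun f => (e f).coeffs)
    let V' : Submodule K (MvPolynomial (Fin m) k) := Submodule.span K (C : Set _)
    have hcoef : ∀ f ∈ Submodule.span K (S : Set (MvPolynomial (Fin (m + 1)) k)),
        ∀ i, (e f).coeff i ∈ V' := by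
      intro f hf
      induction hf using Submodule.span_induction with
      | mem f hf =>
        intro i
        by_cases h0 : (e f).coeff i = 0
        · rw [h0]
          exact V'.zero_mem
        · apply Submodule.subset_span
          simp only [C, Finset.coe_biUnion, Set.mem_iUnion]
          exact ⟨f, hf, Polynomial.coeff_mem_coeffs h0⟩
      | zero =>
        intro i
        rw [map_zero, Polynomial.coeff_zero]
        exact V'.zero_mem
      | add f g _ _ hf hg =>
        intro i
        rw [map_add, Polynomial.coeff_add]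
        exact V'.add_mem (hf i) (hg i)
      | smul c f _ hf =>
        intro i
        have h1 : e (c • f) = c • e f := by
          rw [← algebraMap_smul k c f, map_smul, algebraMap_smul]
        rw [h1, Polynomial.coeff_smul]
        exact V'.smul_mem c (hf i)
    obtain ⟨Q, hQ⟩ := ih V' ⟨C, rfl⟩
    let V'' : Submodule K k := V'.map
      ((MvPolynomial.aeval (R := k) Q).toLinearMap.restrictScalars K)
    have hfd : FiniteDimensional K V' := Module.Finite.iff_fg.mpr ⟨C, rfl⟩
    have hfd' : FiniteDimensional K V'' := inferInstance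
    obtain ⟨q, hq⟩ := exists_good_elt h V''
    refine ⟨Fin.cons q Q, fun f hf hf0 => ?_⟩
    rw [MvPolynomial.eval_eq_eval_mv_eval']
    apply hq
    · intro h0
      apply hf0
      have h1 : e f = 0 := by
        ext1 i
        by_contra hne
        apply hQ _ (hcoef f hf i) hne
        have h2 := congrArg (fun p => p.coeff i) h0
        simpa using h2
      exact (map_eq_zero_iff e e.injective).mp h1
    · intro i
      rw [Polynomial.coeff_map]
      exact ⟨_, hcoef f hf i, rfl⟩

/-- Homomorphisms to an algebraically closed field extend to integral extensions. -/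
theorem exists_extend {B S : Type u} [CommRing B] [CommRing S] [Algebra k B] [Algebra k S]
    [IsAlgClosed k] [Algebra.FiniteType k S] (g : B →ₐ[k] S) (hg : Function.Injective g)
    (hint : g.IsIntegral) (Q : B →ₐ[k] k) : ∃ P : S →ₐ[k] k, P.comp g = Q := by
  let _ : Algebra B S := g.toRingHom.toAlgebra
  have hBS : Algebra.IsIntegral B S := ⟨hint⟩
  have hfs : FaithfulSMul B S := (faithfulSMul_iff_algebraMap_injective B S).mpr hg
  have hker : (RingHom.ker Q).IsMaximal := RingHom.ker_isMaximal_of_surjective Q (by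
    intro a
    exact ⟨algebraMap k B a, Q.commutes a⟩)
  obtain ⟨𝔓, h𝔓, h𝔓Q⟩ := Ideal.exists_ideal_over_maximal_of_isIntegral (S := S) (RingHom.ker Q)
    (by
      rw [(RingHom.injective_iff_ker_eq_bot _).mp (FaithfulSMul.algebraMap_injective B S)]
      exact bot_le)
  let _ : Field (S ⧸ 𝔓) := Ideal.Quotient.field 𝔓
  have hfin : Module.Finite k (S ⧸ 𝔓) := finite_of_finite_type_of_isJacobsonRing k (S ⧸ 𝔓)
  have hbij : Function.Bijective (algebraMap k (S ⧸ 𝔓)) :=
    IsAlgClosed.algebraMap_bijective_of_isIntegral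
  let e : k ≃ₐ[k] (S ⧸ 𝔓) := AlgEquiv.ofBijective (Algebra.ofId k (S ⧸ 𝔓)) hbij
  let P : S →ₐ[k] k := e.symm.toAlgHom.comp (Ideal.Quotient.mkₐ k 𝔓)
  refine ⟨P, ?_⟩
  ext b
  have h1 : b - algebraMap k B (Q b) ∈ RingHom.ker Q := by
    rw [RingHom.mem_ker, map_sub, AlgHom.commutes]
    simp
  have h2 : g (b - algebraMap k B (Q b)) ∈ 𝔓 := by
    rw [← h𝔓Q] at h1
    exact h1
  have h3 : P (g (b - algebraMap k B (Q b))) = 0 := by
    change e.symm (Ideal.Quotient.mk 𝔓 (g (b - algebraMap k B (Q b)))) = 0
    rw [Ideal.Quotient.eq_zero_iff_mem.mpr h2, map_zero]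
  rw [map_sub, map_sub, AlgHom.commutes, AlgHom.commutes, sub_eq_zero] at h3
  exact h3

theorem exists_coeff_of_root {B S k : Type u} [CommRing B] [CommRing S] [IsDomain S] [CommRing k]
    (g : B →+* S) (P : S →+* k) (v : S) (hv : v ≠ 0) (hPv : P v = 0) (p : Polynomial B)
    (hp : p ≠ 0) (hroot : p.eval₂ g v = 0) : ∃ i, p.coeff i ≠ 0 ∧ P (g (p.coeff i)) = 0 := by
  induction hn : p.natDegree using Nat.strong_induction_on generalizing p with
  | _ n ih =>
    have hdec := Polynomial.divX_mul_X_add p
    by_cases h0 : p.coeff 0 = 0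
    · have hd0 : p.divX ≠ 0 := by
        intro h
        rw [h, h0] at hdec
        simp at hdec
        exact hp hdec.symm
      have hlt : p.divX.natDegree < n := by
        rw [← hn]
        rw [Polynomial.natDegree_divX_eq_natDegree_tsub_one]
        have hpos : p.natDegree ≠ 0 := by
          intro h
          rw [Polynomial.eq_C_of_natDegree_eq_zero h, h0, map_zero] at hp
          exact hp rfl
        omega
      have h1 : p.divX.eval₂ g v = 0 := by
        rw [← hdec, h0] at hroot
        simp only [map_zero, add_zero, Polynomial.eval₂_mul, Polynomial.eval₂_X] at hroot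
        exact (mul_eq_zero.mp hroot).resolve_right hv
      obtain ⟨i, hi, hi'⟩ := ih _ hlt p.divX hd0 h1 rfl
      rw [Polynomial.coeff_divX] at hi hi'
      exact ⟨_, hi, hi'⟩
    · refine ⟨0, h0, ?_⟩
      rw [← hdec] at hroot
      simp only [Polynomial.eval₂_add, Polynomial.eval₂_mul, Polynomial.eval₂_X,
        Polynomial.eval₂_C] at hroot
      have h1 := congrArg P hroot
      rw [map_add, map_mul, hPv, mul_zero, zero_add, map_zero] at h1
      exact h1

/-- On a domain of finite type over `k` there is a rational point at which no nonzero element of a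
given finite dimensional `K`-subspace of functions vanishes. -/
theorem exists_point_domain [IsAlgClosed K] [IsAlgClosed k]
    (h : ¬ Function.Surjective (algebraMap K k)) {S : Type u} [CommRing S] [IsDomain S]
    [Algebra k S] [Algebra K S] [IsScalarTower K k S] [Algebra.FiniteType k S]
    (V : Submodule K S) (hV : V.FG) : ∃ P : S →ₐ[k] k, ∀ v ∈ V, v ≠ 0 → P v ≠ 0 := by
  classical
  obtain ⟨m, g, hg, hint⟩ := exists_integral_inj_algHom_of_fg k S
  obtain ⟨r, w, rfl⟩ := Submodule.fg_iff_exists_fin_generating_family.mp hV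
  let G : MvPolynomial (Fin r) (MvPolynomial (Fin m) k) →+* MvPolynomial (Fin r) S :=
    MvPolynomial.map g.toRingHom
  let U : MvPolynomial (Fin r) S := ∑ l, MvPolynomial.X l * MvPolynomial.C (w l)
  have hU : G.IsIntegralElem U := by
    refine Finset.sum_induction _ G.IsIntegralElem (fun a b ha hb => ha.add G hb)
      (RingHom.isIntegralElem_zero G) ?_
    intro l _
    refine RingHom.IsIntegralElem.mul G ?_ ?_
    · have h1 : G (MvPolynomial.X l) = MvPolynomial.X l := MvPolynomial.map_X _ _
      rw [← h1]
      exact G.isIntegralElem_map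
    · obtain ⟨p, hpm, hp⟩ := hint (w l)
      refine ⟨p.map MvPolynomial.C, hpm.map _, ?_⟩
      have h1 : G.comp MvPolynomial.C = MvPolynomial.C.comp g.toRingHom := by
        ext b
        · simp [G]
        · simp [G]
      rw [Polynomial.eval₂_map, h1, ← Polynomial.hom_eval₂]
      have h2 : Polynomial.eval₂ g.toRingHom (w l) p = 0 := hp
      rw [h2, map_zero]
  obtain ⟨p, hpm, hp⟩ := hU
  let C : Finset (MvPolynomial (Fin m) k) := p.coeffs.biUnion
    (fun c => c.support.image (fun d => c.coeff d))
  let V₂ : Submodule K (MvPolynomial (Fin m) k) := Submodule.span K (C : Set _)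
  obtain ⟨Q, hQ⟩ := exists_point_mvPolynomial h m V₂ ⟨C, rfl⟩
  obtain ⟨P, hP⟩ := exists_extend g hg hint (MvPolynomial.aeval Q)
  refine ⟨P, ?_⟩
  intro v hv hv0 hPv
  obtain ⟨c, rfl⟩ := (Submodule.mem_span_range_iff_exists_fun K).mp hv
  let ev : MvPolynomial (Fin r) (MvPolynomial (Fin m) k) →+* MvPolynomial (Fin m) k :=
    MvPolynomial.eval (fun l => algebraMap K _ (c l))
  let evS : MvPolynomial (Fin r) S →+* S := MvPolynomial.eval (fun l => algebraMap K S (c l))
  have hev : evS.comp G = g.toRingHom.comp ev := by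
    apply MvPolynomial.ringHom_ext
    · intro b
      simp [evS, G, ev]
    · intro l
      simp [evS, G, ev, IsScalarTower.algebraMap_apply K k S]
  have hUv : evS U = ∑ l, c l • w l := by
    simp only [U, evS, map_sum, map_mul, MvPolynomial.eval_X, MvPolynomial.eval_C,
      Algebra.smul_def]
  have hroot : (p.map ev).eval₂ g.toRingHom (∑ l, c l • w l) = 0 := by
    rw [Polynomial.eval₂_map, ← hev, ← hUv, ← Polynomial.hom_eval₂, hp, map_zero]
  obtain ⟨i, hi, hi'⟩ := exists_coeff_of_root g.toRingHom P.toRingHom _ hv0 hPv (p.map ev)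
    (hpm.map ev).ne_zero hroot
  rw [Polynomial.coeff_map] at hi hi'
  have hmem : ev (p.coeff i) ∈ V₂ := by
    have hp0 : p.coeff i ≠ 0 := by
      intro h0
      rw [h0, map_zero] at hi
      exact hi rfl
    have h1 : ev (p.coeff i) = _ := MvPolynomial.eval_eq' _ _
    rw [h1]
    apply V₂.sum_mem
    intro d hd
    simp only [← map_pow, ← map_prod]
    rw [mul_comm, ← Algebra.smul_def]
    apply V₂.smul_mem
    apply Submodule.subset_span
    simp only [C, Finset.coe_biUnion, Set.mem_iUnion, Finset.coe_image]
    exact ⟨_, Polynomial.coeff_mem_coeffs hp0, d, hd, rfl⟩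
  apply hQ _ hmem hi
  have h2 : P (g (ev (p.coeff i))) = MvPolynomial.aeval Q (ev (p.coeff i)) := by
    rw [← hP]
    rfl
  have h3 : MvPolynomial.eval Q (ev (p.coeff i)) = MvPolynomial.aeval Q (ev (p.coeff i)) := rfl
  rw [h3, ← h2]
  exact hi'

end Pool.Agent.Helper411_AS
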