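import Pool.Agent.Helper411_AS.Persist

/-!
# Primes of height one of a polynomial ring and the generic points of its fibres
-/

set_option autoImplicit false
set_option linter.unusedSectionVars false

open CategoryTheory AlgebraicGeometry Limits Opposite

universe u

namespace Pool.Agent.Helper411_AS

variable {A B : Type u} [CommRing A] [IsDomain A] [CommRing B] [IsDomain B] (φ : A →+* B) (x : B)
  (e : Polynomial A ≃+* B) (he : ∀ f, e f = f.eval₂ φ x) (q : Ideal B) [q.IsPrime]

include he

theorem comap_comap_C : (q.comap e.toRingHom).comap Polynomial.C = q.comap φ := by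
  ext a
  change e (Polynomial.C a) ∈ q ↔ φ a ∈ q
  rw [he, Polynomial.eval₂_C]

theorem height_comap_phi_le [IsNoetherianRing A] (hq : q.height ≤ 1) :
    (q.comap φ).height ≤ 1 := by
  have h1 : (q.comap e.toRingHom).height = q.height := e.height_comap q
  have h2 := height_comap_le_of_flat (R := A) (S := Polynomial A) (q.comap e.toRingHom)
  have h3 : (q.comap e.toRingHom).comap (algebraMap A (Polynomial A)) = q.comap φ :=
    comap_comap_C φ x e he q
  rw [h3, h1] at h2
  exact h2.trans hq

/-- The primes of height one which lie over a nonzero prime are generated by it. -/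
theorem mem_iff_coeff_mem (hq : q.height ≤ 1) (hp : q.comap φ ≠ ⊥) (f : Polynomial A) :
    e f ∈ q ↔ ∀ i, f.coeff i ∈ q.comap φ := by
  have hprime : ((q.comap φ).map (Polynomial.C : A →+* Polynomial A)).IsPrime := inferInstance
  have hle : (q.comap φ).map (Polynomial.C : A →+* Polynomial A) ≤ q.comap e.toRingHom := by
    rw [Ideal.map_le_iff_le_comap, comap_comap_C φ x e he q]
  have heq : (q.comap φ).map (Polynomial.C : A →+* Polynomial A) = q.comap e.toRingHom := by
    by_contra hne
    have h1 := Ideal.height_add_one_le_of_lt_of_isPrime (lt_of_le_of_ne hle hne)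
    have h2 : (q.comap e.toRingHom).height = q.height := e.height_comap q
    rw [h2] at h1
    have h3 : ((q.comap φ).map (Polynomial.C : A →+* Polynomial A)).height + 1 ≤ 0 + 1 := by
      simpa using h1.trans hq
    have h4 : ((q.comap φ).map (Polynomial.C : A →+* Polynomial A)).height ≤ 0 :=
      (ENat.add_le_add_iff_right (by simp)).mp h3
    have h5 := le_antisymm h4 bot_le
    rw [Ideal.height_eq_zero_iff_eq_bot] at h5
    apply hp
    rw [eq_bot_iff]
    intro a ha
    have h6 : Polynomial.C a ∈ (q.comap φ).map (Polynomial.C : A →+* Polynomial A) :=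
      Ideal.mem_map_of_mem _ ha
    rw [h5, Ideal.mem_bot, Polynomial.C_eq_zero] at h6
    exact h6
  have h1 : e f ∈ q ↔ f ∈ q.comap e.toRingHom := Iff.rfl
  rw [h1, ← heq, Ideal.mem_map_C_iff]

omit he in
instance : IsLocalHom (localMap φ q) := Localization.isLocalHom_localRingHom _ _ _ _

omit he [IsDomain A] [IsDomain B] in
/-- The map of residue fields. -/
noncomputable def resMap : (q.comap φ).ResidueField →+* q.ResidueField :=
  have : IsLocalHom (localMap φ q) := Localization.isLocalHom_localRingHom _ _ _ _
  IsLocalRing.ResidueField.map (localMap φ q)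

theorem resMap_residue (a : Localization.AtPrime (q.comap φ)) :
    resMap φ q (algebraMap _ _ a) = algebraMap _ _ (localMap φ q a) := rfl

theorem resMap_algebraMap (a : A) :
    resMap φ q (algebraMap A _ a) = algebraMap B _ (φ a) := by
  rw [IsScalarTower.algebraMap_apply A (Localization.AtPrime (q.comap φ)),
    resMap_residue φ x e he q, IsScalarTower.algebraMap_apply B (Localization.AtPrime q)]
  congr 1
  exact Localization.localRingHom_to_map _ _ _ rfl a

/-- The residue class of the variable is not a zero of a nonzero polynomial. -/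
theorem eval_resMap_ne_zero (hq : q.height ≤ 1) (hp : q.comap φ ≠ ⊥)
    (f : Polynomial (q.comap φ).ResidueField) (hf : f ≠ 0) :
    f.eval₂ (resMap φ q) (algebraMap B q.ResidueField x) ≠ 0 := by
  obtain ⟨F, hF⟩ := Polynomial.map_surjective
    (algebraMap (Localization.AtPrime (q.comap φ)) (q.comap φ).ResidueField)
    IsLocalRing.residue_surjective f
  obtain ⟨b, hbM, hb⟩ := IsLocalization.integerNormalization_spec (q.comap φ).primeCompl F
  set G := IsLocalization.integerNormalization (q.comap φ).primeCompl F with hG
  have hbq : algebraMap A (q.comap φ).ResidueField b ≠ 0 := by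
    rw [Ne, Ideal.algebraMap_residueField_eq_zero]
    exact hbM
  have hGf : G.map (algebraMap A (q.comap φ).ResidueField) =
      Polynomial.C (algebraMap A (q.comap φ).ResidueField b) * f := by
    have h1 := congrArg (Polynomial.map
      (algebraMap (Localization.AtPrime (q.comap φ)) (q.comap φ).ResidueField)) hb
    rw [Polynomial.map_map, ← IsScalarTower.algebraMap_eq] at h1
    rw [h1, ← hF]
    ext i
    rw [Polynomial.coeff_map, Polynomial.coeff_smul, Polynomial.coeff_C_mul, Polynomial.coeff_map,
      Algebra.smul_def, map_mul, ← IsScalarTower.algebraMap_apply]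
  have hG0 : G.map (algebraMap A (q.comap φ).ResidueField) ≠ 0 := by
    rw [hGf]
    exact mul_ne_zero (by rwa [Ne, Polynomial.C_eq_zero]) hf
  have hGq : e G ∉ q := by
    rw [mem_iff_coeff_mem φ x e he q hq hp]
    intro h
    apply hG0
    ext i
    rw [Polynomial.coeff_map, Polynomial.coeff_zero, Ideal.algebraMap_residueField_eq_zero]
    exact h i
  intro h0
  apply hGq
  rw [← Ideal.algebraMap_residueField_eq_zero (I := q), he]
  have h2 : algebraMap B q.ResidueField (G.eval₂ φ x) =
      (G.map (algebraMap A (q.comap φ).ResidueField)).eval₂ (resMap φ q)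
        (algebraMap B q.ResidueField x) := by
    rw [Polynomial.eval₂_map, Polynomial.hom_eval₂]
    congr 1
    ext a
    exact (resMap_algebraMap φ x e he q a).symm
  rw [h2, hGf, Polynomial.eval₂_mul, h0, mul_zero]

end Pool.Agent.Helper411_AS
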