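import Pool.Agent.Helper411_AS.GoodModel
import Pool.Agent.Helper411_AS.PolyFibre
import Pool.Agent.Helper411_AS.PunctExt
import Pool.Agent.Helper411_AS.Avoid

/-!
# Puncturing after a simple transcendental extension of the base field
-/

set_option autoImplicit false

open CategoryTheory AlgebraicGeometry Limits Opposite

universe u

namespace Pool.Agent.Helper411_AS

theorem eval₂_polyAt {R F F' : Type u} [CommRing R] [CommRing F] [CommRing F'] (χ : R →+* F)
    (ι : F →+* F') (f : MvPolynomial PUnit.{u+1} R) (t : F') :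
    (polyAt χ f).eval₂ ι t = MvPolynomial.eval₂Hom (ι.comp χ) (fun _ : PUnit.{u+1} => t) f := by
  have h : (Polynomial.eval₂RingHom ι t).comp
      (MvPolynomial.eval₂Hom (Polynomial.C.comp χ) (fun _ : PUnit.{u+1} => Polynomial.X)) =
      MvPolynomial.eval₂Hom (ι.comp χ) (fun _ : PUnit.{u+1} => t) := by
    apply MvPolynomial.ringHom_ext
    · intro r
      simp
    · intro i
      simp
  exact congrArg (fun g => g f) h

/-- The points of an affine line over extension fields which do not lie in an open subset are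
zeros of a nonzero polynomial. -/
theorem exists_poly_ext {S : Scheme.{u}} (N : 𝔸(PUnit.{u+1}; S).Opens) {F : Type u} [Field F]
    (x : Spec (.of F) ⟶ S) (z : 𝔸(PUnit.{u+1}; S)) (hz : z ∈ N)
    (hzx : (𝔸(PUnit.{u+1}; S) ↘ S) z = atPt x) :
    ∃ f : Polynomial F, f ≠ 0 ∧ ∀ (F' : Type u) [Field F'] (ι : F →+* F') (t : F'),
      f.eval₂ ι t ≠ 0 → atPt (lin (Spec.map (CommRingCat.ofHom ι) ≫ x) t) ∈ N := by
  obtain ⟨W, hW, hzW, -⟩ := exists_isAffineOpen_mem_and_subset (X := S)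
    (x := (𝔸(PUnit.{u+1}; S) ↘ S) z) (U := ⊤) trivial
  set R := Γ(S, W) with hR
  set j : Spec R ⟶ S := hW.fromSpec with hj
  have hzj : (𝔸(PUnit.{u+1}; S) ↘ S) z ∈ Set.range j := by
    rw [hj, hW.range_fromSpec]
    exact hzW
  obtain ⟨w, hw⟩ := mem_range_chart j z hzj
  have hwN : w ∈ (chart j) ⁻¹ᵁ N := by
    change chart j w ∈ N
    rw [hw]
    exact hz
  obtain ⟨_, ⟨f, rfl⟩, hwf, hfN⟩ :=
    PrimeSpectrum.isTopologicalBasis_basic_opens.exists_subset_of_mem_open hwN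
      ((chart j) ⁻¹ᵁ N).isOpen
  have hv := (MvPolynomial.mem_image_comap_C_basicOpen f
    (PrimeSpectrum.comap (MvPolynomial.C (σ := PUnit.{u+1})) w)).mp ⟨w, hwf, rfl⟩
  obtain ⟨m, hm⟩ := hv
  obtain ⟨x₀, hx₀⟩ : ∃ x₀ : Spec (.of F) ⟶ Spec R, x₀ ≫ j = x :=
    ⟨IsOpenImmersion.lift j x (by
      rintro _ ⟨q, rfl⟩
      rw [apply_eq_atPt, ← hzx]
      exact hzj), IsOpenImmersion.lift_fac _ _ _⟩
  obtain ⟨χ, hχ⟩ : ∃ χ : R ⟶ .of F, Spec.map χ = x₀ := ⟨Spec.preimage x₀, Spec.map_preimage _⟩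
  have hxw : atPt x₀ = Spec.map (CommRingCat.ofHom (MvPolynomial.C (σ := PUnit.{u+1}))) w := by
    apply j.isOpenEmbedding.injective
    have h1 : j (atPt x₀) = atPt x := by rw [← atPt_comp, hx₀]
    have h2 : (𝔸(PUnit.{u+1}; S) ↘ S) (chart j w) =
      j (Spec.map (CommRingCat.ofHom (MvPolynomial.C (σ := PUnit.{u+1}))) w) :=
      congrArg (fun a : Spec (.of (MvPolynomial PUnit.{u+1} R)) ⟶ S => a w) (chart_over j)
    rw [hw, hzx] at h2
    exact h1.trans h2
  have hc : χ.hom (f.coeff m) ≠ 0 := by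
    intro h0
    apply hm
    have h1 : f.coeff m ∈ (atPt x₀ : PrimeSpectrum R).asIdeal := by
      rw [← hχ]
      change χ.hom (f.coeff m) ∈ IsLocalRing.maximalIdeal F
      rw [h0]
      exact Ideal.zero_mem _
    rw [hxw] at h1
    exact h1
  refine ⟨polyAt (F := F) χ.hom f, ?_, ?_⟩
  · intro h0
    apply hc
    have h1 := coeff_polyAt (F := F) χ.hom f m
    rw [h0, Polynomial.coeff_zero] at h1
    exact h1.symm
  · intro F' _ ι t ht
    rw [eval₂_polyAt] at ht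
    have h1 : Spec.map (CommRingCat.ofHom ι) ≫ x =
        Spec.map (χ ≫ CommRingCat.ofHom ι) ≫ j := by
      rw [Spec.map_comp, Category.assoc, hχ, hx₀]
    rw [h1, lin_eq_chart, atPt_comp]
    apply hfN
    change ¬ (MvPolynomial.eval₂Hom (ι.comp χ.hom) (fun _ : PUnit.{u+1} => t) f ∈
      IsLocalRing.maximalIdeal F')
    intro h2
    apply ht
    rw [IsLocalRing.maximalIdeal_eq_bot] at h2
    exact h2

section Lift

variable {R S : Type u} [CommRing R] [IsDomain R] [CommRing S] [IsDomain S] (f : R →+* S)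
  (hf : Function.Injective f)
  {𝒳 𝒳' : Scheme.{u}} {π : 𝒳 ⟶ Spec (.of R)} {π' : 𝒳' ⟶ Spec (.of S)} {q : 𝒳' ⟶ 𝒳}

theorem exists_frac_lift (hq : IsPullback q π' π (Spec.map (CommRingCat.ofHom f)))
    {P : Spec (.of (FractionRing R)) ⟶ 𝒳} (hP : P ≫ π = specMap R (FractionRing R)) :
    ∃ P' : Spec (.of (FractionRing S)) ⟶ 𝒳', P' ≫ π' = specMap S (FractionRing S) ∧
      P' ≫ q = Spec.map (CommRingCat.ofHom (fracMap f hf)) ≫ P := by
  have hw : (Spec.map (CommRingCat.ofHom (fracMap f hf)) ≫ P) ≫ π =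
      specMap S (FractionRing S) ≫ Spec.map (CommRingCat.ofHom f) := by
    rw [Category.assoc, hP, ← Spec.map_comp, ← Spec.map_comp,
      ← CommRingCat.ofHom_comp, ← CommRingCat.ofHom_comp, fracMap_comp]
  exact ⟨hq.lift _ _ hw, hq.lift_snd _ _ hw, hq.lift_fst _ _ hw⟩

theorem exists_local_lift (hq : IsPullback q π' π (Spec.map (CommRingCat.ofHom f)))
    {P : Spec (.of (FractionRing R)) ⟶ 𝒳} {P' : Spec (.of (FractionRing S)) ⟶ 𝒳'}
    (hP' : P' ≫ π' = specMap S (FractionRing S))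
    (hPP' : P' ≫ q = Spec.map (CommRingCat.ofHom (fracMap f hf)) ≫ P)
    (r : Ideal S) [r.IsPrime] (Q : Spec (.of (Localization.AtPrime (r.comap f))) ⟶ 𝒳)
    (hQ : Q ≫ π = specMap R (Localization.AtPrime (r.comap f)))
    (hQP : Spec.map (CommRingCat.ofHom (atPrimeToFrac (r.comap f))) ≫ Q = P) :
    ∃ Q' : Spec (.of (Localization.AtPrime r)) ⟶ 𝒳',
      Q' ≫ π' = specMap S (Localization.AtPrime r) ∧
      Q' ≫ q = Spec.map (CommRingCat.ofHom (localMap f r)) ≫ Q ∧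
      Spec.map (CommRingCat.ofHom (atPrimeToFrac r)) ≫ Q' = P' := by
  have hw' : (Spec.map (CommRingCat.ofHom (localMap f r)) ≫ Q) ≫ π =
      specMap S (Localization.AtPrime r) ≫ Spec.map (CommRingCat.ofHom f) := by
    rw [Category.assoc, hQ, ← Spec.map_comp, ← Spec.map_comp,
      ← CommRingCat.ofHom_comp, ← CommRingCat.ofHom_comp, localMap_comp]
  obtain ⟨Q', hQ'1, hQ'2⟩ : ∃ Q' : Spec (.of (Localization.AtPrime r)) ⟶ 𝒳',
      Q' ≫ q = Spec.map (CommRingCat.ofHom (localMap f r)) ≫ Q ∧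
      Q' ≫ π' = specMap S (Localization.AtPrime r) :=
    ⟨hq.lift _ _ hw', hq.lift_fst _ _ hw', hq.lift_snd _ _ hw'⟩
  refine ⟨Q', hQ'2, hQ'1, ?_⟩
  apply hq.hom_ext
  · rw [Category.assoc, hQ'1, hPP', ← Category.assoc,
      ← Spec.map_comp, ← CommRingCat.ofHom_comp, atPrimeToFrac_localMap,
      CommRingCat.ofHom_comp, Spec.map_comp, Category.assoc, hQP]
  · rw [Category.assoc, hQ'2, hP', ← Spec.map_comp,
      ← CommRingCat.ofHom_comp, atPrimeToFrac_comp]

end Lift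

section Core

variable {K L : Type u} [Field K] [Field L] [Algebra K L]

/-- The morphism to the affine line with constant coordinate `x`. -/
noncomputable def jx {V VL : Scheme.{u}} {R : Type u} [CommRing R] (gL : VL ⟶ V)
    (vL : VL ⟶ Spec (.of R)) (x : R) : VL ⟶ 𝔸(PUnit.{u+1}; V) :=
  AffineSpace.homOfVector gL (fun _ => vL.appTop ((Scheme.ΓSpecIso (.of R)).inv x))

@[reassoc (attr := simp)]
theorem jx_over {V VL : Scheme.{u}} {R : Type u} [CommRing R] (gL : VL ⟶ V)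
    (vL : VL ⟶ Spec (.of R)) (x : R) : jx gL vL x ≫ (𝔸(PUnit.{u+1}; V) ↘ V) = gL :=
  AffineSpace.homOfVector_over _ _

theorem jx_coord {V VL : Scheme.{u}} {R : Type u} [CommRing R] (gL : VL ⟶ V)
    (vL : VL ⟶ Spec (.of R)) (x : R) (i : PUnit.{u+1}) :
    (jx gL vL x).appTop (AffineSpace.coord V i) =
      vL.appTop ((Scheme.ΓSpecIso (.of R)).inv x) :=
  AffineSpace.homOfVector_appTop_coord _ _ _

/-- Points of the affine line obtained from points. -/
theorem comp_jx {V VL : Scheme.{u}} {R S : Type u} [CommRing R] [CommRing S] (gL : VL ⟶ V)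
    (vL : VL ⟶ Spec (.of R)) (x : R) (y : Spec (.of S) ⟶ VL) (ψ : R →+* S)
    (hy : y ≫ vL = Spec.map (CommRingCat.ofHom ψ)) :
    y ≫ jx gL vL x = lin (y ≫ gL) (ψ x) := by
  apply eq_lin
  · rw [Category.assoc, jx_over]
  · rw [Scheme.Hom.comp_appTop, CommRingCat.comp_apply, jx_coord, ← CommRingCat.comp_apply,
      ← Scheme.Hom.comp_appTop, hy, ← CommRingCat.comp_apply, ← Scheme.ΓSpecIso_inv_naturality,
      CommRingCat.comp_apply]
    rfl

/-- Functoriality. -/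
theorem jx_map {V VL 𝒱 𝒱L : Scheme.{u}} {R S : Type u} [CommRing R] [CommRing S]
    (gL : VL ⟶ V) (vL : VL ⟶ Spec (.of S)) (β : 𝒱L ⟶ 𝒱) (ρL : 𝒱L ⟶ Spec (.of R))
    (g : V ⟶ 𝒱) (G : VL ⟶ 𝒱L) (ψ : R →+* S) (x : R)
    (h1 : G ≫ β = gL ≫ g) (h2 : G ≫ ρL = vL ≫ Spec.map (CommRingCat.ofHom ψ)) :
    G ≫ jx β ρL x = jx gL vL (ψ x) ≫ AffineSpace.map PUnit.{u+1} g := by
  apply AffineSpace.hom_ext
  · rw [Category.assoc, jx_over, Category.assoc, AffineSpace.map_over, jx_over_assoc, h1]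
  · intro i
    rw [Scheme.Hom.comp_appTop, CommRingCat.comp_apply, jx_coord, ← CommRingCat.comp_apply,
      ← Scheme.Hom.comp_appTop, h2, Scheme.Hom.comp_appTop, CommRingCat.comp_apply,
      ← CommRingCat.comp_apply (Scheme.ΓSpecIso (.of R)).inv, ← Scheme.ΓSpecIso_inv_naturality,
      CommRingCat.comp_apply, Scheme.Hom.comp_appTop, CommRingCat.comp_apply,
      AffineSpace.map_appTop_coord, jx_coord]
    rfl

end Core

end Pool.Agent.Helper411_AS
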