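import Pool.Agent.Helper411_AS.OneVariable

/-!
# Puncturing after a simple transcendental extension: the core
-/

set_option autoImplicit false

open CategoryTheory AlgebraicGeometry Limits Opposite

universe u

namespace Pool.Agent.Helper411_AS

variable {K L : Type u} [Field K] [Field L] [Algebra K L]

/-- Evaluation of polynomials at `x`. -/
noncomputable def evalX (A : Subalgebra ℤ K) (x : L) : Polynomial A →+* L :=
  Polynomial.eval₂RingHom ((algebraMap K L).comp (algebraMap A K)) x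

theorem evalX_injective (A : Subalgebra ℤ K) {x : L} (hx : Transcendental K x) :
    Function.Injective (evalX A x) := by
  rw [injective_iff_map_eq_zero]
  intro f hf
  have h1 : Polynomial.aeval x (f.map (algebraMap A K)) = 0 := by
    rw [Polynomial.aeval_def, Polynomial.eval₂_map]
    exact hf
  have h2 := (transcendental_iff.mp hx) _ h1
  exact (Polynomial.map_eq_zero_iff (FaithfulSMul.algebraMap_injective A K)).mp h2

/-- The subalgebra generated by `A` and `x`. -/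
noncomputable def adjX (A : Subalgebra ℤ K) (x : L) : Subalgebra ℤ L :=
  (evalX A x).toIntAlgHom.range

theorem adjX_fg (A : Subalgebra ℤ K) (hA : A.FG) (x : L) : (adjX A x).FG := by
  have : Algebra.FiniteType ℤ A := (Subalgebra.fg_iff_finiteType A).mp hA
  have h1 : Algebra.FiniteType ℤ (Polynomial A) := inferInstance
  rw [Subalgebra.fg_iff_finiteType]
  let f : Polynomial A →ₐ[ℤ] adjX A x :=
    { (evalX A x).toIntAlgHom.rangeRestrict.toRingHom with
      commutes' := fun r => by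
        simp
        rfl }
  exact Algebra.FiniteType.of_surjective f
    (evalX A x).toIntAlgHom.rangeRestrict_surjective

/-- The isomorphism with the polynomial ring. -/
noncomputable def adjXEquiv (A : Subalgebra ℤ K) {x : L} (hx : Transcendental K x) :
    Polynomial A ≃+* adjX A x :=
  RingEquiv.ofBijective (evalX A x).toIntAlgHom.rangeRestrict.toRingHom
    ⟨fun _ _ h => evalX_injective A hx (congrArg Subtype.val h),
      (evalX A x).toIntAlgHom.rangeRestrict_surjective⟩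

/-- The inclusion. -/
noncomputable def adjXHom (A : Subalgebra ℤ K) {x : L} (hx : Transcendental K x) :
    A →+* adjX A x := (adjXEquiv A hx).toRingHom.comp Polynomial.C

/-- The element `x`. -/
noncomputable def adjXel (A : Subalgebra ℤ K) {x : L} (hx : Transcendental K x) :
    adjX A x := adjXEquiv A hx Polynomial.X

theorem adjXHom_comp (A : Subalgebra ℤ K) {x : L} (hx : Transcendental K x) :
    (algebraMap (adjX A x) L).comp (adjXHom A hx) =
      (algebraMap K L).comp (algebraMap A K) := by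
  ext a
  change evalX A x (Polynomial.C a) = _
  rw [evalX, Polynomial.coe_eval₂RingHom, Polynomial.eval₂_C]

theorem adjXel_coe (A : Subalgebra ℤ K) {x : L} (hx : Transcendental K x) :
    algebraMap (adjX A x) L (adjXel A hx) = x := by
  change evalX A x Polynomial.X = x
  rw [evalX, Polynomial.coe_eval₂RingHom, Polynomial.eval₂_X]

theorem adjXEquiv_eq (A : Subalgebra ℤ K) {x : L} (hx : Transcendental K x) (f : Polynomial A) :
    adjXEquiv A hx f = f.eval₂ (adjXHom A hx) (adjXel A hx) := by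
  have h : (adjXEquiv A hx).toRingHom =
      Polynomial.eval₂RingHom (adjXHom A hx) (adjXel A hx) := by
    apply Polynomial.ringHom_ext
    · intro a
      change adjXEquiv A hx (Polynomial.C a) = _
      rw [Polynomial.coe_eval₂RingHom, Polynomial.eval₂_C]
      rfl
    · change adjXEquiv A hx Polynomial.X = _
      rw [Polynomial.coe_eval₂RingHom, Polynomial.eval₂_X]
      rfl
  exact congrArg (fun g => g f) h

theorem oneVariable_core {V 𝒱 VL : Scheme.{u}} [IsIntegral VL] {v : V ⟶ Spec (.of K)}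
    {vL : VL ⟶ Spec (.of L)} {gL : VL ⟶ V} (hL : IsPullback gL vL v (specMap K L))
    {A : Subalgebra ℤ K} (hA : A.FG) (ρ : 𝒱 ⟶ Spec (.of A)) [IsSeparated ρ]
    [LocallyOfFiniteType ρ] [QuasiCompact ρ] (gv : V ⟶ 𝒱) (hv : IsPullback gv v ρ (specMap A K))
    (N : 𝔸(PUnit.{u+1}; V).Opens) (𝒩 : 𝔸(PUnit.{u+1}; 𝒱).Opens) (𝒱₀ : 𝒱.Opens)
    (hN : ∀ z : 𝔸(PUnit.{u+1}; V), AffineSpace.map PUnit.{u+1} gv z ∈ 𝒩 ↔ z ∈ N)
    (h0 : ∀ z : 𝔸(PUnit.{u+1}; 𝒱), (𝔸(PUnit.{u+1}; 𝒱) ↘ 𝒱) z ∈ 𝒱₀ → z ∈ 𝒩)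
    (hne : ∃ x : V, gv x ∈ 𝒱₀) (hsurj : ∀ x : 𝒱, x ∈ imL 𝒩)
    (Γ : Set V) (hΓ : Dense Γ)
    (hΓn : ∀ w ∈ Γ, ∃ (P : Spec (.of (FractionRing A)) ⟶ 𝒱) (y : Spec (.of K) ⟶ V),
      IsNearIntegral ρ P ∧ y ≫ v = 𝟙 _ ∧
      y ≫ gv = Spec.map (CommRingCat.ofHom (fracToField A)) ≫ P ∧ atPt y = w)
    (x : L) (hx : Transcendental K x) :
    ArithmeticallySpecial ((jx gL vL x ⁻¹ᵁ N).ι ≫ vL) := by
  have hAn : IsNoetherianRing A := isNoetherianRing_of_fg hA
  let φ := adjXHom A hx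
  have hφ : (algebraMap (adjX A x) L).comp φ = (algebraMap K L).comp (algebraMap A K) :=
    adjXHom_comp A hx
  have hq : IsPullback (pullback.fst ρ (Spec.map (CommRingCat.ofHom φ)))
      (pullback.snd ρ (Spec.map (CommRingCat.ofHom φ))) ρ (Spec.map (CommRingCat.ofHom φ)) :=
    IsPullback.of_hasPullback _ _
  obtain ⟨𝒱B, β, ρB, hβsep, hβft, hβqc, hq⟩ : ∃ (𝒱B : Scheme.{u}) (β : 𝒱B ⟶ 𝒱)
      (ρB : 𝒱B ⟶ Spec (.of (adjX A x))), IsSeparated ρB ∧ LocallyOfFiniteType ρB ∧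
      QuasiCompact ρB ∧ IsPullback β ρB ρ (Spec.map (CommRingCat.ofHom φ)) :=
    ⟨_, _, _, inferInstance, inferInstance, inferInstance, hq⟩
  let G : VL ⟶ 𝒱B := modelMap φ hφ hq hL hv
  have hG1 : G ≫ β = gL ≫ gv := modelMap_q φ hφ hq hL hv
  have hG2 : G ≫ ρB = vL ≫ specMap (adjX A x) L := modelMap_π φ hφ hq hL hv
  have hGj : G ≫ jx β ρB (adjXel A hx) = jx gL vL x ≫ AffineSpace.map PUnit.{u+1} gv := by
    have h1 := jx_map gL vL β ρB gv G (algebraMap (adjX A x) L) (adjXel A hx) hG1 hG2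
    rw [adjXel_coe] at h1
    exact h1
  let O : 𝒱B.Opens := jx β ρB (adjXel A hx) ⁻¹ᵁ 𝒩
  have hO : G ⁻¹ᵁ O = jx gL vL x ⁻¹ᵁ N := by
    ext z
    change jx β ρB (adjXel A hx) (G z) ∈ 𝒩 ↔ jx gL vL x z ∈ N
    rw [← hN, ← Scheme.Hom.comp_apply, hGj, Scheme.Hom.comp_apply]
  rw [← hO]
  apply arithmeticallySpecial_open (adjX_fg A hA x) ρB G (modelMap_isPullback φ hφ hq hL hv) O
  rw [dense_iff_inter_open]
  intro O' hO' hO'ne
  obtain ⟨x₂, hx₂⟩ := hne
  have hsurjF := surjective_of_field hL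
  obtain ⟨z₂, hz₂⟩ := gL.surjective x₂
  have hopen : IsOpen (gL ⁻¹' (gv ⁻¹' (𝒱₀ : Set 𝒱))) :=
    (𝒱₀.isOpen.preimage gv.continuous).preimage gL.continuous
  have hne' : (O' ∩ gL ⁻¹' (gv ⁻¹' (𝒱₀ : Set 𝒱))).Nonempty := by
    refine nonempty_preirreducible_inter hO' hopen hO'ne ⟨z₂, ?_⟩
    change gv (gL z₂) ∈ 𝒱₀
    rw [hz₂]
    exact hx₂
  obtain ⟨w, hwΓ, hw⟩ := dense_ptL hL Γ hΓ _ (hO'.inter hopen) hne'
  obtain ⟨P, y, hP, hyv, hyP, hyw⟩ := hΓn w hwΓ
  obtain ⟨hwO, hwV⟩ := hw y hyv hyw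
  have hPV : atPt P ∈ 𝒱₀ := by
    have h1 : gv (gL (atPt (ptL hL y hyv))) ∈ 𝒱₀ := hwV
    have h2 : gv (gL (atPt (ptL hL y hyv))) = atPt P := by
      rw [← atPt_comp, ← atPt_comp, Category.assoc, ptL_g_assoc, hyP, atPt_comp, apply_eq_atPt,
        atPt_comp, apply_eq_atPt]
    rw [h2] at h1
    exact h1
  obtain ⟨a, ha, hbad⟩ := exists_ne_zero_forall_mem ρ P hP.comp_eq 𝒱₀ hPV
  obtain ⟨P', hP'1, hP'2⟩ := exists_frac_lift φ (phi_injective φ hφ) hq hP.comp_eq
  refine ⟨atPt (ptL hL y hyv), hwO, P', ptL hL y hyv, ⟨hP'1, ?_⟩, ptL_s hL y hyv,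
    ptL_modelMap φ hφ hq hL hv hP'1 hP'2 y hyv hyP, rfl⟩
  intro r hr hr1
  have hcomap : (r.comap φ).height ≤ 1 :=
    height_comap_phi_le φ (adjXel A hx) (adjXEquiv A hx) (adjXEquiv_eq A hx) r hr1.le
  obtain ⟨Q, hQ, hQP⟩ := hP.exists_lift' (r.comap φ) hcomap
  obtain ⟨Q', hQ'1, hQ'2, hQ'3⟩ :=
    exists_local_lift φ (phi_injective φ hφ) hq hP'1 hP'2 r Q hQ hQP
  refine ⟨Q', hQ'1, hQ'3, ?_⟩
  intro q'
  have h3 : q' ⤳ IsLocalRing.closedPoint (Localization.AtPrime r) :=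
    IsLocalRing.specializes_closedPoint q'
  have h4 := h3.map Q'.continuous
  apply h4.mem_open O.isOpen
  have h5 : resPt r ≫ Q' ≫ jx β ρB (adjXel A hx) =
      lin (Spec.map (CommRingCat.ofHom (resMap φ r)) ≫ resPt (r.comap φ) ≫ Q)
        (algebraMap (adjX A x) r.ResidueField (adjXel A hx)) := by
    rw [← Category.assoc, comp_jx β ρB (adjXel A hx) (resPt r ≫ Q')
      (algebraMap (adjX A x) r.ResidueField) ?_]
    · congr 1
      rw [Category.assoc, hQ'2, resPt, resPt, ← Category.assoc, ← Category.assoc,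
        ← Spec.map_comp, ← Spec.map_comp, ← CommRingCat.ofHom_comp, ← CommRingCat.ofHom_comp]
      rfl
    · rw [Category.assoc, hQ'1, resPt, ← Spec.map_comp, ← CommRingCat.ofHom_comp]
      rfl
  have h6 : atPt (resPt r ≫ Q' ≫ jx β ρB (adjXel A hx)) ∈ 𝒩 := by
    rw [h5]
    by_cases hbot : r.comap φ = ⊥
    · apply h0
      rw [← atPt_comp, lin_over, atPt_comp, apply_eq_atPt, atPt_comp]
      apply hbad (r.comap φ) ?_ Q hQ hQP
      rw [hbot]
      exact fun h => ha h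
    · obtain ⟨z, hz, hzx⟩ := hsurj (atPt (resPt (r.comap φ) ≫ Q))
      obtain ⟨f, hf, hfN⟩ := exists_poly_ext 𝒩 (resPt (r.comap φ) ≫ Q) z hz hzx
      apply hfN
      exact eval_resMap_ne_zero φ (adjXel A hx) (adjXEquiv A hx) (adjXEquiv_eq A hx) r hr1.le
        hbot f hf
  rw [atPt_comp, resPt_apply] at h6
  exact h6

end Pool.Agent.Helper411_AS
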