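import Pool.Agent.Helper411_AS.OneVariableCore
import Pool.Agent.Helper411_AS.LinesCodim

/-!
# Puncturing after a simple transcendental extension of the base field
-/

set_option autoImplicit false

open CategoryTheory AlgebraicGeometry Limits Opposite

universe u

namespace Pool.Agent.Helper411_AS

section Codim

/-- Points of coheight at most one have codimension at most one in every closure. -/
theorem codimLE1_of_not_two_le {X : Scheme.{u}} (b w : X) (h : ¬ 2 ≤ Order.coheight w) :
    CodimLE1 b w := by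
  intro a h3 h4
  by_contra h5
  push Not at h5
  apply h
  have h6 : w < a := lt_of_le_not_ge h4 (fun h => h5.2 (h4.antisymm h).eq)
  have h7 : a < b := lt_of_le_not_ge h3 (fun h => by
    have h8 : a ⤳ b := h
    exact h5.1 (h8.antisymm h3).eq)
  have h8 := Order.coheight_add_one_le h7
  have h9 := Order.coheight_add_one_le h6
  have h10 : (1 : ℕ∞) ≤ Order.coheight a := le_trans (by simp) h8
  calc (2 : ℕ∞) = 1 + 1 := by norm_num
    _ ≤ Order.coheight a + 1 := by gcongr
    _ ≤ _ := h9

end Codim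

section Simple

variable {K L : Type u} [Field K] [Field L] [Algebra K L]

/-- The evaluation at `x`. -/
noncomputable def evMv (K : Type u) {L : Type u} [Field K] [Field L] [Algebra K L] (x : L) :
    MvPolynomial PUnit.{u+1} K →+* L :=
  MvPolynomial.eval₂Hom (algebraMap K L) (fun _ : PUnit.{u+1} => x)

theorem jx_field_eq (x : L) : jx (specMap K L) (𝟙 (Spec (.of L))) x =
    Spec.map (CommRingCat.ofHom (evMv K x)) ≫ chart (𝟙 (Spec (.of K))) := by
  have h1 := comp_jx (specMap K L) (𝟙 (Spec (.of L))) x (𝟙 _) (RingHom.id L) (by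
    rw [Category.comp_id]
    exact (Spec.map_id _).symm)
  rw [Category.id_comp, Category.id_comp] at h1
  have h2 := lin_eq_chart (F := .of L) (𝟙 (Spec (.of K))) (CommRingCat.ofHom (algebraMap K L)) x
  rw [Category.comp_id] at h2
  exact h1.trans h2

theorem evMv_injective {x : L} (hx : Transcendental K x) : Function.Injective (evMv K x) := by
  have h1 : AlgebraicIndependent K (fun _ : PUnit.{u+1} => x) :=
    (algebraicIndependent_singleton_iff PUnit.unit).mpr hx
  exact h1

/-- Quotients of polynomials. -/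
def IsSimpleExt (K : Type u) {L : Type u} [Field K] [Field L] [Algebra K L] (x : L) : Prop :=
  ∀ l : L, ∃ p q : MvPolynomial PUnit.{u+1} K, l = evMv K x p / evMv K x q

theorem jx_field_isPreimmersion {x : L} (hx : Transcendental K x) (hgen : IsSimpleExt K x) :
    IsPreimmersion (jx (specMap K L) (𝟙 (Spec (.of L))) x) := by
  rw [jx_field_eq]
  have h1 : IsPreimmersion (Spec.map (CommRingCat.ofHom (evMv K x))) := by
    let _ : Algebra (MvPolynomial PUnit.{u+1} K) L := (evMv K x).toAlgebra
    have h2 : FaithfulSMul (MvPolynomial PUnit.{u+1} K) L :=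
      (faithfulSMul_iff_algebraMap_injective _ _).mpr (evMv_injective hx)
    have h3 : IsFractionRing (MvPolynomial PUnit.{u+1} K) L :=
      IsFractionRing.of_field _ _ hgen
    exact IsPreimmersion.of_isLocalization (nonZeroDivisors (MvPolynomial PUnit.{u+1} K))
  infer_instance

theorem jx_isPreimmersion {X XL : Scheme.{u}} {s : X ⟶ Spec (.of K)} {sL : XL ⟶ Spec (.of L)}
    {gL : XL ⟶ X} (hL : IsPullback gL sL s (specMap K L)) {x : L} (hx : Transcendental K x)
    (hgen : IsSimpleExt K x) : IsPreimmersion (jx gL sL x) := by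
  have h1 := jx_map gL sL (specMap K L) (𝟙 (Spec (.of L))) s sL (RingHom.id L) x hL.w.symm (by
    rw [Category.comp_id]
    have h2 : Spec.map (CommRingCat.ofHom (RingHom.id L)) = 𝟙 _ := Spec.map_id _
    rw [h2, Category.comp_id])
  have h2 : IsPullback (jx gL sL x) sL (AffineSpace.map PUnit.{u+1} s)
      (jx (specMap K L) (𝟙 (Spec (.of L))) x) := by
    refine IsPullback.of_right (h₁₂ := (𝔸(PUnit.{u+1}; X) ↘ X))
      (h₂₂ := (𝔸(PUnit.{u+1}; Spec (.of K)) ↘ Spec (.of K))) (v₁₃ := s) ?_ h1.symm
      (AffineSpace.isPullback_map (n := PUnit.{u+1}) s).flip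
    rw [jx_over, jx_over]
    exact hL
  have h3 := jx_field_isPreimmersion hx hgen
  exact MorphismProperty.of_isPullback h2.flip h3

/-- Puncturing after a simple transcendental extension. -/
theorem punctExt_simple [CharZero K] {x : L} (hx : Transcendental K x)
    (hgen : IsSimpleExt K x) : PunctExt K L := by
  intro X XL s sL gL hL hX hXL hsep hft hqc hAS U hU hUs
  have hj := jx_isPreimmersion hL hx hgen
  have hsLf : LocallyOfFiniteType sL := MorphismProperty.of_isPullback hL inferInstance
  have hsLq : QuasiCompact sL := MorphismProperty.of_isPullback hL inferInstance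
  have hln : IsLocallyNoetherian XL := LocallyOfFiniteType.isLocallyNoetherian sL
  have hcs : CompactSpace XL := QuasiCompact.compactSpace_of_compactSpace sL
  have hn : IsNoetherian XL := {}
  set j := jx gL sL x with hjdef
  have hjo : ∀ z : XL, (𝔸(PUnit.{u+1}; X) ↘ X) (j z) = gL z := by
    intro z
    rw [← Scheme.Hom.comp_apply, hjdef, jx_over]
  have hZ : IsClosed ((U : Set XL)ᶜ) := U.isOpen.isClosed_compl
  have hsat : j ⁻¹' (closure (j '' (U : Set XL)ᶜ)) = (U : Set XL)ᶜ := by
    rw [← j.isEmbedding.toIsInducing.closure_eq_preimage_closure_image, hZ.closure_eq]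
  let N : 𝔸(PUnit.{u+1}; X).Opens := ⟨(closure (j '' (U : Set XL)ᶜ))ᶜ,
    isClosed_closure.isOpen_compl⟩
  have hNc : ∀ z : 𝔸(PUnit.{u+1}; X), z ∉ N → 2 ≤ Order.coheight z := by
    intro z hz
    by_contra hcon
    apply hz
    exact notMem_closure_image j _ hZ (fun w hw => hU w hw) hsat.subset z
      (codimLE1_of_not_two_le _ _ hcon)
  have hNU : ∀ z : XL, j z ∈ N ↔ z ∈ U := by
    intro z
    have h1 := congrArg (fun S : Set XL => z ∈ S) hsat
    have h2 : (j z ∈ closure (j '' (U : Set XL)ᶜ)) ↔ z ∉ U := Iff.of_eq h1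
    change ¬ (j z ∈ closure (j '' (U : Set XL)ᶜ)) ↔ z ∈ U
    rw [h2, not_not]
  have hNs : ∀ x : X, ∃ z : 𝔸(PUnit.{u+1}; X), (𝔸(PUnit.{u+1}; X) ↘ X) z = x ∧ z ∈ N := by
    intro w
    obtain ⟨z, hz, hzU⟩ := hUs w
    exact ⟨j z, (hjo z).trans hz, (hNU z).mpr hzU⟩
  obtain ⟨A, 𝒱, ρ, gv, 𝒩, 𝒱₀, hA, h1, h2, h3, hv, hN, h0, hne, hsurj, hd⟩ :=
    exists_good_model hAS N (not_dense_of_codim N hNc) hNs
  have h4 := oneVariable_core hL hA ρ gv hv N 𝒩 𝒱₀ hN h0 hne hsurj _ hd (fun w hw => hw) x hx
  have h5 : jx gL sL x ⁻¹ᵁ N = U := by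
    ext z
    exact hNU z
  rw [h5] at h4
  exact h4

end Simple

end Pool.Agent.Helper411_AS
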