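import Pool.Agent.Helper411_AS.Colim

/-!
# Spreading out over finitely generated subalgebras of a field
-/

set_option autoImplicit false
set_option linter.unusedVariables false

open CategoryTheory AlgebraicGeometry Limits Opposite

universe u

namespace Pool.Agent.Helper411_AS

variable {k : Type u} [Field k]

/-- The morphism of spectra attached to `A ≤ B`. -/
noncomputable def specA {A : Subalgebra ℤ k} (B : Idx A) :
    Spec (.of B.alg) ⟶ Spec (.of A) := Spec.map (CommRingCat.ofHom B.inclA)

/-- The morphism of spectra attached to `B ≤ C`. -/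
noncomputable def specI {A : Subalgebra ℤ k} {B C : Idx A} (h : B ≤ C) :
    Spec (.of C.alg) ⟶ Spec (.of B.alg) := Spec.map (CommRingCat.ofHom (Idx.incl h))

@[reassoc (attr := simp)]
theorem specI_specA {A : Subalgebra ℤ k} {B C : Idx A} (h : B ≤ C) :
    specI h ≫ specA B = specA C := by
  rw [specI, specA, ← Spec.map_comp]
  rfl

@[reassoc (attr := simp)]
theorem specMap_specI {A : Subalgebra ℤ k} {B C : Idx A} (h : B ≤ C) :
    specMap C.alg k ≫ specI h = specMap B.alg k := by
  rw [specI, ← Spec.map_comp]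
  rfl

@[reassoc (attr := simp)]
theorem specMap_specA {A : Subalgebra ℤ k} (B : Idx A) :
    specMap B.alg k ≫ specA B = specMap A k := by
  rw [specA, ← Spec.map_comp]
  rfl

@[reassoc (attr := simp)]
theorem specI_specI {A : Subalgebra ℤ k} {B C D : Idx A} (h : B ≤ C) (h' : C ≤ D) :
    specI h' ≫ specI h = specI (h.trans h') := by
  rw [specI, specI, ← Spec.map_comp]
  rfl

theorem specI_refl {A : Subalgebra ℤ k} {B : Idx A} (h : B ≤ B) :
    specI h = 𝟙 _ := by
  rw [specI, ← Spec.map_id]
  rfl

/-- The diagram of spectra. -/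
noncomputable def specF (A : Subalgebra ℤ k) : (Idx A)ᵒᵖ ⥤ Scheme.{u} where
  obj B := Spec (.of B.unop.alg)
  map {B C} f := specI (leOfHom f.unop)
  map_id B := specI_refl _
  map_comp f g := (specI_specI _ _).symm

/-- The cone with point `Spec k`. -/
noncomputable def specCone (A : Subalgebra ℤ k) : Cone (specF A) where
  pt := Spec (.of k)
  π :=
    { app := fun B => specMap B.unop.alg k
      naturality := fun B C f =>
        (Category.id_comp _).trans (specMap_specI (leOfHom f.unop)).symm }

noncomputable def specIsLimit {A : Subalgebra ℤ k} (hA : A.FG) : IsLimit (specCone A) := by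
  have h := isLimitOfPreserves Scheme.Spec (ringIsColimit hA).op
  exact h

section BaseChange

variable {A : Subalgebra ℤ k} {𝒳 : Scheme.{u}} (π : 𝒳 ⟶ Spec (.of A))

/-- The base change of `𝒳` to `B`. -/
noncomputable def bc (B : Idx A) : Scheme.{u} := pullback π (specA B)

/-- The structure morphism of the base change. -/
noncomputable def bcπ (B : Idx A) : bc π B ⟶ Spec (.of B.alg) := pullback.snd π (specA B)

/-- The projection of the base change to `𝒳`. -/
noncomputable def bcp (B : Idx A) : bc π B ⟶ 𝒳 := pullback.fst π (specA B)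

theorem bc_isPullback (B : Idx A) : IsPullback (bcp π B) (bcπ π B) π (specA B) :=
  IsPullback.of_hasPullback π (specA B)

theorem bc_w (B : Idx A) : bcp π B ≫ π = bcπ π B ≫ specA B := (bc_isPullback π B).w

theorem bc_hom_ext {B : Idx A} {T : Scheme.{u}} {f f' : T ⟶ bc π B}
    (h : f ≫ bcp π B = f' ≫ bcp π B) (h' : f ≫ bcπ π B = f' ≫ bcπ π B) : f = f' :=
  (bc_isPullback π B).hom_ext h h'

/-- The transition maps between base changes. -/
noncomputable def bcI {B C : Idx A} (h : B ≤ C) : bc π C ⟶ bc π B :=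
  (bc_isPullback π B).lift (bcp π C) (bcπ π C ≫ specI h) (by
    rw [Category.assoc, specI_specA]; exact (bc_isPullback π C).w)

@[reassoc (attr := simp)]
theorem bcI_bcp {B C : Idx A} (h : B ≤ C) : bcI π h ≫ bcp π B = bcp π C :=
  IsPullback.lift_fst _ _ _ _

@[reassoc (attr := simp)]
theorem bcI_bcπ {B C : Idx A} (h : B ≤ C) : bcI π h ≫ bcπ π B = bcπ π C ≫ specI h :=
  IsPullback.lift_snd _ _ _ _

theorem bcI_refl {B : Idx A} (h : B ≤ B) : bcI π h = 𝟙 _ := by
  apply bc_hom_ext
  · rw [bcI_bcp, Category.id_comp]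
  · rw [bcI_bcπ, Category.id_comp, specI_refl, Category.comp_id]

@[reassoc (attr := simp)]
theorem bcI_bcI {B C D : Idx A} (h : B ≤ C) (h' : C ≤ D) :
    bcI π h' ≫ bcI π h = bcI π (h.trans h') := by
  apply bc_hom_ext <;> simp

/-- The diagram of the base changes. -/
noncomputable def bcF : (Idx A)ᵒᵖ ⥤ Scheme.{u} where
  obj B := bc π B.unop
  map f := bcI π (leOfHom f.unop)
  map_id B := bcI_refl _ _
  map_comp f g := (bcI_bcI _ _ _).symm

theorem bcI_isPullback {B C : Idx A} (h : B ≤ C) :
    IsPullback (bcI π h) (bcπ π C) (bcπ π B) (specI h) := by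
  refine IsPullback.of_right (h₁₂ := bcp π B) (h₂₂ := specA B) (v₁₃ := π) ?_
    (bcI_bcπ π h) (bc_isPullback π B)
  rw [bcI_bcp, specI_specA]
  exact bc_isPullback π C

instance {B C : (Idx A)ᵒᵖ} (f : B ⟶ C) : IsAffineHom ((bcF π).map f) := by
  have h := bcI_isPullback π (leOfHom f.unop)
  have : IsAffineHom (specI (leOfHom f.unop)) := by
    unfold specI; infer_instance
  exact MorphismProperty.of_isPullback h.flip this

variable {X : Scheme.{u}} {s : X ⟶ Spec (.of k)} {g : X ⟶ 𝒳}

/-- The map from `X` to the base changes of a model. -/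
noncomputable def bcg (h : IsPullback g s π (specMap A k)) (B : Idx A) : X ⟶ bc π B :=
  (bc_isPullback π B).lift g (s ≫ specMap B.alg k) (by
    rw [Category.assoc, specMap_specA]; exact h.w)

variable (hp : IsPullback g s π (specMap A k))

@[reassoc (attr := simp)]
theorem bcg_bcp (B : Idx A) : bcg π hp B ≫ bcp π B = g := IsPullback.lift_fst _ _ _ _

@[reassoc (attr := simp)]
theorem bcg_bcπ (B : Idx A) : bcg π hp B ≫ bcπ π B = s ≫ specMap B.alg k :=
  IsPullback.lift_snd _ _ _ _

@[reassoc (attr := simp)]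
theorem bcg_bcI {B C : Idx A} (h : B ≤ C) : bcg π hp C ≫ bcI π h = bcg π hp B := by
  apply bc_hom_ext <;> simp

theorem bcg_isPullback (B : Idx A) :
    IsPullback (bcg π hp B) s (bcπ π B) (specMap B.alg k) := by
  refine IsPullback.of_right (h₁₂ := bcp π B) (h₂₂ := specA B) (v₁₃ := π) ?_
    (bcg_bcπ π hp B) (bc_isPullback π B)
  rw [bcg_bcp, specMap_specA]
  exact hp

/-- The cone with point `X`. -/
noncomputable def bcCone : Cone (bcF π) where
  pt := X
  π :=
    { app := fun B => bcg π hp B.unop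
      naturality := fun B C f =>
        (Category.id_comp _).trans (bcg_bcI π hp (leOfHom f.unop)).symm }

/-- The components of a cone. -/
noncomputable def coneApp (t : Cone (bcF π)) (B : Idx A) : t.pt ⟶ bc π B := t.π.app (op B)

@[reassoc (attr := simp)]
theorem coneApp_bcI (t : Cone (bcF π)) {B C : Idx A} (h : B ≤ C) :
    coneApp π t C ≫ bcI π h = coneApp π t B := t.w (homOfLE h).op

/-- The compatible maps to the spectra defined by a cone. -/
noncomputable def conePush (t : Cone (bcF π)) : Cone (specF A) where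
  pt := t.pt
  π :=
    { app := fun B => coneApp π t B.unop ≫ bcπ π B.unop
      naturality := fun B C f => by
        have h : coneApp π t C.unop ≫ bcπ π C.unop =
            (coneApp π t B.unop ≫ bcπ π B.unop) ≫ specI (leOfHom f.unop) := by
          rw [← coneApp_bcI π t (leOfHom f.unop), Category.assoc, Category.assoc, bcI_bcπ]
        exact (Category.id_comp _).trans h }

/-- The induced map to `Spec k`. -/
noncomputable def coneK (hA : A.FG) (t : Cone (bcF π)) : t.pt ⟶ Spec (.of k) :=
  (specIsLimit hA).lift (conePush π t)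

theorem coneK_specMap (hA : A.FG) (t : Cone (bcF π)) (B : Idx A) :
    coneK π hA t ≫ specMap B.alg k = coneApp π t B ≫ bcπ π B :=
  (specIsLimit hA).fac (conePush π t) (op B)

theorem coneK_unique (hA : A.FG) (t : Cone (bcF π)) (m : t.pt ⟶ Spec (.of k))
    (hm : ∀ B : Idx A, m ≫ specMap B.alg k = coneApp π t B ≫ bcπ π B) : m = coneK π hA t :=
  (specIsLimit hA).uniq (conePush π t) m (fun B => hm B.unop)

theorem cone_w (hA : A.FG) (t : Cone (bcF π)) :
    (coneApp π t (Idx.self hA) ≫ bcp π (Idx.self hA)) ≫ π =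
      coneK π hA t ≫ specMap A k := by
  rw [Category.assoc, bc_w, ← Category.assoc, ← coneK_specMap π hA, Category.assoc, specMap_specA]

theorem self_le (hA : A.FG) (B : Idx A) : Idx.self hA ≤ B := B.le

theorem cone_uniq (hA : A.FG) (t : Cone (bcF π)) (m : t.pt ⟶ X)
    (hm : ∀ B : Idx A, m ≫ bcg π hp B = coneApp π t B) :
    m = hp.lift (coneApp π t (Idx.self hA) ≫ bcp π (Idx.self hA)) (coneK π hA t)
      (cone_w π hA t) := by
  apply hp.hom_ext
  · rw [IsPullback.lift_fst, ← hm, Category.assoc, bcg_bcp]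
  · rw [IsPullback.lift_snd]
    apply coneK_unique
    intro B
    have h2 : m ≫ bcg π hp B ≫ bcπ π B = coneApp π t B ≫ bcπ π B := by
      rw [← hm, Category.assoc]
    rw [← h2, bcg_bcπ, Category.assoc]

/-- The scheme `X` is the limit of the base changes of its model. -/
noncomputable def bcIsLimit (hA : A.FG) : IsLimit (bcCone π hp) where
  lift t := hp.lift (coneApp π t (Idx.self hA) ≫ bcp π (Idx.self hA)) (coneK π hA t)
    (cone_w π hA t)
  fac t B := by
    apply bc_hom_ext
    · have h1 : hp.lift (coneApp π t (Idx.self hA) ≫ bcp π (Idx.self hA)) (coneK π hA t)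
          (cone_w π hA t) ≫ bcg π hp B.unop ≫ bcp π B.unop =
          coneApp π t B.unop ≫ bcp π B.unop := by
        rw [bcg_bcp, IsPullback.lift_fst, ← coneApp_bcI π t (self_le hA B.unop), Category.assoc,
          bcI_bcp]
      exact (Category.assoc _ _ _).trans h1
    · have h1 : hp.lift (coneApp π t (Idx.self hA) ≫ bcp π (Idx.self hA)) (coneK π hA t)
          (cone_w π hA t) ≫ bcg π hp B.unop ≫ bcπ π B.unop =
          coneApp π t B.unop ≫ bcπ π B.unop := by
        rw [bcg_bcπ, IsPullback.lift_snd_assoc, coneK_specMap]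
      exact (Category.assoc _ _ _).trans h1
  uniq t m hm := cone_uniq π hp hA t m (fun B => hm (op B))

instance : IsCofilteredOrEmpty (Idx A)ᵒᵖ := inferInstance

theorem isCofiltered_idx (hA : A.FG) : IsCofiltered (Idx A)ᵒᵖ :=
  have : Nonempty (Idx A) := ⟨Idx.self hA⟩
  inferInstance

section Descent

variable [IsSeparated π] [QuasiCompact π]

instance bcπ_isSeparated (B : Idx A) : IsSeparated (bcπ π B) :=
  inferInstanceAs (IsSeparated (pullback.snd π (specA B)))

instance bcπ_quasiCompact (B : Idx A) : QuasiCompact (bcπ π B) :=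
  inferInstanceAs (QuasiCompact (pullback.snd π (specA B)))

instance bcπ_locallyOfFiniteType (B : Idx A) [LocallyOfFiniteType π] :
    LocallyOfFiniteType (bcπ π B) :=
  inferInstanceAs (LocallyOfFiniteType (pullback.snd π (specA B)))

instance bc_compactSpace (B : Idx A) : CompactSpace (bc π B) :=
  QuasiCompact.compactSpace_of_compactSpace (bcπ π B)

instance bc_quasiSeparatedSpace (B : Idx A) : QuasiSeparatedSpace (bc π B) :=
  quasiSeparatedSpace_of_quasiSeparated (bcπ π B)

instance (B : (Idx A)ᵒᵖ) : CompactSpace ((bcF π).obj B) :=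
  inferInstanceAs (CompactSpace (bc π B.unop))

instance (B : (Idx A)ᵒᵖ) : QuasiSeparatedSpace ((bcF π).obj B) :=
  inferInstanceAs (QuasiSeparatedSpace (bc π B.unop))

/-- Quasi-compact open subsets of `X` spread out. -/
theorem exists_open (hA : A.FG) (U : X.Opens) (hU : IsCompact (U : Set X)) :
    ∃ (B : Idx A) (V : (bc π B).Opens), bcg π hp B ⁻¹ᵁ V = U := by
  have := isCofiltered_idx hA
  obtain ⟨B, V, -, hV⟩ := exists_preimage_eq (bcF π) (bcCone π hp) (bcIsLimit π hp hA) U hU
  exact ⟨B.unop, V, hV⟩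

/-- Morphisms spread out. -/
theorem exists_hom (hA : A.FG) {𝒴 : Scheme.{u}} (ρ : 𝒴 ⟶ Spec (.of A))
    [LocallyOfFinitePresentation ρ] (a : X ⟶ 𝒴) (ha : a ≫ ρ = s ≫ specMap A k) :
    ∃ (B : Idx A) (b : bc π B ⟶ 𝒴), bcg π hp B ≫ b = a ∧ b ≫ ρ = bcπ π B ≫ specA B := by
  have := isCofiltered_idx hA
  let t : bcF π ⟶ (Functor.const (Idx A)ᵒᵖ).obj (Spec (.of A)) :=
    { app := fun B => bcπ π B.unop ≫ specA B.unop
      naturality := fun B C f => by
        have h : bcI π (leOfHom f.unop) ≫ bcπ π C.unop ≫ specA C.unop =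
            bcπ π B.unop ≫ specA B.unop := by
          rw [bcI_bcπ_assoc, specI_specA]
        exact h.trans (Category.comp_id _).symm }
  obtain ⟨B, b, h1, h2⟩ := Scheme.exists_π_app_comp_eq_of_locallyOfFinitePresentation
    (bcF π) t ρ (bcCone π hp) (bcIsLimit π hp hA) a (by
      ext B : 2
      have h : bcg π hp B.unop ≫ bcπ π B.unop ≫ specA B.unop = a ≫ ρ := by
        rw [ha, bcg_bcπ_assoc, specMap_specA]
      exact h)
  exact ⟨B.unop, b, h1, h2⟩

/-- Equality of morphisms spreads out. -/
theorem exists_hom_eq (hA : A.FG) {𝒴 : Scheme.{u}} (ρ : 𝒴 ⟶ Spec (.of A))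
    [LocallyOfFiniteType ρ] {B : Idx A} (a b : bc π B ⟶ 𝒴)
    (ha : a ≫ ρ = bcπ π B ≫ specA B) (hb : b ≫ ρ = bcπ π B ≫ specA B)
    (hab : bcg π hp B ≫ a = bcg π hp B ≫ b) :
    ∃ (C : Idx A) (h : B ≤ C), bcI π h ≫ a = bcI π h ≫ b := by
  have := isCofiltered_idx hA
  let t : bcF π ⟶ (Functor.const (Idx A)ᵒᵖ).obj (Spec (.of A)) :=
    { app := fun B => bcπ π B.unop ≫ specA B.unop
      naturality := fun B C f => by
        have h : bcI π (leOfHom f.unop) ≫ bcπ π C.unop ≫ specA C.unop =
            bcπ π B.unop ≫ specA B.unop := by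
          rw [bcI_bcπ_assoc, specI_specA]
        exact h.trans (Category.comp_id _).symm }
  obtain ⟨C, h, hC⟩ := Scheme.exists_hom_comp_eq_comp_of_locallyOfFiniteType
    (bcF π) t ρ (bcCone π hp) (bcIsLimit π hp hA) (i := op B) a b ha.symm hb.symm hab
  exact ⟨C.unop, leOfHom h.unop, hC⟩

end Descent

end BaseChange

end Pool.Agent.Helper411_AS
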