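import Pool.Agent.Helper411_AS.Defs

/-!
# Arithmetically-special through a set of points
-/

set_option autoImplicit false

open CategoryTheory AlgebraicGeometry Limits

universe u

namespace Pool.Agent.Helper411_AS

/-- The scheme `X` over `k` is arithmetically-special through the set `S` of points of `X` if
there are a finitely generated `ℤ`-subalgebra `A` of `k` and a separated model of finite type
`π : 𝒳 ⟶ Spec A` of `X` such that those near-integral points in `𝒳(A)^(1)` which, viewed
inside `X(k)`, belong to `S` are Zariski dense in `X`.  For `S = X` this is the property of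
being arithmetically-special. -/
def ArithmeticallySpecialThrough {k : Type u} [Field k] {X : Scheme.{u}}
    (s : X ⟶ Spec (.of k)) (S : Set X) : Prop :=
  ∃ (A : Subalgebra ℤ k) (𝒳 : Scheme.{u}) (π : 𝒳 ⟶ Spec (.of A)) (g : X ⟶ 𝒳),
    A.FG ∧ IsSeparated π ∧ LocallyOfFiniteType π ∧ QuasiCompact π ∧
    IsPullback g s π (specMap A k) ∧
    Dense {x : X | x ∈ S ∧ ∃ (P : Spec (.of (FractionRing A)) ⟶ 𝒳) (y : Spec (.of k) ⟶ X),
      IsNearIntegral π P ∧ y ≫ s = 𝟙 _ ∧
      y ≫ g = Spec.map (CommRingCat.ofHom (fracToField A)) ≫ P ∧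
      y (IsLocalRing.closedPoint k) = x}

end Pool.Agent.Helper411_AS
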