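import Mathlib

/-!
# Elements which are not roots of polynomials with coefficients in a small subspace
-/

set_option autoImplicit false

universe u

namespace Pool.Agent.Helper411_AS

variable {K k : Type u} [Field K] [Field k] [Algebra K k]

/-- There is a valuation of `k`, trivial on `K` and not trivial on `k`. -/
theorem exists_valuationSubring [IsAlgClosed K] (h : ¬ Function.Surjective (algebraMap K k)) :
    ∃ (O : ValuationSubring k) (x : k), x ≠ 0 ∧ O.valuation x < 1 ∧
      ∀ c : K, c ≠ 0 → O.valuation (algebraMap K k c) = 1 := by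
  rw [Function.Surjective] at h
  push Not at h
  obtain ⟨x, hx⟩ := h
  have htr : Transcendental K x := by
    intro halg
    have h1 : Algebra.IsIntegral K (IntermediateField.adjoin K {x}) := by
      have := IntermediateField.isAlgebraic_adjoin_simple halg.isIntegral
      infer_instance
    obtain ⟨c, hc⟩ := (IsAlgClosed.algebraMap_bijective_of_isIntegral (k := K)
      (K := IntermediateField.adjoin K {x})).2
      (⟨x, IntermediateField.mem_adjoin_simple_self K x⟩ : IntermediateField.adjoin K {x})
    exact hx c (congrArg Subtype.val hc)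
  let A : Subring k := (Algebra.adjoin K {x}).toSubring
  have hxA : x ∈ A := Algebra.subset_adjoin rfl
  have hne : Ideal.span {(⟨x, hxA⟩ : A)} ≠ ⊤ := by
    intro htop
    rw [Ideal.span_singleton_eq_top] at htop
    obtain ⟨⟨y, hyA⟩, hy⟩ := isUnit_iff_exists_inv.mp htop
    have hyA' : y ∈ Algebra.adjoin K {x} := hyA
    rw [Algebra.adjoin_singleton_eq_range_aeval] at hyA'
    obtain ⟨p, hp⟩ := hyA'
    have hp' : Polynomial.aeval x p = y := hp
    have hxy : x * y = 1 := congrArg Subtype.val hy
    have h1 : Polynomial.aeval x (Polynomial.X * p - 1) = 0 := by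
      simp [hp', hxy]
    have h2 := (transcendental_iff.mp htr) _ h1
    have h3 := congrArg (fun f => Polynomial.eval 0 f) h2
    simp at h3
  obtain ⟨O, hAO, hI⟩ := Ideal.image_subset_nonunits_valuationSubring _ hne
  refine ⟨O, x, ?_, ?_, ?_⟩
  · rintro rfl
    exact hx 0 (map_zero _)
  · have h1 : x ∈ O.nonunits := hI ⟨⟨x, hxA⟩, Ideal.mem_span_singleton_self _, rfl⟩
    rwa [ValuationSubring.mem_nonunits_iff] at h1
  · intro c hc
    have hmem : ∀ d : K, O.valuation (algebraMap K k d) ≤ 1 := by
      intro d
      rw [ValuationSubring.valuation_le_one_iff]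
      exact hAO ((Algebra.adjoin K {x}).algebraMap_mem d)
    apply le_antisymm (hmem c)
    have h1 := hmem c⁻¹
    rw [map_inv₀, map_inv₀] at h1
    have h2 : O.valuation (algebraMap K k c) ≠ 0 := by
      rw [Valuation.ne_zero_iff]
      exact (map_ne_zero _).mpr hc
    exact (inv_le_one₀ (zero_lt_iff.mpr h2)).mp h1

section Val

variable {Γ₀ : Type u} [LinearOrderedCommGroupWithZero Γ₀] (v : Valuation k Γ₀)
  (hv : ∀ c : K, c ≠ 0 → v (algebraMap K k c) = 1)

include hv

theorem val_smul (c : K) (hc : c ≠ 0) (y : k) : v (c • y) = v y := by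
  rw [Algebra.smul_def, map_mul, hv c hc, one_mul]

/-- Elements with distinct values are linearly independent. -/
theorem linearIndependent_of_val {ι : Type*} [Fintype ι] (c : ι → k) (hc : ∀ i, c i ≠ 0)
    (hinj : Function.Injective fun i => v (c i)) : LinearIndependent K c := by
  classical
  rw [Fintype.linearIndependent_iff]
  intro g hg
  by_contra hcon
  push Not at hcon
  let s : Finset ι := Finset.univ.filter (fun i => g i ≠ 0)
  have hs : s.Nonempty := by
    obtain ⟨i, hi⟩ := hcon
    exact ⟨i, Finset.mem_filter.mpr ⟨Finset.mem_univ _, hi⟩⟩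
  obtain ⟨i₀, hi₀, hmax⟩ := s.exists_max_image (fun i => v (c i)) hs
  have hgi₀ : g i₀ ≠ 0 := (Finset.mem_filter.mp hi₀).2
  have h1 : v (∑ i ∈ Finset.univ.erase i₀, g i • c i) < v (c i₀) := by
    apply v.map_sum_lt
    · exact (Valuation.ne_zero_iff v).mpr (hc i₀)
    · intro i hi
      by_cases hgi : g i = 0
      · rw [hgi, zero_smul, map_zero]
        exact zero_lt_iff.mpr ((Valuation.ne_zero_iff v).mpr (hc i₀))
      · rw [val_smul v hv _ hgi]
        have h2 := hmax i (Finset.mem_filter.mpr ⟨Finset.mem_univ _, hgi⟩)
        exact lt_of_le_of_ne h2 (fun h => (Finset.mem_erase.mp hi).1 (hinj h))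
  rw [← Finset.add_sum_erase _ _ (Finset.mem_univ i₀)] at hg
  have h2 : ∑ i ∈ Finset.univ.erase i₀, g i • c i = -(g i₀ • c i₀) := by
    rw [eq_neg_iff_add_eq_zero, add_comm]
    exact hg
  rw [h2, Valuation.map_neg, val_smul v hv _ hgi₀] at h1
  exact lt_irrefl _ h1

/-- A finite dimensional subspace has finitely many values. -/
theorem finite_values (V : Submodule K k) [FiniteDimensional K V] :
    {γ : Γ₀ | ∃ c ∈ V, c ≠ 0 ∧ v c = γ}.Finite := by
  by_contra hinf
  obtain ⟨t, htS, ht⟩ := Set.Infinite.exists_subset_card_eq hinf (Module.finrank K V + 1)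
  have h1 : ∀ γ : t, ∃ c ∈ V, c ≠ 0 ∧ v c = (γ : Γ₀) := fun γ => htS γ.2
  choose c hcV hc0 hcγ using h1
  have hinj : Function.Injective fun i => v (c i) := by
    intro i j hij
    have h2 : v (c i) = v (c j) := hij
    rw [hcγ, hcγ] at h2
    exact Subtype.ext h2
  have hli : LinearIndependent K c := linearIndependent_of_val v hv c hc0 hinj
  have hli' : LinearIndependent K (fun i => (⟨c i, hcV i⟩ : V)) := by
    apply LinearIndependent.of_comp V.subtype
    exact hli
  have h3 := hli'.fintype_card_le_finrank
  rw [Fintype.card_coe, ht] at h3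
  omega

/-- A good element. -/
theorem exists_good_of_val {x : k} (hx0 : x ≠ 0) (hx : v x < 1) (V : Submodule K k)
    [FiniteDimensional K V] :
    ∃ q : k, ∀ f : Polynomial k, f ≠ 0 → (∀ i, f.coeff i ∈ V) → f.eval q ≠ 0 := by
  by_cases hV : ∃ c ∈ V, c ≠ 0
  · have hfin := finite_values v hv V
    have hne : {γ : Γ₀ | ∃ c ∈ V, c ≠ 0 ∧ v c = γ}.Nonempty := by
      obtain ⟨c, hc, hc0⟩ := hV
      exact ⟨v c, c, hc, hc0, rfl⟩
    obtain ⟨_, ⟨a, haV, ha0, rfl⟩, hamin⟩ := Set.exists_min_image _ id hfin hne
    obtain ⟨_, ⟨b, hbV, hb0, rfl⟩, hbmax⟩ := Set.exists_max_image _ id hfin hne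
    have hmin : ∀ c ∈ V, c ≠ 0 → v a ≤ v c := fun c hc hc0 => hamin _ ⟨c, hc, hc0, rfl⟩
    have hmax : ∀ c ∈ V, v c ≤ v b := by
      intro c hc
      by_cases hc0 : c = 0
      · rw [hc0, map_zero]
        exact zero_le
      · exact hbmax _ ⟨c, hc, hc0, rfl⟩
    have hva : 0 < v a := zero_lt_iff.mpr ((Valuation.ne_zero_iff v).mpr ha0)
    have hvb : 0 < v b := zero_lt_iff.mpr ((Valuation.ne_zero_iff v).mpr hb0)
    have hvx : 0 < v x := zero_lt_iff.mpr ((Valuation.ne_zero_iff v).mpr hx0)
    have hq0 : x * (a / b) ≠ 0 := mul_ne_zero hx0 (div_ne_zero ha0 hb0)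
    have hqb : v (x * (a / b)) * v b < v a := by
      rw [← map_mul]
      have h1 : x * (a / b) * b = x * a := by
        field_simp
      rw [h1, map_mul]
      calc v x * v a < 1 * v a := by
            exact mul_lt_mul_of_pos_right hx hva
        _ = v a := one_mul _
    have hq1 : v (x * (a / b)) ≤ 1 := by
      by_contra hcon
      push Not at hcon
      have h1 : v b ≤ v (x * (a / b)) * v b := by
        calc v b = 1 * v b := (one_mul _).symm
          _ ≤ v (x * (a / b)) * v b := by gcongr
      exact absurd (h1.trans_lt hqb) (not_lt.mpr (hmax a haV))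
    refine ⟨x * (a / b), ?_⟩
    set q := x * (a / b) with hq
    have hle : ∀ g : Polynomial k, (∀ i, g.coeff i ∈ V) → v (g.eval q) ≤ v b := by
      intro g hg
      rw [Polynomial.eval_eq_sum_range]
      apply v.map_sum_le
      intro i _
      rw [map_mul, map_pow]
      calc v (g.coeff i) * v q ^ i ≤ v b * 1 := by
            gcongr
            · exact hmax _ (hg i)
            · exact pow_le_one₀ zero_le hq1
        _ = v b := mul_one _
    intro f
    induction hn : f.natDegree using Nat.strong_induction_on generalizing f with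
    | _ n ih =>
      intro hf hfV
      have hdec := Polynomial.divX_mul_X_add f
      have hdV : ∀ i, f.divX.coeff i ∈ V := by
        intro i
        rw [Polynomial.coeff_divX]
        exact hfV _
      by_cases h0 : f.coeff 0 = 0
      · have hd0 : f.divX ≠ 0 := by
          intro h
          rw [h, h0] at hdec
          simp at hdec
          exact hf hdec.symm
        have hlt : f.divX.natDegree < n := by
          rw [← hn]
          rw [Polynomial.natDegree_divX_eq_natDegree_tsub_one]
          have hpos : f.natDegree ≠ 0 := by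
            intro h
            rw [Polynomial.eq_C_of_natDegree_eq_zero h, h0, map_zero] at hf
            exact hf rfl
          omega
        have h1 := ih _ hlt f.divX rfl hd0 hdV
        rw [← hdec, h0]
        simp only [map_zero, add_zero, Polynomial.eval_mul, Polynomial.eval_X]
        exact mul_ne_zero h1 hq0
      · intro hev
        rw [← hdec] at hev
        simp only [Polynomial.eval_add, Polynomial.eval_mul, Polynomial.eval_X,
          Polynomial.eval_C] at hev
        have h1 : v (f.divX.eval q * q) < v (f.coeff 0) := by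
          rw [map_mul, mul_comm]
          calc v q * v (f.divX.eval q) ≤ v q * v b := by
                gcongr
                exact hle _ hdV
            _ < v a := hqb
            _ ≤ v (f.coeff 0) := hmin _ (hfV 0) h0
        have h2 : f.divX.eval q * q = -(f.coeff 0) := eq_neg_of_add_eq_zero_left hev
        rw [h2, Valuation.map_neg] at h1
        exact lt_irrefl _ h1
  · push Not at hV
    refine ⟨0, fun f hf hfV => ?_⟩
    exfalso
    apply hf
    ext i
    rw [hV _ (hfV i), Polynomial.coeff_zero]

end Val

/-- An element of `k` which is not a root of any nonzero polynomial with coefficients in a given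
finite dimensional `K`-subspace. -/
theorem exists_good_elt [IsAlgClosed K] (h : ¬ Function.Surjective (algebraMap K k))
    (V : Submodule K k) [FiniteDimensional K V] :
    ∃ q : k, ∀ f : Polynomial k, f ≠ 0 → (∀ i, f.coeff i ∈ V) → f.eval q ≠ 0 := by
  obtain ⟨O, x, hx0, hx, hO⟩ := exists_valuationSubring h
  exact exists_good_of_val O.valuation hO hx0 hx V

end Pool.Agent.Helper411_AS
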